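import Pool.Agent.Lib.MP_2f16e6_an.Space

/-!
Atoms: a subspace of small dimension of a block, supported far to the right, is almost spanned by
few disjointly supported vectors.  Consequences: such subspaces are uniformly Hilbertian
(`lemA`) and uniformly complemented through a Hilbert space (`lemB`).
-/

set_option autoImplicit false

namespace Pool.Agent.JLS

open Finset Filter Topology

/-- an orthonormal family (for the scalar product on `S`) spanning `k` given vectors on `S` -/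
theorem exists_onb (S : Finset ℕ) (k : ℕ) (v : Fin k → ℕ → ℝ) :
    ∃ k' ≤ k, ∃ u : Fin k' → ℕ → ℝ, (∀ a i, i ∉ S → u a i = 0) ∧
      (∀ a b, ∑ i ∈ S, u a i * u b i = if a = b then 1 else 0) ∧
      ∀ j, ∃ c : Fin k' → ℝ, ∀ i ∈ S, v j i = ∑ a, c a * u a i := by
  classical
  let w : Fin k → EuclideanSpace ℝ S := fun j => WithLp.toLp 2 fun i : S => v j i
  let W : Submodule ℝ (EuclideanSpace ℝ S) := Submodule.span ℝ (Set.range w)
  have hW : Module.finrank ℝ W ≤ k := by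
    have h1 := finrank_range_le_card (R := ℝ) w
    rwa [Fintype.card_fin] at h1
  let b := stdOrthonormalBasis ℝ W
  refine ⟨Module.finrank ℝ W, hW,
    fun a i => if h : i ∈ S then (b a : EuclideanSpace ℝ S) ⟨i, h⟩ else 0,
    fun a i hi => dif_neg hi, fun a a' => ?_, fun j => ?_⟩
  · have h1 := orthonormal_iff_ite.1 b.orthonormal a' a
    rw [Submodule.coe_inner, EuclideanSpace.inner_eq_star_dotProduct] at h1
    rw [← sum_coe_sort S]
    simp only [coe_mem, dite_true, Subtype.coe_eta]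
    simp only [star_trivial, dotProduct] at h1
    rw [h1]
    by_cases h : a = a'
    · simp [h]
    · simp [h, Ne.symm h]
  · let x : W := ⟨w j, Submodule.subset_span ⟨j, rfl⟩⟩
    refine ⟨fun a => b.repr x a, fun i hi => ?_⟩
    have h1 := congrArg (fun y : W => (y : EuclideanSpace ℝ S) ⟨i, hi⟩) (b.sum_repr x)
    simp only [dif_pos hi]
    simp only [Submodule.coe_sum, Submodule.coe_smul, WithLp.ofLp_sum, WithLp.ofLp_smul,
      Finset.sum_apply, Pi.smul_apply, smul_eq_mul] at h1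
    rw [h1]

section onb

variable {S : Finset ℕ} {k : ℕ} {u : Fin k → ℕ → ℝ}

theorem onb_coef (hu : ∀ a b, ∑ i ∈ S, u a i * u b i = if a = b then 1 else 0)
    (c : Fin k → ℝ) (b : Fin k) : ∑ i ∈ S, u b i * ∑ a, c a * u a i = c b := by
  simp_rw [mul_sum]
  rw [sum_comm]
  have : ∀ a, ∑ i ∈ S, u b i * (c a * u a i) = c a * if b = a then 1 else 0 := fun a => by
    rw [← hu b a, mul_sum]
    exact sum_congr rfl fun i _ => by ring
  simp [this]

theorem onb_parseval (hu : ∀ a b, ∑ i ∈ S, u a i * u b i = if a = b then 1 else 0)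
    (c : Fin k → ℝ) : ∑ i ∈ S, (∑ a, c a * u a i) ^ 2 = ∑ a, c a ^ 2 := by
  have : ∀ i, (∑ a, c a * u a i) ^ 2 = ∑ b, c b * (u b i * ∑ a, c a * u a i) := fun i => by
    rw [sq, sum_mul]
    exact sum_congr rfl fun b _ => by ring
  simp_rw [this]
  rw [sum_comm]
  refine sum_congr rfl fun b _ => ?_
  rw [← mul_sum, onb_coef hu, sq]

theorem onb_trace (hu : ∀ a b, ∑ i ∈ S, u a i * u b i = if a = b then 1 else 0) :
    ∑ i ∈ S, ∑ a, u a i ^ 2 = k := by
  rw [sum_comm]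
  have : ∀ a, ∑ i ∈ S, u a i ^ 2 = 1 := fun a => by
    have := hu a a
    simpa [sq] using this
  simp [this]

end onb

/-- labels: the directions `(u a i)_a` are rounded to a grid of mesh `1 / M` -/
theorem exists_atoms (k M : ℕ) (hM : 0 < M) (u : Fin k → ℕ → ℝ) :
    ∃ (F : Finset (Fin k → ℤ)) (lab : ℕ → Fin k → ℤ) (ω : (Fin k → ℤ) → Fin k → ℝ) (h : ℕ → ℝ),
      F.card = (2 * M + 1) ^ k ∧ (∀ i, lab i ∈ F) ∧ (∀ i, h i ^ 2 = ∑ a, u a i ^ 2) ∧
      ∀ i a, (u a i - ω (lab i) a * h i) ^ 2 ≤ h i ^ 2 / (M : ℝ) ^ 2 := by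
  classical
  have hM' : (0 : ℝ) < M := by exact_mod_cast hM
  let h : ℕ → ℝ := fun i => √(∑ a, u a i ^ 2)
  have hsq : ∀ i, h i ^ 2 = ∑ a, u a i ^ 2 := fun i =>
    Real.sq_sqrt (sum_nonneg fun _ _ => sq_nonneg _)
  have h0 : ∀ i, 0 ≤ h i := fun i => Real.sqrt_nonneg _
  have hle : ∀ i a, |u a i| ≤ h i := fun i a => by
    apply abs_le_of_sq_le_sq' _ (h0 i) |> abs_le.2
    rw [hsq]
    exact single_le_sum (f := fun a => u a i ^ 2) (fun _ _ => sq_nonneg _) (mem_univ a)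
  refine ⟨Fintype.piFinset fun _ => Icc (-(M : ℤ)) M, fun i a => ⌊M * u a i / h i⌋,
    fun l a => l a / M, h, ?_, fun i => ?_, hsq, fun i a => ?_⟩
  · rw [Fintype.card_piFinset]
    simp only [Int.card_Icc, prod_const, card_univ, Fintype.card_fin]
    congr 1
    omega
  · rw [Fintype.mem_piFinset]
    intro a
    have h1 := abs_le.1 (hle i a)
    rcases (h0 i).eq_or_lt with h2 | h2
    · simp [← h2]
    · rw [mem_Icc]
      constructor
      · rw [Int.le_floor]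
        push_cast
        rw [le_div_iff₀ h2]
        nlinarith [h1.1]
      · apply Int.floor_le_iff.2
        push_cast
        rw [div_lt_iff₀ h2]
        nlinarith [h1.2]
  · rcases (h0 i).eq_or_lt with h2 | h2
    · have h1 := hle i a
      rw [← h2] at h1 ⊢
      have h3 : u a i = 0 := by simpa using h1
      simp [h3]
    · have e1 := Int.floor_le (M * u a i / h i)
      have e2 := Int.lt_floor_add_one (M * u a i / h i)
      have e3 : u a i - (⌊M * u a i / h i⌋ : ℝ) / M * h i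
          = (M * u a i / h i - ⌊M * u a i / h i⌋) * (h i / M) := by
        field_simp
      simp only
      rw [e3, mul_pow, div_pow]
      refine mul_le_of_le_one_left (by positivity) ?_
      nlinarith

/-- a weighted sum of squares of linear functionals is a quadratic form -/
theorem exists_quad {E ι : Type*} [AddCommGroup E] [Module ℝ E] (F : Finset ι) (c : ι → ℝ)
    (f : ι → E →ₗ[ℝ] ℝ) :
    ∃ Q : QuadraticForm ℝ E, ∀ y, Q y = ∑ l ∈ F, c l * f l y ^ 2 :=
  ⟨∑ l ∈ F, c l • QuadraticMap.linMulLin (f l) (f l), fun y => by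
    simp [sq]⟩

/-- the functional `z ↦ ∑ i ∈ A, h i * z i` -/
noncomputable def pairL (A : Finset ℕ) (h : ℕ → ℝ) : (ℕ → ℝ) →ₗ[ℝ] ℝ where
  toFun z := ∑ i ∈ A, h i * z i
  map_add' z w := by simp [mul_add, sum_add_distrib]
  map_smul' c z := by simp [mul_sum, mul_left_comm]

theorem pairL_apply (A : Finset ℕ) (h z : ℕ → ℝ) : pairL A h z = ∑ i ∈ A, h i * z i := rfl

theorem pairL_congr (A : Finset ℕ) (h : ℕ → ℝ) {z w : ℕ → ℝ} (e : ∀ i ∈ A, z i = w i) :
    pairL A h z = pairL A h w :=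
  sum_congr rfl fun i hi => by rw [e i hi]

theorem atoms_bound {k q : ℕ} (hk : k ≤ q) : (2 * ((q + 1) * dd q) + 1) ^ k ≤ atoms q :=
  Nat.pow_le_pow_right (by omega) hk

theorem dd_bound {k q m : ℕ} (hk : k ≤ q) (hm : m ≤ q) :
    (dd m : ℝ) ^ 2 * ((k : ℝ) * k / (((q + 1) * dd q : ℕ) : ℝ) ^ 2) ≤ 1 := by
  have h1 : dd m * k ≤ (q + 1) * dd q := by
    rw [mul_comm]
    exact Nat.mul_le_mul (by omega) (Nat.pow_le_pow_right (by norm_num) (by omega))
  have h2 : (dd m : ℝ) * k ≤ (((q + 1) * dd q : ℕ) : ℝ) := by exact_mod_cast h1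
  have h3 : (0 : ℝ) < (((q + 1) * dd q : ℕ) : ℝ) := by
    have : 0 < (q + 1) * dd q := Nat.mul_pos (by omega) (by unfold dd; positivity)
    exact_mod_cast this
  rw [← mul_div_assoc, div_le_one (by positivity)]
  have h4 : (0 : ℝ) ≤ (dd m : ℝ) * k := by positivity
  nlinarith

namespace Rigid
variable (R : Rigid)

theorem p_sq_add_le (n : ℕ) (g h : ℕ → ℝ) :
    R.p n (g + h) ^ 2 ≤ 2 * R.p n g ^ 2 + 2 * R.p n h ^ 2 := by
  have h1 := pow_le_pow_left₀ (R.p_nonneg n _) (R.add_le n g h) 2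
  nlinarith [sq_nonneg (R.p n g - R.p n h)]

theorem sum_sq_le_p (n : ℕ) {S : Finset ℕ} (hS : S ⊆ R.J n) (g : ℕ → ℝ) :
    ∑ i ∈ S, g i ^ 2 ≤ R.p n g ^ 2 :=
  (sum_le_sum_of_subset_of_nonneg hS fun _ _ _ => sq_nonneg _).trans (R.l2_le n g)

theorem p_sq_le_of_supp (n : ℕ) {S : Finset ℕ} (hS : S ⊆ R.J n) (g : ℕ → ℝ)
    (hg : ∀ i ∈ R.J n, i ∉ S → g i = 0) :
    R.p n g ^ 2 ≤ (dd (R.P n) : ℝ) ^ 2 * ∑ i ∈ S, g i ^ 2 := by
  rw [sum_subset hS fun i hi hi' => by simp [hg i hi hi']]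
  exact R.le_l2 n g

theorem lemA : ∃ C : ℝ, ∀ (n q k : ℕ), R.P n ≤ q → k ≤ q →
    ∀ (E : Type) [AddCommGroup E] [Module ℝ E] (L : E →ₗ[ℝ] (ℕ → ℝ)) (v : Fin k → ℕ → ℝ),
    (∀ y, L y ∈ Submodule.span ℝ (Set.range v)) → (∀ y, ∀ i ∈ R.J n, i < q → L y i = 0) →
    ∃ Q : QuadraticForm ℝ E, ∀ y, R.p n (L y) ^ 2 ≤ Q y ∧ Q y ≤ C ^ 2 * R.p n (L y) ^ 2 := by
  classical
  refine ⟨401, fun n q k hq hk E _ _ L v hv h0 => ?_⟩
  set S := (R.J n).filter (q ≤ ·) with hSdef
  have hS : S ⊆ R.J n := filter_subset _ _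
  obtain ⟨k', hk', u, -, hu, hvu⟩ := exists_onb S k v
  have hM : 0 < (q + 1) * dd q := Nat.mul_pos (by omega) (by unfold dd; positivity)
  obtain ⟨F, lab, ω, h, hF, hlab, hh, happ⟩ := exists_atoms k' _ hM u
  have hcard : F.card ≤ atoms q := hF ▸ atoms_bound (hk'.trans hk)
  set M : ℝ := (((q + 1) * dd q : ℕ) : ℝ)
  let t : Fin k' → E →ₗ[ℝ] ℝ := fun a => pairL S (u a) ∘ₗ L
  have hspan : ∀ w ∈ Submodule.span ℝ (Set.range v), ∃ c : Fin k' → ℝ,
      ∀ i ∈ S, w i = ∑ a, c a * u a i := by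
    intro w hw
    induction hw using Submodule.span_induction with
    | mem x hx => obtain ⟨j, rfl⟩ := hx; exact hvu j
    | zero => exact ⟨0, by simp⟩
    | add x y _ _ hx hy =>
      obtain ⟨c, hc⟩ := hx
      obtain ⟨d, hd⟩ := hy
      exact ⟨c + d, fun i hi => by simp [hc i hi, hd i hi, add_mul, sum_add_distrib]⟩
    | smul r x _ hx =>
      obtain ⟨c, hc⟩ := hx
      exact ⟨r • c, fun i hi => by simp [hc i hi, mul_sum, mul_assoc]⟩
  have hexp : ∀ y, ∀ i ∈ S, L y i = ∑ a, t a y * u a i := by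
    intro y
    obtain ⟨c, hc⟩ := hspan _ (hv y)
    have : ∀ a, t a y = c a := fun a => by
      rw [← onb_coef hu c a]
      change ∑ i ∈ S, u a i * L y i = _
      exact sum_congr rfl fun i hi => by rw [← hc i hi]
    simpa [this] using hc
  let A : (Fin k' → ℤ) → Set ℕ := fun l => {i | i ∈ S ∧ lab i = l}
  have hA1 : ∀ l ∈ F, ∀ i ∈ A l, q ≤ i := fun l _ i hi => (mem_filter.1 hi.1).2
  have hA2 : ∀ l ∈ F, ∀ l' ∈ F, l ≠ l' → Disjoint (A l) (A l') := fun l _ l' _ hne =>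
    Set.disjoint_left.2 fun i hi hi' => hne (hi.2.symm.trans hi'.2)
  let s : (Fin k' → ℤ) → E →ₗ[ℝ] ℝ := fun l => ∑ a, ω l a • t a
  have hs : ∀ l y, s l y = ∑ a, ω l a * t a y := fun l y => by simp [s]
  obtain ⟨Q1, hQ1⟩ := exists_quad F (fun l => 2 * 100 ^ 2 * R.p n (res (A l) h) ^ 2) s
  obtain ⟨Q2, hQ2⟩ := exists_quad univ (fun _ => (2 : ℝ)) t
  refine ⟨Q1 + Q2, fun y => ?_⟩
  let g : ℕ → ℝ := fun i => if i ∈ S then s (lab i) y * h i else 0
  have hres : ∀ l, R.p n (res (A l) g) ^ 2 = R.p n (res (A l) h) ^ 2 * s l y ^ 2 := fun l => by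
    have : res (A l) g = s l y • res (A l) h := by
      funext i
      by_cases hi : i ∈ A l
      · simp only [res, Set.indicator_of_mem hi, g, if_pos hi.1, hi.2, Pi.smul_apply, smul_eq_mul]
      · simp [res, Set.indicator_of_notMem hi]
    rw [this, R.smul_eq, mul_pow, sq_abs, mul_comm]
  have hup := R.upper_few n q _ F A hcard hA1 hA2 g fun i _ hi =>
    ⟨lab i, hlab i, by by_contra hi'; exact hi (if_neg hi'), rfl⟩
  have hlo := R.lower_few n q _ F A hq hcard hA1 hA2 g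
  simp_rw [hres] at hup hlo
  have hT : ∑ a, t a y ^ 2 ≤ R.p n (L y) ^ 2 := by
    rw [← onb_parseval hu]
    refine le_trans (le_of_eq ?_) (R.sum_sq_le_p n hS (L y))
    exact sum_congr rfl fun i hi => by rw [hexp y i hi]
  have herr : R.p n (L y - g) ^ 2 ≤ ∑ a, t a y ^ 2 := by
    have e1 := R.p_sq_le_of_supp n hS (L y - g) fun i hi hi' => by
      have : i < q := by
        by_contra hlt
        exact hi' (mem_filter.2 ⟨hi, not_lt.1 hlt⟩)
      simp [g, hi', h0 y i hi this]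
    have e2 : ∀ i ∈ S, (L y - g) i ^ 2 ≤ (∑ a, t a y ^ 2) * (k' / M ^ 2 * ∑ a, u a i ^ 2) := by
      intro i hi
      have : (L y - g) i = ∑ a, t a y * (u a i - ω (lab i) a * h i) := by
        simp only [Pi.sub_apply, g, if_pos hi, hexp y i hi, hs, sum_mul, ← sum_sub_distrib]
        exact sum_congr rfl fun a _ => by ring
      rw [this]
      refine (sum_mul_sq_le_sq_mul_sq _ _ _).trans
        (mul_le_mul_of_nonneg_left ?_ (sum_nonneg fun _ _ => sq_nonneg _))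
      refine (sum_le_sum fun a _ => happ i a).trans (le_of_eq ?_)
      rw [← hh]
      simp only [sum_const, card_univ, Fintype.card_fin, nsmul_eq_mul]
      ring
    have e3 := sum_le_sum e2
    rw [← mul_sum, ← mul_sum, onb_trace hu] at e3
    have e4 := dd_bound (hk'.trans hk) hq
    have e5 : 0 ≤ ∑ a, t a y ^ 2 := sum_nonneg fun _ _ => sq_nonneg _
    calc R.p n (L y - g) ^ 2
        ≤ (dd (R.P n) : ℝ) ^ 2 * ((∑ a, t a y ^ 2) * (k' / M ^ 2 * k')) :=
          e1.trans (mul_le_mul_of_nonneg_left e3 (sq_nonneg _))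
      _ = ((dd (R.P n) : ℝ) ^ 2 * ((k' : ℝ) * k' / M ^ 2)) * ∑ a, t a y ^ 2 := by ring
      _ ≤ ∑ a, t a y ^ 2 := mul_le_of_le_one_left e5 e4
  have e6 := R.p_sq_add_le n g (L y - g)
  have e7 := R.p_sq_add_le n (L y) (g - L y)
  rw [add_sub_cancel] at e6 e7
  have e8 : R.p n (g - L y) = R.p n (L y - g) := R.p_congr n fun i _ => abs_sub_comm _ _
  rw [e8] at e7
  have e9 : Q1 y = 2 * 100 ^ 2 * ∑ l ∈ F, R.p n (res (A l) h) ^ 2 * s l y ^ 2 := by
    rw [hQ1, mul_sum]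
    exact sum_congr rfl fun l _ => by ring
  rw [add_apply, e9, hQ2, ← mul_sum]
  constructor
  · linarith
  · nlinarith [sq_nonneg (R.p n (L y))]

/-- an almost norming vector for a functional supported in `A` -/
theorem exists_norming (n : ℕ) (A : Finset ℕ) (hA : A ⊆ R.J n) (h : ℕ → ℝ) :
    ∃ (ψ : ℕ → ℝ) (c : ℝ), (∀ i, i ∉ A → ψ i = 0) ∧ R.p n ψ ≤ 1 ∧
      (∀ z, c * pairL A h z * pairL A h ψ = pairL A h z) ∧
      ∀ z, |c * pairL A h z| ≤ 2 * R.p n (res A z) := by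
  classical
  by_cases h0 : ∀ z, pairL A h z = 0
  · refine ⟨0, 0, fun _ _ => rfl, by rw [R.p_zero]; norm_num, fun z => by simp [h0], fun z => ?_⟩
    simpa using R.p_nonneg n _
  push Not at h0
  obtain ⟨z1, hz1⟩ := h0
  have hcoord : ∀ z : ℕ → ℝ, ∀ i ∈ A, |z i| ≤ R.p n (res A z) := fun z i hi => by
    have := R.abs_le_p n (res A z) (hA hi)
    rwa [res, Set.indicator_of_mem (mem_coe.2 hi)] at this
  let T : Set ℝ := {x | ∃ z, R.p n (res A z) ≤ 1 ∧ pairL A h z = x}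
  have hbdd : BddAbove T := by
    refine ⟨∑ i ∈ A, |h i|, ?_⟩
    rintro _ ⟨z, hz, rfl⟩
    refine sum_le_sum fun i hi => (le_abs_self _).trans ?_
    rw [abs_mul]
    exact mul_le_of_le_one_right (abs_nonneg _) ((hcoord z i hi).trans hz)
  have hne : T.Nonempty := ⟨0, 0, by
    rw [show res (A : Set ℕ) 0 = 0 from Set.indicator_zero' _, R.p_zero]; norm_num, map_zero _⟩
  have hsm : ∀ (c : ℝ) (z : ℕ → ℝ), R.p n (res A (c • z)) = |c| * R.p n (res A z) := fun c z => by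
    rw [← R.smul_eq]
    congr 1
    funext i
    by_cases hi : i ∈ (A : Set ℕ)
    · simp [res, Set.indicator_of_mem hi]
    · simp [res, Set.indicator_of_notMem hi]
  have hkey : ∀ z, pairL A h z ≤ sSup T * R.p n (res A z) := fun z => by
    rcases (R.p_nonneg n (res A z)).eq_or_lt with h2 | h2
    · rw [← h2, mul_zero, pairL_apply]
      refine le_of_eq (sum_eq_zero fun i hi => ?_)
      have := hcoord z i hi
      rw [← h2] at this
      have h3 : z i = 0 := by simpa using this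
      simp [h3]
    · have hm : pairL A h ((R.p n (res A z))⁻¹ • z) ∈ T :=
        ⟨_, by rw [hsm, abs_of_pos (inv_pos.2 h2), inv_mul_cancel₀ h2.ne'], rfl⟩
      have := le_csSup hbdd hm
      rw [map_smul, smul_eq_mul, inv_mul_le_iff₀ h2] at this
      linarith
  have habs : ∀ z, |pairL A h z| ≤ sSup T * R.p n (res A z) := fun z => by
    have h1 := hkey ((-1 : ℝ) • z)
    rw [hsm, map_smul] at h1
    simp only [smul_eq_mul, abs_neg, abs_one, one_mul] at h1
    exact abs_le.2 ⟨by linarith, hkey z⟩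
  have hpos : 0 < sSup T := by
    have h1 := (abs_pos.2 hz1).trans_le (habs z1)
    exact (pos_iff_pos_of_mul_pos h1).2 (lt_of_le_of_ne (R.p_nonneg n _) fun h2 => by
      rw [← h2] at h1; simp at h1)
  obtain ⟨_, ⟨z0, hz0, rfl⟩, hlt⟩ := exists_lt_of_lt_csSup hne (half_lt_self hpos)
  have hκ : 0 < pairL A h z0 := (half_pos hpos).trans hlt
  have hψ : pairL A h (res A z0) = pairL A h z0 :=
    pairL_congr A h fun i hi => Set.indicator_of_mem (mem_coe.2 hi) _
  refine ⟨res A z0, (pairL A h z0)⁻¹, fun i hi => Set.indicator_of_notMem (by simpa using hi) _,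
    hz0, fun z => ?_, fun z => ?_⟩
  · rw [hψ]
    field_simp
  · rw [abs_mul, abs_of_pos (inv_pos.2 hκ), inv_mul_le_iff₀ hκ]
    have := habs z
    nlinarith [R.p_nonneg n (res A z)]

theorem lemB : ∃ C : ℝ, ∀ (n q k : ℕ), R.P n ≤ q → k ≤ q → ∀ S : Finset ℕ, S ⊆ R.J n →
    (∀ i ∈ S, q ≤ i) → ∀ φ : Fin k → ℕ → ℝ,
    ∃ (Pr : (ℕ → ℝ) →ₗ[ℝ] (ℕ → ℝ)) (Q : QuadraticForm ℝ (ℕ → ℝ)),
      (∀ g i, i ∉ S → Pr g i = 0) ∧ (∀ g, Pr g = Pr (res S g)) ∧
      (∀ j g, ∑ i ∈ S, φ j i * Pr g i = ∑ i ∈ S, φ j i * g i) ∧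
      ∀ g, R.p n (Pr g) ^ 2 ≤ Q g ∧ Q g ≤ C ^ 2 * R.p n (res S g) ^ 2 := by
  classical
  refine ⟨700, fun n q k hq hk S hS hSq φ => ?_⟩
  obtain ⟨k', hk', u, hu0, hu, hvu⟩ := exists_onb S k φ
  have hM : 0 < (q + 1) * dd q := Nat.mul_pos (by omega) (by unfold dd; positivity)
  obtain ⟨F, lab, ω, h, hF, hlab, hh, happ⟩ := exists_atoms k' _ hM u
  have hcard : F.card ≤ atoms q := hF ▸ atoms_bound (hk'.trans hk)
  set M : ℝ := (((q + 1) * dd q : ℕ) : ℝ)
  let A : (Fin k' → ℤ) → Finset ℕ := fun l => S.filter fun i => lab i = l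
  have hAS : ∀ l, A l ⊆ S := fun l => filter_subset _ _
  have hmem : ∀ l i, i ∈ A l ↔ i ∈ S ∧ lab i = l := fun l i => mem_filter
  have hA1 : ∀ l ∈ F, ∀ i ∈ (A l : Set ℕ), q ≤ i := fun l _ i hi => hSq i (hAS l hi)
  have hA2 : ∀ l ∈ F, ∀ l' ∈ F, l ≠ l' → Disjoint (A l : Set ℕ) (A l') := fun l _ l' _ hne =>
    Set.disjoint_left.2 fun i hi hi' => hne (((hmem l i).1 hi).2.symm.trans ((hmem l' i).1 hi').2)
  choose ψ c hψ0 hψ1 hψ2 hψ3 using fun l => R.exists_norming n (A l) ((hAS l).trans hS) h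
  let θ : (Fin k' → ℤ) → (ℕ → ℝ) →ₗ[ℝ] ℝ := fun l => c l • pairL (A l) h
  have hθ : ∀ l z, θ l z = c l * pairL (A l) h z := fun l z => rfl
  let P0 : (ℕ → ℝ) →ₗ[ℝ] (ℕ → ℝ) := ∑ l ∈ F, (θ l).smulRight (ψ l)
  have hP0 : ∀ z i, P0 z i = ∑ l ∈ F, θ l z * ψ l i := fun z i => by
    simp [P0, Finset.sum_apply]
  have hP0S : ∀ z i, i ∉ S → P0 z i = 0 := fun z i hi => by
    rw [hP0]
    exact sum_eq_zero fun l _ => by rw [hψ0 l i fun h' => hi (hAS l h'), mul_zero]
  have hP0A : ∀ z, ∀ l ∈ F, ∀ i ∈ A l, P0 z i = θ l z * ψ l i := fun z l hl i hi => by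
    rw [hP0]
    refine sum_eq_single_of_mem l hl fun l' _ hne => ?_
    rw [hψ0 l' i fun h' => hne (((hmem l' i).1 h').2.symm.trans ((hmem l i).1 hi).2), mul_zero]
  let γ : Fin k' → (ℕ → ℝ) →ₗ[ℝ] ℝ := fun a => pairL S (u a) ∘ₗ (LinearMap.id - P0)
  have hγ : ∀ a z, γ a z = ∑ i ∈ S, u a i * (z i - P0 z i) := fun a z => rfl
  let P1 : (ℕ → ℝ) →ₗ[ℝ] (ℕ → ℝ) := ∑ a, (γ a).smulRight (u a)
  have hP1 : ∀ z i, P1 z i = ∑ a, γ a z * u a i := fun z i => by
    simp [P1, Finset.sum_apply]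
  have hP1S : ∀ z i, i ∉ S → P1 z i = 0 := fun z i hi => by
    rw [hP1]
    exact sum_eq_zero fun a _ => by rw [hu0 a i hi, mul_zero]
  obtain ⟨Q1, hQ1⟩ := exists_quad F (fun _ => (2 * 100 ^ 2 : ℝ)) θ
  obtain ⟨Q2, hQ2⟩ := exists_quad univ (fun _ => 2 * (dd (R.P n) : ℝ) ^ 2) γ
  refine ⟨P0 + P1, Q1 + Q2, fun g i hi => ?_, fun g => ?_, fun j g => ?_, fun g => ?_⟩
  · simp [hP0S g i hi, hP1S g i hi]
  · have e1 : ∀ l, θ l g = θ l (res S g) := fun l => by
      rw [hθ, hθ, pairL_congr (A l) h (z := g) (w := res S g) fun i hi =>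
        (Set.indicator_of_mem (mem_coe.2 (hAS l hi)) _).symm]
    have e2 : P0 g = P0 (res S g) := funext fun i => by
      rw [hP0, hP0]
      exact sum_congr rfl fun l _ => by rw [e1 l]
    have e3 : ∀ a, γ a g = γ a (res S g) := fun a => by
      rw [hγ, hγ, ← e2]
      exact sum_congr rfl fun i hi => by rw [res, Set.indicator_of_mem (mem_coe.2 hi)]
    have e4 : P1 g = P1 (res S g) := funext fun i => by
      rw [hP1, hP1]
      exact sum_congr rfl fun a _ => by rw [e3 a]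
    rw [LinearMap.add_apply, LinearMap.add_apply, ← e2, ← e4]
  · obtain ⟨d, hd⟩ := hvu j
    have e1 : ∀ b, ∑ i ∈ S, u b i * (P0 + P1) g i = ∑ i ∈ S, u b i * g i := fun b => by
      simp only [LinearMap.add_apply, Pi.add_apply, mul_add, sum_add_distrib, hP1]
      rw [onb_coef hu, hγ, ← sum_add_distrib]
      exact sum_congr rfl fun i _ => by ring
    have e2 : ∀ z : ℕ → ℝ, ∑ i ∈ S, φ j i * z i = ∑ b, d b * ∑ i ∈ S, u b i * z i := fun z => by
      simp_rw [mul_sum]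
      rw [sum_comm]
      refine sum_congr rfl fun i hi => ?_
      rw [hd i hi, sum_mul]
      exact sum_congr rfl fun b _ => by ring
    rw [e2, e2]
    exact sum_congr rfl fun b _ => by rw [e1 b]
  · have hup := R.upper_few n q _ F (fun l => (A l : Set ℕ)) hcard hA1 hA2 (P0 g) fun i _ hi =>
      ⟨lab i, hlab i, mem_coe.2 ((hmem _ i).2 ⟨by by_contra hi'; exact hi (hP0S g i hi'), rfl⟩)⟩
    have hlo := R.lower_few n q _ F (fun l => (A l : Set ℕ)) hq hcard hA1 hA2 (res S g)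
    have e1 : ∑ l ∈ F, R.p n (res (A l) (P0 g)) ^ 2 ≤ ∑ l ∈ F, θ l g ^ 2 := by
      refine sum_le_sum fun l hl => ?_
      have : res (A l) (P0 g) = θ l g • ψ l := by
        funext i
        by_cases hi : i ∈ A l
        · rw [res, Set.indicator_of_mem (mem_coe.2 hi), hP0A g l hl i hi]
          rfl
        · rw [res, Set.indicator_of_notMem (fun h' => hi (mem_coe.1 h'))]
          simp [hψ0 l i hi]
      rw [this, R.smul_eq, mul_pow, sq_abs]
      exact mul_le_of_le_one_right (sq_nonneg _)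
        (pow_le_one₀ (R.p_nonneg n _) (hψ1 l))
    have e2 : ∑ l ∈ F, θ l g ^ 2 ≤ 4 * ∑ l ∈ F, R.p n (res (A l) (res S g)) ^ 2 := by
      rw [mul_sum]
      refine sum_le_sum fun l _ => ?_
      have : res (A l) (res S g) = res (A l) g := by
        funext i
        by_cases hi : i ∈ A l
        · simp only [res, Set.indicator_of_mem (mem_coe.2 hi),
            Set.indicator_of_mem (mem_coe.2 (hAS l hi))]
        · simp only [res, Set.indicator_of_notMem (fun h' => hi (mem_coe.1 h'))]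
      rw [this, hθ, ← sq_abs]
      have := pow_le_pow_left₀ (abs_nonneg _) (hψ3 l g) 2
      linarith
    -- the rounded functionals do not see the difference between `g` and `P0 g`
    have e3 : ∀ a, ∑ i ∈ S, ω (lab i) a * h i * (g i - P0 g i) = 0 := fun a => by
      rw [← sum_fiberwise_of_maps_to (s := S) (t := F) (g := lab) fun i _ => hlab i]
      refine sum_eq_zero fun l hl => ?_
      have : ∑ i ∈ A l, ω (lab i) a * h i * (g i - P0 g i)
          = ω l a * (pairL (A l) h g - θ l g * pairL (A l) h (ψ l)) := by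
        rw [pairL_apply, pairL_apply, mul_sum, ← sum_sub_distrib, mul_sum]
        refine sum_congr rfl fun i hi => ?_
        rw [((hmem l i).1 hi).2, hP0A g l hl i hi]
        ring
      rw [this, hθ, hψ2, sub_self, mul_zero]
    have e4 : ∀ a, γ a g ^ 2 ≤ (k' / M ^ 2) * ∑ i ∈ S, (g i - P0 g i) ^ 2 := fun a => by
      have : γ a g = ∑ i ∈ S, (u a i - ω (lab i) a * h i) * (g i - P0 g i) := by
        rw [hγ, ← sub_zero (∑ i ∈ S, u a i * (g i - P0 g i)), ← e3 a, ← sum_sub_distrib]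
        exact sum_congr rfl fun i _ => by ring
      rw [this]
      refine (sum_mul_sq_le_sq_mul_sq _ _ _).trans
        (mul_le_mul_of_nonneg_right ?_ (sum_nonneg fun _ _ => sq_nonneg _))
      refine (sum_le_sum fun i _ => happ i a).trans (le_of_eq ?_)
      rw [← sum_div, ← onb_trace hu]
      simp_rw [hh]
    have e5 : (dd (R.P n) : ℝ) ^ 2 * ∑ a, γ a g ^ 2 ≤ ∑ i ∈ S, (g i - P0 g i) ^ 2 := by
      have h1 := sum_le_sum (s := univ) fun a _ => e4 a
      simp only [sum_const, card_univ, Fintype.card_fin, nsmul_eq_mul] at h1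
      have h2 := dd_bound (hk'.trans hk) hq
      have h3 : 0 ≤ ∑ i ∈ S, (g i - P0 g i) ^ 2 := sum_nonneg fun _ _ => sq_nonneg _
      calc (dd (R.P n) : ℝ) ^ 2 * ∑ a, γ a g ^ 2
          ≤ (dd (R.P n) : ℝ) ^ 2 * (k' * (k' / M ^ 2 * ∑ i ∈ S, (g i - P0 g i) ^ 2)) :=
            mul_le_mul_of_nonneg_left h1 (sq_nonneg _)
        _ = ((dd (R.P n) : ℝ) ^ 2 * ((k' : ℝ) * k' / M ^ 2)) * ∑ i ∈ S, (g i - P0 g i) ^ 2 := by
            ring
        _ ≤ _ := mul_le_of_le_one_left h3 h2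
    have e6 : ∑ i ∈ S, (g i - P0 g i) ^ 2
        ≤ 2 * R.p n (res S g) ^ 2 + 2 * R.p n (P0 g) ^ 2 := by
      have h1 := R.sum_sq_le_p n hS (res S g)
      have h2 := R.sum_sq_le_p n hS (P0 g)
      have h3 : ∑ i ∈ S, (g i - P0 g i) ^ 2 ≤ ∑ i ∈ S, (2 * res S g i ^ 2 + 2 * P0 g i ^ 2) :=
        sum_le_sum fun i hi => by
          rw [res, Set.indicator_of_mem (mem_coe.2 hi)]
          nlinarith [sq_nonneg (g i + P0 g i)]
      rw [sum_add_distrib, ← mul_sum, ← mul_sum] at h3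
      linarith
    have e7 : R.p n (P1 g) ^ 2 ≤ (dd (R.P n) : ℝ) ^ 2 * ∑ a, γ a g ^ 2 := by
      have h1 := R.p_sq_le_of_supp n hS (P1 g) fun i _ hi => hP1S g i hi
      simp_rw [hP1] at h1
      rwa [onb_parseval hu] at h1
    have e8 := R.p_sq_add_le n (P0 g) (P1 g)
    rw [LinearMap.add_apply, add_apply, hQ1, hQ2, ← mul_sum, ← mul_sum,
      mul_assoc 2 ((dd (R.P n) : ℝ) ^ 2)]
    constructor
    · linarith
    · nlinarith [sq_nonneg (R.p n (res S g))]

end Rigid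

end Pool.Agent.JLS
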