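import Pool.Agent.Lib.MP_2f16e6_an.Entropy

/-!
Among many consecutive probability measures some average factors through a flat vector.
-/

set_option autoImplicit false

namespace Pool.Agent.JLS

open Finset

theorem sum_range_mul' (F : ℕ → ℝ) (M L : ℕ) :
    ∑ r ∈ range (M * L), F r = ∑ j ∈ range M, ∑ r ∈ range L, F (j * L + r) := by
  induction M with
  | zero => simp
  | succ M ih => rw [add_mul, one_mul, sum_range_add, ih, sum_range_succ]

/-- a node with small entropy gain -/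
theorem node_flat {J : Finset ℕ} {a : ℕ → ℕ} (ha : StrictMono a) {M' : ℕ} (hM' : 0 < M')
    {ν κ : ℕ → ℕ → ℝ} (hs : Succ a (M' ^ 2) ν) (h0 : ∀ j i, 0 ≤ ν j i)
    (h1 : ∀ j < M' ^ 2, ∑ i ∈ J, ν j i = 1) (hκ : ∀ j < M' ^ 2, Opt J (ν j) (κ j))
    {μ k : ℕ → ℝ} (hμ : μ = ((M' ^ 2 : ℕ) : ℝ)⁻¹ • ∑ j ∈ range (M' ^ 2), ν j) (hk : Feas J μ k)
    {β : ℝ} (hβ : ((M' ^ 2 : ℕ) : ℝ)⁻¹ * ∑ j ∈ range (M' ^ 2), Ent J (ν j) (κ j) - Ent J μ k ≤ β) :
    ∃ (Γ : Set ℕ) (u : ℕ → ℝ), (∀ i, 0 ≤ u i) ∧ (∀ i, μ i = 0 → u i = 0) ∧ Flat J u M' 32 ∧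
      (∀ i ∈ J, i ∈ Γ → μ i ≤ u i * k i) ∧ ∑ i ∈ J, res Γᶜ μ i ≤ β := by
  set M := M' ^ 2 with hM
  have hMp : (0 : ℝ) < M := by exact_mod_cast pow_pos hM' 2
  let u : ℕ → ℕ → ℝ := fun j i => ν j i / κ j i
  have hu : Succ a M u := fun j hj i hi => by simp [u, hs j hj i hi]
  have hu1 : ∀ j < M, ss J (u j) ≤ 1 := fun j hj => (hκ j hj).ss_le (h0 j) (h1 j hj)
  have hμj : ∀ j < M, ∀ i ∈ itv a j, μ i = (M : ℝ)⁻¹ * ν j i := fun j hj i hi => by
    rw [hμ, Pi.smul_apply, hs.sum_apply ha.monotone subset_rfl (mem_range.2 hj) hi, smul_eq_mul]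
  have hfe : ∀ j < M, Feas J (ν j) k := fun j hj => ⟨hk.1, hk.2.1, fun i hi hp => by
    refine hk.2.2 i hi ?_
    rw [hμj j hj i (by by_contra h; exact hp.ne' (hs j hj i h))]
    positivity⟩
  refine ⟨{i | ∀ j < M, i ∈ itv a j → κ j i ≤ 16 * k i}, ((16 : ℝ) / M) • ∑ j ∈ range M, u j,
    fun i => ?_, fun i hi => ?_, fun lam h2 h3 => ?_, fun i hi hΓ => ?_, ?_⟩
  · rw [Pi.smul_apply, smul_eq_mul, Finset.sum_apply]
    exact mul_nonneg (by positivity) (sum_nonneg fun j hj =>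
      div_nonneg (h0 j i) ((hκ j (mem_range.1 hj)).1.1 i))
  · rw [Pi.smul_apply, smul_eq_mul]
    by_cases h : ∃ j ∈ range M, i ∈ itv a j
    · obtain ⟨j, hj, hi'⟩ := h
      rw [hu.sum_apply ha.monotone subset_rfl hj hi']
      rw [hμj j (mem_range.1 hj) i hi', mul_eq_zero] at hi
      have : ν j i = 0 := hi.resolve_left (inv_pos.2 hMp).ne'
      simp [u, this]
    · rw [hu.sum_eq_zero subset_rfl fun j hj hi' => h ⟨j, hj, hi'⟩, mul_zero]
  · have e1 := split_le ha hu (α := 1) (β := 0) zero_le_one zero_le_one hu1 subset_rfl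
      (fun A hA => ((ss_ln J).sum_le _ _).trans
        ((sum_le_card_nsmul _ _ 1 fun s hs => hu1 s (mem_range.1 (hA hs))).trans_eq (by simp)))
      h2 h3
    simp_rw [res_smul, (ss_ln J).smul_eq]
    rw [← mul_sum, abs_of_pos (by positivity), div_mul_eq_mul_div, div_le_iff₀ hMp]
    rw [card_range] at e1
    have : (M : ℝ) = M' * M' := by rw [hM]; push_cast; ring
    nlinarith
  · rw [Pi.smul_apply, smul_eq_mul]
    by_cases h : ∃ j ∈ range M, i ∈ itv a j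
    · obtain ⟨j, hj, hi'⟩ := h
      have hj' := mem_range.1 hj
      rw [hu.sum_apply ha.monotone subset_rfl hj hi', hμj j hj' i hi']
      rcases (h0 j i).eq_or_lt with e | e
      · simp [u, ← e]
      · have e1 := (hκ j hj').1.2.2 i hi e
        have e2 := hΓ j hj' hi'
        have e3 : 16 / (M : ℝ) * u j i * k i = (M : ℝ)⁻¹ * ν j i * (16 * k i / κ j i) := by
          simp only [u]; field_simp
        rw [e3]
        exact le_mul_of_one_le_right (by positivity) ((one_le_div e1).2 e2)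
    · rw [hu.sum_eq_zero subset_rfl fun j hj hi' => h ⟨j, hj, hi'⟩, hμ, Pi.smul_apply,
        hs.sum_eq_zero subset_rfl fun j hj hi' => h ⟨j, hj, hi'⟩]
      simp
  · have e1 : ∀ j ∈ range M, ∑ i ∈ J, res {i | ∀ j < M, i ∈ itv a j → κ j i ≤ 16 * k i}ᶜ (ν j) i ≤
        Ent J (ν j) (κ j) - Ent J (ν j) k := fun j hj => by
      have hj' := mem_range.1 hj
      refine (hκ j hj').bad_le (h0 j) (h1 j hj') (hfe j hj') _ fun i hi hp hΓ => ?_
      by_contra hle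
      refine hΓ fun j' hj'' hi' => ?_
      have : j' = j := itv_unique ha.monotone hi' (by by_contra h; exact hp.ne' (hs j hj' i h))
      rw [this]; exact not_lt.1 hle
    have e2 := sum_le_sum e1
    have e3 : Ent J μ k = (M : ℝ)⁻¹ * ∑ j ∈ range M, Ent J (ν j) k := by
      unfold Ent
      rw [sum_comm, mul_sum]
      refine sum_congr rfl fun i _ => ?_
      rw [hμ, Pi.smul_apply, Finset.sum_apply, smul_eq_mul, ← sum_mul, mul_assoc]
    rw [hμ, res_smul, res_sum]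
    simp only [Pi.smul_apply, smul_eq_mul, Finset.sum_apply]
    rw [← mul_sum, sum_comm]
    rw [sum_sub_distrib] at e2
    have := mul_le_mul_of_nonneg_left e2 (inv_pos.2 hMp).le
    rw [e3] at hβ
    linarith [mul_sub (M : ℝ)⁻¹ (∑ j ∈ range M, Ent J (ν j) (κ j)) (∑ j ∈ range M, Ent J (ν j) k)]

theorem exists_flat_combo (J : Finset ℕ) {T : ℕ → ℕ} (hT : StrictMono T) (r0 τ : ℕ) {μ : ℕ → ℝ}
    (h0 : ∀ i, 0 ≤ μ i)
    (h1 : ∀ r, r0 ≤ r → r < r0 + nP (τ + 1) → ∑ i ∈ J, res (itv T r) μ i = 1) :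
    ∃ r L, r0 ≤ r ∧ 0 < L ∧ r + L ≤ r0 + nP (τ + 1) ∧ ∃ (Γ : Set ℕ) (u us : ℕ → ℝ),
      (∀ i, 0 ≤ u i) ∧ (∀ i, 0 ≤ us i) ∧ (∀ i, i ∉ Set.Ico (T r) (T (r + L)) → u i = 0) ∧
      sst J us ≤ 1 ∧ Flat J u (nP τ) 32 ∧
      (∀ i ∈ J, i ∈ Γ → (L : ℝ)⁻¹ * res (Set.Ico (T r) (T (r + L))) μ i ≤ u i * us i) ∧
      ∑ i ∈ J, res Γᶜ ((L : ℝ)⁻¹ • res (Set.Ico (T r) (T (r + L))) μ) i ≤ (mm τ : ℝ)⁻¹ := by
  set M := nP τ ^ 2 with hM
  set n := nP (τ + 1) with hn
  have hMp : 0 < M := pow_pos (nP_pos τ) 2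
  have hm := mm_pos τ
  let ν : ℕ → ℕ → ℕ → ℝ := fun r L => (L : ℝ)⁻¹ • res (Set.Ico (T r) (T (r + L))) μ
  have hν0 : ∀ r L i, 0 ≤ ν r L i := fun r L i =>
    mul_nonneg (by positivity) (Set.indicator_nonneg (fun i _ => h0 i) i)
  have hνs : ∀ r L i, i ∉ Set.Ico (T r) (T (r + L)) → ν r L i = 0 := fun r L i hi => by
    simp only [ν, Pi.smul_apply, res, Set.indicator_of_notMem hi, smul_zero]
  have hsplit : ∀ r L N, 0 < L → ν r (N * L) = (N : ℝ)⁻¹ • ∑ j ∈ range N, ν (r + j * L) L := by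
    intro r L N hL
    have := res_Ico_eq_sum (a := fun j => T (r + j * L))
      (fun j j' h => hT.monotone (by nlinarith)) N μ
    simp only [zero_mul, add_zero] at this
    simp only [ν]
    rw [this, ← smul_sum, smul_smul, Nat.cast_mul, mul_inv]
    congr 1
    refine sum_congr rfl fun j _ => ?_
    simp only [itv, add_mul, one_mul, add_assoc]
  have hν1 : ∀ r L, r0 ≤ r → 0 < L → r + L ≤ r0 + n → ∑ i ∈ J, ν r L i = 1 := by
    intro r L hr hL hrL
    have := hsplit r 1 L one_pos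
    rw [mul_one] at this
    rw [this]
    simp only [Pi.smul_apply, smul_eq_mul, Finset.sum_apply]
    rw [← mul_sum, sum_comm, sum_congr rfl (g := fun _ => (1 : ℝ)) fun j hj => ?_]
    · simp [hL.ne']
    · have := mem_range.1 hj
      simpa [ν] using h1 (r + j) (by omega) (by omega)
  choose κ hκ using fun r L => exists_opt J (ν r L) (hν0 r L)
  let f : ℕ → ℕ → ℝ := fun r L => Ent J (ν r L) (κ r L)
  by_cases hgood : ∃ r L, r0 ≤ r ∧ 0 < L ∧ r + M * L ≤ r0 + n ∧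
      (M : ℝ)⁻¹ * ∑ j ∈ range M, f (r + j * L) L - f r (M * L) ≤ (mm τ : ℝ)⁻¹
  · obtain ⟨r, L, hr, hL, hrL, hg⟩ := hgood
    obtain ⟨Γ, u, e1, e2, e3, e4, e5⟩ := node_flat (J := J) (a := fun j => T (r + j * L))
      (fun j j' h => hT (by nlinarith)) (nP_pos τ) (ν := fun j => ν (r + j * L) L)
      (κ := fun j => κ (r + j * L) L)
      (fun j _ i hi => hνs _ _ i (by simpa only [itv, add_mul, one_mul, add_assoc] using hi))
      (fun j => hν0 _ _) (fun j hj => hν1 _ _ (by omega) hL (by nlinarith))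
      (fun j _ => hκ _ _) (hsplit r L M hL) (hκ r (M * L)).1 hg
    exact ⟨r, M * L, hr, Nat.mul_pos hMp hL, hrL, Γ, u, κ r (M * L), e1, (hκ _ _).1.1,
      fun i hi => e2 i (hνs _ _ i hi), (hκ _ _).1.2.1, e3, e4, e5⟩
  exfalso
  have hMr : (0 : ℝ) < M := by exact_mod_cast hMp
  have hind : ∀ i r : ℕ, r0 ≤ r → r + M ^ i ≤ r0 + n →
      f r (M ^ i) ≤ ((M : ℝ) ^ i)⁻¹ * ∑ r' ∈ range (M ^ i), f (r + r') 1 - i * (mm τ : ℝ)⁻¹ := by
    intro i
    induction i with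
    | zero => intro r _ _; simp
    | succ i ih =>
      intro r hr hrn
      rw [pow_succ' M i] at hrn ⊢
      have e1 : (mm τ : ℝ)⁻¹ < (M : ℝ)⁻¹ * ∑ j ∈ range M, f (r + j * M ^ i) (M ^ i) -
          f r (M * M ^ i) := not_le.1 fun h => hgood ⟨r, M ^ i, hr, pow_pos hMp i, hrn, h⟩
      have e2 := sum_le_sum fun j (hj : j ∈ range M) => ih (r + j * M ^ i) (by omega)
        (by have := mem_range.1 hj; nlinarith [pow_pos hMp i])
      rw [sum_sub_distrib, ← mul_sum, sum_const, card_range, nsmul_eq_mul] at e2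
      have e3 := mul_le_mul_of_nonneg_left e2 (inv_pos.2 hMr).le
      rw [sum_range_mul', pow_succ' (M : ℝ) i, mul_inv]
      simp only [add_assoc] at e3
      rw [mul_sub, ← mul_assoc, ← mul_assoc, inv_mul_cancel₀ hMr.ne', one_mul] at e3
      push_cast
      linarith
  set N := M ^ (mm τ ^ 2) with hN
  have hNn : N ≤ n := by
    rw [hN, hn, nP_succ]
    exact (Nat.pow_le_pow_left (sq_nP_le_mm τ) _).trans
      (Nat.pow_le_pow_right (by have := add_four_le_mm τ; omega) (by omega))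
  have hNp : 0 < N := pow_pos hMp _
  have hNr : (0 : ℝ) < N := by exact_mod_cast hNp
  have e1 := hind (mm τ ^ 2) r0 le_rfl (by omega)
  let a : ℕ → ℕ := fun s => T (r0 + s)
  have ha : Monotone a := fun s s' h => hT.monotone (by omega)
  let k : ℕ → ℕ → ℝ := fun s => res (itv a s) (κ (r0 + s) 1)
  have hk : Succ a N k := fun s _ i hi => Set.indicator_of_notMem hi _
  have hνs' : ∀ s i, i ∉ itv a s → ν (r0 + s) 1 i = 0 := fun s i hi => hνs _ _ i hi
  have hsp := hsplit r0 1 N one_pos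
  simp only [mul_one] at hsp
  have hval : ∀ s < N, ∀ i ∈ itv a s,
      ((mm τ : ℝ)⁻¹ • ∑ s ∈ range N, k s) i = (mm τ : ℝ)⁻¹ * κ (r0 + s) 1 i := fun s hs i hi => by
    rw [Pi.smul_apply, hk.sum_apply ha subset_rfl (mem_range.2 hs) hi, smul_eq_mul]
    simp only [k, res, Set.indicator_of_mem hi]
  have hfe : Feas J (ν r0 N) ((mm τ : ℝ)⁻¹ • ∑ s ∈ range N, k s) := by
    refine ⟨fun i => ?_, sst_avg_le ha hNn hk fun s _ =>
      ((sst_ln J).res_le _ _).trans (hκ _ _).1.2.1, fun i hi hp => ?_⟩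
    · rw [Pi.smul_apply, smul_eq_mul, Finset.sum_apply]
      exact mul_nonneg (by positivity) (sum_nonneg fun s _ =>
        Set.indicator_nonneg (fun i _ => (hκ _ _).1.1 i) i)
    · rw [hsp, Pi.smul_apply, smul_eq_mul, Finset.sum_apply] at hp
      obtain ⟨s, hs, hp'⟩ := exists_lt_of_sum_lt (s := range N) (f := fun _ => (0 : ℝ))
        (g := fun s => ν (r0 + s) 1 i) (by simpa using (mul_pos_iff_of_pos_left (inv_pos.2 hNr)).1 hp)
      rw [hval s (mem_range.1 hs) i (by by_contra h; exact hp'.ne' (hνs' s i h))]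
      exact mul_pos (inv_pos.2 hm) ((hκ _ _).1.2.2 i hi hp')
  have e2 := (hκ r0 N).2 _ hfe
  have e3 : Ent J (ν r0 N) ((mm τ : ℝ)⁻¹ • ∑ s ∈ range N, k s) =
      (N : ℝ)⁻¹ * ∑ s ∈ range N, (f (r0 + s) 1 - Real.log (mm τ)) := by
    have e4 : ∀ s ∈ range N, f (r0 + s) 1 - Real.log (mm τ) = ∑ i ∈ J, ν (r0 + s) 1 i *
        Real.log (((mm τ : ℝ)⁻¹ • ∑ s ∈ range N, k s) i) := by
      intro s hs
      have hs' := mem_range.1 hs
      rw [← one_mul (Real.log _), ← hν1 (r0 + s) 1 (by omega) one_pos (by omega), sum_mul]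
      simp only [f, Ent]
      rw [← sum_sub_distrib]
      refine sum_congr rfl fun i hi => ?_
      rcases (hν0 (r0 + s) 1 i).eq_or_lt with h | h
      · rw [← h]; simp
      · rw [hval s hs' i (by by_contra h'; exact h.ne' (hνs' s i h')),
          Real.log_mul (inv_pos.2 hm).ne' ((hκ _ _).1.2.2 i hi h).ne', Real.log_inv]
        ring
    rw [sum_congr rfl e4, sum_comm, mul_sum]
    unfold Ent
    refine sum_congr rfl fun i _ => ?_
    rw [hsp, Pi.smul_apply, Finset.sum_apply, smul_eq_mul, ← sum_mul, mul_assoc]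
  rw [e3, sum_sub_distrib, sum_const, card_range, nsmul_eq_mul, mul_sub, ← mul_assoc,
    inv_mul_cancel₀ hNr.ne', one_mul] at e2
  have e5 := Real.log_le_sub_one_of_pos hm
  have e6 : ((mm τ ^ 2 : ℕ) : ℝ) * (mm τ : ℝ)⁻¹ = mm τ := by push_cast; field_simp
  have e7 : ((M : ℝ) ^ (mm τ ^ 2))⁻¹ = (N : ℝ)⁻¹ := by rw [hN]; push_cast; rfl
  rw [e6, e7] at e1
  change _ ≤ f r0 N at e2
  linarith

end Pool.Agent.JLS
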