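import Pool.Agent.Lib.MP_2f16e6_an.RIS

/-!
Entropy maximisation: factorisation of averages of measures through flat vectors.
-/

set_option autoImplicit false

namespace Pool.Agent.JLS

open Finset Filter Topology

theorem IsLN.continuous {J : Finset ℕ} {p : (ℕ → ℝ) → ℝ} (h : IsLN J p) : Continuous p := by
  have key : ∀ g g', p g ≤ p g' + ∑ i ∈ J, |g i - g' i| := fun g g' => by
    have := h.add_le g' (g - g')
    rw [add_sub_cancel] at this
    exact this.trans (add_le_add le_rfl (h.le_l1 _))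
  refine continuous_iff_continuousAt.2 fun g => ?_
  have hc : Tendsto (fun g' : ℕ → ℝ => ∑ i ∈ J, |g' i - g i|) (𝓝 g) (𝓝 0) := by
    have : Continuous fun g' : ℕ → ℝ => ∑ i ∈ J, |g' i - g i| := by fun_prop
    simpa using this.tendsto g
  refine tendsto_iff_dist_tendsto_zero.2 (squeeze_zero (fun _ => dist_nonneg) (fun g' => ?_) hc)
  rw [Real.dist_eq, _root_.abs_le]
  have h1 := key g g'
  have h2 := key g' g
  simp_rw [abs_sub_comm (g _)] at h1
  constructor <;> linarith

/-- admissible weights for the measure `ν` -/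
def Feas (J : Finset ℕ) (ν k : ℕ → ℝ) : Prop :=
  (∀ i, 0 ≤ k i) ∧ sst J k ≤ 1 ∧ ∀ i ∈ J, 0 < ν i → 0 < k i

/-- the entropy functional -/
noncomputable def Ent (J : Finset ℕ) (ν k : ℕ → ℝ) : ℝ := ∑ i ∈ J, ν i * Real.log (k i)

/-- optimal weights -/
def Opt (J : Finset ℕ) (ν κ : ℕ → ℝ) : Prop :=
  Feas J ν κ ∧ ∀ k, Feas J ν k → Ent J ν k ≤ Ent J ν κ

theorem exists_opt (J : Finset ℕ) (ν : ℕ → ℝ) (hν : ∀ i, 0 ≤ ν i) : ∃ κ, Opt J ν κ := by
  classical
  let K : Set (ℕ → ℝ) := (Set.univ.pi fun _ => Set.Icc (0 : ℝ) 1) ∩ {k | sst J k ≤ 1}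
  have hK : IsCompact K := (isCompact_univ_pi fun _ => isCompact_Icc).inter_right
    (isClosed_le (sst_ln J).continuous continuous_const)
  let f : (ℕ → ℝ) → ℝ := fun k => ∏ i ∈ J, k i ^ ν i
  have hf : Continuous f :=
    continuous_finsetProd _ fun i _ => (continuous_apply i).rpow_const fun _ => Or.inr (hν i)
  have hc : (0 : ℝ) < ((J.card : ℝ) + 1)⁻¹ := by positivity
  have hk0 : (fun _ => ((J.card : ℝ) + 1)⁻¹) ∈ K := by
    refine ⟨fun i _ => ⟨hc.le, inv_le_one_of_one_le₀ (by simp)⟩, ((sst_ln J).le_l1 _).trans ?_⟩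
    rw [sum_const, nsmul_eq_mul, abs_of_pos hc, ← div_eq_mul_inv, div_le_one (by positivity)]
    simp
  obtain ⟨κ, hκ, hmax⟩ := hK.exists_isMaxOn ⟨_, hk0⟩ hf.continuousOn
  have hpos : 0 < f κ := lt_of_lt_of_le (prod_pos fun i _ => Real.rpow_pos_of_pos hc _) (hmax hk0)
  have hκ0 : ∀ i, 0 ≤ κ i := fun i => (hκ.1 i trivial).1
  have hκp : ∀ i ∈ J, 0 < ν i → 0 < κ i := fun i hi hν' => by
    refine (hκ0 i).lt_of_ne fun h0 => hpos.ne' (prod_eq_zero hi ?_)
    rw [← h0, Real.zero_rpow hν'.ne']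
  have hlog : ∀ k : ℕ → ℝ, (∀ i ∈ J, 0 < ν i → 0 < k i) → 0 < f k ∧ Real.log (f k) = Ent J ν k := by
    intro k hk
    have hp : ∀ i ∈ J, 0 < k i ^ ν i := fun i hi => by
      rcases (hν i).eq_or_lt with h0 | h0
      · rw [← h0]; simp
      · exact Real.rpow_pos_of_pos (hk i hi h0) _
    refine ⟨prod_pos hp, ?_⟩
    rw [Real.log_prod fun i hi => (hp i hi).ne']
    refine sum_congr rfl fun i hi => ?_
    rcases (hν i).eq_or_lt with h0 | h0
    · rw [← h0]; simp
    · exact Real.log_rpow (hk i hi h0) _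
  refine ⟨κ, ⟨hκ0, hκ.2, hκp⟩, fun k hk => ?_⟩
  have hk' : res J k ∈ K := by
    refine ⟨fun i _ => ?_, ((sst_ln J).res_le _ _).trans hk.2.1⟩
    by_cases hi : i ∈ J
    · simp only [res, Set.indicator_of_mem (mem_coe.2 hi)]
      exact ⟨hk.1 i, (le_abs_self _).trans (((sst_ln J).abs_le k i hi).trans hk.2.1)⟩
    · simp [res, hi]
  have e : f (res J k) = f k := prod_congr rfl fun i hi => by simp [res, hi]
  rw [← (hlog k hk.2.2).2, ← (hlog κ hκp).2]
  exact Real.log_le_log (hlog k hk.2.2).1 (e ▸ hmax hk')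

/-- first-order condition: the quotient of the measure by the optimal weight has norm at most one -/
theorem Opt.ss_le {J : Finset ℕ} {ν κ : ℕ → ℝ} (h : Opt J ν κ) (hν : ∀ i, 0 ≤ ν i)
    (h1 : ∑ i ∈ J, ν i = 1) : ss J (fun i => ν i / κ i) ≤ 1 := by
  refine (sst_ln J).dual_le fun k hk => ?_
  obtain ⟨⟨hκ0, hκ1, hκp⟩, hopt⟩ := h
  set z : ℕ → ℝ := fun i => |k i| / κ i with hz
  have hz0 : ∀ i, 0 ≤ z i := fun i => div_nonneg (abs_nonneg _) (hκ0 i)
  have key : ∀ t : ℝ, 0 < t → t < 1 → ∑ i ∈ J, ν i * ((z i - 1) / (1 + t * (z i - 1))) ≤ 0 := by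
    intro t ht0 ht1
    have hfe : Feas J ν ((1 - t) • κ + t • fun i => |k i|) := by
      refine ⟨fun i => ?_, ?_, fun i hi hνi => ?_⟩
      · have := hκ0 i
        simp only [Pi.add_apply, Pi.smul_apply, smul_eq_mul]
        have : 0 ≤ 1 - t := by linarith
        positivity
      · refine ((sst_ln J).add_le _ _).trans ?_
        rw [(sst_ln J).smul_eq, (sst_ln J).smul_eq, abs_of_pos ht0, abs_of_pos (by linarith)]
        have : sst J (fun i => |k i|) ≤ 1 := ((sst_ln J).solid _ _ fun i _ => by simp).trans hk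
        nlinarith
      · have := hκp i hi hνi
        simp only [Pi.add_apply, Pi.smul_apply, smul_eq_mul]
        have : 0 < 1 - t := by linarith
        positivity
    have e1 := hopt _ hfe
    have e2 : t * ∑ i ∈ J, ν i * ((z i - 1) / (1 + t * (z i - 1))) ≤
        Ent J ν ((1 - t) • κ + t • fun i => |k i|) - Ent J ν κ := by
      unfold Ent
      rw [mul_sum, ← sum_sub_distrib]
      refine sum_le_sum fun i hi => ?_
      rcases (hν i).eq_or_lt with h0 | h0
      · rw [← h0]; simp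
      have hκi := hκp i hi h0
      have hd : 0 < 1 + t * (z i - 1) := by nlinarith [hz0 i]
      have e3 : ((1 - t) • κ + t • fun i => |k i|) i = κ i * (1 + t * (z i - 1)) := by
        simp only [Pi.add_apply, Pi.smul_apply, smul_eq_mul, hz]; field_simp; ring
      rw [e3, Real.log_mul hκi.ne' hd.ne']
      have e4 := Real.one_sub_inv_le_log_of_pos hd
      have e5 : t * ((z i - 1) / (1 + t * (z i - 1))) = 1 - (1 + t * (z i - 1))⁻¹ := by
        field_simp; ring
      nlinarith [mul_le_mul_of_nonneg_left e4 h0.le]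
    by_contra hpos
    have := mul_pos ht0 (not_le.1 hpos)
    linarith
  have hlim : Tendsto (fun t : ℝ => ∑ i ∈ J, ν i * ((z i - 1) / (1 + t * (z i - 1)))) (𝓝[>] 0)
      (𝓝 (∑ i ∈ J, ν i * ((z i - 1) / (1 + 0 * (z i - 1))))) := by
    refine tendsto_nhdsWithin_of_tendsto_nhds (tendsto_finsetSum _ fun i _ => ?_)
    refine ContinuousAt.tendsto (f := fun t : ℝ => ν i * ((z i - 1) / (1 + t * (z i - 1)))) ?_
    refine continuousAt_const.mul (continuousAt_const.div (by fun_prop) (by simp))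
  have e6 := le_of_tendsto hlim (by
    filter_upwards [Ioo_mem_nhdsGT (show (0 : ℝ) < 1 by norm_num)] with t ht
    exact key t ht.1 ht.2)
  simp only [zero_mul, add_zero, div_one] at e6
  simp only [mul_sub, mul_one, sum_sub_distrib, h1] at e6
  refine le_trans (le_of_eq (sum_congr rfl fun i _ => ?_)) (sub_nonpos.1 e6)
  rw [abs_of_nonneg (div_nonneg (hν i) (hκ0 i)), hz]
  ring

/-- the mass where the optimal weight is much larger than another admissible weight -/
theorem Opt.bad_le {J : Finset ℕ} {ν κ k : ℕ → ℝ} (h : Opt J ν κ) (hν : ∀ i, 0 ≤ ν i)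
    (h1 : ∑ i ∈ J, ν i = 1) (hk : Feas J ν k) (Γ : Set ℕ)
    (hΓ : ∀ i ∈ J, 0 < ν i → i ∉ Γ → 16 * k i < κ i) :
    ∑ i ∈ J, res Γᶜ ν i ≤ Ent J ν κ - Ent J ν k := by
  have e1 := (pr_le_ss J _ hk.2.1).trans ((mul_one _).trans_le (h.ss_le hν h1))
  have e2 : ∑ i ∈ J, res Γᶜ ν i ≤ ∑ i ∈ J, (|ν i / κ i| * |k i| - ν i +
      (ν i * Real.log (κ i) - ν i * Real.log (k i))) := by
    refine sum_le_sum fun i hi => ?_
    rcases (hν i).eq_or_lt with h0 | h0
    · simp [res, Set.indicator, ← h0]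
    have hκi := h.1.2.2 i hi h0
    have hki := hk.2.2 i hi h0
    have hz : 0 < k i / κ i := div_pos hki hκi
    have e3 : |ν i / κ i| * |k i| - ν i + (ν i * Real.log (κ i) - ν i * Real.log (k i)) =
        ν i * (k i / κ i - 1 - Real.log (k i / κ i)) := by
      rw [abs_of_pos (div_pos h0 hκi), abs_of_pos hki, Real.log_div hki.ne' hκi.ne']; ring
    rw [e3]
    by_cases hi' : i ∈ Γ
    · simp only [res, Set.indicator_of_notMem (show i ∉ Γᶜ from fun h => h hi')]
      exact mul_nonneg h0.le (by linarith [Real.log_le_sub_one_of_pos hz])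
    · simp only [res, Set.indicator_of_mem (show i ∈ Γᶜ from hi')]
      refine le_mul_of_one_le_right h0.le ?_
      have e4 : k i / κ i ≤ (2 ^ 4)⁻¹ := by
        rw [div_le_iff₀ hκi]; linarith [hΓ i hi h0 hi']
      have e5 := Real.log_le_log hz e4
      rw [Real.log_inv, Real.log_pow] at e5
      have := Real.log_two_gt_d9
      push_cast at e5
      linarith
  rw [sum_add_distrib, sum_sub_distrib, sum_sub_distrib, h1] at e2
  unfold Ent
  unfold pr at e1
  linarith

theorem exists_itv {a : ℕ → ℕ} {N i : ℕ} (h1 : a 0 ≤ i) (h2 : i < a N) : ∃ s < N, i ∈ itv a s := by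
  induction N with
  | zero => omega
  | succ N ih =>
    by_cases h : i < a N
    · obtain ⟨s, hs, hi⟩ := ih h
      exact ⟨s, by omega, hi⟩
    · exact ⟨N, by omega, not_lt.1 h, h2⟩

theorem res_Ico_eq_sum {a : ℕ → ℕ} (ha : Monotone a) (N : ℕ) (g : ℕ → ℝ) :
    res (Set.Ico (a 0) (a N)) g = ∑ s ∈ range N, res (itv a s) g := by
  have hs : Succ a N fun s => res (itv a s) g := fun s _ i hi => Set.indicator_of_notMem hi _
  funext i
  by_cases hi : i ∈ Set.Ico (a 0) (a N)
  · obtain ⟨s, hs', hi'⟩ := exists_itv hi.1 hi.2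
    rw [hs.sum_apply ha subset_rfl (mem_range.2 hs') hi']
    simp only [res, Set.indicator_of_mem hi, Set.indicator_of_mem hi']
  · rw [hs.sum_eq_zero subset_rfl fun s hs' hi' => hi
      ⟨(ha (Nat.zero_le s)).trans hi'.1, hi'.2.trans_le (ha (mem_range.1 hs'))⟩]
    exact Set.indicator_of_notMem hi _

/-- successive normalised weights form an operation of type `τ` -/
theorem exists_lab {J : Finset ℕ} {a : ℕ → ℕ} (ha : Monotone a) {τ N : ℕ} (hN : N ≤ nP (τ + 1))
    {k : ℕ → ℕ → ℝ} (h : Succ a N k) (hk : ∀ s < N, sst J (k s) ≤ 1) :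
    ∃ lam : ℕ → ℕ, Monotone lam ∧ (∀ i, lam i < nP (τ + 1)) ∧
      ∀ r < nP (τ + 1), sst J (res (fib lam r) (∑ s ∈ range N, k s)) ≤ 1 := by
  classical
  have hn := nP_pos (τ + 1)
  refine ⟨fun i => Nat.findGreatest (fun s => a s ≤ i) (nP (τ + 1) - 1), fun i j hij => ?_,
    fun i => ?_, fun r hr => ?_⟩
  · exact Nat.findGreatest_mono_left (fun s hs => le_trans hs hij) _
  · exact lt_of_le_of_lt (Nat.findGreatest_le _) (by omega)
  · have key : ∀ s < N, ∀ i ∈ itv a s,
        Nat.findGreatest (fun s => a s ≤ i) (nP (τ + 1) - 1) = s := by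
      intro s hs i hi
      rw [Nat.findGreatest_eq_iff]
      refine ⟨by omega, fun _ => hi.1, fun s' h1 _ h2 => ?_⟩
      have := ha (show s + 1 ≤ s' from h1)
      have := hi.2
      omega
    by_cases hrN : r < N
    · refine ((sst_ln J).solid _ _ fun i _ => ?_).trans (hk r hrN)
      by_cases hi : ∃ s ∈ range N, i ∈ itv a s
      · obtain ⟨s, hs, hi⟩ := hi
        by_cases hsr : s = r
        · subst hsr
          refine (abs_res_le _ _ _).trans (le_of_eq ?_)
          rw [h.sum_apply ha subset_rfl hs hi]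
        · refine le_trans (le_of_eq ?_) (abs_nonneg _)
          rw [abs_eq_zero]
          exact Set.indicator_of_notMem (a := i) (fun h' => hsr
            ((key s (mem_range.1 hs) i hi).symm.trans h')) _
      · refine (abs_res_le _ _ _).trans ?_
        rw [h.sum_eq_zero subset_rfl fun s hs hi' => hi ⟨s, hs, hi'⟩]; simp
    · rw [(sst_ln J).eq_zero fun i _ => ?_]
      · norm_num
      by_cases hi : ∃ s ∈ range N, i ∈ itv a s
      · obtain ⟨s, hs, hi⟩ := hi
        refine Set.indicator_of_notMem (fun h' => hrN ?_) _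
        have := (key s (mem_range.1 hs) i hi).symm.trans h'
        exact this ▸ mem_range.1 hs
      · have := h.sum_eq_zero subset_rfl fun s hs hi' => hi ⟨s, hs, hi'⟩
        simp only [res, Set.indicator]; rw [this]; simp

theorem sst_avg_le {J : Finset ℕ} {a : ℕ → ℕ} (ha : Monotone a) {τ N : ℕ} (hN : N ≤ nP (τ + 1))
    {k : ℕ → ℕ → ℝ} (h : Succ a N k) (hk : ∀ s < N, sst J (k s) ≤ 1) :
    sst J ((mm τ : ℝ)⁻¹ • ∑ s ∈ range N, k s) ≤ 1 := by
  obtain ⟨lam, h1, h2, h3⟩ := exists_lab ha hN h hk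
  have := sst_op J τ h1 h2 h3
  rw [(sst_ln J).smul_eq, abs_of_pos (inv_pos.2 (mm_pos τ)), inv_mul_le_iff₀ (mm_pos τ)]
  exact this

end Pool.Agent.JLS
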