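import Pool.Agent.Lib.MP_2f16e6_an.Main

/-!
Existence of a rigid system.
-/

set_option autoImplicit false

namespace Pool.Agent.JLS

open Finset

theorem sum_res_le_finset (J S : Finset ℕ) {f : ℕ → ℝ} (hf : ∀ i, 0 ≤ f i) :
    ∑ i ∈ J, res S f i ≤ ∑ i ∈ S, f i := by
  classical
  have e1 : ∑ i ∈ J ∩ S, res S f i = ∑ i ∈ J, res S f i :=
    sum_subset inter_subset_left fun i hi hi' => by
      have : i ∉ S := fun h => hi' (mem_inter.2 ⟨hi, h⟩)
      simp [res, this]
  rw [← e1]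
  refine le_trans (le_of_eq (sum_congr rfl fun i hi => ?_))
    (sum_le_sum_of_subset_of_nonneg inter_subset_right fun i _ _ => hf i)
  exact Set.indicator_of_mem (mem_coe.2 (mem_inter.1 hi).2) _

theorem main_block (n j : ℕ) (hj : 2 * j + 1 ≤ n) {T : ℕ → ℕ} {r1 r2 : ℕ} (hT : StrictMono T)
    (h1 : T2 (rr n) ≤ T r1) (h2 : T r2 ≤ T2 (rr (n + 1))) (H : Set ℕ) (y w : ℕ → ℝ)
    (hy0 : ∀ i ∈ H, y i = 0) (hw0 : ∀ i, i ∉ H → w i = 0)
    (hw : ∀ r ∈ Ico r1 r2, pF (JJ n) (res (itv T r) w) ≤ 1)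
    (hy : ∀ r ∈ Ico r1 r2, ∀ g, ∑ i ∈ Ico (T r) (T (r + 1)), |y i| * |g i| ≤ pF (JJ n) g)
    (hl : Long T (2 * j + 2) r1 r2) :
    ∃ a : ℕ → ℝ, (∀ r, ∀ i ∈ itv T r, a i = a (T r)) ∧
      (∀ i, i ∉ Set.Ico (T r1) (T r2) → a i = 0) ∧ ∑ r ∈ Ico r1 r2, a (T r) ^ 2 = 1 ∧
      eF (JJ n) (a * y) ≤ 400 / 400 ^ j ∧ pF (JJ n) (a * w) ≤ 20000 * 200 ^ j := by
  set J := JJ n with hJ
  set d : ℝ := (dd (T2 (rr n)) : ℝ) with hd
  have hd0 : 0 < d := by rw [hd]; exact_mod_cast dd_pos _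
  set I := Set.Ico (T r1) (T r2) with hI
  let ν : ℕ → ℝ := fun i => res I w i ^ 2 / 2 + res I y i ^ 2 / (2 * d ^ 2)
  have hν : ∀ i, 0 ≤ ν i := fun i => by positivity
  have hw' : ∀ r ∈ Ico r1 r2, pF J (res (itv T r) (res I w)) ≤ 1 := fun r hr => by
    rw [res_comm]; exact ((pF_ln J).res_le _ _).trans (hw r hr)
  have hy' : ∀ r ∈ Ico r1 r2, eF J (res (itv T r) (res I y)) ≤ 1 := fun r hr => by
    rw [res_comm]
    refine ((eF_ln J).res_le _ _).trans ((pF_ln J).dual_le' zero_le_one fun g => ?_)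
    rw [one_mul]
    refine le_trans (le_of_eq (sum_congr rfl fun i _ => ?_)) ((sum_res_le_finset J _
      (f := fun i => |y i| * |g i|) fun i => by positivity).trans (hy r hr g))
    rw [coe_Ico]
    by_cases hi : i ∈ itv T r
    · simp only [res, Set.indicator_of_mem hi]
    · simp only [res, Set.indicator_of_notMem hi, abs_zero, zero_mul]
  have hm : ∀ r ∈ Ico r1 r2, ∑ i ∈ J, res (itv T r) ν i ≤ 1 := fun r hr => by
    have e1 := (sq2_le_pF J _).trans (pow_le_one₀ ((pF_ln J).nonneg _) (hw' r hr))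
    have e2 : sq2 J (res (itv T r) (res I y)) ≤ d ^ 2 := by
      have e3 := pr_le_eF J (res (itv T r) (res I y)) (g := res (itv T r) (res I y)) le_rfl
      rw [pr_self] at e3
      have e4 := pF_le_dd n (res (itv T r) (res I y))
      have e5 := (pF_ln J).nonneg (res (itv T r) (res I y))
      have e6 := e3.trans (mul_le_of_le_one_left e5 (hy' r hr))
      have e7 := sq2_nonneg J (res (itv T r) (res I y))
      by_contra hlt
      nlinarith [pow_le_pow_left₀ e7 e6 2, mul_pos (lt_of_lt_of_le (by positivity) (not_le.1 hlt).le)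
        (sub_pos.2 (not_le.1 hlt))]
    have e8 : ∑ i ∈ J, res (itv T r) ν i = sq2 J (res (itv T r) (res I w)) / 2 +
        sq2 J (res (itv T r) (res I y)) / (2 * d ^ 2) := by
      rw [sum_div, sum_div, ← sum_add_distrib]
      refine sum_congr rfl fun i _ => ?_
      by_cases hi : i ∈ itv T r
      · simp only [res, Set.indicator_of_mem hi, ν]
      · simp [res, Set.indicator_of_notMem hi]
    have e9 : sq2 J (res (itv T r) (res I y)) / (2 * d ^ 2) ≤ 1 / 2 := by
      rw [div_le_iff₀ (by positivity)]; linarith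
    linarith
  let fl : ℕ → ℝ := fun i => ∑ r ∈ Ico r1 r2, if i = T r then 1 - ∑ i ∈ J, res (itv T r) ν i else 0
  have hfl : ∀ i, 0 ≤ fl i := fun i => sum_nonneg fun r hr => by
    split_ifs; exacts [sub_nonneg.2 (hm r hr), le_rfl]
  have hμ1 : ∀ r ∈ Ico r1 r2, ∑ i ∈ J, res (itv T r) (ν + fl) i = 1 := fun r hr => by
    have hr' := mem_Ico.1 hr
    have e1 : T r ∈ itv T r := ⟨le_rfl, hT (Nat.lt_succ_self r)⟩
    have e2 : T r ∈ J := mem_Ico.2 ⟨h1.trans (hT.monotone hr'.1), (hT hr'.2).trans_le h2⟩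
    have e3 : ∑ i ∈ J, res (itv T r) fl i = 1 - ∑ i ∈ J, res (itv T r) ν i := by
      rw [sum_eq_single_of_mem (T r) e2 fun i _ hne => ?_]
      · simp only [res, Set.indicator_of_mem e1, fl]
        rw [sum_eq_single_of_mem r hr fun r' _ hne => if_neg fun e => hne (hT.injective e).symm,
          if_pos rfl]
      · by_cases hi : i ∈ itv T r
        · simp only [res, Set.indicator_of_mem hi, fl]
          refine sum_eq_zero fun r' _ => if_neg fun e => hne ?_
          rw [e, itv_unique hT.monotone (show i ∈ itv T r' from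
            e ▸ ⟨le_rfl, hT (Nat.lt_succ_self r')⟩) hi]
        · exact Set.indicator_of_notMem hi _
    rw [res_add]
    simp only [Pi.add_apply]
    rw [sum_add_distrib, e3]; ring
  have hdj : (4000 : ℝ) * 400 ^ j ≤ d := by
    have e1 : dd (2 * j + 1) ≤ dd (T2 (rr n)) := dd_mono (hj.trans (le_T2_rr n))
    have e2 : (dd (2 * j + 1) : ℝ) = 10000 * 10000 ^ j := by
      unfold dd; rw [Nat.cast_pow, show 2 * j + 1 + 1 = 2 * (j + 1) by ring, pow_mul, pow_succ']
      norm_num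
    have e3 : (400 : ℝ) ^ j ≤ 10000 ^ j := pow_le_pow_left₀ (by norm_num) (by norm_num) j
    have e4 : (dd (2 * j + 1) : ℝ) ≤ d := by rw [hd]; exact_mod_cast e1
    have : (0 : ℝ) ≤ 400 ^ j := by positivity
    linarith
  obtain ⟨a, a1, a2, a3, a4, a5⟩ := main_lemma ⟨J, T2 (rr n), T, r1, r2, H, res I y, res I w, ν + fl,
    hT, h1, fun i hi => by simp [res, Set.indicator, hy0 i hi],
    fun i hi => by simp [res, Set.indicator, hw0 i hi], hw', hy',
    fun i => add_nonneg (hν i) (hfl i), hμ1, fun i _ => by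
      have : 0 ≤ res I y i ^ 2 / (2 * d ^ 2) := by positivity
      have := hfl i
      simp only [Pi.add_apply, ν]; linarith, fun i _ => by
      have e1 : 2 * d ^ 2 * (res I y i ^ 2 / (2 * d ^ 2)) = res I y i ^ 2 := by field_simp
      have e2 : 0 ≤ 2 * d ^ 2 * (res I w i ^ 2 / 2 + fl i) := by have := hfl i; positivity
      simp only [Pi.add_apply, ν, ← hd]; nlinarith⟩ (pF_le_dd n) j hdj hl
  have key : ∀ f : ℕ → ℝ, a * res I f = a * f := fun f => by
    funext i
    by_cases hi : i ∈ I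
    · simp only [Pi.mul_apply, res, Set.indicator_of_mem hi]
    · simp only [Pi.mul_apply, a2 i hi, zero_mul]
  exact ⟨a, a1, a2, a3, key y ▸ a4, key w ▸ a5⟩

theorem exists_pow_small {ε : ℝ} (hε : 0 < ε) (K : ℝ) : ∃ j : ℕ, K / 2 ^ j ≤ ε := by
  obtain ⟨j, hj⟩ := pow_unbounded_of_one_lt (K / ε) (show (1 : ℝ) < 2 by norm_num)
  refine ⟨j, ?_⟩
  rw [div_le_iff₀ (by positivity)]
  rw [div_lt_iff₀ hε] at hj
  linarith

theorem exists_rigid : Nonempty Rigid := ⟨{
  P := fun n => T2 (rr n)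
  p := fun n => pF (JJ n)
  P_zero := rfl
  P_mono := T2_strictMono.comp rr_strictMono
  add_le := fun n => (pF_ln _).add_le
  smul_eq := fun n => (pF_ln _).smul_eq
  solid := fun n => (pF_ln _).solid
  le_l1 := fun n => (pF_ln _).le_l1
  l2_le := fun n => sq2_le_pF _
  le_l2 := pF_le_dd
  lower_itv := fun n _ F S h1 h2 => pF_lower_itv _ F S h1 h2
  upper_few := fun n q _ F S h1 h2 h3 g h4 => pF_u1 _ (h1.trans (atoms_le_gam q)) h2 h3 h4
  lower_few := fun n q _ F S h0 h1 h2 h3 => pF_lower_few _ (Nat.cast_nonneg _)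
    (by exact_mod_cast dd_mono h0) (pF_le_dd n) F S (h1.trans (atoms_le_gam q)) h2 h3
  rigid := fun ε hε => by
    obtain ⟨j, hj⟩ := exists_pow_small hε 8000000
    refine ⟨100 ^ (2 * j + 2), 2 * j + 1, fun n hn T r1 r2 hT _ h1 h2 H y w hy0 hw0 hw hy => ?_⟩
    by_cases hl : Long T (2 * j + 2) r1 r2
    · obtain ⟨a, a1, a2, a3, a4, a5⟩ := main_block n j hn hT h1 h2 H y w hy0 hw0 hw hy hl
      refine Or.inr ⟨a, 400 / 400 ^ j, by positivity, a1, a2, a3, fun g => ?_, ?_⟩
      · exact (pr_le_eF _ (a * y) (g := g) le_rfl).trans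
          (mul_le_mul_of_nonneg_right a4 ((pF_ln _).nonneg g))
      · refine (mul_le_mul_of_nonneg_left a5 (by positivity)).trans (le_trans (le_of_eq ?_) hj)
        rw [show (400 : ℝ) ^ j = 200 ^ j * 2 ^ j by rw [← mul_pow]; norm_num]
        field_simp; norm_num
    · refine Or.inl fun g => (upper_of_not_long _ hT.monotone g _ _ _ hl).trans (le_of_eq ?_)
      rw [← pow_mul, ← pow_mul, mul_comm 2 (2 * j + 2)]
  nonEucl := fun C n0 => by
    classical
    obtain ⟨j, hj⟩ := exists_pow_small (show 0 < (|C| + 1)⁻¹ by positivity) 400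
    refine ⟨max n0 (2 * j + 2), le_max_left _ _, ?_⟩
    set n := max n0 (2 * j + 2) with hn
    have hmem : ∀ r ∈ Ico (rr n) (rr (n + 1)), T2 r ∈ JJ n := fun r hr => mem_Ico.2
      ⟨T2_strictMono.monotone (mem_Ico.1 hr).1, T2_strictMono (mem_Ico.1 hr).2⟩
    obtain ⟨a, -, -, a3, a4, -⟩ := main_block n j (by omega) T2_strictMono le_rfl le_rfl ∅
      (fun i => if i % 2 = 0 then 1 else 0) 0 (by simp) (by simp)
      (fun r _ => by rw [(pF_ln _).eq_zero fun i _ => by simp [res]]; norm_num)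
      (fun r hr g => by
        rw [sum_eq_single_of_mem (T2 r) (mem_Ico.2 ⟨le_rfl, T2_strictMono (Nat.lt_succ_self r)⟩)
          fun i hi hne => ?_]
        · simpa [T2] using (pF_ln _).abs_le g _ (hmem r hr)
        · rw [mem_Ico] at hi
          simp only [T2] at hi hne
          rw [if_neg (by omega)]; simp)
      ((rr_long n).of_le (le_max_right _ _))
    refine ⟨a * fun i => if i % 2 = 0 then 1 else 0, ?_⟩
    set x : ℕ → ℝ := a * fun i => if i % 2 = 0 then 1 else 0 with hx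
    have e1 : 1 ≤ sq2 (JJ n) x := by
      rw [← a3, sum_congr rfl (g := fun r => x (T2 r) ^ 2) fun r _ => by simp [hx, T2],
        ← sum_image (f := fun i => x i ^ 2) fun _ _ _ _ e => T2_strictMono.injective e]
      exact sum_le_sum_of_subset_of_nonneg (image_subset_iff.2 hmem) fun _ _ _ => sq_nonneg _
    have e2 := pr_le_eF (JJ n) x (g := x) le_rfl
    rw [pr_self] at e2
    have e3 : (400 : ℝ) / 400 ^ j ≤ (|C| + 1)⁻¹ := le_trans (div_le_div_of_nonneg_left (by norm_num)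
      (by positivity) (pow_le_pow_left₀ (by norm_num) (by norm_num) j)) hj
    have e4 := e2.trans (mul_le_mul_of_nonneg_right (a4.trans e3) ((pF_ln _).nonneg x))
    rw [le_inv_mul_iff₀ (by positivity)] at e4
    have e5 := pow_le_pow_left₀ (by positivity) e4 2
    change C ^ 2 * sq2 (JJ n) x < pF (JJ n) x ^ 2
    rw [← sq_abs C]
    nlinarith [abs_nonneg C, mul_le_mul_of_nonneg_left e1 (show 0 ≤ (|C| + 1) ^ 2 * sq2 (JJ n) x by positivity)] }⟩

end Pool.Agent.JLS
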