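import Pool.Agent.Lib.MP_2f16e6_an.Params

/-!
The norm of the finite-dimensional blocks: ordinary and special (coded) upper estimates.
-/

set_option autoImplicit false

namespace Pool.Agent.JLS

open Finset

/-- sum of squares over the window -/
noncomputable abbrev sq2 (J : Finset ℕ) (g : ℕ → ℝ) : ℝ := ∑ i ∈ J, g i ^ 2

theorem sq2_nonneg (J : Finset ℕ) (g : ℕ → ℝ) : 0 ≤ sq2 J g := sum_nonneg fun _ _ => sq_nonneg _

theorem sq2_mono {J : Finset ℕ} {g h : ℕ → ℝ} (e : ∀ i ∈ J, |g i| ≤ |h i|) : sq2 J g ≤ sq2 J h :=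
  sum_le_sum fun i hi => sq_le_sq.2 (e i hi)

theorem pr_self (J : Finset ℕ) (g : ℕ → ℝ) : pr J g g = sq2 J g :=
  sum_congr rfl fun i _ => by rw [← sq, sq_abs]

theorem sq2_le_sum_res {κ : Type*} (J : Finset ℕ) (F : Finset κ) (S : κ → Set ℕ) (g : ℕ → ℝ)
    (h : ∀ i ∈ J, g i ≠ 0 → ∃ k ∈ F, i ∈ S k) : sq2 J g ≤ ∑ k ∈ F, sq2 J (res (S k) g) := by
  simp_rw [← pr_self]
  exact pr_le_sum_res J F S g g fun i hi hg _ => h i hi hg

theorem sum_sq2_res_le {κ : Type*} (J : Finset ℕ) (F : Finset κ) (S : κ → Set ℕ)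
    (hd : ∀ l ∈ F, ∀ l' ∈ F, l ≠ l' → Disjoint (S l) (S l')) (g : ℕ → ℝ) :
    ∑ k ∈ F, sq2 J (res (S k) g) ≤ sq2 J g := by
  simp_rw [sq2, res_sq]
  exact sum_sq_res_le J F S hd _ fun i _ => sq_nonneg _

theorem sq2_le_l1 (J : Finset ℕ) (g : ℕ → ℝ) : sq2 J g ≤ (∑ i ∈ J, |g i|) ^ 2 := by
  simpa [sq_abs] using sum_sq_le_sq_sum_of_nonneg (s := J) (f := fun i => |g i|)
    fun i _ => abs_nonneg _

theorem sqrt_sq2_add (J : Finset ℕ) (g h : ℕ → ℝ) :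
    √(sq2 J (g + h)) ≤ √(sq2 J g) + √(sq2 J h) := by
  simpa [sq_abs, sq2] using sqrt_sum_add_le J (fun i => |g i + h i|) (fun i => |g i|) (fun i => |h i|)
    (fun i _ => abs_nonneg _) fun i _ => abs_add_le _ _

theorem exists_itv' {a : ℕ → ℕ} {k N i : ℕ} (hk : k ≤ N) (h1 : a k ≤ i) (h2 : i < a N) :
    ∃ s ∈ Ico k N, i ∈ itv a s := by
  induction N, hk using Nat.le_induction with
  | base => omega
  | succ N hk ih =>
    by_cases h : i < a N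
    · obtain ⟨s, hs, hi⟩ := ih h
      exact ⟨s, by simp at hs ⊢; omega, hi⟩
    · exact ⟨N, by simp; omega, not_lt.1 h, h2⟩

/-- quadratic form of the induction principle -/
theorem OpOK.quad_le {J : Finset ℕ} {Op : Rel → Rel} (h : OpOK J Op) {Ψ : (ℕ → ℝ) → ℝ} {C : ℝ}
    (hC : 0 < C) (h1 : ∀ g, Ψ g ≤ C * (∑ i ∈ J, |g i|) ^ 2)
    (h2 : ∀ g g', √(Ψ (g + g')) ≤ √(Ψ g) + √(Ψ g'))
    (h3 : ∀ g g', (∀ i ∈ J, |g i| ≤ |g' i|) → Ψ g ≤ Ψ g')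
    (h4 : ∀ g t, Op (fun g t => gn J Op g ≤ t ∧ Ψ g ≤ C * t ^ 2) g t → Ψ g ≤ C * t ^ 2)
    (g : ℕ → ℝ) : Ψ g ≤ C * gn J Op g ^ 2 := by
  have hs : 0 < √C := Real.sqrt_pos.2 hC
  have key : ∀ g t, 0 ≤ t → ((√C)⁻¹ * √(Ψ g) ≤ t ↔ Ψ g ≤ C * t ^ 2) := fun g t ht => by
    rw [inv_mul_le_iff₀ hs, Real.sqrt_le_left (by positivity), mul_pow, Real.sq_sqrt hC.le]
  refine (key g _ (h.isLN.nonneg g)).1 (h.le_gn_of (ψ := fun g => (√C)⁻¹ * √(Ψ g))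
    (fun g => (key g _ (sum_nonneg fun _ _ => abs_nonneg _)).2 (h1 g)) (fun g g' => ?_)
    (fun g g' e => ?_) (fun g t e => ?_) g)
  · rw [← mul_add]; exact mul_le_mul_of_nonneg_left (h2 g g') (inv_pos.2 hs).le
  · exact mul_le_mul_of_nonneg_left (Real.sqrt_le_sqrt (h3 g g' e)) (inv_pos.2 hs).le
  · have ht : 0 ≤ t := (h.sup g t (h.mono (fun g t e => ⟨(h.isLN.nonneg g).trans e.1,
      fun i hi => (h.isLN.abs_le g i hi).trans e.1⟩) e)).1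
    exact (key g t ht).2 (h4 g t (h.mono (fun g t e =>
      ⟨e.1, (key g t ((h.isLN.nonneg g).trans e.1)).1 e.2⟩) e))

/-- interpolated weight of a special child -/
noncomputable def rho2 (c : ℕ) (u D : ℝ) : ℝ := (u ^ 2) ^ (1 - eta c) * (D ^ 2) ^ eta c

theorem one_sub_eta_pos (c : ℕ) : 0 < 1 - eta c := by linarith [eta_le c]

theorem rho2_nonneg (c : ℕ) (u D : ℝ) : 0 ≤ rho2 c u D := by unfold rho2; positivity

theorem rho2_self (c : ℕ) (D : ℝ) : rho2 c D D = D ^ 2 := by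
  unfold rho2
  rw [← Real.rpow_add' (sq_nonneg D) (by simp)]; simp

theorem rho2_mono (c : ℕ) {u u' D D' : ℝ} (h0 : 0 ≤ u) (h : u ≤ u') (h1 : 0 ≤ D) (h2 : D ≤ D') :
    rho2 c u D ≤ rho2 c u' D' :=
  mul_le_mul (Real.rpow_le_rpow (sq_nonneg _) (pow_le_pow_left₀ h0 h 2) (one_sub_eta_pos c).le)
    (Real.rpow_le_rpow (sq_nonneg _) (pow_le_pow_left₀ h1 h2 2) (eta_pos c).le)
    (by positivity) (by positivity)

theorem sq_le_rho2 (c : ℕ) {u D : ℝ} (h0 : 0 ≤ u) (h : u ≤ D) : u ^ 2 ≤ rho2 c u D := by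
  rw [← rho2_self c u]; exact rho2_mono c h0 le_rfl h0 h

theorem rho2_zero (c : ℕ) (D : ℝ) : rho2 c 0 D = 0 := by
  unfold rho2
  rw [zero_pow two_ne_zero, Real.zero_rpow (one_sub_eta_pos c).ne', zero_mul]

theorem rho2_scale (c : ℕ) (a u D : ℝ) : rho2 c (a * u) (a * D) = a ^ 2 * rho2 c u D := by
  have := rho2_self c a
  unfold rho2 at this ⊢
  rw [mul_pow, mul_pow, Real.mul_rpow (sq_nonneg _) (sq_nonneg _),
    Real.mul_rpow (sq_nonneg _) (sq_nonneg _)]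
  linear_combination ((u ^ 2) ^ (1 - eta c) * (D ^ 2) ^ eta c) * this

/-- weight of the child `k` of a special configuration whose first child is `k0` -/
noncomputable def wt (c : ℕ → ℕ) (k0 : ℕ) (u D : ℕ → ℝ) (k : ℕ) : ℝ :=
  if k = k0 then u k ^ 2 else rho2 (c k) (u k) (D k)

theorem wt_nonneg (c : ℕ → ℕ) (k0 : ℕ) (u D : ℕ → ℝ) (k : ℕ) : 0 ≤ wt c k0 u D k := by
  unfold wt; split_ifs; exacts [sq_nonneg _, rho2_nonneg _ _ _]

/-- ordinary upper estimates -/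
def OpU1 (J : Finset ℕ) (R : Rel) : Rel := fun g t =>
  ∃ (q : ℕ) (κ : Type) (F : Finset κ) (S : κ → Set ℕ) (u : κ → ℝ), F.card ≤ gam q ∧
    (∀ l ∈ F, ∀ i ∈ S l, q ≤ i) ∧ (∀ l ∈ F, ∀ l' ∈ F, l ≠ l' → Disjoint (S l) (S l')) ∧
    (∀ i ∈ J, g i ≠ 0 → ∃ l ∈ F, i ∈ S l) ∧ (∀ l ∈ F, R (res (S l) g) (u l)) ∧ 0 ≤ t ∧
    100 ^ 2 * ∑ l ∈ F, u l ^ 2 ≤ t ^ 2

/-- shape conditions of a special configuration -/
def Shape (J : Finset ℕ) (c : ℕ → ℕ) (k0 N : ℕ) (H : Set ℕ) (u D : ℕ → ℝ) (b : ℕ → ℕ → ℝ)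
    (g : ℕ → ℝ) : Prop :=
  ∀ k, k0 < k → k < N → 0 ≤ u k ∧ u k ≤ D k ∧ Loose J (ty (c k) H) (b k) ∧
    ∀ i ∈ J, i ∈ itv c k → (g i ≠ 0 → i ∈ H) ∧ |g i| ≤ D k * |b k i|

/-- special upper estimates -/
def OpU2 (J : Finset ℕ) (R : Rel) : Rel := fun g t =>
  ∃ (c : ℕ → ℕ) (k0 N : ℕ) (H : Set ℕ) (u D : ℕ → ℝ) (b : ℕ → ℕ → ℝ), StrictMono c ∧ k0 < N ∧
    N - k0 ≤ gam (c k0) ∧ (∀ i ∈ J, g i ≠ 0 → c k0 ≤ i ∧ i < c N) ∧
    (∀ k ∈ Ico k0 N, R (res (itv c k) g) (u k)) ∧ Shape J c k0 N H u D b g ∧ 0 ≤ t ∧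
    4 * ∑ k ∈ Ico k0 N, wt c k0 u D k ≤ t ^ 2

def OpF (J : Finset ℕ) : Rel → Rel := fun R g t => OpU1 J R g t ∨ OpU2 J R g t

theorem Shape.sq_le_wt {J : Finset ℕ} {c : ℕ → ℕ} {k0 N : ℕ} {H : Set ℕ} {u D : ℕ → ℝ}
    {b : ℕ → ℕ → ℝ} {g : ℕ → ℝ} (h : Shape J c k0 N H u D b g) {k : ℕ} (hk : k ∈ Ico k0 N) :
    u k ^ 2 ≤ wt c k0 u D k := by
  unfold wt
  split_ifs with e
  · exact le_rfl
  · rw [mem_Ico] at hk
    obtain ⟨h1, h2, -⟩ := h k (by omega) hk.2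
    exact sq_le_rho2 _ h1 h2

theorem opF_ok (J : Finset ℕ) : OpOK J (OpF J) where
  scale R R' a a' ha haa h := by
    have ha' : 0 < a' := ha.trans_le haa
    rintro g t (⟨q, κ, F, S, u, h1, h2, h3, h4, h5, h6, h7⟩ |
      ⟨c, k0, N, H, u, D, b, h1, h2, h3, h4, h5, h6, h7, h8⟩)
    · refine Or.inl ⟨q, κ, F, S, fun l => a' * u l, h1, h2, h3, fun i hi hg => h4 i hi ?_,
        fun l hl => ?_, by positivity, ?_⟩
      · intro e; simp [e] at hg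
      · rw [res_smul]; exact h _ _ (h5 l hl)
      · simp_rw [mul_pow, ← mul_sum]
        nlinarith [mul_le_mul_of_nonneg_left h7 (sq_nonneg a')]
    · refine Or.inr ⟨c, k0, N, H, fun k => a' * u k, fun k => a' * D k, b, h1, h2, h3,
        fun i hi hg => h4 i hi ?_, fun k hk => ?_, fun k hk hk' => ?_, by positivity, ?_⟩
      · intro e; simp [e] at hg
      · rw [res_smul]; exact h _ _ (h5 k hk)
      · obtain ⟨e1, e2, e3, e4⟩ := h6 k hk hk'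
        refine ⟨by positivity, mul_le_mul_of_nonneg_left e2 ha'.le, e3, fun i hi hi' =>
          ⟨fun hg => (e4 i hi hi').1 fun e => by simp [e] at hg, ?_⟩⟩
        rw [Pi.smul_apply, smul_eq_mul, abs_mul, abs_of_pos ha, mul_assoc]
        exact mul_le_mul haa (e4 i hi hi').2 (abs_nonneg _) ha'.le
      · have : ∀ k, wt c k0 (fun k => a' * u k) (fun k => a' * D k) k = a' ^ 2 * wt c k0 u D k :=
          fun k => by unfold wt; split_ifs; exacts [mul_pow _ _ _, rho2_scale _ _ _ _]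
        simp_rw [this, mul_pow, ← mul_sum]
        nlinarith [mul_le_mul_of_nonneg_left h8 (sq_nonneg a')]
  sup := by
    rintro g t (⟨q, κ, F, S, u, h1, h2, h3, h4, h5, h6, h7⟩ |
      ⟨c, k0, N, H, u, D, b, h1, h2, h3, h4, h5, h6, h7, h8⟩)
    · refine ⟨h6, fun i hi => ?_⟩
      by_cases hg : g i = 0
      · simpa [hg] using h6
      obtain ⟨l, hl, hil⟩ := h4 i hi hg
      have e1 := (h5 l hl).2 i hi
      simp only [res, Set.indicator_of_mem hil] at e1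
      have e2 := single_le_sum (f := fun l => u l ^ 2) (fun _ _ => sq_nonneg _) hl
      exact e1.trans (abs_le_of_sq_le_sq' (by nlinarith [sq_nonneg (u l)]) h6).2
    · refine ⟨h7, fun i hi => ?_⟩
      by_cases hg : g i = 0
      · simpa [hg] using h7
      obtain ⟨k, hk, hik⟩ := exists_itv' h2.le (h4 i hi hg).1 (h4 i hi hg).2
      have e1 := (h5 k hk).2 i hi
      simp only [res, Set.indicator_of_mem hik] at e1
      have e2 := single_le_sum (f := wt c k0 u D) (fun _ _ => wt_nonneg _ _ _ _ _) hk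
      have e3 := h6.sq_le_wt hk
      exact e1.trans (abs_le_of_sq_le_sq' (by nlinarith [sq_nonneg (u k)]) h7).2

/-- the block norm -/
noncomputable def pF (J : Finset ℕ) : (ℕ → ℝ) → ℝ := gn J (OpF J)

/-- the dual block norm -/
noncomputable def eF (J : Finset ℕ) : (ℕ → ℝ) → ℝ := dual J (pF J)

theorem pF_ln (J : Finset ℕ) : IsLN J (pF J) := (opF_ok J).isLN

theorem eF_ln (J : Finset ℕ) : IsLN J (eF J) := (pF_ln J).dual_isLN

theorem pr_le_eF (J : Finset ℕ) (x : ℕ → ℝ) {g : ℕ → ℝ} {t : ℝ} (h : pF J g ≤ t) :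
    pr J x g ≤ eF J x * t := (pF_ln J).pr_le' x h

theorem pF_u1 (J : Finset ℕ) {q : ℕ} {κ : Type} {F : Finset κ} {S : κ → Set ℕ}
    (h1 : F.card ≤ gam q) (h2 : ∀ l ∈ F, ∀ i ∈ S l, q ≤ i)
    (h3 : ∀ l ∈ F, ∀ l' ∈ F, l ≠ l' → Disjoint (S l) (S l')) {g : ℕ → ℝ}
    (h4 : ∀ i ∈ J, g i ≠ 0 → ∃ l ∈ F, i ∈ S l) :
    pF J g ^ 2 ≤ 100 ^ 2 * ∑ l ∈ F, pF J (res (S l) g) ^ 2 := by
  have h0 : 0 ≤ 100 ^ 2 * ∑ l ∈ F, pF J (res (S l) g) ^ 2 :=
    mul_nonneg (by norm_num) (sum_nonneg fun _ _ => sq_nonneg _)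
  rw [← Real.le_sqrt ((pF_ln J).nonneg g) h0]
  exact (opF_ok J).gn_op (Real.sqrt_nonneg _) (Or.inl ⟨q, κ, F, S, _, h1, h2, h3, h4,
    fun l _ => le_rfl, Real.sqrt_nonneg _, (Real.sq_sqrt h0).ge⟩)

theorem pF_u2 (J : Finset ℕ) {c : ℕ → ℕ} {k0 N : ℕ} {H : Set ℕ} {u D : ℕ → ℝ} {b : ℕ → ℕ → ℝ}
    {g : ℕ → ℝ} (h1 : StrictMono c) (h2 : k0 < N) (h3 : N - k0 ≤ gam (c k0))
    (h4 : ∀ i ∈ J, g i ≠ 0 → c k0 ≤ i ∧ i < c N)
    (h5 : ∀ k ∈ Ico k0 N, pF J (res (itv c k) g) ≤ u k) (h6 : Shape J c k0 N H u D b g) :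
    pF J g ^ 2 ≤ 4 * ∑ k ∈ Ico k0 N, wt c k0 u D k := by
  have h0 : 0 ≤ 4 * ∑ k ∈ Ico k0 N, wt c k0 u D k :=
    mul_nonneg (by norm_num) (sum_nonneg fun _ _ => wt_nonneg _ _ _ _ _)
  rw [← Real.le_sqrt ((pF_ln J).nonneg g) h0]
  exact (opF_ok J).gn_op (Real.sqrt_nonneg _) (Or.inr ⟨c, k0, N, H, u, D, b, h1, h2, h3, h4,
    h5, h6, Real.sqrt_nonneg _, (Real.sq_sqrt h0).ge⟩)

theorem sq2_le_pF (J : Finset ℕ) (g : ℕ → ℝ) : sq2 J g ≤ pF J g ^ 2 := by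
  have := (opF_ok J).quad_le (Ψ := sq2 J) one_pos (fun g => by simpa using sq2_le_l1 J g)
    (sqrt_sq2_add J) (fun g g' => sq2_mono) ?_ g
  · simpa [pF] using this
  rintro g t (⟨q, κ, F, S, u, h1, h2, h3, h4, h5, h6, h7⟩ |
      ⟨c, k0, N, H, u, D, b, h1, h2, h3, h4, h5, h6, h7, h8⟩)
  · have e1 := (sq2_le_sum_res J F S g h4).trans (sum_le_sum fun l hl => (h5 l hl).2)
    simp only [one_mul] at e1 ⊢
    nlinarith [sum_nonneg (s := F) (f := fun l => u l ^ 2) fun _ _ => sq_nonneg _]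
  · have e1 := (sq2_le_sum_res J (Ico k0 N) (itv c) g fun i hi hg =>
      exists_itv' h2.le (h4 i hi hg).1 (h4 i hi hg).2).trans (sum_le_sum fun k hk =>
        (h5 k hk).2.trans ((one_mul _).trans_le (h6.sq_le_wt hk)))
    nlinarith [sum_nonneg (s := Ico k0 N) (f := wt c k0 u D) fun _ _ => wt_nonneg _ _ _ _ _]

theorem sqrt_sq2_le_pF (J : Finset ℕ) (g : ℕ → ℝ) : √(sq2 J g) ≤ pF J g :=
  Real.sqrt_le_iff.2 ⟨(pF_ln J).nonneg g, sq2_le_pF J g⟩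

theorem pr_le_sqrt_pF (J : Finset ℕ) (x g : ℕ → ℝ) : pr J x g ≤ √(sq2 J x) * pF J g :=
  (pr_le_sqrt J x g).trans (mul_le_mul_of_nonneg_left (sqrt_sq2_le_pF J g) (Real.sqrt_nonneg _))

theorem eF_le_sqrt (J : Finset ℕ) (x : ℕ → ℝ) : eF J x ≤ √(sq2 J x) :=
  (pF_ln J).dual_le' (Real.sqrt_nonneg _) (pr_le_sqrt_pF J x)

theorem eF_sq_le (J : Finset ℕ) (x : ℕ → ℝ) : eF J x ^ 2 ≤ sq2 J x :=
  (Real.le_sqrt ((eF_ln J).nonneg x) (sq2_nonneg J x)).1 (eF_le_sqrt J x)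

/-- dual form of the ordinary upper estimate -/
theorem eF_lower (J : Finset ℕ) {q : ℕ} {κ : Type} {F : Finset κ} {S : κ → Set ℕ}
    (h1 : F.card ≤ gam q) (h3 : ∀ l ∈ F, ∀ l' ∈ F, l ≠ l' → Disjoint (S l) (S l')) {x : ℕ → ℝ}
    (hx : ∀ i ∈ J, i < q → x i = 0) :
    ∑ l ∈ F, eF J (res (S l) x) ^ 2 ≤ 100 ^ 2 * eF J x ^ 2 := by
  set E := ∑ l ∈ F, eF J (res (S l) x) ^ 2 with hE
  have hE0 : 0 ≤ E := sum_nonneg fun _ _ => sq_nonneg _
  let S' : κ → Set ℕ := fun l => S l ∩ Set.Ici q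
  have h3' : ∀ l ∈ F, ∀ l' ∈ F, l ≠ l' → Disjoint (S' l) (S' l') := fun l hl l' hl' hne =>
    (h3 l hl l' hl' hne).mono Set.inter_subset_left Set.inter_subset_left
  have key : ∀ ε : ℝ, 0 < ε → E ≤ 100 * eF J x * √E + ε * ∑ l ∈ F, eF J (res (S l) x) := by
    intro ε hε
    choose k hk1 hk2 using fun l => (pF_ln J).exists_near (res (S l) x) hε
    let k' : κ → ℕ → ℝ := fun l => eF J (res (S l) x) • k l
    have e1 := pF_u1 J h1 (S := S') (fun l _ i hi => hi.2) h3'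
      (g := ∑ l ∈ F, res (S' l) (k' l)) fun i _ hg => by
        by_contra hno
        apply hg
        rw [Finset.sum_apply]
        exact sum_eq_zero fun l hl => Set.indicator_of_notMem (fun h => hno ⟨l, hl, h⟩) _
    have e2 : ∑ l ∈ F, pF J (res (S' l) (∑ l ∈ F, res (S' l) (k' l))) ^ 2 ≤ E :=
      sum_le_sum fun l hl => by
        rw [res_glue F S' h3' k' hl]
        refine pow_le_pow_left₀ ((pF_ln J).nonneg _) (((pF_ln J).res_le _ _).trans ?_) 2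
        rw [(pF_ln J).smul_eq, abs_of_nonneg ((eF_ln J).nonneg _)]
        exact mul_le_of_le_one_right ((eF_ln J).nonneg _) (hk1 l)
    have e3 : pF J (∑ l ∈ F, res (S' l) (k' l)) ≤ 100 * √E :=
      (abs_le_of_sq_le_sq' (by rw [mul_pow, Real.sq_sqrt hE0]; linarith) (by positivity)).2
    have e4 := (pr_glue J F S' h3' k' x).trans (pr_le_eF J x e3)
    have e5 : ∀ l ∈ F, eF J (res (S l) x) ^ 2 - ε * eF J (res (S l) x) ≤
        pr J (res (S' l) x) (k' l) := fun l _ => by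
      have : pr J (res (S l) x) (k l) ≤ pr J (res (S' l) x) (k l) := pr_mono (fun i hi => by
        by_cases h : i ∈ S l <;> by_cases h' : q ≤ i <;>
          simp [res, S', Set.indicator, h, h', hx i hi, not_le.1]) fun _ _ => le_rfl
      rw [pr_smul_right, abs_of_nonneg ((eF_ln J).nonneg _)]
      have h0 := (eF_ln J).nonneg (res (S l) x)
      have := mul_le_mul_of_nonneg_left ((hk2 l).le.trans this) h0
      unfold eF at *
      nlinarith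
    have e6 := (sum_le_sum e5).trans e4
    rw [sum_sub_distrib, ← mul_sum] at e6
    linarith
  have e7 : E ≤ 100 * eF J x * √E := by
    refine le_of_forall_pos_le_add fun ε hε => ?_
    have h0 : 0 ≤ ∑ l ∈ F, eF J (res (S l) x) := sum_nonneg fun _ _ => (eF_ln J).nonneg _
    refine (key (ε / (∑ l ∈ F, eF J (res (S l) x) + 1)) (by positivity)).trans ?_
    rw [div_mul_eq_mul_div, add_le_add_iff_left, div_le_iff₀ (by positivity)]
    nlinarith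
  have h0 := (eF_ln J).nonneg x
  nlinarith [Real.sq_sqrt hE0, sq_nonneg (√E - 100 * eF J x)]

end Pool.Agent.JLS
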