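import Pool.Agent.Lib.MP_2f16e6_an.Final

set_option autoImplicit false

namespace Pool.Agent.JLS

open Finset Filter Topology

namespace Rigid

variable (R : Rigid)

/-- the Euclidean norm on a block -/
noncomputable def eu (n : ℕ) (g : ℕ → ℝ) : ℝ := √(∑ i ∈ R.J n, g i ^ 2)

theorem eu_sq (n : ℕ) (g : ℕ → ℝ) : R.eu n g ^ 2 = ∑ i ∈ R.J n, g i ^ 2 :=
  Real.sq_sqrt (sum_nonneg fun _ _ => sq_nonneg _)

theorem eu_lower (n : ℕ) (ι : Type) (F : Finset ι) (S : ι → Set ℕ)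
    (h : ∀ l ∈ F, ∀ l' ∈ F, l ≠ l' → Disjoint (S l) (S l')) (g : ℕ → ℝ) :
    ∑ l ∈ F, R.eu n (res (S l) g) ^ 2 ≤ R.eu n g ^ 2 := by
  simp only [eu_sq]
  rw [sum_comm]
  refine sum_le_sum fun i _ => ?_
  by_cases hi : ∃ l ∈ F, i ∈ S l
  · obtain ⟨l, hl, hi⟩ := hi
    rw [sum_eq_single_of_mem l hl fun l' hl' hne => by
      rw [res_of_not fun h' => Set.disjoint_left.1 (h l' hl' l hl hne) h' hi]; simp,
      res_of_mem hi]
  · rw [sum_eq_zero fun l hl => by rw [res_of_not fun h' => hi ⟨l, hl, h'⟩]; simp]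
    positivity

theorem eu_upper (n : ℕ) (ι : Type) (F : Finset ι) (S : ι → Set ℕ) (g h : ℕ → ℝ)
    (hg : ∀ i ∈ R.J n, g i ≠ 0 → g i = h i ∧ ∃ l ∈ F, i ∈ S l) :
    R.eu n g ^ 2 ≤ ∑ l ∈ F, R.eu n (res (S l) h) ^ 2 := by
  simp only [eu_sq]
  rw [sum_comm]
  refine sum_le_sum fun i hi => ?_
  by_cases h0 : g i = 0
  · rw [h0]; simpa using sum_nonneg fun l _ => sq_nonneg (res (S l) h i)
  · obtain ⟨e, l, hl, h1⟩ := hg i hi h0
    refine le_trans (le_of_eq ?_)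
      (single_le_sum (f := fun l => res (S l) h i ^ 2) (fun _ _ => sq_nonneg _) hl)
    simp only [res_of_mem h1, e]

theorem exists_itv (T : ℕ → ℕ) (r1 r2 i : ℕ) (h1 : T r1 ≤ i) (h2 : i < T r2) (h : r1 ≤ r2) :
    ∃ r ∈ Ico r1 r2, i ∈ itv T r := by
  induction r2, h using Nat.le_induction with
  | base => omega
  | succ r hr ih =>
    by_cases hi : i < T r
    · obtain ⟨s, hs, h⟩ := ih hi
      exact ⟨s, by simp at hs ⊢; omega, h⟩
    · exact ⟨r, by simp; omega, not_lt.1 hi, h2⟩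

open Classical in
/-- keep the blocks with index in `A`, make the others Euclidean -/
noncomputable def keep (A : Set ℕ) (hA : ∀ (C : ℝ) (n0 : ℕ), ∃ n, n0 ≤ n ∧ n ∈ A ∧ ∃ x : ℕ → ℝ,
    C ^ 2 * ∑ i ∈ R.J n, x i ^ 2 < R.p n x ^ 2) : Rigid where
  P := R.P
  p n := if n ∈ A then R.p n else R.eu n
  P_zero := R.P_zero
  P_mono := R.P_mono
  add_le n g h := by
    split_ifs
    · exact R.add_le n g h
    · have := sqrt_sum_add_le (R.J n) (fun i => |(g + h) i|) (fun i => |g i|) (fun i => |h i|)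
        (fun _ _ => abs_nonneg _) fun i _ => abs_add_le _ _
      simpa [eu] using this
  smul_eq n c g := by
    split_ifs
    · exact R.smul_eq n c g
    · simp only [eu, Pi.smul_apply, smul_eq_mul, mul_pow, ← mul_sum]
      rw [Real.sqrt_mul (sq_nonneg c), Real.sqrt_sq_eq_abs]
  solid n g h e := by
    split_ifs
    · exact R.solid n g h e
    · exact Real.sqrt_le_sqrt (sum_le_sum fun i hi => sq_le_sq.2 (e i hi))
  le_l1 n g := by
    split_ifs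
    · exact R.le_l1 n g
    · refine Real.sqrt_le_iff.2 ⟨sum_nonneg fun _ _ => abs_nonneg _, ?_⟩
      simpa using sum_sq_le_sq_sum_of_nonneg (s := R.J n) (f := fun i => |g i|)
        fun _ _ => abs_nonneg _
  l2_le n g := by
    split_ifs
    · exact R.l2_le n g
    · exact (R.eu_sq n g).ge
  le_l2 n g := by
    split_ifs
    · exact R.le_l2 n g
    · rw [eu_sq]
      refine le_mul_of_one_le_left (sum_nonneg fun _ _ => sq_nonneg _) (one_le_pow₀ ?_)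
      exact_mod_cast Nat.one_le_pow _ _ (by norm_num)
  lower_itv n ι F S h1 h2 g := by
    split_ifs
    · exact R.lower_itv n ι F S h1 h2 g
    · nlinarith [R.eu_lower n ι F S h2 g, sq_nonneg (R.eu n g)]
  upper_few n q ι F S h1 h2 h3 g h4 := by
    split_ifs
    · exact R.upper_few n q ι F S h1 h2 h3 g h4
    · have := R.eu_upper n ι F S g g fun i hi h0 => ⟨rfl, h4 i hi h0⟩
      nlinarith [sq_nonneg (R.eu n g)]
  lower_few n q ι F S h0 h1 h2 h3 g := by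
    split_ifs
    · exact R.lower_few n q ι F S h0 h1 h2 h3 g
    · nlinarith [R.eu_lower n ι F S h3 g, sq_nonneg (R.eu n g)]
  rigid ε hε := by
    obtain ⟨C, n0, h⟩ := R.rigid ε hε
    refine ⟨|C| + 1, n0, fun n hn T r1 r2 a1 a2 a3 a4 H y w b1 b2 => ?_⟩
    have hC : C ^ 2 ≤ (|C| + 1) ^ 2 := by nlinarith [abs_nonneg C, sq_abs C]
    have hC' : 1 ≤ (|C| + 1) ^ 2 := by nlinarith [abs_nonneg C]
    split_ifs
    · intro b3 b4
      exact (h n hn T r1 r2 a1 a2 a3 a4 H y w b1 b2 b3 b4).imp_left fun h g =>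
        (h g).trans (mul_le_mul_of_nonneg_right hC (sum_nonneg fun _ _ => sq_nonneg _))
    · refine fun _ _ => Or.inl fun g => le_trans ?_
        (le_mul_of_one_le_left (sum_nonneg fun _ _ => sq_nonneg _) hC')
      refine R.eu_upper n ℕ _ _ _ g fun i _ h0 => ?_
      have hi : i ∈ Set.Ico (T r1) (T r2) := by
        by_contra hc
        exact h0 (res_of_not hc g)
      exact ⟨res_of_mem hi g, exists_itv T r1 r2 i hi.1 hi.2 a2⟩
  nonEucl C n0 := by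
    obtain ⟨n, h1, h2, h3⟩ := hA C n0
    exact ⟨n, h1, by simpa only [if_pos h2] using h3⟩

theorem not_fcr (RA RB : Rigid) (hPA : RA.P = R.P) (hPB : RB.P = R.P) (B : Set ℕ)
    (hB : ∀ n, n ∈ B → RB.p n = R.p n) (hB' : ∀ n, n ∉ B → RB.p n = R.eu n)
    (hA : ∀ C : ℝ, ∃ n, n ∉ B ∧ RA.p n = R.p n ∧ ∃ x : ℕ → ℝ,
      C ^ 2 * ∑ i ∈ R.J n, x i ^ 2 < R.p n x ^ 2) :
    ¬ ∃ K : ℝ, 1 ≤ K ∧ ∀ E : Submodule ℝ RA.X, FiniteDimensional ℝ E →
      ∃ T : E →ₗ[ℝ] RB.X, ∃ c : ℝ, 0 < c ∧ ∀ y : E, c * ‖y‖ ≤ ‖T y‖ ∧ ‖T y‖ ≤ K * c * ‖y‖ := by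
  classical
  rintro ⟨K, hK, h⟩
  obtain ⟨M, hM, hcut⟩ := R.exists_cut 1 1 one_pos one_pos
  obtain ⟨C1, hC1, hoff⟩ := R.off_diag (K ^ 2) M (sq_nonneg K) hM.le
  obtain ⟨C2, htail⟩ := RB.tail_quad
  set M1 : ℝ := 2 * (C1 + K ^ 2) + 2 * (C2 ^ 2 * K ^ 2) with hM1
  have hM1' : 0 ≤ M1 := by positivity
  obtain ⟨n, hnB, hnA, x, hx⟩ := hA √M1
  rw [Real.sq_sqrt hM1'] at hx
  set W := R.P (n + 1) with hW
  obtain ⟨T, hT⟩ := normalise (h (Submodule.span ℝ (RA.e '' Set.Iio W))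
    (FiniteDimensional.span_of_finite ℝ ((Set.finite_Iio _).image _)))
  let φ : R.X →ₗ[ℝ] RA.X := RA.trunc W ∘ₗ R.ι ∘ₗ R.proj (R.J n : Set ℕ)
  have ιφ : ∀ z i, RA.ι (φ z) i = if i ∈ R.J n then R.ι z i else 0 := by
    intro z i
    simp only [φ, LinearMap.comp_apply, ι_trunc, ι_proj]
    by_cases hi : i ∈ R.J n
    · rw [if_pos hi, res_of_mem (S := Set.Iio W) (mem_Ico.1 hi).2, res_of_mem (mem_coe.2 hi)]
    · rw [if_neg hi]
      by_cases h2 : i ∈ Set.Iio W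
      · rw [res_of_mem h2, res_of_not (mt mem_coe.1 hi)]
      · rw [res_of_not h2]
  have nφ : ∀ z, ‖φ z‖ = R.p n (R.ι z) := by
    intro z
    rw [RA.norm_eq_p (n := n) fun i hi => by
      rw [ιφ, if_neg (by simpa only [J, hPA] using hi)], hnA]
    exact R.p_congr n fun i hi => by rw [ιφ, if_pos hi]
  have mφ : ∀ z, φ z ∈ Submodule.span ℝ (RA.e '' Set.Iio W) := by
    intro z
    rw [← proj_of_supp (S := Set.Iio W) (z := φ z) fun i hi => by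
      rw [ιφ, if_neg fun h => hi (mem_Ico.1 h).2], proj_Iio_eq_sum]
    exact Submodule.sum_mem _ fun i hi => Submodule.smul_mem _ _
      (Submodule.subset_span ⟨i, mem_range.1 hi, rfl⟩)
  let L : R.X →ₗ[ℝ] RB.X := T ∘ₗ φ
  have φW : ∀ z, φ (R.proj (Set.Iio W) z) = φ z := fun z => RA.ext' fun i => by
    rw [ιφ, ιφ]
    split_ifs with hi
    · exact ι_proj_mem (S := Set.Iio W) (mem_Ico.1 hi).2 z
    · rfl
  have L1 : ∀ z, R.p n (R.ι z) ≤ ‖L z‖ := fun z => (nφ z).ge.trans (hT _ (mφ z)).1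
  have L2 : ∀ z, ‖L z‖ ^ 2 ≤ K ^ 2 * ‖z‖ ^ 2 := fun z => by
    rw [← mul_pow]
    refine pow_le_pow_left₀ (norm_nonneg _) ((hT _ (mφ z)).2.trans ?_) 2
    rw [nφ]
    exact mul_le_mul_of_nonneg_left (R.p_le_norm n z) (by linarith)
  obtain ⟨Q1, hQ1⟩ := htail (n + 1) W (by rw [hPB]) R.X L (fun i => L (R.e i)) fun y => by
    have : L y = L (R.proj (Set.Iio W) y) := by simp only [L, LinearMap.comp_apply, φW]
    rw [this, proj_Iio_eq_sum, map_sum]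
    refine Submodule.sum_mem _ fun i hi => ?_
    rw [map_smul]
    exact Submodule.smul_mem _ _ (Submodule.subset_span ⟨⟨i, mem_range.1 hi⟩, rfl⟩)
  let S : Set ℕ := {i | ∃ m ∈ B, i ∈ R.J m}
  let A : R.X →ₗ[ℝ] R.X := R.trunc W ∘ₗ RB.ι ∘ₗ RB.proj S ∘ₗ L
  have ιA : ∀ z i, R.ι (A z) i = if i < W ∧ i ∈ S then RB.ι (L z) i else 0 := by
    intro z i
    simp only [A, LinearMap.comp_apply, ι_trunc, ι_proj]
    by_cases h2 : i ∈ Set.Iio W
    · rw [res_of_mem h2]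
      by_cases h3 : i ∈ S
      · rw [res_of_mem h3, if_pos ⟨h2, h3⟩]
      · rw [res_of_not h3, if_neg fun h => h3 h.2]
    · rw [res_of_not h2, if_neg fun h => h2 h.1]
  let Q2 : QuadraticForm ℝ R.X := ∑ m ∈ range (n + 1) with m ∉ B, ∑ i ∈ R.J m,
    QuadraticMap.linMulLin (LinearMap.proj i ∘ₗ RB.ι ∘ₗ L) (LinearMap.proj i ∘ₗ RB.ι ∘ₗ L)
  have split : ∀ z, RB.vn (n + 1) (RB.ι (L z)) ^ 2 = ‖A z‖ ^ 2 + Q2 z := by
    intro z
    rw [R.norm_eq_vn (N := n + 1) fun i hi => by rw [ιA, if_neg fun h => by omega], vn_sq, vn_sq]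
    simp only [Q2, _root_.sum_apply, sum_filter]
    rw [← sum_add_distrib]
    refine sum_congr rfl fun m hm => ?_
    have lt : ∀ i ∈ R.J m, i < W := fun i hi => (R.block_lt hi).2 (mem_range.1 hm)
    by_cases hmB : m ∈ B
    · rw [hB m hmB, if_neg (not_not.2 hmB), R.p_congr m (g := R.ι (A z)) (h := RB.ι (L z))
        fun i hi => by rw [ιA, if_pos ⟨lt i hi, m, hmB, hi⟩]]
      simp
    · rw [hB' m hmB, if_pos hmB, eu_sq, R.p_eq_zero m fun i hi => by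
        rw [ιA, if_neg]
        rintro ⟨-, m', h1, h2⟩
        exact hmB (R.block_unique h2 hi ▸ h1)]
      simp [sq]
  have Q2n : ∀ z, 0 ≤ Q2 z := fun z => by
    simp only [Q2, _root_.sum_apply, QuadraticMap.linMulLin_apply]
    exact sum_nonneg fun _ _ => sum_nonneg fun _ _ => mul_self_nonneg _
  have head : ∀ z, ‖A z‖ ^ 2 + Q2 z ≤ K ^ 2 * ‖z‖ ^ 2 := fun z => by
    rw [← split]
    exact (pow_le_pow_left₀ (RB.vn_nonneg _ _) (RB.vn_le_norm _ _) 2).trans (L2 z)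
  obtain ⟨c, -⟩ := hcut 0 (by simp) (by simp) (n + 1)
  have dz : c.diag A = 0 := by
    ext1 z
    rw [c.diag_apply]
    refine sum_eq_zero fun j hj => ?_
    have blk : ∀ i ∈ c.I j, i ∈ R.J j.1 := fun i hi =>
      mem_Ico.2 ⟨(c.lo_ge j hj).trans hi.1, hi.2.trans_le (c.hi_le j hj)⟩
    by_cases e : j.1 = n
    · refine proj_eq_zero fun i hi => ?_
      rw [ιA, if_neg]
      rintro ⟨-, m', h1, h2⟩
      exact hnB (e ▸ R.block_unique h2 (blk i hi) ▸ h1)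
    · have : φ (R.proj (c.I j) z) = 0 := RA.ext' fun i => by
        rw [ιφ]
        split_ifs with hi
        · rw [ι_proj_not fun h => e (R.block_unique (blk i h) hi)]; simp
        · simp
      simp only [A, L, LinearMap.comp_apply, this, map_zero]
  obtain ⟨QA, hQA⟩ := hoff (n + 1) c A (fun z => by linarith [head z, Q2n z])
    (fun z i hi => by rw [ιA, if_neg fun h => hi h.1])
    (fun z => by simp only [A, L, LinearMap.comp_apply, ← hW, φW])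
  rw [dz, sub_zero] at hQA
  have main : R.HG (R.proj (R.J n : Set ℕ)) M1 := by
    refine ⟨(2 : ℝ) • (QA + Q2) + (2 : ℝ) • Q1, fun z => ?_⟩
    simp only [_root_.add_apply, _root_.smul_apply, smul_eq_mul]
    have a1 : ‖R.proj (R.J n : Set ℕ) z‖ = R.p n (R.ι z) := by
      rw [R.norm_eq_p (n := n) fun i hi => ι_proj_not (mt mem_coe.1 hi) z]
      exact R.p_congr n fun i hi => by rw [ι_proj_mem (mem_coe.2 hi)]
    have a2 := sq_add_le (RB.proj (Set.Iio (RB.P (n + 1))) (L z))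
      (RB.proj (Set.Ici (RB.P (n + 1))) (L z))
    rw [← sub_proj, add_sub_cancel, sub_proj, norm_proj_Iio, split] at a2
    have a3 := pow_le_pow_left₀ (R.p_nonneg _ _) (L1 z) 2
    have a4 := (hQ1 z).2.trans (mul_le_mul_of_nonneg_left
      ((pow_le_pow_left₀ (norm_nonneg _) (RB.norm_proj_le _ _) 2).trans (L2 z)) (sq_nonneg C2))
    have a5 := head z
    have a6 := sq_nonneg ‖A z‖
    constructor
    · rw [a1]; linarith [(hQA z).1, (hQ1 z).1]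
    · rw [hM1]; linarith [(hQA z).2]
  obtain ⟨y, hy, h1⟩ := R.exists_sign hM1' main (R.J n) (R.vec (R.J n) x)
    fun i hi => by rw [ι_vec, if_neg hi]
  rw [sum_congr rfl (g := fun i => x i ^ 2) fun i hi => by rw [ι_vec, if_pos hi],
    R.norm_eq_p (n := n) fun i hi => ι_proj_not (mt mem_coe.1 hi) y,
    R.p_congr n (h := x) fun i hi => by
      rw [ι_proj_mem (mem_coe.2 hi), hy, ι_vec, if_pos hi]] at h1
  linarith

omit R in
theorem exists_family (R : Rigid) : ∃ F : ℝ → Rigid, ∀ s t, s ≠ t →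
    ¬ ∃ K : ℝ, 1 ≤ K ∧ ∀ E : Submodule ℝ (F s).X, FiniteDimensional ℝ E →
      ∃ T : E →ₗ[ℝ] (F t).X, ∃ c : ℝ, 0 < c ∧
        ∀ y : E, c * ‖y‖ ≤ ‖T y‖ ∧ ‖T y‖ ≤ K * c * ‖y‖ := by
  classical
  obtain ⟨φ, hφ, hx⟩ := extraction_forall_of_frequently
    (P := fun k n => ∃ x : ℕ → ℝ, (k : ℝ) ^ 2 * ∑ i ∈ R.J n, x i ^ 2 < R.p n x ^ 2)
    fun k => frequently_atTop.2 fun n0 => R.nonEucl k n0
  let q : ℕ ≃ ℚ := (Denumerable.eqv ℚ).symm
  have key : ∀ a b : ℝ, a < b → ∀ (C : ℝ) (n0 : ℕ), ∃ k, n0 ≤ φ k ∧ (a < q k ∧ (q k : ℝ) < b) ∧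
      ∃ x : ℕ → ℝ, C ^ 2 * ∑ i ∈ R.J (φ k), x i ^ 2 < R.p (φ k) x ^ 2 := by
    intro a b hab C n0
    obtain ⟨a', a1, a2⟩ := exists_rat_btwn hab
    obtain ⟨b', b1, b2⟩ := exists_rat_btwn a2
    have inf : (q ⁻¹' Set.Icc a' b').Infinite :=
      (Set.Icc_infinite (by exact_mod_cast b1)).preimage (by simp)
    obtain ⟨k, k1, k2⟩ := inf.exists_gt (max n0 ⌈|C|⌉₊)
    obtain ⟨x, h⟩ := hx k
    refine ⟨k, ((le_max_left _ _).trans k2.le).trans hφ.le_apply,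
      ⟨a1.trans_le (by exact_mod_cast k1.1), lt_of_le_of_lt (by exact_mod_cast k1.2) b2⟩,
      x, lt_of_le_of_lt (mul_le_mul_of_nonneg_right ?_ (sum_nonneg fun _ _ => sq_nonneg _)) h⟩
    rw [← sq_abs]
    exact pow_le_pow_left₀ (abs_nonneg _)
      (Nat.ceil_le.1 ((le_max_right _ _).trans k2.le)) 2
  let A : ℝ → Set ℕ := fun t => {n | ∃ k, φ k = n ∧ t < q k ∧ (q k : ℝ) < t + 1}
  refine ⟨fun t => R.keep (A t) fun C n0 => ?_, fun s t hst => ?_⟩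
  · obtain ⟨k, h1, h2, h3⟩ := key t (t + 1) (by linarith) C n0
    exact ⟨φ k, h1, ⟨k, rfl, h2⟩, h3⟩
  refine R.not_fcr _ _ rfl rfl (A t) (fun n hn => if_pos hn) (fun n hn => if_neg hn) fun C => ?_
  have fin : ∀ a b, a < b → s ≤ a → b ≤ s + 1 → (b ≤ t ∨ t + 1 ≤ a) → ∃ n, n ∉ A t ∧ n ∈ A s ∧
      ∃ x : ℕ → ℝ, C ^ 2 * ∑ i ∈ R.J n, x i ^ 2 < R.p n x ^ 2 := by
    intro a b h1 h2 h3 h4
    obtain ⟨k, -, k2, k3⟩ := key a b h1 C 0
    refine ⟨φ k, ?_, ⟨k, rfl, by linarith [k2.1], by linarith [k2.2]⟩, k3⟩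
    rintro ⟨k', e, c1, c2⟩
    obtain rfl := hφ.injective e
    rcases h4 with h | h <;> linarith [k2.1, k2.2]
  obtain ⟨n, h1, h2, h3⟩ : ∃ n, n ∉ A t ∧ n ∈ A s ∧
      ∃ x : ℕ → ℝ, C ^ 2 * ∑ i ∈ R.J n, x i ^ 2 < R.p n x ^ 2 := by
    rcases lt_or_gt_of_ne hst with h | h
    · exact fin s (min t (s + 1)) (lt_min h (by linarith)) le_rfl (min_le_right _ _)
        (Or.inl (min_le_left _ _))
    · exact fin (max s (t + 1)) (s + 1) (max_lt (by linarith) (by linarith)) (le_max_left _ _)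
        le_rfl (Or.inr (le_max_right _ _))
  exact ⟨n, h1, if_pos h2, h3⟩

end Rigid

end Pool.Agent.JLS
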