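import Pool.Agent.Lib.MP_2f16e6_an.Operator

set_option autoImplicit false

namespace Pool.Agent.JLS

open Finset Filter Topology

theorem normalise {A B : Type} [NormedAddCommGroup A] [NormedSpace ℝ A] [NormedAddCommGroup B]
    [NormedSpace ℝ B] {K : ℝ} {E : Submodule ℝ A}
    (h : ∃ T : E →ₗ[ℝ] B, ∃ c : ℝ, 0 < c ∧ ∀ y : E, c * ‖y‖ ≤ ‖T y‖ ∧ ‖T y‖ ≤ K * c * ‖y‖) :
    ∃ T : A →ₗ[ℝ] B, ∀ y ∈ E, ‖y‖ ≤ ‖T y‖ ∧ ‖T y‖ ≤ K * ‖y‖ := by
  obtain ⟨T, c, hc, hT⟩ := h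
  obtain ⟨T', hT'⟩ := LinearMap.exists_extend T
  refine ⟨c⁻¹ • T', fun y hy => ?_⟩
  have e : T' y = T ⟨y, hy⟩ := by rw [← hT']; rfl
  have h1 := hT ⟨y, hy⟩
  rw [LinearMap.smul_apply, e, norm_smul, norm_inv, Real.norm_eq_abs, abs_of_pos hc,
    le_inv_mul_iff₀ hc, inv_mul_le_iff₀ hc]
  refine ⟨h1.1, h1.2.trans (le_of_eq ?_)⟩
  show K * c * ‖y‖ = _
  ring

namespace Rigid
variable (R : Rigid)

theorem prod_l2 : Nonempty (R.X ≃L[ℝ] R.X × L2) :=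
  R.absorb_range (ContinuousLinearMap.id ℝ R.X) 1 one_pos (fun y => by simp) 0 0
    ⟨0, fun z => by simp⟩ fun z => ⟨z, by simp⟩

theorem exists_embed (Y : Type) [NormedAddCommGroup Y] [NormedSpace ℝ Y] [CompleteSpace Y]
    [TopologicalSpace.SeparableSpace Y]
    (h1 : ∃ K : ℝ, 1 ≤ K ∧ ∀ E : Submodule ℝ Y, FiniteDimensional ℝ E →
      ∃ T : E →ₗ[ℝ] R.X, ∃ c : ℝ, 0 < c ∧ ∀ y : E, c * ‖y‖ ≤ ‖T y‖ ∧ ‖T y‖ ≤ K * c * ‖y‖) :
    ∃ (J : Y →L[ℝ] R.X) (c : ℝ), 0 < c ∧ ∀ y, c * ‖y‖ ≤ ‖J y‖ := by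
  classical
  obtain ⟨K, hK, h1⟩ := h1
  have hT := fun s : Finset Y => normalise (h1 (Submodule.span ℝ (s : Set Y)) inferInstance)
  choose T hT using hT
  let 𝒰 : Ultrafilter (Finset Y) := Ultrafilter.of atTop
  have hev : ∀ y : Y, ∀ᶠ s : Finset Y in (𝒰 : Filter (Finset Y)),
      y ∈ Submodule.span ℝ (s : Set Y) := fun y =>
    ((eventually_ge_atTop ({y} : Finset Y)).filter_mono (Ultrafilter.of_le _)).mono
      fun s hs => Submodule.subset_span (hs (mem_singleton_self y))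
  obtain ⟨S, hS⟩ := R.exists_ulim_lin 𝒰 T fun y => ⟨_, (hev y).mono fun s hs => (hT s y hs).2⟩
  have hSK : ∀ y, ‖S y‖ ≤ K * ‖y‖ := fun y => R.norm_le_of_vn
    (R.fatou (hS y) ((hev y).mono fun s hs => (hT s y hs).2) tendsto_const_nhds)
  obtain ⟨C, hC⟩ := R.tail_quad
  have key : ∀ s' : Finset Y, ∃ Q : QuadraticForm ℝ Y, ∀ y ∈ Submodule.span ℝ (s' : Set Y),
      (0 ≤ Q y ∧ Q y ≤ (C * K) ^ 2 * ‖y‖ ^ 2) ∧ ‖y‖ ≤ ‖S y‖ + √(Q y) := by
    intro s'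
    obtain ⟨π, hπ⟩ := LinearMap.exists_extend
      (LinearMap.id : Submodule.span ℝ (s' : Set Y) →ₗ[ℝ] Submodule.span ℝ (s' : Set Y))
    let π' : Y →ₗ[ℝ] Y := (Submodule.span ℝ (s' : Set Y)).subtype ∘ₗ π
    have hπ' : ∀ y ∈ Submodule.span ℝ (s' : Set Y), π' y = y := fun y hy =>
      congrArg Subtype.val (LinearMap.congr_fun hπ ⟨y, hy⟩)
    have hr : Set.range (fun j : Fin s'.card => (s'.equivFin.symm j : Y)) = s' := by
      ext y
      constructor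
      · rintro ⟨j, rfl⟩; exact (s'.equivFin.symm j).2
      · intro hy; exact ⟨s'.equivFin ⟨y, hy⟩, by simp⟩
    have hQ := fun s : Finset Y => hC s'.card s'.card (R.le_P _) Y (T s ∘ₗ π')
      (fun j => T s (s'.equivFin.symm j : Y)) fun y => by
        have h0 : π' y ∈ Submodule.span ℝ
            (Set.range (fun j : Fin s'.card => (s'.equivFin.symm j : Y))) := by
          rw [hr]; exact (π y).2
        have := Submodule.mem_map_of_mem (f := T s) h0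
        rw [Submodule.map_span, ← Set.range_comp] at this
        exact this
    choose Q hQ using hQ
    have hb : ∀ y, ∀ᶠ s in (𝒰 : Filter (Finset Y)),
        0 ≤ Q s y ∧ Q s y ≤ (C * K) ^ 2 * ‖π' y‖ ^ 2 := fun y =>
      (hev (π' y)).mono fun s hs => ⟨(sq_nonneg _).trans (hQ s y).1, (hQ s y).2.trans (by
        rw [mul_pow, mul_assoc, ← mul_pow K]
        exact mul_le_mul_of_nonneg_left (pow_le_pow_left₀ (norm_nonneg _)
          ((R.norm_proj_le _ _).trans (hT s _ hs).2) 2) (sq_nonneg _))⟩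
    obtain ⟨Q', hQ'⟩ := quad_ulim 𝒰 Q fun y => ⟨_, (hb y).mono fun s hs => by
      rw [abs_of_nonneg hs.1]; exact hs.2⟩
    refine ⟨Q', fun y hy => ⟨⟨ge_of_tendsto (hQ' y) ((hb y).mono fun s hs => hs.1), ?_⟩, ?_⟩⟩
    · have := le_of_tendsto (hQ' y) ((hb y).mono fun s hs => hs.2)
      rwa [hπ' y hy] at this
    · refine le_trans ?_ (add_le_add (R.vn_le_norm s'.card (S y)) le_rfl)
      refine ge_of_tendsto ((R.vn_tendsto (hS y) s'.card).add (hQ' y).sqrt)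
        ((hev y).mono fun s hs => (hT s y hs).1.trans ?_)
      have e : T s y = R.proj (Set.Iio (R.P s'.card)) (T s y) +
          R.proj (Set.Ici (R.P s'.card)) (T s y) := by rw [← sub_proj]; abel
      have h2 := (hQ s y).1
      rw [LinearMap.comp_apply, hπ' y hy] at h2
      refine (congrArg norm e).le.trans ((norm_add_le _ _).trans ?_)
      rw [norm_proj_Iio]
      exact add_le_add le_rfl (Real.le_sqrt_of_sq_le h2)
  choose Q hQ using key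
  obtain ⟨Q', hQ'⟩ := quad_ulim 𝒰 Q fun y => ⟨_, (hev y).mono fun s hs => by
    rw [abs_of_nonneg (hQ s y hs).1.1]; exact (hQ s y hs).1.2⟩
  exact embed_prod R.prod_l2 S Q' K (C * K) hSK
    (fun y => ⟨ge_of_tendsto (hQ' y) ((hev y).mono fun s hs => (hQ s y hs).1.1),
      le_of_tendsto (hQ' y) ((hev y).mono fun s hs => (hQ s y hs).1.2)⟩)
    fun y => ge_of_tendsto ((hQ' y).sqrt.const_add _) ((hev y).mono fun s hs => (hQ s y hs).2)

theorem propD (Y : Type) [NormedAddCommGroup Y] [NormedSpace ℝ Y] [CompleteSpace Y]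
    [TopologicalSpace.SeparableSpace Y]
    (h1 : ∃ K : ℝ, 1 ≤ K ∧ ∀ E : Submodule ℝ Y, FiniteDimensional ℝ E →
      ∃ T : E →ₗ[ℝ] R.X, ∃ c : ℝ, 0 < c ∧ ∀ y : E, c * ‖y‖ ≤ ‖T y‖ ∧ ‖T y‖ ≤ K * c * ‖y‖)
    (h2 : ∃ K : ℝ, 1 ≤ K ∧ ∀ E : Submodule ℝ R.X, FiniteDimensional ℝ E →
      ∃ T : E →ₗ[ℝ] Y, ∃ c : ℝ, 0 < c ∧ ∀ x : E, c * ‖x‖ ≤ ‖T x‖ ∧ ‖T x‖ ≤ K * c * ‖x‖) :
    Nonempty (Y ≃L[ℝ] R.X) := by
  obtain ⟨J, c, hc, hJ⟩ := R.exists_embed Y h1
  obtain ⟨K, hK, h2⟩ := h2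
  have hT := fun N : ℕ => normalise (h2 (Submodule.span ℝ (R.e '' Set.Iio (R.P N)))
    (FiniteDimensional.span_of_finite ℝ ((Set.finite_Iio _).image _)))
  choose T hT using hT
  have hP : ∀ N z, R.proj (Set.Iio (R.P N)) z ∈ Submodule.span ℝ (R.e '' Set.Iio (R.P N)) := by
    intro N z
    rw [proj_Iio_eq_sum]
    exact Submodule.sum_mem _ fun i hi => Submodule.smul_mem _ _
      (Submodule.subset_span ⟨i, mem_range.1 hi, rfl⟩)
  obtain ⟨C, hC⟩ := R.operator_thm (‖J‖ * (c⁻¹ * K))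
  have hS := fun N => hC N (J.toLinearMap ∘ₗ (c⁻¹ • T N) ∘ₗ R.proj (Set.Iio (R.P N))) fun z => by
    have h3 := hT N _ (hP N z)
    have h4 : ‖c⁻¹ • T N (R.proj (Set.Iio (R.P N)) z)‖ =
        c⁻¹ * ‖T N (R.proj (Set.Iio (R.P N)) z)‖ := by
      rw [norm_smul, norm_inv, Real.norm_eq_abs, abs_of_pos hc]
    constructor
    · refine h3.1.trans (le_trans (le_of_eq ?_) (hJ (c⁻¹ • T N (R.proj (Set.Iio (R.P N)) z))))
      rw [h4, mul_inv_cancel_left₀ hc.ne']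
    · refine (J.le_opNorm (c⁻¹ • T N (R.proj (Set.Iio (R.P N)) z))).trans ?_
      rw [h4, mul_assoc, mul_assoc]
      exact mul_le_mul_of_nonneg_left (mul_le_mul_of_nonneg_left h3.2 (by positivity))
        (norm_nonneg _)
  choose S hS using hS
  set W := fun N => R.proj (Set.Iio (R.P N)) -
    (J.toLinearMap ∘ₗ (c⁻¹ • T N) ∘ₗ R.proj (Set.Iio (R.P N))) ∘ₗ S N with hW
  have hS' : ∀ N, R.HF (W N) C := hS
  let 𝒰 : Ultrafilter ℕ := Ultrafilter.of atTop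
  obtain ⟨U, hU⟩ := R.exists_ulim_lin 𝒰 W fun z =>
    ⟨_, Eventually.of_forall fun N => (hS' N).norm_le R z⟩
  have hn := fun N z => (hS' N).norm_le R z
  choose Q hQ using hS'
  obtain ⟨Q', hQ'⟩ := quad_ulim 𝒰 Q fun z => ⟨_, Eventually.of_forall fun N => by
    rw [abs_of_nonneg ((sq_nonneg _).trans (hQ N z).1)]; exact (hQ N z).2⟩
  have hHF : ∀ z, ‖U z‖ ^ 2 ≤ Q' z ∧ Q' z ≤ C ^ 2 * ‖z‖ ^ 2 := by
    intro z
    refine ⟨?_, le_of_tendsto' (hQ' z) fun N => (hQ N z).2⟩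
    have h0 : 0 ≤ Q' z := ge_of_tendsto' (hQ' z) fun N => (sq_nonneg _).trans (hQ N z).1
    refine (Real.le_sqrt (norm_nonneg _) h0).1 (R.norm_le_of_vn (R.fatou (hU z)
      (Eventually.of_forall fun N => Real.le_sqrt_of_sq_le (hQ N z).1) (hQ' z).sqrt))
  have hcl : IsClosed ((LinearMap.range J.toLinearMap : Submodule ℝ R.X) : Set R.X) := by
    have ha : AntilipschitzWith ⟨c⁻¹, by positivity⟩ J :=
      J.antilipschitz_of_bound fun y => by
        show ‖y‖ ≤ c⁻¹ * ‖J y‖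
        rw [le_inv_mul_iff₀ hc]; exact hJ y
    exact ha.isClosed_range J.uniformContinuous
  have hr : ∀ z, ∃ y, z - U z = J y := by
    intro z
    obtain ⟨y, hy⟩ := R.mem_of_ulim (𝒰 : Filter ℕ) (fun N => R.proj (Set.Iio (R.P N)) z - W N z)
      (z - U z) (‖z‖ + |C| * ‖z‖) (Eventually.of_forall fun N =>
        (norm_sub_le _ _).trans (add_le_add (R.norm_proj_le _ _) (hn N z))) (fun i => by
        simp only [map_sub, Pi.sub_apply]
        refine Tendsto.sub (tendsto_const_nhds.congr' ?_) (hU z i)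
        refine ((eventually_gt_atTop i).filter_mono (Ultrafilter.of_le _)).mono fun N hN => ?_
        show _ = R.ι (R.proj (Set.Iio (R.P N)) z) i
        rw [ι_proj, res, Set.indicator_of_mem (Set.mem_Iio.2 (hN.trans_le (R.le_P N)))])
      _ hcl (Eventually.of_forall fun N => ⟨_, by
        rw [hW, LinearMap.sub_apply, sub_sub_cancel]; rfl⟩)
    exact ⟨y, hy.symm⟩
  exact compl_hilbert (R.absorb_range J c hc hJ U C ⟨Q', hHF⟩ hr) J c hc hJ U Q' C hHF hr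

end Rigid

end Pool.Agent.JLS
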