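import Pool.Agent.Lib.MP_2f16e6_an.Space

/-!
Lattice seminorms on a finite window, their duals, and seminorms generated by upper estimates.
-/

set_option autoImplicit false

namespace Pool.Agent.JLS

open Finset

/-- pairing of absolute values over the window `J` -/
noncomputable def pr (J : Finset ℕ) (x g : ℕ → ℝ) : ℝ := ∑ i ∈ J, |x i| * |g i|

theorem pr_nonneg (J : Finset ℕ) (x g : ℕ → ℝ) : 0 ≤ pr J x g :=
  sum_nonneg fun _ _ => mul_nonneg (abs_nonneg _) (abs_nonneg _)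

theorem pr_mono {J : Finset ℕ} {x x' g g' : ℕ → ℝ} (h1 : ∀ i ∈ J, |x i| ≤ |x' i|)
    (h2 : ∀ i ∈ J, |g i| ≤ |g' i|) : pr J x g ≤ pr J x' g' :=
  sum_le_sum fun i hi => mul_le_mul (h1 i hi) (h2 i hi) (abs_nonneg _) (abs_nonneg _)

theorem pr_add_right (J : Finset ℕ) (x g h : ℕ → ℝ) : pr J x (g + h) ≤ pr J x g + pr J x h := by
  unfold pr
  rw [← sum_add_distrib]
  refine sum_le_sum fun i _ => ?_
  rw [← mul_add]
  exact mul_le_mul_of_nonneg_left (abs_add_le _ _) (abs_nonneg _)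

theorem pr_comm (J : Finset ℕ) (x g : ℕ → ℝ) : pr J x g = pr J g x :=
  sum_congr rfl fun _ _ => mul_comm _ _

theorem pr_add_left (J : Finset ℕ) (x y g : ℕ → ℝ) : pr J (x + y) g ≤ pr J x g + pr J y g := by
  rw [pr_comm, pr_comm J x, pr_comm J y]; exact pr_add_right J g x y

theorem pr_smul_right (J : Finset ℕ) (x g : ℕ → ℝ) (c : ℝ) :
    pr J x (c • g) = |c| * pr J x g := by
  unfold pr
  rw [mul_sum]
  refine sum_congr rfl fun i _ => ?_
  rw [Pi.smul_apply, smul_eq_mul, abs_mul]; ring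

theorem pr_smul_left (J : Finset ℕ) (x g : ℕ → ℝ) (c : ℝ) :
    pr J (c • x) g = |c| * pr J x g := by
  rw [pr_comm, pr_smul_right, pr_comm]

theorem pr_eq_zero {J : Finset ℕ} {x g : ℕ → ℝ} (h : ∀ i ∈ J, x i = 0 ∨ g i = 0) :
    pr J x g = 0 :=
  sum_eq_zero fun i hi => by rcases h i hi with h | h <;> simp [h]

theorem pr_res_swap (J : Finset ℕ) (S : Set ℕ) (x g : ℕ → ℝ) :
    pr J (res S x) g = pr J x (res S g) :=
  sum_congr rfl fun i _ => by by_cases h : i ∈ S <;> simp [res, h]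

theorem pr_res_res (J : Finset ℕ) (S : Set ℕ) (x g : ℕ → ℝ) :
    pr J x (res S g) = pr J (res S x) (res S g) :=
  sum_congr rfl fun i _ => by by_cases h : i ∈ S <;> simp [res, h]

theorem abs_res_le (S : Set ℕ) (g : ℕ → ℝ) (i : ℕ) : |res S g i| ≤ |g i| := by
  by_cases h : i ∈ S <;> simp [res, h]

theorem pr_sum_left {κ : Type*} (J : Finset ℕ) (F : Finset κ) (x : κ → ℕ → ℝ) (g : ℕ → ℝ) :
    pr J (∑ k ∈ F, x k) g ≤ ∑ k ∈ F, pr J (x k) g := by
  unfold pr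
  rw [sum_comm]
  refine sum_le_sum fun i _ => ?_
  rw [← sum_mul, Finset.sum_apply]
  exact mul_le_mul_of_nonneg_right (abs_sum_le_sum_abs _ _) (abs_nonneg _)

/-- a function covered by sets is dominated by the sum of its restrictions -/
theorem pr_le_sum_res {κ : Type*} (J : Finset ℕ) (F : Finset κ) (S : κ → Set ℕ) (x g : ℕ → ℝ)
    (h : ∀ i ∈ J, x i ≠ 0 → g i ≠ 0 → ∃ k ∈ F, i ∈ S k) :
    pr J x g ≤ ∑ k ∈ F, pr J (res (S k) x) (res (S k) g) := by
  unfold pr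
  rw [sum_comm]
  refine sum_le_sum fun i hi => ?_
  by_cases hx : x i = 0
  · simpa [hx] using sum_nonneg fun k _ => mul_nonneg (abs_nonneg _) (abs_nonneg _)
  by_cases hg : g i = 0
  · simpa [hg] using sum_nonneg fun k _ => mul_nonneg (abs_nonneg _) (abs_nonneg _)
  obtain ⟨k, hk, hik⟩ := h i hi hx hg
  refine le_trans ?_ (single_le_sum (f := fun k => |res (S k) x i| * |res (S k) g i|)
    (fun k _ => mul_nonneg (abs_nonneg _) (abs_nonneg _)) hk)
  simp [res, hik]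

theorem pr_le_sqrt (J : Finset ℕ) (x g : ℕ → ℝ) :
    pr J x g ≤ √(∑ i ∈ J, x i ^ 2) * √(∑ i ∈ J, g i ^ 2) := by
  have := Real.sum_mul_le_sqrt_mul_sqrt J (fun i => |x i|) (fun i => |g i|)
  simpa [sq_abs, pr] using this

/-- sums of squares over disjoint sets -/
theorem sum_sq_res_le {κ : Type*} (J : Finset ℕ) (F : Finset κ) (S : κ → Set ℕ)
    (hd : ∀ l ∈ F, ∀ l' ∈ F, l ≠ l' → Disjoint (S l) (S l')) (f : ℕ → ℝ) (hf : ∀ i ∈ J, 0 ≤ f i) :
    ∑ l ∈ F, ∑ i ∈ J, res (S l) f i ≤ ∑ i ∈ J, f i := by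
  classical
  rw [sum_comm]
  refine sum_le_sum fun i hi => ?_
  by_cases h : ∃ l ∈ F, i ∈ S l
  · obtain ⟨l, hl, hil⟩ := h
    rw [sum_eq_single_of_mem l hl fun l' hl' hne => ?_]
    · simp [res, hil]
    · have := Set.disjoint_left.1 (hd l hl l' hl' hne.symm) hil
      simp [res, this]
  · rw [sum_eq_zero fun l hl => ?_]
    · exact hf i hi
    · have : i ∉ S l := fun h' => h ⟨l, hl, h'⟩
      simp [res, this]

theorem res_sq (S : Set ℕ) (g : ℕ → ℝ) (i : ℕ) : res S g i ^ 2 = res S (fun i => g i ^ 2) i := by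
  by_cases h : i ∈ S <;> simp [res, h]

theorem abs_res (S : Set ℕ) (g : ℕ → ℝ) (i : ℕ) : |res S g i| = res S (fun i => |g i|) i := by
  by_cases h : i ∈ S <;> simp [res, h]

theorem res_res (S S' : Set ℕ) (g : ℕ → ℝ) : res S (res S' g) = res (S ∩ S') g :=
  Set.indicator_indicator _ _ _

theorem res_comm (S S' : Set ℕ) (g : ℕ → ℝ) : res S (res S' g) = res S' (res S g) := by
  rw [res_res, res_res, Set.inter_comm]

theorem res_smul (S : Set ℕ) (c : ℝ) (g : ℕ → ℝ) : res S (c • g) = c • res S g := by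
  funext i; by_cases h : i ∈ S <;> simp [res, h]

theorem res_add (S : Set ℕ) (g h : ℕ → ℝ) : res S (g + h) = res S g + res S h := by
  funext i; by_cases hi : i ∈ S <;> simp [res, hi]

theorem res_sum {κ : Type*} (S : Set ℕ) (F : Finset κ) (g : κ → ℕ → ℝ) :
    res S (∑ k ∈ F, g k) = ∑ k ∈ F, res S (g k) := by
  funext i; by_cases hi : i ∈ S <;> simp [res, hi, Finset.sum_apply]

/-- lattice seminorm on the window `J` with normalised unit vectors -/
structure IsLN (J : Finset ℕ) (p : (ℕ → ℝ) → ℝ) : Prop where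
  add_le : ∀ g h, p (g + h) ≤ p g + p h
  smul_eq : ∀ (c : ℝ) g, p (c • g) = |c| * p g
  solid : ∀ g h, (∀ i ∈ J, |g i| ≤ |h i|) → p g ≤ p h
  le_l1 : ∀ g, p g ≤ ∑ i ∈ J, |g i|
  abs_le : ∀ g, ∀ i ∈ J, |g i| ≤ p g

namespace IsLN

variable {J : Finset ℕ} {p : (ℕ → ℝ) → ℝ} (h : IsLN J p)
include h

theorem zero : p 0 = 0 := by simpa using h.smul_eq 0 0

theorem nonneg (g : ℕ → ℝ) : 0 ≤ p g := by
  rw [← h.zero]; exact h.solid 0 g fun i _ => by simp

theorem eq_zero {g : ℕ → ℝ} (e : ∀ i ∈ J, g i = 0) : p g = 0 :=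
  le_antisymm (by rw [← h.zero]; exact h.solid _ _ fun i hi => by simp [e i hi]) (h.nonneg g)

theorem le_mul {g g' : ℕ → ℝ} {c : ℝ} (hc : 0 ≤ c) (e : ∀ i ∈ J, |g i| ≤ c * |g' i|) :
    p g ≤ c * p g' := by
  have h1 := h.smul_eq c g'
  rw [abs_of_nonneg hc] at h1
  rw [← h1]
  exact h.solid _ _ fun i hi => by simpa [abs_mul, abs_of_nonneg hc] using e i hi

theorem res_le (S : Set ℕ) (g : ℕ → ℝ) : p (res S g) ≤ p g :=
  h.solid _ _ fun i _ => abs_res_le S g i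

theorem sum_le {κ : Type*} (F : Finset κ) (g : κ → ℕ → ℝ) :
    p (∑ k ∈ F, g k) ≤ ∑ k ∈ F, p (g k) := by
  classical
  induction F using Finset.induction_on with
  | empty => simp [h.zero]
  | insert a F ha ih =>
    rw [sum_insert ha, sum_insert ha]
    exact (h.add_le _ _).trans (add_le_add le_rfl ih)

theorem le_add {g g1 g2 : ℕ → ℝ} (e : ∀ i ∈ J, |g i| ≤ |g1 i| + |g2 i|) : p g ≤ p g1 + p g2 := by
  have h1 : p g ≤ p ((fun i => |g1 i|) + fun i => |g2 i|) :=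
    h.solid _ _ fun i hi => (e i hi).trans (le_abs_self _)
  refine h1.trans ((h.add_le _ _).trans (add_le_add ?_ ?_)) <;>
    exact h.solid _ _ fun i _ => by simp

end IsLN

/-- the dual lattice seminorm -/
noncomputable def dual (J : Finset ℕ) (p : (ℕ → ℝ) → ℝ) (x : ℕ → ℝ) : ℝ :=
  sSup {v | ∃ g, p g ≤ 1 ∧ v = pr J x g}

namespace IsLN

variable {J : Finset ℕ} {p : (ℕ → ℝ) → ℝ} (h : IsLN J p)
include h

theorem pr_le_l1 (x g : ℕ → ℝ) : pr J x g ≤ (∑ i ∈ J, |x i|) * p g := by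
  rw [sum_mul]
  exact sum_le_sum fun i hi => mul_le_mul_of_nonneg_left (h.abs_le g i hi) (abs_nonneg _)

theorem dual_bdd (x : ℕ → ℝ) : BddAbove {v | ∃ g, p g ≤ 1 ∧ v = pr J x g} := by
  refine ⟨∑ i ∈ J, |x i|, ?_⟩
  rintro _ ⟨g, hg, rfl⟩
  exact (h.pr_le_l1 x g).trans
    (mul_le_of_le_one_right (sum_nonneg fun _ _ => abs_nonneg _) hg)

theorem dual_ne (x : ℕ → ℝ) : {v | ∃ g, p g ≤ 1 ∧ v = pr J x g}.Nonempty :=
  ⟨_, 0, by rw [h.zero]; norm_num, rfl⟩

theorem pr_le_dual (x : ℕ → ℝ) {g : ℕ → ℝ} (hg : p g ≤ 1) : pr J x g ≤ dual J p x :=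
  le_csSup (h.dual_bdd x) ⟨g, hg, rfl⟩

theorem dual_le {x : ℕ → ℝ} {B : ℝ} (hB : ∀ g, p g ≤ 1 → pr J x g ≤ B) : dual J p x ≤ B :=
  csSup_le (h.dual_ne x) (by rintro _ ⟨g, hg, rfl⟩; exact hB g hg)

theorem dual_le' {x : ℕ → ℝ} {B : ℝ} (h0 : 0 ≤ B) (hB : ∀ g, pr J x g ≤ B * p g) :
    dual J p x ≤ B :=
  h.dual_le fun g hg => (hB g).trans (mul_le_of_le_one_right h0 hg)

theorem exists_near (x : ℕ → ℝ) {ε : ℝ} (hε : 0 < ε) :
    ∃ g, p g ≤ 1 ∧ dual J p x - ε < pr J x g := by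
  obtain ⟨_, ⟨g, hg, rfl⟩, hv⟩ := exists_lt_of_lt_csSup (h.dual_ne x) (sub_lt_self _ hε)
  exact ⟨g, hg, hv⟩

theorem pr_le (x g : ℕ → ℝ) : pr J x g ≤ dual J p x * p g := by
  rcases (h.nonneg g).eq_or_lt with h0 | h0
  · rw [← h0, mul_zero, pr_eq_zero fun i hi => Or.inr ?_]
    have := h.abs_le g i hi
    rw [← h0] at this
    simpa using this
  · have h1 : p ((p g)⁻¹ • g) ≤ 1 := by
      rw [h.smul_eq, abs_of_pos (inv_pos.2 h0), inv_mul_cancel₀ h0.ne']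
    have h2 := h.pr_le_dual x h1
    rw [pr_smul_right, abs_of_pos (inv_pos.2 h0), inv_mul_le_iff₀ h0] at h2
    linarith [mul_comm (p g) (dual J p x)]

theorem dual_isLN : IsLN J (dual J p) where
  add_le x y := h.dual_le fun g hg =>
    (pr_add_left J x y g).trans (add_le_add (h.pr_le_dual x hg) (h.pr_le_dual y hg))
  smul_eq c x := by
    have key : ∀ (c : ℝ) (x : ℕ → ℝ), dual J p (c • x) ≤ |c| * dual J p x := fun c x =>
      h.dual_le fun g hg => by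
        rw [pr_smul_left]; exact mul_le_mul_of_nonneg_left (h.pr_le_dual x hg) (abs_nonneg c)
    refine le_antisymm (key c x) ?_
    by_cases hc : c = 0
    · subst hc
      simpa using (pr_nonneg J _ 0).trans (h.pr_le_dual _ (g := 0) (by rw [h.zero]; norm_num))
    · have := key c⁻¹ (c • x)
      rw [smul_smul, inv_mul_cancel₀ hc, one_smul, abs_inv,
        le_inv_mul_iff₀ (abs_pos.2 hc)] at this
      exact this
  solid x y e := h.dual_le fun g hg => (pr_mono e fun _ _ => le_rfl).trans (h.pr_le_dual y hg)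
  le_l1 x := h.dual_le' (sum_nonneg fun _ _ => abs_nonneg _) (h.pr_le_l1 x)
  abs_le x i hi := by
    have h1 : p (Pi.single i 1) ≤ 1 := (h.le_l1 _).trans (by
      rw [sum_eq_single_of_mem i hi fun j _ hj => by simp [Pi.single_eq_of_ne hj]]; simp)
    refine le_trans ?_ (h.pr_le_dual x h1)
    unfold pr
    rw [sum_eq_single_of_mem i hi fun j _ hj => by simp [Pi.single_eq_of_ne hj]]
    simp

theorem pr_le' (x : ℕ → ℝ) {g : ℕ → ℝ} {t : ℝ} (hg : p g ≤ t) : pr J x g ≤ dual J p x * t :=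
  (h.pr_le x g).trans (mul_le_mul_of_nonneg_left hg (h.dual_isLN.nonneg x))

end IsLN

/-- relations `‖g‖ ≤ t` -/
abbrev Rel : Type := (ℕ → ℝ) → ℝ → Prop

structure Closed (J : Finset ℕ) (Op : Rel → Rel) (R : Rel) : Prop where
  base : ∀ g t, ∑ i ∈ J, |g i| ≤ t → R g t
  add : ∀ g h t u, R g t → R h u → R (g + h) (t + u)
  mono : ∀ g h t u, R g t → (∀ i ∈ J, |h i| ≤ |g i|) → t ≤ u → R h u
  op : ∀ g t, Op R g t → R g t

/-- the least closed relation -/
def GLe (J : Finset ℕ) (Op : Rel → Rel) : Rel := fun g t => ∀ R, Closed J Op R → R g t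

structure OpOK (J : Finset ℕ) (Op : Rel → Rel) : Prop where
  scale : ∀ (R R' : Rel) (c c' : ℝ), 0 < c → c ≤ c' → (∀ g t, R g t → R' (c • g) (c' * t)) →
    ∀ g t, Op R g t → Op R' (c • g) (c' * t)
  sup : ∀ g t, Op (fun g t => 0 ≤ t ∧ ∀ i ∈ J, |g i| ≤ t) g t → 0 ≤ t ∧ ∀ i ∈ J, |g i| ≤ t

/-- the largest lattice seminorm below `ℓ₁` satisfying the upper estimates `Op` -/
noncomputable def gn (J : Finset ℕ) (Op : Rel → Rel) (g : ℕ → ℝ) : ℝ := sInf {t | GLe J Op g t}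

namespace OpOK

variable {J : Finset ℕ} {Op : Rel → Rel} (h : OpOK J Op)
include h

theorem mono {R R' : Rel} (e : ∀ g t, R g t → R' g t) {g : ℕ → ℝ} {t : ℝ} (ho : Op R g t) :
    Op R' g t := by
  simpa using h.scale R R' 1 1 one_pos le_rfl (by simpa using e) g t ho

theorem closed : Closed J Op (GLe J Op) where
  base g t e R hR := hR.base g t e
  add g g' t u e1 e2 R hR := hR.add _ _ _ _ (e1 R hR) (e2 R hR)
  mono g g' t u e1 e2 e3 R hR := hR.mono _ _ _ _ (e1 R hR) e2 e3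
  op g t e R hR := hR.op _ _ (h.mono (fun _ _ e => e R hR) e)

theorem sup_le {g : ℕ → ℝ} {t : ℝ} (e : GLe J Op g t) : 0 ≤ t ∧ ∀ i ∈ J, |g i| ≤ t := by
  refine e (fun g t => 0 ≤ t ∧ ∀ i ∈ J, |g i| ≤ t) ⟨?_, ?_, ?_, h.sup⟩
  · intro g t e
    exact ⟨(sum_nonneg fun _ _ => abs_nonneg _).trans e, fun i hi =>
      (single_le_sum (f := fun i => |g i|) (fun _ _ => abs_nonneg _) hi).trans e⟩
  · intro g g' t u e1 e2
    exact ⟨add_nonneg e1.1 e2.1, fun i hi =>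
      (abs_add_le _ _).trans (add_le_add (e1.2 i hi) (e2.2 i hi))⟩
  · intro g g' t u e1 e2 e3
    exact ⟨e1.1.trans e3, fun i hi => (e2 i hi).trans ((e1.2 i hi).trans e3)⟩

theorem smul {g : ℕ → ℝ} {t c : ℝ} (hc : 0 < c) (e : GLe J Op g t) :
    GLe J Op (c • g) (c * t) := by
  refine e (fun g t => GLe J Op (c • g) (c * t)) ⟨?_, ?_, ?_, ?_⟩
  · intro g t e
    refine h.closed.base _ _ ?_
    simp_rw [Pi.smul_apply, smul_eq_mul, abs_mul, abs_of_pos hc, ← mul_sum]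
    exact mul_le_mul_of_nonneg_left e hc.le
  · intro g g' t u e1 e2
    simpa [mul_add] using h.closed.add _ _ _ _ e1 e2
  · intro g g' t u e1 e2 e3
    refine h.closed.mono _ _ _ _ e1 (fun i hi => ?_) (mul_le_mul_of_nonneg_left e3 hc.le)
    simp_rw [Pi.smul_apply, smul_eq_mul, abs_mul]
    exact mul_le_mul_of_nonneg_left (e2 i hi) (abs_nonneg _)
  · intro g t e
    exact h.closed.op _ _ (h.scale _ _ c c hc le_rfl (fun _ _ e => e) g t e)

theorem gn_le {g : ℕ → ℝ} {t : ℝ} (e : GLe J Op g t) : gn J Op g ≤ t :=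
  csInf_le ⟨0, fun _ e => (h.sup_le e).1⟩ e

theorem le_gn {g : ℕ → ℝ} {v : ℝ} (e : ∀ t, GLe J Op g t → v ≤ t) : v ≤ gn J Op g :=
  le_csInf ⟨_, h.closed.base g _ le_rfl⟩ e

theorem gle_of_lt {g : ℕ → ℝ} {t : ℝ} (e : gn J Op g < t) : GLe J Op g t := by
  obtain ⟨u, hu, hut⟩ := exists_lt_of_csInf_lt ⟨_, h.closed.base g _ le_rfl⟩ e
  exact h.closed.mono _ _ _ _ hu (fun _ _ => le_rfl) hut.le

theorem isLN : IsLN J (gn J Op) where
  add_le g g' := by
    refine le_of_forall_pos_le_add fun ε hε => ?_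
    have := h.gn_le (h.closed.add _ _ _ _ (h.gle_of_lt (lt_add_of_pos_right (gn J Op g) (half_pos hε)))
      (h.gle_of_lt (lt_add_of_pos_right (gn J Op g') (half_pos hε))))
    linarith
  smul_eq c g := by
    have key : ∀ (c : ℝ) (g : ℕ → ℝ), c ≠ 0 → gn J Op (c • g) ≤ |c| * gn J Op g := by
      intro c g hc
      have hc' := abs_pos.2 hc
      rw [← inv_mul_le_iff₀ hc']
      refine h.le_gn fun t ht => ?_
      rw [inv_mul_le_iff₀ hc']
      exact h.gn_le (h.closed.mono _ _ _ _ (h.smul hc' ht) (fun i _ => by simp [abs_mul]) le_rfl)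
    by_cases hc : c = 0
    · subst hc
      simp only [zero_smul, abs_zero, zero_mul]
      exact le_antisymm (h.gn_le (h.closed.base _ _ (by simp))) (h.le_gn fun t e => (h.sup_le e).1)
    · refine le_antisymm (key c g hc) ?_
      have := key c⁻¹ (c • g) (inv_ne_zero hc)
      rw [smul_smul, inv_mul_cancel₀ hc, one_smul, abs_inv,
        le_inv_mul_iff₀ (abs_pos.2 hc)] at this
      exact this
  solid g g' e := h.le_gn fun t ht => h.gn_le (h.closed.mono _ _ _ _ ht e le_rfl)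
  le_l1 g := h.gn_le (h.closed.base _ _ le_rfl)
  abs_le g i hi := h.le_gn fun t ht => (h.sup_le ht).2 i hi

/-- the generated seminorm satisfies the upper estimates -/
theorem gn_op {g : ℕ → ℝ} {t : ℝ} (ht : 0 ≤ t) (e : Op (fun g t => gn J Op g ≤ t) g t) :
    gn J Op g ≤ t := by
  have key : ∀ ε : ℝ, 0 < ε → gn J Op g ≤ (1 + ε) * t := by
    intro ε hε
    have := h.scale _ (GLe J Op) 1 (1 + ε) one_pos (by linarith) (fun g t e => ?_) g t e
    · rw [one_smul] at this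
      exact h.gn_le (h.closed.op _ _ this)
    · rw [one_smul]
      rcases ((h.isLN.nonneg g).trans e).eq_or_lt with h0 | h0
      · refine h.closed.base _ _ ?_
        rw [← h0, mul_zero, sum_eq_zero fun i hi => ?_]
        exact le_antisymm ((h.isLN.abs_le g i hi).trans (e.trans h0.ge)) (abs_nonneg _)
      · exact h.gle_of_lt (by nlinarith)
  refine le_of_forall_pos_le_add fun ε hε => ?_
  have := key (ε / (t + 1)) (by positivity)
  have h2 : ε / (t + 1) * t ≤ ε := by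
    rw [div_mul_eq_mul_div, div_le_iff₀ (by linarith)]; nlinarith
  nlinarith

/-- induction principle: lower bounds for the generated seminorm -/
theorem le_gn_of {ψ : (ℕ → ℝ) → ℝ} (h1 : ∀ g, ψ g ≤ ∑ i ∈ J, |g i|)
    (h2 : ∀ g g', ψ (g + g') ≤ ψ g + ψ g')
    (h3 : ∀ g g', (∀ i ∈ J, |g i| ≤ |g' i|) → ψ g ≤ ψ g')
    (h4 : ∀ g t, Op (fun g t => gn J Op g ≤ t ∧ ψ g ≤ t) g t → ψ g ≤ t) (g : ℕ → ℝ) :
    ψ g ≤ gn J Op g := by
  refine h.le_gn fun t ht => (ht (fun g t => GLe J Op g t ∧ ψ g ≤ t) ⟨?_, ?_, ?_, ?_⟩).2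
  · intro g t e; exact ⟨h.closed.base _ _ e, (h1 g).trans e⟩
  · intro g g' t u e1 e2
    exact ⟨h.closed.add _ _ _ _ e1.1 e2.1, (h2 _ _).trans (add_le_add e1.2 e2.2)⟩
  · intro g g' t u e1 e2 e3
    exact ⟨h.closed.mono _ _ _ _ e1.1 e2 e3, (h3 _ _ e2).trans (e1.2.trans e3)⟩
  · intro g t e
    exact ⟨h.closed.op _ _ (h.mono (fun _ _ e => e.1) e),
      h4 _ _ (h.mono (fun _ _ e => ⟨h.gn_le e.1, e.2⟩) e)⟩

/-- unfolding principle: upper bounds for the dual seminorm -/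
theorem dual_le_of {x : ℕ → ℝ} {B : ℝ} (hB : 0 < B) (h1 : ∀ i ∈ J, |x i| ≤ B)
    (h4 : ∀ g t, Op (fun g t => gn J Op g ≤ t) g t → pr J x g ≤ B * t) :
    dual J (gn J Op) x ≤ B := by
  refine h.isLN.dual_le' hB.le fun g => ?_
  rw [← inv_mul_le_iff₀ hB]
  refine h.le_gn_of (ψ := fun g => B⁻¹ * pr J x g) (fun g => ?_) (fun g g' => ?_)
    (fun g g' e => ?_) (fun g t e => ?_) g
  · rw [inv_mul_le_iff₀ hB, mul_sum]
    exact sum_le_sum fun i hi => mul_le_mul_of_nonneg_right (h1 i hi) (abs_nonneg _)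
  · rw [← mul_add]
    exact mul_le_mul_of_nonneg_left (pr_add_right J x g g') (inv_pos.2 hB).le
  · exact mul_le_mul_of_nonneg_left (pr_mono (fun _ _ => le_rfl) e) (inv_pos.2 hB).le
  · rw [inv_mul_le_iff₀ hB]
    exact h4 g t (h.mono (fun _ _ e => e.1) e)

end OpOK

end Pool.Agent.JLS
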