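import Mathlib

/-!
Hilbert space lemmas for the counterexample for MP_2f16e6_an: ultralimits of quadratic forms,
the sign lemma, absorption of `ℓ₂`, and operators factoring through Hilbert spaces.
-/

set_option autoImplicit false

namespace Pool.Agent.JLS

open Finset Filter Topology

/-- real `ℓ₂` -/
abbrev L2 : Type := lp (fun _ : ℕ => ℝ) 2

theorem quad_ulim {κ E : Type} [AddCommGroup E] [Module ℝ E] (𝒰 : Ultrafilter κ)
    (Q : κ → QuadraticForm ℝ E) (hb : ∀ y, ∃ B, ∀ᶠ j in (𝒰 : Filter κ), |Q j y| ≤ B) :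
    ∃ Q' : QuadraticForm ℝ E, ∀ y, Tendsto (fun j => Q j y) 𝒰 (𝓝 (Q' y)) := by
  have hex : ∀ y, ∃ a : ℝ, Tendsto (fun j => Q j y) 𝒰 (𝓝 a) := by
    intro y
    obtain ⟨B, hB⟩ := hb y
    have hmem : Set.Icc (-B) B ∈ (𝒰.map fun j => Q j y) := by
      rw [Ultrafilter.mem_map]
      filter_upwards [hB] with j hj using abs_le.1 hj
    obtain ⟨a, -, ha⟩ := (isCompact_Icc (a := -B) (b := B)).ultrafilter_le_nhds
      (𝒰.map fun j => Q j y) (le_principal_iff.2 hmem)
    exact ⟨a, ha⟩
  choose f hf using hex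
  have hp : ∀ x y, Tendsto (fun j => QuadraticMap.polar (Q j) x y) 𝒰
      (𝓝 (QuadraticMap.polar f x y)) := fun x y =>
    ((hf (x + y)).sub (hf x)).sub (hf y)
  refine ⟨QuadraticMap.ofPolar f ?_ ?_ ?_, hf⟩
  · intro a x
    refine tendsto_nhds_unique (hf (a • x)) ?_
    simp only [QuadraticMap.map_smul]
    exact (hf x).const_smul (a * a)
  · intro x x' y
    refine tendsto_nhds_unique (hp (x + x') y) ?_
    simp only [QuadraticMap.polar_add_left]
    exact (hp x y).add (hp x' y)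
  · intro a x y
    refine tendsto_nhds_unique (hp (a • x) y) ?_
    simp only [QuadraticMap.polar_smul_left]
    exact (hp x y).const_smul a

theorem sign_lemma {κ E : Type} [AddCommGroup E] [Module ℝ E] (Q : QuadraticForm ℝ E)
    (F : Finset κ) (v : κ → E) :
    ∃ ε : κ → ℝ, (∀ i, ε i = 1 ∨ ε i = -1) ∧ Q (∑ i ∈ F, ε i • v i) ≤ ∑ i ∈ F, Q (v i) := by
  classical
  induction F using Finset.induction_on with
  | empty => exact ⟨fun _ => 1, fun _ => Or.inl rfl, by simp⟩
  | insert a F ha ih =>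
    obtain ⟨ε, hε, hle⟩ := ih
    set s := ∑ i ∈ F, ε i • v i with hs
    have key : ∃ η : ℝ, (η = 1 ∨ η = -1) ∧ Q (η • v a + s) ≤ Q (v a) + Q s := by
      have h1 : ∀ η : ℝ, Q (η • v a + s) =
          η * η * Q (v a) + Q s + η * QuadraticMap.polar Q (v a) s := by
        intro η
        rw [QuadraticMap.map_add Q, QuadraticMap.map_smul, QuadraticMap.polar_smul_left]
        simp
      rcases le_total (QuadraticMap.polar Q (v a) s) 0 with h | h
      · exact ⟨1, Or.inl rfl, by rw [h1]; linarith⟩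
      · exact ⟨-1, Or.inr rfl, by rw [h1]; linarith⟩
    obtain ⟨η, hη, hQ⟩ := key
    refine ⟨Function.update ε a η, fun i => ?_, ?_⟩
    · by_cases hi : i = a
      · subst hi; simpa using hη
      · simpa [Function.update_of_ne hi] using hε i
    · rw [sum_insert ha, sum_insert ha, Function.update_self]
      have : ∑ i ∈ F, Function.update ε a η i • v i = s := by
        refine sum_congr rfl fun i hi => ?_
        rw [Function.update_of_ne (by rintro rfl; exact ha hi)]
      rw [this]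
      linarith

/-- an orthonormal family in a separable space is countable -/
theorem orthonormal_countable {H ι : Type} [NormedAddCommGroup H] [InnerProductSpace ℝ H]
    [TopologicalSpace.SeparableSpace H] {v : ι → H} (hv : Orthonormal ℝ v) : Countable ι := by
  refine Pairwise.countable_of_isOpen_disjoint (s := fun i => Metric.ball (v i) (1 / 2))
    (fun i j hij => ?_) (fun i => Metric.isOpen_ball)
    (fun i => ⟨v i, Metric.mem_ball_self (by norm_num)⟩)
  apply Metric.ball_disjoint_ball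
  rw [dist_eq_norm]
  have h2 : ‖v i - v j‖ ^ 2 = 2 := by
    rw [@norm_sub_sq_real, hv.1 i, hv.1 j, hv.2 hij]
    norm_num
  nlinarith [norm_nonneg (v i - v j)]

/-- a separable infinite-dimensional Hilbert space is isomorphic to `ℓ₂` -/
theorem hilbert_equiv {H : Type} [NormedAddCommGroup H] [InnerProductSpace ℝ H] [CompleteSpace H]
    [TopologicalSpace.SeparableSpace H] (hH : ¬ FiniteDimensional ℝ H) :
    Nonempty (H ≃L[ℝ] L2) := by
  obtain ⟨w, b, -⟩ := exists_hilbertBasis ℝ H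
  have : Countable w := orthonormal_countable b.orthonormal
  have : Infinite w := by
    by_contra h
    have : Finite w := not_infinite_iff_finite.1 h
    have := Fintype.ofFinite w
    exact hH (Module.Finite.of_basis b.toOrthonormalBasis.toBasis)
  obtain ⟨e⟩ : Nonempty (ℕ ≃ w) := nonempty_equiv_of_countable
  have hon : Orthonormal ℝ (b ∘ e) := b.orthonormal.comp e e.injective
  have hsp : ⊤ ≤ (Submodule.span ℝ (Set.range (b ∘ e))).topologicalClosure := by
    rw [e.surjective.range_comp, b.dense_span]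
  exact ⟨(HilbertBasis.mk hon hsp).repr.toContinuousLinearEquiv⟩

instance L2_separable : TopologicalSpace.SeparableSpace L2 := by
  let b : HilbertBasis ℕ ℝ L2 := default
  have h1 : TopologicalSpace.IsSeparable
      (Submodule.span ℝ (Set.range b) : Set L2) :=
    (Set.countable_range b).isSeparable.span
  have h2 := h1.closure
  rw [← Submodule.topologicalClosure_coe, b.dense_span] at h2
  simpa [TopologicalSpace.isSeparable_univ_iff] using h2

theorem L2_not_finiteDimensional : ¬ FiniteDimensional ℝ L2 := by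
  intro h
  let b : HilbertBasis ℕ ℝ L2 := default
  exact not_finite_iff_infinite.2 inferInstance
    (b.orthonormal.linearIndependent.finite_of_isNoetherian)

/-- a separable Hilbert space is absorbed by `ℓ₂` -/
theorem hilbert_prod (H : Type) [NormedAddCommGroup H] [InnerProductSpace ℝ H] [CompleteSpace H]
    [TopologicalSpace.SeparableSpace H] : Nonempty ((H × L2) ≃L[ℝ] L2) := by
  let e := WithLp.prodContinuousLinearEquiv 2 ℝ H L2
  have : TopologicalSpace.SeparableSpace (WithLp 2 (H × L2)) :=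
    e.symm.surjective.denseRange.separableSpace e.symm.continuous
  have hfd : ¬ FiniteDimensional ℝ (WithLp 2 (H × L2)) := by
    intro h
    have : FiniteDimensional ℝ (H × L2) := e.toLinearEquiv.finiteDimensional
    exact L2_not_finiteDimensional
      (Module.Finite.of_surjective (LinearMap.snd ℝ H L2) Prod.snd_surjective)
  obtain ⟨f⟩ := hilbert_equiv hfd
  exact ⟨e.symm.trans f⟩

/-- type synonym carrying the seminorm given by a nonnegative quadratic form -/
def QSp {E : Type} [AddCommGroup E] [Module ℝ E] (Q : QuadraticForm ℝ E)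
    (_h : ∀ z, 0 ≤ Q z) : Type := E

namespace QSp

variable {E : Type} [AddCommGroup E] [Module ℝ E] (Q : QuadraticForm ℝ E) (h : ∀ z, 0 ≤ Q z)

instance : AddCommGroup (QSp Q h) := inferInstanceAs (AddCommGroup E)
instance : Module ℝ (QSp Q h) := inferInstanceAs (Module ℝ E)

/-- the identity map into the synonym -/
def of : E →ₗ[ℝ] QSp Q h where
  toFun z := z
  map_add' _ _ := rfl
  map_smul' _ _ := rfl

/-- the identity map out of the synonym -/
def out : QSp Q h →ₗ[ℝ] E where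
  toFun z := z
  map_add' _ _ := rfl
  map_smul' _ _ := rfl

/-- the semi-inner product given by the polar form -/
@[reducible] noncomputable def core : PreInnerProductSpace.Core ℝ (QSp Q h) where
  inner x y := QuadraticMap.polar Q (out Q h x) (out Q h y) / 2
  conj_inner_symm x y := by
    simp [QuadraticMap.polar_comm Q (out Q h y)]
  re_inner_nonneg x := by
    have := h (out Q h x)
    simp only [QuadraticMap.polar_self, RCLike.re_to_real, nsmul_eq_mul]
    positivity
  add_left x y z := by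
    rw [map_add, QuadraticMap.polar_add_left]; ring
  smul_left x y r := by
    rw [map_smul, QuadraticMap.polar_smul_left]; simp; ring

noncomputable instance : SeminormedAddCommGroup (QSp Q h) :=
  @InnerProductSpace.Core.toSeminormedAddCommGroup ℝ (QSp Q h) _ _ _ (core Q h)

noncomputable instance : InnerProductSpace ℝ (QSp Q h) := InnerProductSpace.ofCore (core Q h)

theorem norm_sq_of (z : E) : ‖of Q h z‖ ^ 2 = Q z := by
  rw [← real_inner_self_eq_norm_sq]
  change QuadraticMap.polar Q z z / 2 = Q z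
  rw [QuadraticMap.polar_self]
  simp

end QSp

/-- a bounded nonnegative quadratic form comes from a map with dense range into a Hilbert space -/
theorem hilbert_of_quad {E : Type} [NormedAddCommGroup E] [NormedSpace ℝ E]
    [TopologicalSpace.SeparableSpace E] (Q : QuadraticForm ℝ E) (C : ℝ)
    (hQ : ∀ z, 0 ≤ Q z ∧ Q z ≤ C ^ 2 * ‖z‖ ^ 2) :
    ∃ (H : Type) (_ : NormedAddCommGroup H) (_ : InnerProductSpace ℝ H) (_ : CompleteSpace H)
      (_ : TopologicalSpace.SeparableSpace H) (α : E →L[ℝ] H),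
      DenseRange α ∧ ∀ z, ‖α z‖ ^ 2 = Q z := by
  have h : ∀ z, 0 ≤ Q z := fun z => (hQ z).1
  let α₀ : E →ₗ[ℝ] UniformSpace.Completion (QSp Q h) :=
    (UniformSpace.Completion.toComplL (𝕜 := ℝ) (E := QSp Q h)).toLinearMap ∘ₗ QSp.of Q h
  have hα₀ : ∀ z, α₀ z = ((QSp.of Q h z : QSp Q h) : UniformSpace.Completion (QSp Q h)) :=
    fun z => rfl
  have hn : ∀ z, ‖α₀ z‖ ^ 2 = Q z := fun z => by
    rw [hα₀, UniformSpace.Completion.norm_coe, QSp.norm_sq_of]
  have hb : ∀ z, ‖α₀ z‖ ≤ |C| * ‖z‖ := fun z => by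
    apply abs_le_of_sq_le_sq' _ (by positivity) |>.2
    rw [hn, mul_pow, sq_abs]
    exact (hQ z).2
  let α := α₀.mkContinuous |C| hb
  have hd : DenseRange α := by
    have : DenseRange ((↑) : QSp Q h → UniformSpace.Completion (QSp Q h)) :=
      UniformSpace.Completion.denseRange_coe
    exact this
  exact ⟨UniformSpace.Completion (QSp Q h), inferInstance, inferInstance, inferInstance,
    hd.separableSpace α.continuous, α, hd, hn⟩

theorem absorb {Y : Type} [NormedAddCommGroup Y] [NormedSpace ℝ Y] [CompleteSpace Y]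
    (a : L2 →L[ℝ] Y) (b : Y →L[ℝ] L2) (h : ∀ t : L2, ‖t - b (a t)‖ ≤ (1 / 2) * ‖t‖) :
    Nonempty (Y ≃L[ℝ] Y × L2) := by
  let T : L2 →L[ℝ] L2 := 1 - b.comp a
  have hT : ‖T‖ < 1 := by
    have : ‖T‖ ≤ 1 / 2 := T.opNorm_le_bound (by norm_num) fun t => h t
    linarith
  let u := Units.oneSub T hT
  have hu : (u : L2 →L[ℝ] L2) = b.comp a := by
    simp [u, T]
  let b' : Y →L[ℝ] L2 := ((u⁻¹ : (L2 →L[ℝ] L2)ˣ) : L2 →L[ℝ] L2).comp b
  have hri : Function.RightInverse a b' := by
    intro t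
    have h1 : ((u⁻¹ : (L2 →L[ℝ] L2)ˣ) : L2 →L[ℝ] L2) * (u : L2 →L[ℝ] L2) = 1 := u.inv_mul
    have h2 := congrArg (fun S : L2 →L[ℝ] L2 => S t) h1
    rw [hu] at h2
    exact h2
  let e := ContinuousLinearEquiv.equivOfRightInverse b' a hri
  obtain ⟨f⟩ := hilbert_prod L2
  refine ⟨e.trans ((f.symm.prodCongr (ContinuousLinearEquiv.refl ℝ _)).trans
    ((ContinuousLinearEquiv.prodAssoc ℝ L2 L2 _).trans
    ((ContinuousLinearEquiv.prodComm ℝ L2 _).trans
    (e.symm.prodCongr (ContinuousLinearEquiv.refl ℝ L2)))))⟩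

/-- a space absorbing `ℓ₂` absorbs every separable Hilbert space -/
theorem absorb_hilbert {X : Type} [NormedAddCommGroup X] [NormedSpace ℝ X]
    (hX : Nonempty (X ≃L[ℝ] X × L2))
    (H : Type) [NormedAddCommGroup H] [InnerProductSpace ℝ H] [CompleteSpace H]
    [TopologicalSpace.SeparableSpace H] : Nonempty ((X × H) ≃L[ℝ] X) := by
  obtain ⟨e⟩ := hX
  obtain ⟨f⟩ := hilbert_prod H
  exact ⟨(e.prodCongr (ContinuousLinearEquiv.refl ℝ H)).trans
    ((ContinuousLinearEquiv.prodAssoc ℝ X L2 H).trans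
    (((ContinuousLinearEquiv.refl ℝ X).prodCongr
      ((ContinuousLinearEquiv.prodComm ℝ L2 H).trans f)).trans e.symm))⟩

theorem embed_prod {X Y : Type} [NormedAddCommGroup X] [NormedSpace ℝ X] [CompleteSpace X]
    [NormedAddCommGroup Y] [NormedSpace ℝ Y] [CompleteSpace Y] [TopologicalSpace.SeparableSpace Y]
    (hX : Nonempty (X ≃L[ℝ] X × L2)) (S : Y →ₗ[ℝ] X) (Q : QuadraticForm ℝ Y) (K C : ℝ)
    (hS : ∀ y, ‖S y‖ ≤ K * ‖y‖) (hQ : ∀ y, 0 ≤ Q y ∧ Q y ≤ C ^ 2 * ‖y‖ ^ 2)
    (hl : ∀ y, ‖y‖ ≤ ‖S y‖ + √(Q y)) :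
    ∃ (J : Y →L[ℝ] X) (c : ℝ), 0 < c ∧ ∀ y, c * ‖y‖ ≤ ‖J y‖ := by
  obtain ⟨H, _, _, _, _, α, -, hα⟩ := hilbert_of_quad Q C hQ
  obtain ⟨e⟩ := absorb_hilbert hX H
  let S' := S.mkContinuous K hS
  let M : ℝ := ‖(e.symm : X →L[ℝ] X × H)‖ + 1
  have hM : 0 < M := by positivity
  refine ⟨(e : X × H →L[ℝ] X).comp (S'.prod α), 1 / (2 * M), by positivity, fun y => ?_⟩
  have h1 : ‖(S'.prod α) y‖ ≤ M * ‖e ((S'.prod α) y)‖ := by
    have h2 := (e.symm : X →L[ℝ] X × H).le_opNorm (e ((S'.prod α) y))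
    simp only [ContinuousLinearEquiv.coe_coe, ContinuousLinearEquiv.symm_apply_apply] at h2
    refine h2.trans (mul_le_mul_of_nonneg_right (by simp [M]) (norm_nonneg _))
  have h3 : ‖S y‖ ≤ ‖(S'.prod α) y‖ := norm_fst_le ((S'.prod α) y)
  have h4 : √(Q y) ≤ ‖(S'.prod α) y‖ := by
    rw [← hα, Real.sqrt_sq (norm_nonneg _)]
    exact norm_snd_le ((S'.prod α) y)
  have h5 := hl y
  change 1 / (2 * M) * ‖y‖ ≤ ‖e ((S'.prod α) y)‖
  rw [div_mul_eq_mul_div, one_mul, div_le_iff₀ (by positivity)]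
  linarith

theorem compl_hilbert {X Y : Type} [NormedAddCommGroup X] [NormedSpace ℝ X] [CompleteSpace X]
    [TopologicalSpace.SeparableSpace X]
    [NormedAddCommGroup Y] [NormedSpace ℝ Y] [CompleteSpace Y]
    (hY : Nonempty (Y ≃L[ℝ] Y × L2)) (J : Y →L[ℝ] X) (c : ℝ) (hc : 0 < c)
    (hJ : ∀ y, c * ‖y‖ ≤ ‖J y‖) (U : X →ₗ[ℝ] X) (Q : QuadraticForm ℝ X) (C : ℝ)
    (hU : ∀ z, ‖U z‖ ^ 2 ≤ Q z ∧ Q z ≤ C ^ 2 * ‖z‖ ^ 2) (hr : ∀ z, ∃ y, z - U z = J y) :
    Nonempty (Y ≃L[ℝ] X) := by
  obtain ⟨H, _, _, _, _, α, hd, hα⟩ := hilbert_of_quad Q C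
    fun z => ⟨(sq_nonneg _).trans (hU z).1, (hU z).2⟩
  have hUα : ∀ z, ‖U z‖ ≤ 1 * ‖α.toLinearMap z‖ := fun z => by
    rw [one_mul]
    apply abs_le_of_sq_le_sq' _ (norm_nonneg _) |>.2
    change _ ≤ ‖α z‖ ^ 2
    rw [hα]
    exact (hU z).1
  let β : H →L[ℝ] X := U.extendOfNorm α.toLinearMap
  have hβ : ∀ z, β (α z) = U z := fun z =>
    LinearMap.extendOfNorm_eq (f := U) (e := α.toLinearMap) hd ⟨1, hUα⟩ z
  have hanti : AntilipschitzWith (Real.toNNReal (1 / c)) J := by
    refine J.antilipschitz_of_bound fun y => ?_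
    rw [Real.coe_toNNReal _ (by positivity), div_mul_eq_mul_div, one_mul, le_div_iff₀ hc]
    linarith [hJ y]
  have hcl : IsClosed (Set.range J) := hanti.isClosed_range J.uniformContinuous
  let H0 : Submodule ℝ H := (J.range).comap β.toLinearMap
  have hH0 : IsClosed (H0 : Set H) := hcl.preimage β.continuous
  have : CompleteSpace H0 := hH0.completeSpace_coe
  let Φ : (Y × H0ᗮ) →L[ℝ] X := J.coprod (β.comp (H0ᗮ).subtypeL)
  have hker : Φ.ker = ⊥ := by
    rw [LinearMap.ker_eq_bot']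
    rintro ⟨y, w⟩ hyw
    have h1 : J y + β w = 0 := hyw
    have h2 : (w : H) ∈ H0 := ⟨-y, by
      change J (-y) = β w
      rw [map_neg]; exact neg_eq_of_add_eq_zero_right h1⟩
    have h3 : (w : H) = 0 := by
      have := (Submodule.orthogonal_disjoint H0).le_bot ⟨h2, w.2⟩
      simpa using this
    have h4 : J y = 0 := by simpa [h3] using h1
    have h5 : y = 0 := hanti.injective (by simpa using h4)
    ext
    · exact h5
    · exact h3
  have hran : Φ.range = ⊤ := by
    rw [LinearMap.range_eq_top]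
    intro z
    obtain ⟨y, hy⟩ := hr z
    obtain ⟨h0, hh0, h1, hh1, hsum⟩ := H0.exists_add_mem_mem_orthogonal (α z)
    obtain ⟨y0, hy0⟩ := hh0
    refine ⟨(y + y0, ⟨h1, hh1⟩), ?_⟩
    change J (y + y0) + β h1 = z
    have h6 : J y0 = β h0 := hy0
    have h7 : β h0 + β h1 = U z := by rw [← map_add, ← hsum, hβ]
    rw [map_add, ← hy, h6, add_assoc, h7]
    simp
  obtain ⟨e⟩ := absorb_hilbert hY (H0ᗮ : Submodule ℝ H)
  exact ⟨e.symm.trans (ContinuousLinearEquiv.ofBijective Φ hker hran)⟩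

end Pool.Agent.JLS
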