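import Mathlib

/-!
Interface between the combinatorial construction (finite-dimensional rigid lattices) and the
functional-analytic part of the counterexample for MP_2f16e6_an.
-/

set_option autoImplicit false

namespace Pool.Agent.JLS

open Finset

/-- restriction of a function to a set of coordinates -/
noncomputable abbrev res (S : Set ℕ) (g : ℕ → ℝ) : ℕ → ℝ := S.indicator g

/-- the `r`-th interval of the sequence `T` -/
abbrev itv (T : ℕ → ℕ) (r : ℕ) : Set ℕ := Set.Ico (T r) (T (r + 1))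

/-- bound for the distance to the Euclidean norm, as a function of the position -/
def dd (q : ℕ) : ℕ := 100 ^ (q + 1)

/-- number of atoms needed for subspaces of dimension at most `q` -/
def atoms (q : ℕ) : ℕ := (2 * ((q + 1) * dd q) + 1) ^ q

/-- A system of finite-dimensional lattices `(ℝ^{[P n, P (n+1))}, p n)`, locally Euclidean and rigid. -/
structure Rigid where
  P : ℕ → ℕ
  p : ℕ → (ℕ → ℝ) → ℝ
  P_zero : P 0 = 0
  P_mono : StrictMono P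
  add_le : ∀ n g h, p n (g + h) ≤ p n g + p n h
  smul_eq : ∀ n (c : ℝ) g, p n (c • g) = |c| * p n g
  solid : ∀ n g h, (∀ i ∈ Ico (P n) (P (n + 1)), |g i| ≤ |h i|) → p n g ≤ p n h
  le_l1 : ∀ n g, p n g ≤ ∑ i ∈ Ico (P n) (P (n + 1)), |g i|
  l2_le : ∀ n g, ∑ i ∈ Ico (P n) (P (n + 1)), g i ^ 2 ≤ p n g ^ 2
  le_l2 : ∀ n g, p n g ^ 2 ≤ (dd (P n) : ℝ) ^ 2 * ∑ i ∈ Ico (P n) (P (n + 1)), g i ^ 2
  /-- lower 2-estimate for any number of disjoint intervals -/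
  lower_itv : ∀ n (ι : Type) (F : Finset ι) (S : ι → Set ℕ), (∀ l ∈ F, (S l).OrdConnected) →
    (∀ l ∈ F, ∀ l' ∈ F, l ≠ l' → Disjoint (S l) (S l')) →
    ∀ g, ∑ l ∈ F, p n (res (S l) g) ^ 2 ≤ 4 * p n g ^ 2
  /-- upper 2-estimate for few disjoint sets to the right of `q` -/
  upper_few : ∀ n q (ι : Type) (F : Finset ι) (S : ι → Set ℕ), F.card ≤ atoms q →
    (∀ l ∈ F, ∀ i ∈ S l, q ≤ i) → (∀ l ∈ F, ∀ l' ∈ F, l ≠ l' → Disjoint (S l) (S l')) →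
    ∀ g, (∀ i ∈ Ico (P n) (P (n + 1)), g i ≠ 0 → ∃ l ∈ F, i ∈ S l) →
    p n g ^ 2 ≤ 100 ^ 2 * ∑ l ∈ F, p n (res (S l) g) ^ 2
  /-- lower 2-estimate for few disjoint sets to the right of `q` -/
  lower_few : ∀ n q (ι : Type) (F : Finset ι) (S : ι → Set ℕ), P n ≤ q → F.card ≤ atoms q →
    (∀ l ∈ F, ∀ i ∈ S l, q ≤ i) → (∀ l ∈ F, ∀ l' ∈ F, l ≠ l' → Disjoint (S l) (S l')) →
    ∀ g, ∑ l ∈ F, p n (res (S l) g) ^ 2 ≤ 2 * p n g ^ 2
  /-- rigidity: along consecutive intervals either there is an upper 2-estimate, or functionals `y`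
  and vectors `w` with disjoint supports have an `ℓ₂`-normalised common combination with a small
  product of norms -/
  rigid : ∀ ε : ℝ, 0 < ε → ∃ C : ℝ, ∃ n0 : ℕ, ∀ n, n0 ≤ n → ∀ (T : ℕ → ℕ) (r1 r2 : ℕ),
    StrictMono T → r1 ≤ r2 → P n ≤ T r1 → T r2 ≤ P (n + 1) →
    ∀ (H : Set ℕ) (y w : ℕ → ℝ), (∀ i ∈ H, y i = 0) → (∀ i, i ∉ H → w i = 0) →
    (∀ r ∈ Ico r1 r2, p n (res (itv T r) w) ≤ 1) →
    (∀ r ∈ Ico r1 r2, ∀ g, ∑ i ∈ Ico (T r) (T (r + 1)), |y i| * |g i| ≤ p n g) →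
    (∀ g, p n (res (Set.Ico (T r1) (T r2)) g) ^ 2 ≤
        C ^ 2 * ∑ r ∈ Ico r1 r2, p n (res (itv T r) g) ^ 2) ∨
    ∃ (a : ℕ → ℝ) (B : ℝ), 0 ≤ B ∧ (∀ r, ∀ i ∈ itv T r, a i = a (T r)) ∧
      (∀ i, i ∉ Set.Ico (T r1) (T r2) → a i = 0) ∧ ∑ r ∈ Ico r1 r2, a (T r) ^ 2 = 1 ∧
      (∀ g, ∑ i ∈ Ico (P n) (P (n + 1)), |a i * y i| * |g i| ≤ B * p n g) ∧
      B * p n (fun i => a i * w i) ≤ ε
  /-- the blocks are not uniformly Euclidean -/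
  nonEucl : ∀ (C : ℝ) (n0 : ℕ), ∃ n, n0 ≤ n ∧ ∃ x : ℕ → ℝ,
    C ^ 2 * ∑ i ∈ Ico (P n) (P (n + 1)), x i ^ 2 < p n x ^ 2

end Pool.Agent.JLS
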