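import Pool.Agent.Lib.MP_2f16e6_an.Lower

/-!
Averages of successive functionals: predicates and the action of foreign children.
-/

set_option autoImplicit false

namespace Pool.Agent.JLS

open Finset

/-- splitting into at most `m` disjoint sets gives at most `B` -/
def Spl (J : Finset ℕ) (x : ℕ → ℝ) (m : ℕ) (B : ℝ) : Prop :=
  ∀ (κ : Type) (F : Finset κ) (S : κ → Set ℕ), F.card ≤ m →
    (∀ l ∈ F, ∀ l' ∈ F, l ≠ l' → Disjoint (S l) (S l')) → ∑ l ∈ F, eF J (res (S l) x) ^ 2 ≤ B ^ 2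

theorem Spl.eF_le {J : Finset ℕ} {x : ℕ → ℝ} {m : ℕ} {B : ℝ} (h : Spl J x m B) (hm : 0 < m)
    (hB : 0 ≤ B) : eF J x ≤ B := by
  have := h Unit {()} (fun _ => Set.univ) (by rw [card_singleton]; exact hm) (by simp)
  simp only [sum_singleton, res, Set.indicator_univ] at this
  exact (abs_le_of_sq_le_sq' this hB).2

theorem Spl.mono {J : Finset ℕ} {x : ℕ → ℝ} {m : ℕ} {B B' : ℝ} (h : Spl J x m B) (hB : 0 ≤ B)
    (e : B ≤ B') : Spl J x m B' := fun κ F S h1 h2 =>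
  (h κ F S h1 h2).trans (pow_le_pow_left₀ hB e 2)

theorem spl_of_sq2 {J : Finset ℕ} {x : ℕ → ℝ} (m : ℕ) {B : ℝ} (h : sq2 J x ≤ B ^ 2) :
    Spl J x m B := fun _ F S _ h2 =>
  (sum_le_sum fun _ _ => eF_sq_le J _).trans ((sum_sq2_res_le J F S h2 x).trans h)

/-- the history `H` differs from `T` before `c` -/
def Foreign (c : ℕ) (H T : Set ℕ) : Prop := ¬ ∀ i < c, i ∈ H ↔ i ∈ T

noncomputable def eps1 (c : ℕ) : ℝ := ((DM c : ℝ) * (ZZ c : ℝ) ^ 4)⁻¹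

theorem eps1_pos (c : ℕ) : 0 < eps1 c := by
  have := DM_pos c; have := ZZ_pos c; unfold eps1; positivity

/-- near orthogonality to shapes with a foreign history starting before `a` -/
def Orth (J : Finset ℕ) (P : ℕ) (T : Set ℕ) (x : ℕ → ℝ) (a : ℕ) : Prop :=
  ∀ c H b, P ≤ c → c ≤ a → Foreign c H T → Loose J (ty c H) b → pr J x b ≤ eps1 c

/-- small action of foreign children starting anywhere -/
def Tail (J : Finset ℕ) (P : ℕ) (T : Set ℕ) (x : ℕ → ℝ) (a : ℕ) : Prop :=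
  ∀ c H b (g : ℕ → ℝ) (D t : ℝ), P ≤ c → Foreign c H T → Loose J (ty c H) b → 0 ≤ D →
    (∀ i ∈ J, i < c → g i = 0) → (∀ i ∈ J, |g i| ≤ D * |b i|) → pF J g ≤ t →
    pr J x g ≤ D * (GG c * eps1 c) + ((ZZ a : ℝ) ^ 3)⁻¹ * t

/-- `ℓ₂`-average over the indices in `A` -/
noncomputable def avg (n : ℕ) (A : Finset ℕ) (x : ℕ → ℕ → ℝ) : ℕ → ℝ := (√n)⁻¹ • ∑ s ∈ A, x s

theorem inv_sqrt_le_one {n : ℕ} (h : 0 < n) : (√n)⁻¹ ≤ 1 :=
  inv_le_one_of_one_le₀ (Real.one_le_sqrt.2 (by exact_mod_cast h))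

theorem inv_sqrt_sq (n : ℕ) : ((√n)⁻¹) ^ 2 = (n : ℝ)⁻¹ := by
  rw [inv_pow, Real.sq_sqrt (Nat.cast_nonneg n)]

theorem pos_of_tmin_le {a n : ℕ} (h : tmin a ≤ n) : 0 < n := by have := lt_tmin a; omega

theorem inv_sqrt_le {a n : ℕ} (h : tmin a ≤ n) :
    (√n)⁻¹ ≤ ((ZZ a : ℝ) ^ 4 * (dd a : ℝ) ^ 2)⁻¹ := by
  have h1 := ZZ_pos a
  have h2 := dd_pos a
  refine inv_anti₀ (by positivity) (Real.le_sqrt_of_sq_le ?_)
  have := (big_le_tmin' a).trans h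
  exact_mod_cast (show (ZZ a ^ 4 * dd a ^ 2) ^ 2 ≤ n by omega)

theorem inv_sqrt_mul_le {a n : ℕ} (h : tmin a ≤ n) {B : ℝ} (hB : B ≤ 2 * dd a) :
    (√n)⁻¹ * B ≤ ((ZZ a : ℝ) ^ 3)⁻¹ := by
  have h1 : (1 : ℝ) ≤ ZZ a := by exact_mod_cast ZZ_pos a
  have h2 : (100 : ℝ) ≤ dd a := by exact_mod_cast le_dd a
  calc _ ≤ (√n)⁻¹ * (2 * dd a) := mul_le_mul_of_nonneg_left hB (by positivity)
    _ ≤ ((ZZ a : ℝ) ^ 4 * (dd a : ℝ) ^ 2)⁻¹ * (2 * dd a) :=
        mul_le_mul_of_nonneg_right (inv_sqrt_le h) (by positivity)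
    _ ≤ _ := by
        rw [inv_mul_le_iff₀ (by positivity), ← div_eq_mul_inv, le_div_iff₀ (by positivity)]
        have : (0 : ℝ) < (dd a) * (ZZ a : ℝ) ^ 3 := by positivity
        nlinarith [mul_le_mul h1 h2 (by norm_num) (by positivity)]

theorem pr_avg_le (J : Finset ℕ) (n : ℕ) (A : Finset ℕ) (x : ℕ → ℕ → ℝ) (g : ℕ → ℝ) :
    pr J (avg n A x) g ≤ (√n)⁻¹ * ∑ s ∈ A, pr J (x s) g := by
  unfold avg
  rw [pr_smul_left, abs_of_nonneg (by positivity)]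
  exact mul_le_mul_of_nonneg_left (pr_sum_left J A x g) (by positivity)

theorem avg_apply {a : ℕ → ℕ} (ha : Monotone a) {n : ℕ} {x : ℕ → ℕ → ℝ} (h : Succ a n x)
    {A : Finset ℕ} (hA : A ⊆ range n) {s i : ℕ} (hs : s ∈ A) (hi : i ∈ itv a s) :
    avg n A x i = (√n)⁻¹ * x s i := by
  unfold avg; rw [Pi.smul_apply, h.sum_apply ha hA hs hi, smul_eq_mul]

theorem avg_eq_zero {a : ℕ → ℕ} {n : ℕ} {x : ℕ → ℕ → ℝ} (h : Succ a n x)
    {A : Finset ℕ} (hA : A ⊆ range n) {i : ℕ} (hi : ∀ s ∈ A, i ∉ itv a s) : avg n A x i = 0 := by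
  unfold avg; rw [Pi.smul_apply, h.sum_eq_zero hA hi, smul_zero]

theorem abs_avg_le {a : ℕ → ℕ} (ha : Monotone a) {n : ℕ} {x : ℕ → ℕ → ℝ} (h : Succ a n x)
    {A : Finset ℕ} (hA : A ⊆ range n) (i : ℕ) : |avg n A x i| ≤ |avg n (range n) x i| := by
  by_cases hi : ∃ s ∈ A, i ∈ itv a s
  · obtain ⟨s, hs, hi⟩ := hi
    rw [avg_apply ha h hA hs hi, avg_apply ha h subset_rfl (hA hs) hi]
  · rw [avg_eq_zero h hA fun s hs hi' => hi ⟨s, hs, hi'⟩]; simp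

/-- weighted sums of squares of an average -/
theorem sum_avg_sq {a : ℕ → ℕ} (ha : Monotone a) {n : ℕ} {x : ℕ → ℕ → ℝ} (h : Succ a n x)
    {A : Finset ℕ} (hA : A ⊆ range n) (J : Finset ℕ) (μ : ℕ → ℝ) :
    ∑ i ∈ J, avg n A x i ^ 2 * μ i = (n : ℝ)⁻¹ * ∑ s ∈ A, ∑ i ∈ J, x s i ^ 2 * μ i := by
  rw [sum_comm, mul_sum]
  refine sum_congr rfl fun i _ => ?_
  by_cases hi : ∃ s ∈ A, i ∈ itv a s
  · obtain ⟨s, hs, hi⟩ := hi
    rw [avg_apply ha h hA hs hi, mul_pow, inv_sqrt_sq, mul_assoc,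
      sum_eq_single_of_mem s hs fun s' hs' hne => ?_]
    rw [h s' (mem_range.1 (hA hs')) i fun h' => hne (itv_unique ha h' hi)]; simp
  · rw [avg_eq_zero h hA fun s hs hi' => hi ⟨s, hs, hi'⟩, sum_eq_zero fun s hs => ?_]
    · simp
    · rw [h s (mem_range.1 (hA hs)) i fun h' => hi ⟨s, hs, h'⟩]; simp

theorem inv_mul_sum_le {n : ℕ} (hn : 0 < n) {A : Finset ℕ} (hA : A ⊆ range n) {f : ℕ → ℝ} {C : ℝ}
    (hC : 0 ≤ C) (hf : ∀ s ∈ A, f s ≤ C) : (n : ℝ)⁻¹ * ∑ s ∈ A, f s ≤ C := by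
  rw [inv_mul_le_iff₀ (by exact_mod_cast hn)]
  refine (sum_le_card_nsmul _ _ C hf).trans ?_
  rw [nsmul_eq_mul]
  refine mul_le_mul_of_nonneg_right ?_ hC
  exact_mod_cast (card_le_card hA).trans_eq (card_range n)

theorem sq2_avg_le {a : ℕ → ℕ} (ha : Monotone a) {n : ℕ} (hn : 0 < n) {x : ℕ → ℕ → ℝ}
    (h : Succ a n x) {A : Finset ℕ} (hA : A ⊆ range n) (J : Finset ℕ) {C : ℝ} (hC : 0 ≤ C)
    (hx : ∀ s < n, sq2 J (x s) ≤ C) : sq2 J (avg n A x) ≤ C := by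
  have := sum_avg_sq ha h hA J fun _ => 1
  simp only [mul_one] at this
  exact this.trans_le (inv_mul_sum_le hn hA hC fun s hs => hx s (mem_range.1 (hA hs)))

theorem pr_le_mul_pr {J : Finset ℕ} {x g b : ℕ → ℝ} {D : ℝ} (hD : 0 ≤ D)
    (h : ∀ i ∈ J, |g i| ≤ D * |b i|) : pr J x g ≤ D * pr J x b := by
  have := pr_smul_right J x b D
  rw [abs_of_nonneg hD] at this
  rw [← this]
  exact pr_mono (fun _ _ => le_rfl) fun i hi => by simpa [abs_mul, abs_of_nonneg hD] using h i hi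

theorem pr_le_two_mul {J : Finset ℕ} {x g : ℕ → ℝ} {d t : ℝ} (hd : 0 ≤ d)
    (hx : sq2 J x ≤ 2 * d ^ 2) (hg : pF J g ≤ t) : pr J x g ≤ 2 * d * t :=
  (pr_le_sqrt_pF J x g).trans (mul_le_mul (Real.sqrt_le_iff.2 ⟨by positivity, by nlinarith⟩) hg
    ((pF_ln J).nonneg g) (by positivity))

theorem avg_tail {J : Finset ℕ} {P : ℕ} {T : Set ℕ} {a : ℕ → ℕ} (ha : StrictMono a) {n : ℕ}
    (hn1 : tmin (a 0) ≤ n) (hn2 : n ≤ gam (a 0)) {x : ℕ → ℕ → ℝ} (h : Succ a n x) {d : ℝ}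
    (hd0 : 0 ≤ d) (hd : d ≤ dd (a 0)) (hx : ∀ s < n, sq2 J (x s) ≤ 2 * d ^ 2)
    (ho : ∀ s < n, Orth J P T (x s) (a s)) (ho' : Orth J P T (avg n (range n) x) (a 0)) :
    Tail J P T (avg n (range n) x) (a 0) := by
  intro c H b g D t h1 h2 h3 h4 h5 h6 h7
  have ht : 0 ≤ t := ((pF_ln J).nonneg g).trans h7
  have he := eps1_pos c
  have hG : (1 : ℝ) ≤ GG c := by exact_mod_cast GG_pos c
  rcases le_or_gt c (a 0) with hc | hc
  · refine (pr_le_mul_pr h4 h6).trans (le_trans ?_ (le_add_of_nonneg_right (by positivity)))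
    exact mul_le_mul_of_nonneg_left ((ho' c H b h1 hc h2 h3).trans
      (le_mul_of_one_le_left he.le hG)) h4
  have e1 : ∀ s ∈ range n, pr J (x s) g ≤ D * eps1 c + res (itv a s) (fun _ => 2 * d * t) c := by
    intro s hs
    have hs' := mem_range.1 hs
    have e0 : 0 ≤ res (itv a s) (fun _ => 2 * d * t) c :=
      Set.indicator_nonneg (fun _ _ => by positivity) _
    rcases le_or_gt c (a s) with hcs | hcs
    · exact ((pr_le_mul_pr h4 h6).trans (mul_le_mul_of_nonneg_left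
        (ho s hs' c H b h1 hcs h2 h3) h4)).trans (le_add_of_nonneg_right e0)
    rcases le_or_gt (a (s + 1)) c with hcs' | hcs'
    · rw [pr_eq_zero fun i hi => ?_]
      · positivity
      · by_cases hi' : i < c
        · exact Or.inr (h5 i hi hi')
        · exact Or.inl (h s hs' i fun h' => hi' (h'.2.trans_le hcs'))
    · simp only [res, Set.indicator_of_mem (show c ∈ itv a s from ⟨hcs.le, hcs'⟩)]
      exact (pr_le_two_mul hd0 (hx s hs') h7).trans (le_add_of_nonneg_left (by positivity))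
  have e2 := sum_le_sum e1
  rw [sum_add_distrib, sum_const, card_range, nsmul_eq_mul] at e2
  have e3 := sum_ite_mem_le (range n) _ (itv_disj ha.monotone _) c
    (show 0 ≤ 2 * d * t by positivity)
  have e4 := inv_sqrt_le_one (pos_of_tmin_le hn1)
  have e5 := inv_sqrt_mul_le hn1 (B := 2 * d) (by linarith)
  have e6 : (n : ℝ) ≤ GG c := by exact_mod_cast hn2.trans (gam_le_GG hc)
  refine (pr_avg_le J n _ x g).trans ((mul_le_mul_of_nonneg_left (e2.trans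
    (add_le_add le_rfl e3)) (by positivity)).trans ?_)
  rw [mul_add]
  refine add_le_add ?_ ?_
  · refine (mul_le_of_le_one_left (by positivity) e4).trans ?_
    nlinarith [mul_le_mul_of_nonneg_right e6 (show 0 ≤ D * eps1 c by positivity)]
  · rw [← mul_assoc]; exact mul_le_mul_of_nonneg_right e5 ht

theorem inv_cube_le {n γ z Z : ℕ} (hn : 0 < n) (hγ : 0 < γ) (hz : 0 < z) (h1 : n ≤ Z) (h2 : γ ≤ Z)
    (h3 : z ≤ Z) : ((Z : ℝ) ^ 3)⁻¹ ≤ ((n : ℝ) * (γ * z))⁻¹ := by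
  refine inv_anti₀ (by positivity) ?_
  have : n * (γ * z) ≤ Z ^ 3 := by
    calc n * (γ * z) ≤ Z * (Z * Z) := Nat.mul_le_mul h1 (Nat.mul_le_mul h2 h3)
      _ = Z ^ 3 := by ring
  exact_mod_cast this

/-- the action of a foreign child on the part of an average to the right of `q` -/
theorem child_le {J : Finset ℕ} {P : ℕ} {T : Set ℕ} {a : ℕ → ℕ} (ha : StrictMono a) {n : ℕ}
    (hP : P ≤ a 0) (hn1 : tmin (a 0) ≤ n) (hn2 : n ≤ gam (a 0)) {x : ℕ → ℕ → ℝ} (h : Succ a n x)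
    {d : ℝ} (hd0 : 0 ≤ d) (hd : d ≤ dd (a 0)) (hx : ∀ s < n, sq2 J (x s) ≤ 2 * d ^ 2)
    (htl : ∀ s < n, Tail J P T (x s) (a s)) {q : ℕ} {A : Finset ℕ} (hA : A ⊆ range n)
    (hAq : ∀ s ∈ A, q < a s ∧ 0 < s) {c : ℕ} (hc1 : a 0 < c) (hc2 : q < c) {H : Set ℕ}
    {b g : ℕ → ℝ} {u D ρ : ℝ} (h2 : Foreign c H T) (h3 : Loose J (ty c H) b) (hu : 0 ≤ u)
    (huD : u ≤ D) (hρ : 0 ≤ ρ) (hρ2 : rho2 c u D ≤ ρ ^ 2) (h5 : ∀ i ∈ J, i < c → g i = 0)
    (h6 : ∀ i ∈ J, |g i| ≤ D * |b i|) (h7 : pF J g ≤ u) :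
    pr J (avg n A x) g ≤ 2 * ρ * ((gam q : ℝ) * ZZ (a 0))⁻¹ := by
  have hn := pos_of_tmin_le hn1
  have hγ := gam_pos q
  have hZ0 := ZZ_pos (a 0)
  have hZ := ZZ_pos c
  have hZr : (0 : ℝ) < ZZ c := by exact_mod_cast hZ
  have hγZ : gam q ≤ ZZ c := (gam_le_GG hc2).trans (GG_le_ZZ c)
  have hZZ : ZZ (a 0) ≤ ZZ c := ZZ_mono hc1.le
  have hDM : (0 : ℝ) < DM c := by exact_mod_cast DM_pos c
  rcases le_or_gt (DM c * u) D with hD | hD
  · have e1 : rho2 c u (DM c * u) = (u * (ZZ c : ℝ) ^ 3) ^ 2 := by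
      have e2 := rho2_self c u
      unfold rho2 at e2 ⊢
      rw [mul_pow, Real.mul_rpow (sq_nonneg _) (sq_nonneg _), sq (DM c : ℝ),
        Real.mul_rpow hDM.le hDM.le, DM_rpow]
      linear_combination ((ZZ c : ℝ) ^ 3) ^ 2 * e2
    have e3 : u * (ZZ c : ℝ) ^ 3 ≤ ρ := (abs_le_of_sq_le_sq' (e1 ▸
      (rho2_mono c hu le_rfl (by positivity) hD).trans hρ2) hρ).2
    have e4 := pr_le_two_mul hd0 (sq2_avg_le ha.monotone hn h hA J (by positivity) hx) h7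
    have e5 : 100 * d ≤ ZZ c := by
      have : (100 * dd (a 0) : ℝ) ≤ ZZ c := by exact_mod_cast (dd_le_ZZ (a 0)).trans hZZ
      linarith
    refine e4.trans ?_
    rw [← div_eq_mul_inv, le_div_iff₀ (by positivity)]
    have e6 : ((gam q : ℝ) * ZZ (a 0)) ≤ (ZZ c : ℝ) ^ 2 := by
      rw [sq]; exact_mod_cast Nat.mul_le_mul hγZ hZZ
    calc 2 * d * u * ((gam q : ℝ) * ZZ (a 0)) ≤ ZZ c * u * (ZZ c : ℝ) ^ 2 :=
          mul_le_mul (mul_le_mul_of_nonneg_right (by linarith) hu) e6 (by positivity)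
            (by positivity)
      _ = u * (ZZ c : ℝ) ^ 3 := by ring
      _ ≤ 2 * ρ := by linarith
  · have huρ : u ≤ ρ := (abs_le_of_sq_le_sq' ((sq_le_rho2 c hu huD).trans hρ2) hρ).2
    have e1 : ∀ s ∈ A, pr J (x s) g ≤ 2 * ρ * ((n : ℝ) * (gam q * ZZ (a 0)))⁻¹ := by
      intro s hs
      have hs0 := ha (hAq s hs).2
      have e2 := htl s (mem_range.1 (hA hs)) c H b g D u (hP.trans hc1.le) h2 h3 (hu.trans huD)
        h5 h6 h7
      have e3 := inv_cube_le hn hγ hZ0 (hn2.trans ((gam_le_GG hc1).trans (GG_le_ZZ c))) hγZ hZZ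
      have e4 := inv_cube_le hn hγ hZ0 (hn2.trans ((gam_le_GG hs0).trans (GG_le_ZZ _)))
        ((gam_le_GG (hAq s hs).1).trans (GG_le_ZZ _)) (ZZ_mono hs0.le)
      have e5 : D * (GG c * eps1 c) ≤ ρ * ((ZZ c : ℝ) ^ 3)⁻¹ := by
        have e6 : (GG c : ℝ) ≤ ZZ c := by exact_mod_cast GG_le_ZZ c
        have he := eps1_pos c
        calc D * (GG c * eps1 c) ≤ (DM c * ρ) * (ZZ c * eps1 c) :=
              mul_le_mul (hD.le.trans (mul_le_mul_of_nonneg_left huρ hDM.le))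
                (mul_le_mul_of_nonneg_right e6 he.le) (by positivity) (by positivity)
          _ = _ := by unfold eps1; field_simp
      have e7 := mul_le_mul_of_nonneg_left e3 hρ
      have e8 := mul_le_mul e4 huρ hu (by positivity)
      linarith
    have e9 := sum_le_card_nsmul _ _ _ e1
    rw [nsmul_eq_mul] at e9
    have e10 : (A.card : ℝ) ≤ n := by exact_mod_cast (card_le_card hA).trans_eq (card_range n)
    refine (pr_avg_le J n A x g).trans ((mul_le_of_le_one_left (sum_nonneg fun _ _ =>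
      pr_nonneg _ _ _) (inv_sqrt_le_one hn)).trans (e9.trans
      ((mul_le_mul_of_nonneg_right e10 (by positivity)).trans (le_of_eq ?_))))
    field_simp

end Pool.Agent.JLS
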