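import Pool.Agent.Lib.MP_2f16e6_an.LevelA

/-!
The level lemma: averaging many successive functionals decreases the splitting constant.
-/

set_option autoImplicit false

namespace Pool.Agent.JLS

open Finset

theorem exists_last (Pd : ℕ → Prop) {k0 N : ℕ} (h : k0 < N) :
    ∃ k, k0 ≤ k ∧ k < N ∧ (k = k0 ∨ Pd k) ∧ ∀ k', k < k' → k' < N → ¬ Pd k' := by
  classical
  refine ⟨max k0 (Nat.findGreatest Pd (N - 1)), le_max_left _ _, ?_, ?_, fun k' h1 h2 => ?_⟩
  · have := Nat.findGreatest_le (P := Pd) (N - 1)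
    omega
  · rcases le_or_gt (Nat.findGreatest Pd (N - 1)) k0 with h' | h'
    · exact Or.inl (max_eq_left h')
    · rw [max_eq_right h'.le]
      exact Or.inr (Nat.findGreatest_of_ne_zero (P := Pd) rfl (by omega))
  · exact Nat.findGreatest_is_greatest (P := Pd) (n := N - 1)
      (lt_of_le_of_lt (le_max_right _ _) h1) (by omega)

/-- hypotheses of the level lemma -/
structure LevelHyp (J : Finset ℕ) (P : ℕ) (T : Set ℕ) (a : ℕ → ℕ) (n : ℕ) (x : ℕ → ℕ → ℝ)
    (B : ℝ) : Prop where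
  ha : StrictMono a
  hP : P ≤ a 0
  hn1 : tmin (a 0) ≤ n
  hn2 : n ≤ gam (a 0)
  succ : Succ a n x
  hT : ∀ s < n, ∀ i ∈ T, x s i = 0
  hx : ∀ s < n, sq2 J (x s) ≤ 2 * (dd P : ℝ) ^ 2
  spl : ∀ s < n, Spl J (x s) (GG (a s) ^ 2) B
  tail : ∀ s < n, Tail J P T (x s) (a s)
  hB0 : 0 ≤ B
  hB1 : B ≤ 2 * dd P

theorem Ioo_subset_range (s n : ℕ) : Ioo s n ⊆ range n := fun _ h => mem_range.2 (mem_Ioo.1 h).2

namespace LevelHyp

variable {J : Finset ℕ} {P : ℕ} {T : Set ℕ} {a : ℕ → ℕ} {n : ℕ} {x : ℕ → ℕ → ℝ} {B : ℝ}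
  (h : LevelHyp J P T a n x B)
include h

theorem pos : 0 < n := pos_of_tmin_le h.hn1

theorem dd_le : (dd P : ℝ) ≤ dd (a 0) := by exact_mod_cast dd_mono h.hP

theorem small : (√n)⁻¹ * B ≤ (ZZ (a 0) : ℝ)⁻¹ := by
  have h1 : (1 : ℝ) ≤ ZZ (a 0) := by exact_mod_cast ZZ_pos _
  exact (inv_sqrt_mul_le h.hn1 (h.hB1.trans (by linarith [h.dd_le]))).trans
    (inv_anti₀ (by positivity) (le_self_pow₀ h1 (by norm_num)))

theorem eF_le {s : ℕ} (hs : s < n) : eF J (x s) ≤ B :=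
  (h.spl s hs).eF_le (pow_pos (GG_pos _) 2) h.hB0

/-- removing the member of the average that contains the starting point `q` -/
theorem split_star (S : Set ℕ) {q s0 : ℕ} (h1 : s0 < n) (h2 : s0 = 0 ∨ a s0 ≤ q) {g : ℕ → ℝ}
    {t : ℝ} (hg : ∀ i ∈ J, g i ≠ 0 → q ≤ i) (ht : pF J g ≤ t) :
    pr J (res S (avg n (range n) x)) g ≤
      (ZZ (a 0) : ℝ)⁻¹ * t + pr J (res S (avg n (Ioo s0 n) x)) g := by
  have e1 : pr J ((√n)⁻¹ • x s0) g ≤ (ZZ (a 0) : ℝ)⁻¹ * t := by
    refine (pr_le_eF J _ ht).trans (mul_le_mul_of_nonneg_right ?_ (((pF_ln J).nonneg g).trans ht))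
    rw [(eF_ln J).smul_eq, abs_of_nonneg (by positivity)]
    exact (mul_le_mul_of_nonneg_left (h.eF_le h1) (by positivity)).trans h.small
  refine le_trans ?_ (add_le_add e1 le_rfl)
  unfold pr
  rw [← sum_add_distrib]
  refine sum_le_sum fun i hi => ?_
  by_cases hgi : g i = 0
  · simp [hgi]
  rw [← add_mul]
  refine mul_le_mul_of_nonneg_right ?_ (abs_nonneg _)
  by_cases hS : i ∈ S
  swap
  · simp only [res, Set.indicator_of_notMem hS, abs_zero, add_zero]; exact abs_nonneg _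
  simp only [res, Set.indicator_of_mem hS]
  by_cases hi' : ∃ s ∈ range n, i ∈ itv a s
  · obtain ⟨s, hs, his⟩ := hi'
    rw [avg_apply h.ha.monotone h.succ subset_rfl hs his]
    rcases lt_trichotomy s s0 with e | e | e
    · have := h.ha.monotone (show s + 1 ≤ s0 from e)
      have := hg i hi hgi
      have := his.2
      omega
    · subst e; exact le_add_of_nonneg_right (abs_nonneg _)
    · rw [avg_apply h.ha.monotone h.succ (Ioo_subset_range _ _) (mem_Ioo.2 ⟨e, mem_range.1 hs⟩) his]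
      exact le_add_of_nonneg_left (abs_nonneg _)
  · rw [avg_eq_zero h.succ subset_rfl fun s hs his => hi' ⟨s, hs, his⟩, abs_zero]; positivity

theorem eF_avg_le (S : Set ℕ) {A : Finset ℕ} (hA : A ⊆ range n) :
    eF J (res S (avg n A x)) ^ 2 ≤ 4 * ((n : ℝ)⁻¹ * ∑ s ∈ A, eF J (res S (x s)) ^ 2) := by
  have e1 := eF_upper_itv J A (itv a) (fun _ _ => Set.ordConnected_Ico) (itv_disj h.ha.monotone _)
    (x := res S (avg n A x)) fun i _ hi => by
      by_contra hno
      exact (res_ne_zero hi).2 (avg_eq_zero h.succ hA fun s hs his => hno ⟨s, hs, his⟩)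
  have e2 : ∑ s ∈ A, eF J (res (itv a s) (res S (avg n A x))) ^ 2 ≤
      (n : ℝ)⁻¹ * ∑ s ∈ A, eF J (res S (x s)) ^ 2 := by
    rw [mul_sum]
    refine sum_le_sum fun s hs => ?_
    rw [← inv_sqrt_sq, ← mul_pow]
    refine pow_le_pow_left₀ ((eF_ln J).nonneg _) ((eF_ln J).le_mul (by positivity) fun i _ => ?_) 2
    by_cases his : i ∈ itv a s
    · by_cases hS : i ∈ S
      · simp only [res, Set.indicator_of_mem hS, Set.indicator_of_mem his]
        rw [avg_apply h.ha.monotone h.succ hA hs his, abs_mul, abs_of_nonneg (by positivity)]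
      · simp only [res, Set.indicator_of_notMem hS, Set.indicator_of_mem his]; simp
    · simp only [res, Set.indicator_of_notMem his, abs_zero]; positivity
  have e3 := pow_le_pow_left₀ ((eF_ln J).nonneg _) e1 2
  rw [mul_pow, Real.sq_sqrt (sum_nonneg fun _ _ => sq_nonneg _)] at e3
  linarith

theorem act_u1 (S : Set ℕ) {g : ℕ → ℝ} {t : ℝ} (e : OpU1 J (fun g t => pF J g ≤ t) g t) :
    ∃ (s0 : ℕ) (κ : Type) (F : Finset κ) (S' : κ → Set ℕ), (∀ s ∈ Ioo s0 n, F.card ≤ GG (a s)) ∧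
      (∀ l ∈ F, ∀ l' ∈ F, l ≠ l' → Disjoint (S' l) (S' l')) ∧
      pr J (res S (avg n (range n) x)) g ≤ ((ZZ (a 0) : ℝ)⁻¹ + 1 / 50 *
        √((n : ℝ)⁻¹ * ∑ s ∈ Ioo s0 n, ∑ l ∈ F, eF J (res (S ∩ S' l) (x s)) ^ 2)) * t := by
  have hg : pF J g ≤ t := (opF_ok J).gn_op (by obtain ⟨_, _, _, _, _, _, _, _, _, _, h6, _⟩ := e; exact h6)
    (Or.inl e)
  obtain ⟨q, κ, F, S', u, h1, h2, h3, h4, h5, h6, h7⟩ := e
  obtain ⟨s0, e1, e2, e3, e4⟩ := exists_kstar a h.pos q
  refine ⟨s0, κ, F, S', fun s hs => h1.trans (gam_le_GG (e4 s (mem_Ioo.1 hs).1 (mem_Ioo.1 hs).2)),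
    h3, (h.split_star S e2 e3 (fun i hi hgi => ?_) hg).trans ?_⟩
  · obtain ⟨l, hl, hil⟩ := h4 i hi hgi
    exact h2 l hl i hil
  rw [add_mul, add_le_add_iff_left]
  refine (pr_le_sum_res J F S' _ g fun i hi _ hgi => h4 i hi hgi).trans
    ((sum_le_sum fun l hl => pr_le_eF J _ (h5 l hl)).trans
      ((Real.sum_mul_le_sqrt_mul_sqrt _ _ _).trans ?_))
  have e5 : √(∑ l ∈ F, u l ^ 2) ≤ t / 100 := Real.sqrt_le_iff.2 ⟨by positivity, by linarith⟩
  have e6 : √(∑ l ∈ F, eF J (res (S' l) (res S (avg n (Ioo s0 n) x))) ^ 2) ≤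
      2 * √((n : ℝ)⁻¹ * ∑ s ∈ Ioo s0 n, ∑ l ∈ F, eF J (res (S ∩ S' l) (x s)) ^ 2) := by
    refine Real.sqrt_le_iff.2 ⟨by positivity, ?_⟩
    rw [mul_pow, Real.sq_sqrt (mul_nonneg (by positivity)
      (sum_nonneg fun _ _ => sum_nonneg fun _ _ => sq_nonneg _)), sum_comm, mul_sum, mul_sum]
    refine sum_le_sum fun l _ => ?_
    rw [res_comm, res_res]
    linarith [h.eF_avg_le (S ∩ S' l) (Ioo_subset_range s0 n)]
  refine (mul_le_mul e6 e5 (Real.sqrt_nonneg _) (by positivity)).trans (le_of_eq (by ring))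

theorem act_u2 (S : Set ℕ) {g : ℕ → ℝ} {t : ℝ} (e : OpU2 J (fun g t => pF J g ≤ t) g t) :
    ∃ R R' : Set ℕ, Disjoint R R' ∧ pr J (res S (avg n (range n) x)) g ≤
      (2 * (ZZ (a 0) : ℝ)⁻¹ + 1 / 2 * √(eF J (res (S ∩ R) (avg n (range n) x)) ^ 2 +
        eF J (res (S ∩ R') (avg n (range n) x)) ^ 2)) * t := by
  classical
  have hg : pF J g ≤ t := (opF_ok J).gn_op
    (by obtain ⟨_, _, _, _, _, _, _, _, _, _, _, _, _, h7, _⟩ := e; exact h7) (Or.inr e)
  obtain ⟨c, k0, N, H, u, D, b, h1, h2, h3, h4, h5, h6, h7, h8⟩ := e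
  obtain ⟨s0, -, e2, e3, e4⟩ := exists_kstar a h.pos (c k0)
  obtain ⟨k1, f1, f2, f3, f4⟩ := exists_kstar c h2 (max (c k0) (a 0))
  obtain ⟨k2, g1, g2, g3, g4⟩ := exists_last (fun k => ¬ Foreign (c k) H T) f2
  have hk1 : c k1 ≤ max (c k0) (a 0) := f3.elim (fun e => e ▸ le_max_left _ _) id
  have hAq : ∀ s ∈ Ioo s0 n, c k0 < a s ∧ 0 < s := fun s hs =>
    ⟨e4 s (mem_Ioo.1 hs).1 (mem_Ioo.1 hs).2, by have := (mem_Ioo.1 hs).1; omega⟩
  set X' := avg n (Ioo s0 n) x with hX'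
  have hX1 : ∀ i, X' i ≠ 0 → max (c k0) (a 0) < i ∧ i ∉ T := fun i hi => by
    by_cases hi' : ∃ s ∈ Ioo s0 n, i ∈ itv a s
    · obtain ⟨s, hs, his⟩ := hi'
      have e5 := hAq s hs
      have e6 := h.ha e5.2
      refine ⟨max_lt (e5.1.trans_le his.1) (e6.trans_le his.1), fun hT => hi ?_⟩
      rw [hX', avg_apply h.ha.monotone h.succ (Ioo_subset_range _ _) hs his,
        h.hT s (mem_Ioo.1 hs).2 i hT, mul_zero]
    · exact absurd (avg_eq_zero h.succ (Ioo_subset_range _ _) fun s hs his => hi' ⟨s, hs, his⟩) hi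
  have hw : ∀ k ∈ Ico k0 N, wt c k0 u D k ≤ (t / 2) ^ 2 := fun k hk => by
    linarith [single_le_sum (f := wt c k0 u D) (fun _ _ => wt_nonneg _ _ _ _ _) hk]
  have hZ : (0 : ℝ) < ZZ (a 0) := by exact_mod_cast ZZ_pos _
  have hγ : (0 : ℝ) < gam (c k0) := by exact_mod_cast gam_pos _
  -- foreign children
  have e7 : ∑ k ∈ Ioo k2 N, pr J (res (itv c k) (res S X')) (res (itv c k) g) ≤
      (ZZ (a 0) : ℝ)⁻¹ * t := by
    have e8 : ∀ k ∈ Ioo k2 N, pr J (res (itv c k) (res S X')) (res (itv c k) g) ≤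
        2 * (t / 2) * ((gam (c k0) : ℝ) * ZZ (a 0))⁻¹ := by
      intro k hk
      rw [mem_Ioo] at hk
      have hk' : k ∈ Ico k0 N := mem_Ico.2 ⟨by omega, hk.2⟩
      obtain ⟨p1, p2, p3, p4⟩ := h6 k (by omega) hk.2
      have p5 := f4 k (by omega) hk.2
      have p6 := hw k hk'
      simp only [wt, if_neg (show k ≠ k0 by omega)] at p6
      refine (pr_mono (fun i _ => (abs_res_le _ _ _).trans (abs_res_le _ _ _))
        fun _ _ => le_rfl).trans (child_le h.ha h.hP h.hn1 h.hn2 h.succ (by positivity) h.dd_le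
          h.hx h.tail (Ioo_subset_range _ _) hAq ((le_max_right _ _).trans_lt p5)
          ((le_max_left _ _).trans_lt p5) (not_not.1 (g4 k hk.1 hk.2)) p3 p1 p2 (by positivity) p6
          (fun i _ hi => Set.indicator_of_notMem (fun h' => absurd h'.1 (not_le.2 hi)) _)
          (fun i hi => ?_) (h5 k hk'))
      by_cases hik : i ∈ itv c k
      · exact (abs_res_le _ _ _).trans (p4 i hi hik).2
      · simp only [res, Set.indicator_of_notMem hik, abs_zero]
        exact mul_nonneg (p1.trans p2) (abs_nonneg _)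
    refine (sum_le_card_nsmul _ _ _ e8).trans ?_
    have e9 : ((Ioo k2 N).card : ℝ) ≤ gam (c k0) := by
      rw [Nat.card_Ioo]; exact_mod_cast (show N - k2 - 1 ≤ gam (c k0) by omega)
    rw [nsmul_eq_mul]
    refine (mul_le_mul_of_nonneg_right e9 (by positivity)).trans (le_of_eq ?_)
    field_simp
  refine ⟨itv c k1, itv c k2 \ itv c k1, Set.disjoint_sdiff_right,
    (h.split_star S e2 e3 (fun i hi hgi => (h4 i hi hgi).1) hg).trans ?_⟩
  set E1 := eF J (res (S ∩ itv c k1) (avg n (range n) x)) with hE1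
  set E2 := eF J (res (S ∩ (itv c k2 \ itv c k1)) (avg n (range n) x)) with hE2
  have hsol : ∀ (R : Set ℕ) (k : ℕ), k ∈ Ico k0 N → R ⊆ itv c k →
      pr J (res R (res S X')) (res R g) ≤ eF J (res (S ∩ R) (avg n (range n) x)) * u k := by
    intro R k hk hR
    refine (pr_mono (x' := res (S ∩ R) (avg n (range n) x)) (g' := res (itv c k) g)
      (fun i hi => ?_) fun i _ => ?_).trans (pr_le_eF J _ (h5 k hk))
    · rw [res_comm, res_res]
      exact abs_res_mono _ (fun i _ => abs_avg_le h.ha.monotone h.succ (Ioo_subset_range _ _) i) i hi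
    · by_cases hi : i ∈ R
      · simp only [res, Set.indicator_of_mem hi, Set.indicator_of_mem (hR hi), le_refl]
      · simp only [res, Set.indicator_of_notMem hi, abs_zero, abs_nonneg]
  have hk1' : k1 ∈ Ico k0 N := mem_Ico.2 ⟨f1, f2⟩
  have hk2' : k2 ∈ Ico k0 N := mem_Ico.2 ⟨by omega, g2⟩
  have e10 : pr J (res S X') g ≤ pr J (res (itv c k1) (res S X')) (res (itv c k1) g) +
      pr J (res (itv c k2 \ itv c k1) (res S X')) (res (itv c k2 \ itv c k1) g) +
      ∑ k ∈ Ioo k2 N, pr J (res (itv c k) (res S X')) (res (itv c k) g) := by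
    have := pr_le_sum_res J (({true, false} : Finset Bool).disjSum (Ioo k2 N))
      (Sum.elim (fun j => if j then itv c k1 else itv c k2 \ itv c k1) (itv c)) (res S X') g
      fun i hi hx hgi => by
        obtain ⟨q1, q2⟩ := hX1 i (res_ne_zero hx).2
        obtain ⟨k, hk, hik⟩ := exists_itv' f2.le (hk1.trans q1.le) (h4 i hi hgi).2
        rw [mem_Ico] at hk
        by_cases hkk : i ∈ itv c k1
        · exact ⟨Sum.inl true, by simp, by simpa using hkk⟩
        have hk3 : k ≠ k1 := fun e => hkk (e ▸ hik)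
        rcases lt_trichotomy k k2 with e | e | e
        · exfalso
          have q3 := not_not.1 (g3.resolve_left (by omega))
          have q4 := ((h6 k (by omega) hk.2).2.2.2 i hi hik).1 hgi
          exact q2 ((q3 i (hik.2.trans_le (h1.monotone e))).1 q4)
        · exact ⟨Sum.inl false, by simp, by simpa using And.intro (e ▸ hik) hkk⟩
        · exact ⟨Sum.inr k, by simp [e, hk.2], by simpa using hik⟩
    simpa [sum_disjSum] using this
  have e11 := hsol _ k1 hk1' subset_rfl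
  have hE10 : 0 ≤ E1 := (eF_ln J).nonneg _
  have hE20 : 0 ≤ E2 := (eF_ln J).nonneg _
  have e12 : pr J (res (itv c k1) (res S X')) (res (itv c k1) g) +
      pr J (res (itv c k2 \ itv c k1) (res S X')) (res (itv c k2 \ itv c k1) g) ≤
      √(E1 ^ 2 + E2 ^ 2) * (t / 2) := by
    by_cases hkk : k2 = k1
    · rw [pr_eq_zero (x := res (itv c k2 \ itv c k1) _) fun i _ => Or.inl
        (Set.indicator_of_notMem (by rw [hkk]; simp) _), add_zero]
      refine e11.trans (mul_le_mul (Real.le_sqrt_of_sq_le (by nlinarith [sq_nonneg E2]))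
        (abs_le_of_sq_le_sq' ((h6.sq_le_wt hk1').trans (hw k1 hk1')) (by positivity)).2
        (((pF_ln J).nonneg _).trans (h5 k1 hk1')) (Real.sqrt_nonneg _))
    · have e13 := hsol _ k2 hk2' (Set.sdiff_subset (t := itv c k1))
      have e14 : ∑ k ∈ {k1, k2}, wt c k0 u D k ≤ ∑ k ∈ Ico k0 N, wt c k0 u D k :=
        sum_le_sum_of_subset_of_nonneg (by
          intro k hk; simp only [mem_insert, mem_singleton] at hk
          rcases hk with rfl | rfl; exacts [hk1', hk2']) fun _ _ _ => wt_nonneg _ _ _ _ _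
      rw [sum_pair (Ne.symm hkk)] at e14
      have e15 : u k1 ^ 2 + u k2 ^ 2 ≤ (t / 2) ^ 2 := by
        linarith [h6.sq_le_wt hk1', h6.sq_le_wt hk2']
      refine (add_le_add e11 e13).trans (abs_le_of_sq_le_sq' ?_ (by positivity)).2
      rw [mul_pow, Real.sq_sqrt (by positivity)]
      nlinarith [sq_nonneg (E1 * u k2 - E2 * u k1),
        mul_le_mul_of_nonneg_left e15 (show 0 ≤ E1 ^ 2 + E2 ^ 2 by positivity)]
  linarith

end LevelHyp

end Pool.Agent.JLS
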