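import Pool.Agent.Lib.MP_2f16e6_an.LevelB

/-!
The level lemma, conclusion.
-/

set_option autoImplicit false

namespace Pool.Agent.JLS

open Finset

namespace LevelHyp

variable {J : Finset ℕ} {P : ℕ} {T : Set ℕ} {a : ℕ → ℕ} {n : ℕ} {x : ℕ → ℕ → ℝ} {B : ℝ}
  (h : LevelHyp J P T a n x B)
include h

theorem piece (S : Set ℕ) :
    ∃ (s0 : ℕ) (κ : Type) (F : Finset κ) (S' : κ → Set ℕ) (R R' : Set ℕ),
      (∀ s ∈ Ioo s0 n, F.card ≤ GG (a s)) ∧
      (∀ l ∈ F, ∀ l' ∈ F, l ≠ l' → Disjoint (S' l) (S' l')) ∧ Disjoint R R' ∧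
      eF J (res S (avg n (range n) x)) ≤ 3 * (ZZ (a 0) : ℝ)⁻¹ + (1 / 50 *
        √((n : ℝ)⁻¹ * ∑ s ∈ Ioo s0 n, ∑ l ∈ F, eF J (res (S ∩ S' l) (x s)) ^ 2) +
        1 / 2 * √(eF J (res (S ∩ R) (avg n (range n) x)) ^ 2 +
          eF J (res (S ∩ R') (avg n (range n) x)) ^ 2)) := by
  by_contra hno
  have hZ : (0 : ℝ) < (ZZ (a 0) : ℝ)⁻¹ := inv_pos.2 (by exact_mod_cast ZZ_pos _)
  set e := eF J (res S (avg n (range n) x)) with he
  have z0 : ∀ X : ℕ → ℝ, eF J (res (S ∩ ∅) X) = 0 := fun X =>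
    (eF_ln J).eq_zero fun i _ => by simp [res]
  have k1 : ∀ (s0 : ℕ) (κ : Type) (F : Finset κ) (S' : κ → Set ℕ),
      (∀ s ∈ Ioo s0 n, F.card ≤ GG (a s)) →
      (∀ l ∈ F, ∀ l' ∈ F, l ≠ l' → Disjoint (S' l) (S' l')) → 3 * (ZZ (a 0) : ℝ)⁻¹ + 1 / 50 *
        √((n : ℝ)⁻¹ * ∑ s ∈ Ioo s0 n, ∑ l ∈ F, eF J (res (S ∩ S' l) (x s)) ^ 2) < e := by
    intro s0 κ F S' h1 h2
    by_contra hle
    refine hno ⟨s0, κ, F, S', ∅, ∅, h1, h2, by simp, ?_⟩
    rw [z0]
    simpa using hle
  have k2 : ∀ R R' : Set ℕ, Disjoint R R' → 3 * (ZZ (a 0) : ℝ)⁻¹ +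
      1 / 2 * √(eF J (res (S ∩ R) (avg n (range n) x)) ^ 2 +
          eF J (res (S ∩ R') (avg n (range n) x)) ^ 2) < e := by
    intro R R' h1
    by_contra hle
    refine hno ⟨0, Unit, ∅, fun _ => ∅, R, R', by simp, by simp, h1, ?_⟩
    simpa using hle
  have k0 : 3 * (ZZ (a 0) : ℝ)⁻¹ < e := by
    have := k2 ∅ ∅ (by simp)
    rw [z0] at this
    simpa using this
  have := (opF_ok J).dual_le_of (x := res S (avg n (range n) x)) (B := e - (ZZ (a 0) : ℝ)⁻¹)
    (by linarith) (fun i hi => ?_) ?_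
  · change e ≤ _ at this
    linarith
  · refine (abs_res_le _ _ _).trans ?_
    unfold avg
    rw [Pi.smul_apply, smul_eq_mul, abs_mul, abs_of_nonneg (by positivity)]
    have := h.succ.abs_sum_le h.ha.monotone subset_rfl h.hB0 (i := i) fun s hs =>
      ((eF_ln J).abs_le _ i hi).trans (h.eF_le hs)
    linarith [mul_le_mul_of_nonneg_left this (show 0 ≤ (√n)⁻¹ by positivity), h.small]
  · rintro g t (e1 | e1)
    · have ht : 0 ≤ t := by obtain ⟨_, _, _, _, _, _, _, _, _, _, h6, _⟩ := e1; exact h6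
      obtain ⟨s0, κ, F, S', h1, h2, h3⟩ := h.act_u1 S e1
      exact h3.trans (mul_le_mul_of_nonneg_right (by linarith [k1 s0 κ F S' h1 h2]) ht)
    · have ht : 0 ≤ t := by obtain ⟨_, _, _, _, _, _, _, _, _, _, _, _, _, h7, _⟩ := e1; exact h7
      obtain ⟨R, R', h1, h3⟩ := h.act_u2 S e1
      exact h3.trans (mul_le_mul_of_nonneg_right (by linarith [k2 R R' h1]) ht)

theorem step {M : ℕ} (hM : M ≤ MM (a 0)) {Λ : ℝ} (hΛ : 0 ≤ Λ)
    (hs : Spl J (avg n (range n) x) (2 * M) Λ) :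
    Spl J (avg n (range n) x) M (3 / (100 * dd P) + (B / 50 + Λ / 2)) := by
  classical
  intro κ0 F0 S h1 h2
  choose s0 κ F S' R R' p1 p2 p3 p4 using fun l => h.piece (S l)
  have hB := h.hB0
  have hd : (0 : ℝ) < dd P := by exact_mod_cast dd_pos _
  have hn : (0 : ℝ) < n := by exact_mod_cast h.pos
  rw [← Real.sqrt_le_left (by positivity)]
  refine (sqrt_sum_add_le F0 _ _ _ (fun _ _ => (eF_ln J).nonneg _) fun l _ => p4 l).trans
    (add_le_add ?_ ((sqrt_sum_add_le F0 _ _ _ (fun _ _ => by positivity) fun _ _ => le_rfl).trans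
      (add_le_add ?_ ?_)))
  · rw [Real.sqrt_le_left (by positivity), sum_const, nsmul_eq_mul]
    have e1 : (F0.card : ℝ) ≤ MM (a 0) := by exact_mod_cast h1.trans hM
    have e2 : (1 : ℝ) ≤ MM (a 0) := by exact_mod_cast MM_pos _
    have e3 : (ZZ (a 0) : ℝ) = 100 * dd (a 0) * MM (a 0) := by rw [ZZ_eq]; push_cast; ring
    have e4 := h.dd_le
    calc _ ≤ (MM (a 0) : ℝ) ^ 2 * (3 * (ZZ (a 0) : ℝ)⁻¹) ^ 2 :=
          mul_le_mul_of_nonneg_right (e1.trans (le_self_pow₀ e2 (by norm_num))) (sq_nonneg _)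
      _ = (3 / (100 * dd (a 0))) ^ 2 := by
          have : (0 : ℝ) < dd (a 0) := by linarith
          rw [e3]; field_simp
      _ ≤ _ := pow_le_pow_left₀ (by positivity)
          (div_le_div_of_nonneg_left (by norm_num) (by positivity) (by linarith)) 2
  · rw [Real.sqrt_le_left (by positivity)]
    have e1 : ∀ l ∈ F0, (1 / 50 * √((n : ℝ)⁻¹ * ∑ s ∈ Ioo (s0 l) n, ∑ j ∈ F l,
        eF J (res (S l ∩ S' l j) (x s)) ^ 2)) ^ 2 = (1 / 50) ^ 2 * ((n : ℝ)⁻¹ * ∑ s ∈ range n,
        if s0 l < s then ∑ j ∈ F l, eF J (res (S l ∩ S' l j) (x s)) ^ 2 else 0) := by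
      intro l _
      rw [mul_pow, Real.sq_sqrt (mul_nonneg (by positivity)
        (sum_nonneg fun _ _ => sum_nonneg fun _ _ => sq_nonneg _)), ← sum_filter]
      congr 3
      ext s; simp [and_comm]
    rw [sum_congr rfl e1, ← mul_sum, ← mul_sum, sum_comm]
    have e2 : ∀ s ∈ range n, ∑ l ∈ F0, (if s0 l < s then ∑ j ∈ F l,
        eF J (res (S l ∩ S' l j) (x s)) ^ 2 else 0) ≤ B ^ 2 := by
      intro s hs
      have hs' := mem_range.1 hs
      rw [← sum_filter, sum_sigma']
      refine h.spl s hs' _ _ (fun j : Σ l, κ l => S j.1 ∩ S' j.1 j.2) ?_ ?_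
      · rw [card_sigma]
        refine (sum_le_card_nsmul _ _ (GG (a s)) fun l hl =>
          p1 l s (mem_Ioo.2 ⟨(mem_filter.1 hl).2, hs'⟩)).trans ?_
        rw [smul_eq_mul, sq]
        refine Nat.mul_le_mul_right _ ?_
        rcases Nat.eq_zero_or_pos s with rfl | hs0
        · simp
        · exact (card_filter_le _ _).trans (h1.trans (hM.trans ((MM_le_gam _).trans
            (gam_le_GG (h.ha hs0)))))
      · rintro ⟨l, j⟩ hl ⟨l', j'⟩ hl' hne
        rw [mem_sigma] at hl hl'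
        by_cases e : l = l'
        · subst e
          exact (p2 l j hl.2 j' hl'.2 fun e => hne (by rw [e])).mono Set.inter_subset_right
            Set.inter_subset_right
        · exact (h2 l (mem_filter.1 hl.1).1 l' (mem_filter.1 hl'.1).1 e).mono
            Set.inter_subset_left Set.inter_subset_left
    have e3 := inv_mul_sum_le h.pos subset_rfl (sq_nonneg B) e2
    linarith
  · rw [Real.sqrt_le_left (by positivity)]
    have e1 := hs _ (F0.disjSum F0) (Sum.elim (fun l => S l ∩ R l) fun l => S l ∩ R' l)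
      (by rw [card_disjSum]; omega) (by
        rintro (l | l) hl (l' | l') hl' hne <;> simp only [inl_mem_disjSum, inr_mem_disjSum] at hl hl'
        · exact (h2 l hl l' hl' fun e => hne (by rw [e])).mono Set.inter_subset_left
            Set.inter_subset_left
        · by_cases e : l = l'
          · subst e; exact (p3 l).mono Set.inter_subset_right Set.inter_subset_right
          · exact (h2 l hl l' hl' e).mono Set.inter_subset_left Set.inter_subset_left
        · by_cases e : l = l'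
          · subst e; exact (p3 l).symm.mono Set.inter_subset_right Set.inter_subset_right
          · exact (h2 l hl l' hl' e).mono Set.inter_subset_left Set.inter_subset_left
        · exact (h2 l hl l' hl' fun e => hne (by rw [e])).mono Set.inter_subset_left
            Set.inter_subset_left)
    rw [sum_disjSum, ← sum_add_distrib] at e1
    simp only [Sum.elim_inl, Sum.elim_inr] at e1
    simp_rw [mul_pow, Real.sq_sqrt (add_nonneg (sq_nonneg _) (sq_nonneg _))]
    rw [← mul_sum]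
    linarith

/-- the level lemma -/
theorem level (hB : 100 / (dd P : ℝ) ≤ B) :
    Spl J (avg n (range n) x) (GG (a 0) ^ 2) (B / 20) := by
  have hd : (100 : ℝ) ≤ dd P := by exact_mod_cast le_dd _
  have hB0 := h.hB0
  have key : ∀ i j, i + j = 15 * dd (a 0) ^ 2 → Spl J (avg n (range n) x) (2 ^ j * GG (a 0) ^ 2)
      (6 / (100 * dd P) + B / 25 + 2 * dd P / 2 ^ i) := by
    intro i
    induction i with
    | zero =>
      intro j _
      refine (spl_of_sq2 _ (B := 2 * dd P) ?_).mono (by positivity) ?_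
      · linarith [sq2_avg_le h.ha.monotone h.pos h.succ subset_rfl J (by positivity) h.hx,
          sq_nonneg (dd P : ℝ)]
      · simp only [pow_zero, div_one]
        exact le_add_of_nonneg_left (by positivity)
    | succ i ih =>
      intro j hj
      have e1 := ih (j + 1) (by omega)
      rw [pow_succ' 2 j, mul_assoc] at e1
      refine (h.step ?_ (by positivity) e1).mono (by positivity) (le_of_eq ?_)
      · rw [MM_eq]
        exact Nat.mul_le_mul_right _ (Nat.pow_le_pow_right (by norm_num) (by omega))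
      · rw [pow_succ]; ring
  have e1 := key (15 * dd (a 0) ^ 2) 0 (Nat.add_zero _)
  rw [pow_zero, one_mul] at e1
  refine e1.mono (by positivity) ?_
  have e2 : 15 * (dd P : ℝ) ^ 2 ≤ 2 ^ (15 * dd (a 0) ^ 2) := by
    have e3 : ((15 * dd (a 0) ^ 2 : ℕ) : ℝ) ≤ 2 ^ (15 * dd (a 0) ^ 2) := by
      exact_mod_cast (Nat.lt_two_pow_self).le
    push_cast at e3
    linarith [pow_le_pow_left₀ (by positivity) h.dd_le 2]
  have e4 : 2 * (dd P : ℝ) / 2 ^ (15 * dd (a 0) ^ 2) ≤ 2 / 15 * (1 / dd P) := by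
    refine (div_le_div_of_nonneg_left (by positivity) (by positivity) e2).trans (le_of_eq ?_)
    field_simp
  have e5 : 6 / (100 * (dd P : ℝ)) = 6 / 100 * (1 / dd P) := by field_simp
  have e6 : 100 / (dd P : ℝ) = 100 * (1 / dd P) := by field_simp
  have e7 : 0 ≤ 1 / (dd P : ℝ) := by positivity
  linarith

end LevelHyp

end Pool.Agent.JLS
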