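import Pool.Agent.Lib.MP_2f16e6_an.Lower
import Pool.Agent.Lib.MP_2f16e6_an.Entropy

/-!
Long families of consecutive intervals; short families satisfy an upper 2-estimate. The blocks.
-/

set_option autoImplicit false

namespace Pool.Agent.JLS

open Finset

def Chain (L : ℕ → ℕ → Prop) (N r1 r2 : ℕ) : Prop :=
  ∃ ρ : ℕ → ℕ, ρ 0 = r1 ∧ ρ N ≤ r2 ∧ ∀ k < N, L (ρ k) (ρ (k + 1))

/-- the family of intervals of `T` with indices in `[r1, r2)` is long of order `t` -/
def Long (T : ℕ → ℕ) : ℕ → ℕ → ℕ → Prop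
  | 0 => fun r1 r2 => r1 < r2
  | t + 1 => fun r1 r2 => Chain (Long T t) (nP (tm (T r1) + 2)) r1 r2

theorem Chain.strict {L : ℕ → ℕ → Prop} (hL : ∀ a b, L a b → a < b) {N r1 r2 : ℕ}
    (h : Chain L N r1 r2) :
    ∃ ρ : ℕ → ℕ, StrictMono ρ ∧ ρ 0 = r1 ∧ ρ N ≤ r2 ∧ ∀ k < N, L (ρ k) (ρ (k + 1)) := by
  obtain ⟨ρ, h1, h2, h3⟩ := h
  refine ⟨fun k => if k ≤ N then ρ k else ρ N + (k - N), strictMono_nat_of_lt_succ fun k => ?_,
    by simpa using h1, by simpa using h2, fun k hk => ?_⟩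
  · by_cases hk : k < N
    · rw [if_pos hk.le, if_pos (show k + 1 ≤ N from hk)]; exact hL _ _ (h3 k hk)
    · rw [if_neg (show ¬ k + 1 ≤ N by omega)]
      split_ifs with h
      · have : k = N := by omega
        subst this; omega
      · omega
  · simp only [if_pos hk.le, if_pos (show k + 1 ≤ N from hk)]; exact h3 k hk

theorem Long.lt {T : ℕ → ℕ} {t : ℕ} : ∀ r1 r2, Long T t r1 r2 → r1 < r2 := by
  induction t with
  | zero => exact fun _ _ h => h
  | succ t ih =>
    intro r1 r2 h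
    obtain ⟨ρ, h0, h1, h2, -⟩ := Chain.strict ih h
    rw [← h1]; exact (h0 (nP_pos _)).trans_le h2

theorem Long.strict {T : ℕ → ℕ} {t r1 r2 : ℕ} (h : Long T (t + 1) r1 r2) :
    ∃ ρ : ℕ → ℕ, StrictMono ρ ∧ ρ 0 = r1 ∧ ρ (nP (tm (T r1) + 2)) ≤ r2 ∧
      ∀ k < nP (tm (T r1) + 2), Long T t (ρ k) (ρ (k + 1)) := Chain.strict Long.lt h

theorem Long.mono {T : ℕ → ℕ} {t r1 r2 r3 : ℕ} (h : Long T t r1 r2) (e : r2 ≤ r3) :
    Long T t r1 r3 := by
  cases t with
  | zero => exact lt_of_lt_of_le h e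
  | succ t => obtain ⟨ρ, h1, h2, h3⟩ := h; exact ⟨ρ, h1, h2.trans e, h3⟩

theorem Long.pred {T : ℕ → ℕ} {t r1 r2 : ℕ} (h : Long T (t + 1) r1 r2) : Long T t r1 r2 := by
  obtain ⟨ρ, h0, h1, h2, h3⟩ := h.strict
  have := h3 0 (nP_pos _)
  rw [h1] at this
  exact this.mono ((h0.monotone (nP_pos _)).trans h2)

theorem Long.of_le {T : ℕ → ℕ} {t t' r1 r2 : ℕ} (h : Long T t r1 r2) (e : t' ≤ t) :
    Long T t' r1 r2 := by
  induction t, e using Nat.le_induction with
  | base => exact h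
  | succ t _ ih => exact ih h.pred

theorem exists_long (T : ℕ → ℕ) (t : ℕ) : ∀ r1, ∃ r2, Long T t r1 r2 := by
  induction t with
  | zero => exact fun r => ⟨r + 1, Nat.lt_succ_self r⟩
  | succ t ih =>
    choose f hf using ih
    exact fun r => ⟨_, fun k => f^[k] r, rfl, le_rfl, fun k _ => by
      simp only [Function.iterate_succ_apply']; exact hf _⟩

theorem cover_of_not_chain {L : ℕ → ℕ → Prop} (hL : ∀ a b, L a b → a < b) (N : ℕ) :
    ∀ r1 r2, r1 ≤ r2 → ¬ Chain L N r1 r2 → ∃ π : ℕ → ℕ, Monotone π ∧ π 0 = r1 ∧ π (2 * N) = r2 ∧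
      ∀ k, ¬ L (π k) (π (k + 1)) ∨ π (k + 1) = π k + 1 := by
  classical
  induction N with
  | zero => exact fun r1 r2 h hc => absurd ⟨fun _ => r1, rfl, h, by simp⟩ hc
  | succ N ih =>
    intro r1 r2 h hc
    by_cases hex : ∃ r, r ≤ r2 ∧ L r1 r
    · have hs := Nat.find_spec hex
      set r := Nat.find hex with hr
      have hlt := hL _ _ hs.2
      obtain ⟨π, h1, h2, h3, h4⟩ := ih r r2 hs.1 fun ⟨ρ, e1, e2, e3⟩ => hc
        ⟨fun k => Nat.casesOn k r1 ρ, rfl, e2, fun k hk => by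
          cases k with
          | zero => simpa [e1] using hs.2
          | succ k => exact e3 k (by omega)⟩
      refine ⟨fun k => Nat.casesOn k r1 fun k => Nat.casesOn k (r - 1) π,
        monotone_nat_of_le_succ fun k => ?_, rfl, h3, fun k => ?_⟩
      · rcases k with _ | _ | k
        · change r1 ≤ r - 1; omega
        · change r - 1 ≤ π 0; omega
        · exact h1 (Nat.le_succ k)
      · rcases k with _ | _ | k
        · exact Or.inl fun e => Nat.find_min hex (show r - 1 < r by omega) ⟨by omega, e⟩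
        · right; change π 0 = r - 1 + 1; omega
        · exact h4 k
    · refine ⟨fun k => Nat.casesOn k r1 fun _ => r2, monotone_nat_of_le_succ fun k => ?_, rfl, rfl,
        fun k => Or.inl fun e => ?_⟩
      · rcases k with _ | k
        exacts [h, le_rfl]
      · rcases k with _ | k
        · exact hex ⟨r2, le_rfl, e⟩
        · exact lt_irrefl _ (hL _ _ e)

theorem sum_Ico_chain {π : ℕ → ℕ} (h : Monotone π) (f : ℕ → ℝ) (N : ℕ) :
    ∑ k ∈ range N, ∑ r ∈ Ico (π k) (π (k + 1)), f r = ∑ r ∈ Ico (π 0) (π N), f r := by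
  induction N with
  | zero => simp
  | succ N ih =>
    rw [sum_range_succ, ih, sum_Ico_consecutive _ (h (Nat.zero_le N)) (h (Nat.le_succ N))]

/-- families that are not long satisfy an upper 2-estimate -/
theorem upper_of_not_long (J : Finset ℕ) {T : ℕ → ℕ} (hT : Monotone T) (g : ℕ → ℝ) (t : ℕ) :
    ∀ r1 r2, ¬ Long T t r1 r2 → pF J (res (Set.Ico (T r1) (T r2)) g) ^ 2 ≤
      (100 ^ 2) ^ t * ∑ r ∈ Ico r1 r2, pF J (res (itv T r) g) ^ 2 := by
  have triv : ∀ (t : ℕ) r1 r2, r2 ≤ r1 → pF J (res (Set.Ico (T r1) (T r2)) g) ^ 2 ≤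
      (100 ^ 2) ^ t * ∑ r ∈ Ico r1 r2, pF J (res (itv T r) g) ^ 2 := fun t r1 r2 h => by
    rw [Set.Ico_eq_empty_of_le (hT h), Ico_eq_empty_of_le h,
      (pF_ln J).eq_zero fun i _ => by simp [res]]
    simp
  induction t with
  | zero => exact fun r1 r2 h => triv 0 r1 r2 (not_lt.1 h)
  | succ t ih =>
    intro r1 r2 h
    rcases le_total r2 r1 with h' | h'
    · exact triv _ r1 r2 h'
    obtain ⟨π, h1, h2, h3, h4⟩ := cover_of_not_chain Long.lt _ r1 r2 h' h
    have ha : Monotone fun k => T (π k) := hT.comp h1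
    have e1 := pF_u1 J (q := T r1) (F := range (2 * nP (tm (T r1) + 2)))
      (S := itv fun k => T (π k)) (by rw [card_range]; exact le_rfl)
      (fun l _ i hi => (h2 ▸ ha (Nat.zero_le l) : T r1 ≤ T (π l)).trans hi.1) (itv_disj ha _)
      (g := res (Set.Ico (T r1) (T r2)) g) fun i _ hg => by
        obtain ⟨s, hs, hi⟩ := exists_itv (a := fun k => T (π k)) (N := 2 * nP (tm (T r1) + 2))
          (i := i) (by rw [h2]; exact (res_ne_zero hg).1.1) (by rw [h3]; exact (res_ne_zero hg).1.2)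
        exact ⟨s, mem_range.2 hs, hi⟩
    have e2 : ∀ k ∈ range (2 * nP (tm (T r1) + 2)),
        pF J (res (itv (fun k => T (π k)) k) (res (Set.Ico (T r1) (T r2)) g)) ^ 2 ≤
          (100 ^ 2) ^ t * ∑ r ∈ Ico (π k) (π (k + 1)), pF J (res (itv T r) g) ^ 2 := by
      intro k _
      rw [res_comm]
      refine (pow_le_pow_left₀ ((pF_ln J).nonneg _) ((pF_ln J).res_le _ _) 2).trans ?_
      rcases h4 k with e | e
      · exact ih _ _ e
      · simp only [itv, e, Nat.Ico_succ_singleton, sum_singleton]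
        exact le_mul_of_one_le_left (sq_nonneg _) (one_le_pow₀ (by norm_num))
    have e3 := sum_le_sum e2
    rw [← mul_sum, sum_Ico_chain h1, h2, h3] at e3
    rw [pow_succ' _ t, mul_assoc]
    linarith

theorem pF_sq_le_card (J S : Finset ℕ) (g : ℕ → ℝ) :
    pF J (res S g) ^ 2 ≤ S.card * sq2 J (res S g) := by
  classical
  have e1 : ∑ i ∈ J ∩ S, |res S g i| = ∑ i ∈ J, |res S g i| :=
    sum_subset inter_subset_left fun i hi hi' => by
      have : i ∉ S := fun h => hi' (mem_inter.2 ⟨hi, h⟩)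
      simp [res, this]
  have e2 := sq_sum_le_card_mul_sum_sq (s := J ∩ S) (f := fun i => |res S g i|)
  simp only [sq_abs] at e2
  rw [e1] at e2
  refine (pow_le_pow_left₀ ((pF_ln J).nonneg _) ((pF_ln J).le_l1 _) 2).trans (e2.trans ?_)
  exact mul_le_mul (by exact_mod_cast card_le_card inter_subset_right)
    (sum_le_sum_of_subset_of_nonneg inter_subset_left fun _ _ _ => sq_nonneg _)
    (sum_nonneg fun _ _ => sq_nonneg _) (by positivity)

/-- pairs of consecutive coordinates -/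
abbrev T2 : ℕ → ℕ := fun r => 2 * r

theorem T2_strictMono : StrictMono T2 := fun a b h => by simp only [T2]; omega

open Classical in
/-- the block boundaries, in units of pairs -/
noncomputable def rr : ℕ → ℕ
  | 0 => 0
  | n + 1 => Nat.find (exists_long T2 n (rr n))

theorem rr_long (n : ℕ) : Long T2 n (rr n) (rr (n + 1)) := by
  classical exact Nat.find_spec (exists_long T2 n (rr n))

theorem rr_strictMono : StrictMono rr := strictMono_nat_of_lt_succ fun n => (rr_long n).lt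

theorem rr_not_long (n : ℕ) : ¬ Long T2 n (rr n) (rr (n + 1) - 1) := by
  classical
  have := (rr_long n).lt
  exact Nat.find_min (exists_long T2 n (rr n)) (show rr (n + 1) - 1 < rr (n + 1) by omega)

/-- the `n`-th block -/
noncomputable abbrev JJ (n : ℕ) : Finset ℕ := Ico (T2 (rr n)) (T2 (rr (n + 1)))

theorem le_T2_rr (n : ℕ) : n ≤ T2 (rr n) := (T2_strictMono.comp rr_strictMono).le_apply

theorem pF_le_dd (n : ℕ) (g : ℕ → ℝ) :
    pF (JJ n) g ^ 2 ≤ (dd (T2 (rr n)) : ℝ) ^ 2 * sq2 (JJ n) g := by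
  have hlt := (rr_long n).lt
  have e0 : ∀ r, pF (JJ n) (res (itv T2 r) g) ^ 2 ≤ 2 * sq2 (JJ n) (res (itv T2 r) g) := fun r => by
    have := pF_sq_le_card (JJ n) (Ico (T2 r) (T2 (r + 1))) g
    rw [coe_Ico, Nat.card_Ico, show T2 (r + 1) - T2 r = 2 by simp only [T2]; omega] at this
    exact_mod_cast this
  have e1 := upper_of_not_long (JJ n) T2_strictMono.monotone g n _ _ (rr_not_long n)
  have e2 := sum_le_sum fun r (_ : r ∈ Ico (rr n) (rr (n + 1) - 1)) => e0 r
  rw [← mul_sum] at e2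
  have e3 := sum_sq2_res_le (JJ n) (Ico (rr n) (rr (n + 1) - 1)) (itv T2)
    (itv_disj T2_strictMono.monotone _) g
  have e4 := e0 (rr (n + 1) - 1)
  have e5 : sq2 (JJ n) (res (itv T2 (rr (n + 1) - 1)) g) ≤ sq2 (JJ n) g :=
    sq2_mono fun i _ => abs_res_le _ _ _
  have e6 : pF (JJ n) g ≤ pF (JJ n) (res (Set.Ico (T2 (rr n)) (T2 (rr (n + 1) - 1))) g) +
      pF (JJ n) (res (itv T2 (rr (n + 1) - 1)) g) := (pF_ln _).le_add fun i hi => by
    rw [mem_Ico] at hi
    by_cases h : i < T2 (rr (n + 1) - 1)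
    · rw [show res (Set.Ico (T2 (rr n)) (T2 (rr (n + 1) - 1))) g i = g i from
        Set.indicator_of_mem (show i ∈ Set.Ico _ _ from ⟨hi.1, h⟩) _]
      exact le_add_of_nonneg_right (abs_nonneg _)
    · rw [show res (itv T2 (rr (n + 1) - 1)) g i = g i from
        Set.indicator_of_mem (show i ∈ Set.Ico _ _ from
          ⟨not_lt.1 h, by rw [Nat.sub_add_cancel (by omega)]; exact hi.2⟩) _]
      exact le_add_of_nonneg_left (abs_nonneg _)
  have h1 : (1 : ℝ) ≤ (100 ^ 2) ^ n := one_le_pow₀ (by norm_num)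
  have h2 : (100 ^ 2 : ℝ) * (100 ^ 2) ^ n ≤ (dd (T2 (rr n)) : ℝ) ^ 2 := by
    have : (dd n : ℝ) ≤ dd (T2 (rr n)) := by exact_mod_cast dd_mono (le_T2_rr n)
    refine le_trans (le_of_eq ?_) (pow_le_pow_left₀ (by positivity) this 2)
    unfold dd
    rw [Nat.cast_pow, ← pow_mul, ← pow_mul, ← pow_add]
    norm_num; ring_nf
  have h3 := sq2_nonneg (JJ n) g
  have e7 := pow_le_pow_left₀ ((pF_ln _).nonneg _) e6 2
  have e8 := mul_le_mul_of_nonneg_left (e2.trans (mul_le_mul_of_nonneg_left e3 zero_le_two))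
    (zero_le_one.trans h1)
  nlinarith [mul_le_mul_of_nonneg_right h2 h3, mul_le_mul_of_nonneg_right h1 h3,
    sq_nonneg (pF (JJ n) (res (Set.Ico (T2 (rr n)) (T2 (rr (n + 1) - 1))) g) -
      pF (JJ n) (res (itv T2 (rr (n + 1) - 1)) g))]

end Pool.Agent.JLS
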