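import Pool.Agent.Lib.MP_2f16e6_an.FNorm

/-!
Lower 2-estimates for the block norm.
-/

set_option autoImplicit false

namespace Pool.Agent.JLS

open Finset

theorem sum_pF_sq_le_l1 (J : Finset ℕ) {κ : Type*} (F : Finset κ) (S : κ → Set ℕ)
    (hd : ∀ l ∈ F, ∀ l' ∈ F, l ≠ l' → Disjoint (S l) (S l')) (g : ℕ → ℝ) :
    ∑ l ∈ F, pF J (res (S l) g) ^ 2 ≤ (∑ i ∈ J, |g i|) ^ 2 := by
  refine (sum_sq_le_sq_sum_of_nonneg fun l _ => (pF_ln J).nonneg _).trans
    (pow_le_pow_left₀ (sum_nonneg fun l _ => (pF_ln J).nonneg _) ?_ 2)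
  refine (sum_le_sum fun l _ => (pF_ln J).le_l1 _).trans ?_
  simp_rw [abs_res]
  exact sum_sq_res_le J F S hd _ fun i _ => abs_nonneg _

theorem sqrt_sum_pF_add (J : Finset ℕ) {κ : Type*} (F : Finset κ) (S : κ → Set ℕ) (g g' : ℕ → ℝ) :
    √(∑ l ∈ F, pF J (res (S l) (g + g')) ^ 2) ≤
      √(∑ l ∈ F, pF J (res (S l) g) ^ 2) + √(∑ l ∈ F, pF J (res (S l) g') ^ 2) :=
  sqrt_sum_add_le F _ _ _ (fun _ _ => (pF_ln J).nonneg _) fun l _ => by
    rw [res_add]; exact (pF_ln J).add_le _ _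

theorem abs_res_mono {J : Finset ℕ} (S : Set ℕ) {g g' : ℕ → ℝ} (e : ∀ i ∈ J, |g i| ≤ |g' i|) :
    ∀ i ∈ J, |res S g i| ≤ |res S g' i| := fun i hi => by
  by_cases h : i ∈ S <;> simp [res, h, e i hi]

theorem sum_pF_mono (J : Finset ℕ) {κ : Type*} (F : Finset κ) (S : κ → Set ℕ) (g g' : ℕ → ℝ)
    (e : ∀ i ∈ J, |g i| ≤ |g' i|) :
    ∑ l ∈ F, pF J (res (S l) g) ^ 2 ≤ ∑ l ∈ F, pF J (res (S l) g') ^ 2 :=
  sum_le_sum fun l _ => pow_le_pow_left₀ ((pF_ln J).nonneg _)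
    ((pF_ln J).solid _ _ (abs_res_mono _ e)) 2

theorem res_ne_zero {S : Set ℕ} {g : ℕ → ℝ} {i : ℕ} (h : res S g i ≠ 0) : i ∈ S ∧ g i ≠ 0 := by
  by_cases hi : i ∈ S
  · exact ⟨hi, by simpa [res, hi] using h⟩
  · simp [res, hi] at h

theorem sum_ite_mem_le {κ : Type*} (F : Finset κ) (S : κ → Set ℕ)
    (hd : ∀ l ∈ F, ∀ l' ∈ F, l ≠ l' → Disjoint (S l) (S l')) (i : ℕ) {x : ℝ} (hx : 0 ≤ x) :
    ∑ l ∈ F, res (S l) (fun _ => x) i ≤ x := by
  simpa using sum_sq_res_le {i} F S hd (fun _ => x) fun _ _ => hx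

/-- restricting a special configuration to a set -/
theorem Shape.res {J : Finset ℕ} {c : ℕ → ℕ} {k0 k1 N : ℕ} {H : Set ℕ} {u D : ℕ → ℝ}
    {b : ℕ → ℕ → ℝ} {g : ℕ → ℝ} (h : Shape J c k0 N H u D b g) (hk : k0 ≤ k1) (S : Set ℕ)
    (hu : ∀ k ∈ Ico k0 N, pF J (res (itv c k) g) ≤ u k) :
    Shape J c k1 N H (fun k => pF J (res (itv c k) (res S g))) D b (res S g) := by
  intro k h1 h2
  obtain ⟨-, e2, e3, e4⟩ := h k (by omega) h2
  refine ⟨(pF_ln J).nonneg _, ?_, e3, fun i hi hi' => ⟨fun hg => (e4 i hi hi').1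
    (res_ne_zero hg).2, (abs_res_le _ _ _).trans (e4 i hi hi').2⟩⟩
  beta_reduce
  rw [res_comm]
  exact ((pF_ln J).res_le _ _).trans ((hu k (mem_Ico.2 ⟨by omega, h2⟩)).trans e2)

/-- lower 2-estimate for arbitrarily many intervals -/
theorem pF_lower_itv (J : Finset ℕ) {κ : Type} (F : Finset κ) (S : κ → Set ℕ)
    (hc : ∀ l ∈ F, (S l).OrdConnected)
    (hd : ∀ l ∈ F, ∀ l' ∈ F, l ≠ l' → Disjoint (S l) (S l')) (g : ℕ → ℝ) :
    ∑ l ∈ F, pF J (res (S l) g) ^ 2 ≤ 4 * pF J g ^ 2 := by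
  refine (opF_ok J).quad_le (Ψ := fun g => ∑ l ∈ F, pF J (res (S l) g) ^ 2) (by norm_num)
    (fun g => (sum_pF_sq_le_l1 J F S hd g).trans (by nlinarith [sq_nonneg (∑ i ∈ J, |g i|)]))
    (sqrt_sum_pF_add J F S) (sum_pF_mono J F S) ?_ g
  rintro g t (⟨q, κ', F', S', u, h1, h2, h3, h4, h5, h6, h7⟩ |
      ⟨c, k0, N, H, u, D, b, h1, h2, h3, h4, h5, h6, h7, h8⟩)
  · have e1 := sum_le_sum fun l (_ : l ∈ F) => pF_u1 J h1 h2 h3 (g := res (S l) g)
      fun i hi hg => h4 i hi (res_ne_zero hg).2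
    rw [← mul_sum, sum_comm] at e1
    have e2 := sum_le_sum fun l hl => (h5 l hl).2
    simp_rw [res_comm (S' _)] at e1
    rw [← mul_sum] at e2
    linarith
  · have hu : ∀ k ∈ Ico k0 N, pF J (res (itv c k) g) ≤ u k := fun k hk => (h5 k hk).1
    have step : ∀ l ∈ F, pF J (res (S l) g) ^ 2 ≤ ∑ k ∈ Ico k0 N,
        (pF J (res (S l) (res (itv c k) g)) ^ 2 + (res (S l) (fun _ => 4 * wt c k0 u D k) (c k) +
          res (S l) (fun _ => 4 * wt c k0 u D k) (c (k + 1)))) := by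
      intro l hl
      have hw : ∀ k j, 0 ≤ res (S l) (fun _ => 4 * wt c k0 u D k) j := fun k j =>
        Set.indicator_nonneg (fun _ _ => by linarith [wt_nonneg c k0 u D k]) _
      by_cases hm : ∃ k, c k ∈ S l
      · obtain ⟨k', hk'⟩ := hm
        refine (pF_u2 J h1 h2 h3 (fun i hi hg => h4 i hi (res_ne_zero hg).2) (fun k _ => le_rfl)
          (h6.res le_rfl (S l) hu)).trans ?_
        rw [mul_sum]
        refine sum_le_sum fun k hk => le_trans ?_ (le_add_of_nonneg_left (sq_nonneg _))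
        by_cases hmeet : ∃ i ∈ S l, i ∈ itv c k
        · obtain ⟨i, hi, hik⟩ := hmeet
          have e1 : wt c k0 (fun k => pF J (res (itv c k) (res (S l) g))) D k ≤ wt c k0 u D k := by
            have e2 : pF J (res (itv c k) (res (S l) g)) ≤ u k := by
              rw [res_comm]; exact ((pF_ln J).res_le _ _).trans (hu k hk)
            unfold wt
            split_ifs with e
            · exact pow_le_pow_left₀ ((pF_ln J).nonneg _) e2 2
            · rw [mem_Ico] at hk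
              obtain ⟨e3, e4, -⟩ := h6 k (by omega) hk.2
              exact rho2_mono _ ((pF_ln J).nonneg _) e2 (e3.trans e4) le_rfl
          rcases le_or_gt k' k with hkk | hkk
          · have : c k ∈ S l := (hc l hl).out hk' hi ⟨h1.monotone hkk, hik.1⟩
            have e3 := hw k (c (k + 1))
            simp only [res, Set.indicator_of_mem this] at e3 ⊢
            linarith
          · have : c (k + 1) ∈ S l := (hc l hl).out hi hk' ⟨hik.2.le, h1.monotone hkk⟩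
            have e3 := hw k (c k)
            simp only [res, Set.indicator_of_mem this] at e3 ⊢
            linarith
        · have e2 : pF J (res (itv c k) (res (S l) g)) = 0 := (pF_ln J).eq_zero fun i _ => by
            by_contra hne
            exact hmeet ⟨i, (res_ne_zero (res_ne_zero hne).2).1, (res_ne_zero hne).1⟩
          have e3 : wt c k0 (fun k => pF J (res (itv c k) (res (S l) g))) D k = 0 := by
            unfold wt; split_ifs
            · simp [e2]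
            · simp only [e2]; exact rho2_zero _ _
          rw [e3, mul_zero]
          exact add_nonneg (hw _ _) (hw _ _)
      · by_cases h0 : ∃ i ∈ J, res (S l) g i ≠ 0
        · obtain ⟨i0, hi0, hg0⟩ := h0
          obtain ⟨k, hk, hik⟩ := exists_itv' h2.le (h4 i0 hi0 (res_ne_zero hg0).2).1
            (h4 i0 hi0 (res_ne_zero hg0).2).2
          refine le_trans ?_ (single_le_sum (f := fun k => pF J (res (S l) (res (itv c k) g)) ^ 2 +
            (res (S l) (fun _ => 4 * wt c k0 u D k) (c k) +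
              res (S l) (fun _ => 4 * wt c k0 u D k) (c (k + 1))))
            (fun k _ => add_nonneg (sq_nonneg _) (add_nonneg (hw _ _) (hw _ _))) hk)
          refine le_trans (pow_le_pow_left₀ ((pF_ln J).nonneg _) ((pF_ln J).solid _ _ fun i _ => ?_) 2)
            (le_add_of_nonneg_right (add_nonneg (hw _ _) (hw _ _)))
          by_cases hi : i ∈ S l
          · have hi0' := (res_ne_zero hg0).1
            have : i ∈ itv c k := by
              constructor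
              · by_contra hlt
                exact hm ⟨k, (hc l hl).out hi hi0' ⟨(not_le.1 hlt).le, hik.1⟩⟩
              · by_contra hlt
                exact hm ⟨k + 1, (hc l hl).out hi0' hi ⟨hik.2.le, not_lt.1 hlt⟩⟩
            simp only [res, Set.indicator_of_mem hi, Set.indicator_of_mem this, le_refl]
          · simp [res, hi]
        · rw [(pF_ln J).eq_zero fun i hi => by by_contra hne; exact h0 ⟨i, hi, hne⟩]
          simpa using sum_nonneg fun k _ => add_nonneg (sq_nonneg _) (add_nonneg (hw _ _) (hw _ _))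
    refine (sum_le_sum step).trans ?_
    rw [sum_comm]
    have e1 : ∀ k ∈ Ico k0 N, ∑ l ∈ F, (pF J (res (S l) (res (itv c k) g)) ^ 2 +
        (res (S l) (fun _ => 4 * wt c k0 u D k) (c k) +
          res (S l) (fun _ => 4 * wt c k0 u D k) (c (k + 1)))) ≤ 12 * wt c k0 u D k := by
      intro k hk
      have hw : 0 ≤ 4 * wt c k0 u D k := by linarith [wt_nonneg c k0 u D k]
      rw [sum_add_distrib, sum_add_distrib]
      linarith [sum_ite_mem_le F S hd (c k) hw, sum_ite_mem_le F S hd (c (k + 1)) hw,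
        (h5 k hk).2, h6.sq_le_wt hk]
    have e2 := sum_le_sum e1
    rw [← mul_sum] at e2
    linarith [sum_nonneg (s := Ico k0 N) (f := wt c k0 u D) fun _ _ => wt_nonneg _ _ _ _ _]

/-- dual form: upper 2-estimate of the dual norm on intervals -/
theorem eF_upper_itv (J : Finset ℕ) {κ : Type} (F : Finset κ) (S : κ → Set ℕ)
    (hc : ∀ l ∈ F, (S l).OrdConnected)
    (hd : ∀ l ∈ F, ∀ l' ∈ F, l ≠ l' → Disjoint (S l) (S l')) {x : ℕ → ℝ}
    (hx : ∀ i ∈ J, x i ≠ 0 → ∃ l ∈ F, i ∈ S l) :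
    eF J x ≤ 2 * √(∑ l ∈ F, eF J (res (S l) x) ^ 2) := by
  refine (pF_ln J).dual_le' (by positivity) fun g => ?_
  refine (pr_le_sum_res J F S x g fun i hi h _ => hx i hi h).trans
    ((sum_le_sum fun l _ => pr_le_eF J _ le_rfl).trans
      ((Real.sum_mul_le_sqrt_mul_sqrt _ _ _).trans ?_))
  have : √(∑ l ∈ F, pF J (res (S l) g) ^ 2) ≤ 2 * pF J g :=
    Real.sqrt_le_iff.2 ⟨by linarith [(pF_ln J).nonneg g], by linarith [pF_lower_itv J F S hc hd g]⟩
  nlinarith [Real.sqrt_nonneg (∑ l ∈ F, eF J (res (S l) x) ^ 2)]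

theorem exists_kstar (c : ℕ → ℕ) {k0 N : ℕ} (h : k0 < N) (q : ℕ) :
    ∃ k, k0 ≤ k ∧ k < N ∧ (k = k0 ∨ c k ≤ q) ∧ ∀ k', k < k' → k' < N → q < c k' := by
  refine ⟨max k0 (Nat.findGreatest (fun k => c k ≤ q) (N - 1)), le_max_left _ _, ?_, ?_,
    fun k' h1 h2 => ?_⟩
  · have := Nat.findGreatest_le (P := fun k => c k ≤ q) (N - 1)
    omega
  · rcases le_or_gt (Nat.findGreatest (fun k => c k ≤ q) (N - 1)) k0 with h' | h'
    · exact Or.inl (max_eq_left h')
    · rw [max_eq_right h'.le]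
      exact Or.inr (Nat.findGreatest_of_ne_zero (P := fun k => c k ≤ q) rfl (by omega))
  · exact not_le.1 (Nat.findGreatest_is_greatest (P := fun k => c k ≤ q) (n := N - 1)
      (lt_of_le_of_lt (le_max_right _ _) h1) (by omega))

theorem rho2_split {κ : Type*} (F : Finset κ) {c : ℕ} (hm : F.card ≤ GG c) {d : ℝ} (hd0 : 0 ≤ d)
    (hd : d ≤ dd c) (a : κ → ℝ) {E u D : ℝ} (hE : 0 ≤ E) (h1 : ∑ l ∈ F, a l ^ 2 + E ≤ 2 * u ^ 2)
    (h2 : ∑ l ∈ F, a l ^ 2 ≤ d ^ 2 * E) (hu : 0 ≤ u) (huD : u ≤ D) :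
    4 * ∑ l ∈ F, rho2 c (a l) D + E ≤ 8 * rho2 c u D := by
  have hη := eta_pos c
  have hη' := eta_le c
  have hρ := sq_le_rho2 c hu huD
  have hN : 0 ≤ ∑ l ∈ F, a l ^ 2 := sum_nonneg fun _ _ => sq_nonneg _
  rcases F.eq_empty_or_nonempty with rfl | hF
  · simp only [sum_empty] at h1 ⊢; nlinarith [sq_nonneg u]
  rcases hu.eq_or_lt with h0 | h0
  · subst h0
    have e1 : ∑ l ∈ F, a l ^ 2 = 0 := by nlinarith
    rw [sum_eq_zero fun l hl => ?_, rho2_zero]
    · nlinarith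
    · have := (sum_eq_zero_iff_of_nonneg fun _ _ => sq_nonneg _).1 e1 l hl
      rw [pow_eq_zero_iff two_ne_zero] at this
      rw [this, rho2_zero]
  have hmp : (1 : ℝ) ≤ F.card := by exact_mod_cast hF.card_pos
  have hU : 0 < u ^ 2 := by positivity
  set μ := (F.card : ℝ) ^ eta c with hμ
  have hμ1 : 1 ≤ μ := Real.one_le_rpow hmp hη.le
  have hμ2 := rpow_eta_le hm hd0 hd
  have e1 : ∀ l ∈ F, u ^ 2 * rho2 c (a l) D ≤
      μ * rho2 c u D * ((1 - eta c) * a l ^ 2 + eta c * (2 * u ^ 2 / F.card)) := by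
    intro l _
    have e2 := Real.geom_mean_le_arith_mean2_weighted (one_sub_eta_pos c).le hη.le
      (sq_nonneg (a l)) (show 0 ≤ 2 * u ^ 2 / F.card by positivity) (by ring)
    have e3 : (u ^ 2) ^ eta c ≤ μ * (2 * u ^ 2 / F.card) ^ eta c := by
      rw [hμ, ← Real.mul_rpow (by positivity) (by positivity)]
      refine Real.rpow_le_rpow hU.le ?_ hη.le
      rw [mul_div_cancel₀ _ (by positivity)]; linarith
    have e4 := rho2_self c u
    unfold rho2 at e4 ⊢
    have e5 : 0 ≤ (u ^ 2) ^ (1 - eta c) * (D ^ 2) ^ eta c := by positivity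
    calc u ^ 2 * ((a l ^ 2) ^ (1 - eta c) * (D ^ 2) ^ eta c)
        = ((u ^ 2) ^ (1 - eta c) * (D ^ 2) ^ eta c) * ((a l ^ 2) ^ (1 - eta c) * (u ^ 2) ^ eta c) := by
          linear_combination (-((a l ^ 2) ^ (1 - eta c) * (D ^ 2) ^ eta c)) * e4
      _ ≤ ((u ^ 2) ^ (1 - eta c) * (D ^ 2) ^ eta c) *
          ((a l ^ 2) ^ (1 - eta c) * (μ * (2 * u ^ 2 / F.card) ^ eta c)) :=
          mul_le_mul_of_nonneg_left (mul_le_mul_of_nonneg_left e3 (by positivity)) e5
      _ = μ * ((u ^ 2) ^ (1 - eta c) * (D ^ 2) ^ eta c) *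
          ((a l ^ 2) ^ (1 - eta c) * (2 * u ^ 2 / F.card) ^ eta c) := by ring
      _ ≤ _ := mul_le_mul_of_nonneg_left e2 (by positivity)
  have e6 := sum_le_sum e1
  rw [← mul_sum, ← mul_sum, sum_add_distrib, ← mul_sum, sum_const, nsmul_eq_mul,
    mul_left_comm (F.card : ℝ), mul_div_cancel₀ _ (by positivity)] at e6
  set Y := 2 * u ^ 2 - ∑ l ∈ F, a l ^ 2 with hY
  have hEY : E ≤ Y := by linarith
  have hY0 : 0 ≤ Y := hE.trans hEY
  have e7 : 2 * u ^ 2 ≤ (1 + d ^ 2) * Y := by nlinarith [mul_le_mul_of_nonneg_left hEY (sq_nonneg d)]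
  have e8 : (μ - 1) * (2 * u ^ 2) ≤ Y / 2 := by
    nlinarith [mul_le_mul_of_nonneg_left e7 (sub_nonneg.2 hμ1), mul_le_mul_of_nonneg_right hμ2 hY0]
  have e9 : μ * ((1 - eta c) * ∑ l ∈ F, a l ^ 2 + eta c * (2 * u ^ 2)) ≤ 2 * u ^ 2 - Y / 4 := by
    have : (1 - eta c) * ∑ l ∈ F, a l ^ 2 + eta c * (2 * u ^ 2) = 2 * u ^ 2 - (1 - eta c) * Y := by
      rw [hY]; ring
    rw [this]
    have e10 : 7 / 8 * Y ≤ (1 - eta c) * Y := mul_le_mul_of_nonneg_right (by linarith) hY0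
    have e11 : (1 - eta c) * Y ≤ μ * ((1 - eta c) * Y) := le_mul_of_one_le_left (by linarith) hμ1
    linarith
  have hρ0 := rho2_nonneg c u D
  have e12 := mul_le_mul_of_nonneg_left e9 hρ0
  have e13 : u ^ 2 * E ≤ rho2 c u D * Y := mul_le_mul hρ hEY hE hρ0
  refine le_of_mul_le_mul_left ?_ hU
  nlinarith

theorem sqrt_add_two {a b c a' b' c' : ℝ} (ha : 0 ≤ a) (hb : 0 ≤ b) (hc : 0 ≤ c) (ha' : 0 ≤ a')
    (hb' : 0 ≤ b') (hc' : 0 ≤ c') (h : √a ≤ √b + √c) (h' : √a' ≤ √b' + √c') :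
    √(a + a') ≤ √(b + b') + √(c + c') := by
  have := sqrt_sum_add_le (univ : Finset (Fin 2)) ![√a, √a'] ![√b, √b'] ![√c, √c']
    (fun i _ => by fin_cases i <;> simp) (fun i _ => by fin_cases i <;> simpa)
  simpa [Fin.sum_univ_two, Real.sq_sqrt, ha, hb, hc, ha', hb', hc'] using this

/-- lower 2-estimate for few disjoint sets -/
theorem pF_lower_few (J : Finset ℕ) {q : ℕ} {d : ℝ} (hd0 : 0 ≤ d) (hdq : d ≤ dd q)
    (hpd : ∀ g, pF J g ^ 2 ≤ d ^ 2 * sq2 J g) {κ : Type} (F : Finset κ) (S : κ → Set ℕ)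
    (hF : F.card ≤ gam q) (hq : ∀ l ∈ F, ∀ i ∈ S l, q ≤ i)
    (hd : ∀ l ∈ F, ∀ l' ∈ F, l ≠ l' → Disjoint (S l) (S l')) (g : ℕ → ℝ) :
    ∑ l ∈ F, pF J (res (S l) g) ^ 2 ≤ 2 * pF J g ^ 2 := by
  have hn1 : ∀ g : ℕ → ℝ, 0 ≤ ∑ l ∈ F, pF J (res (S l) g) ^ 2 :=
    fun g => sum_nonneg fun _ _ => sq_nonneg _
  have hn2 : ∀ g : ℕ → ℝ, 0 ≤ ∑ l ∈ F, sq2 J (res (S l) g) :=
    fun g => sum_nonneg fun _ _ => sq2_nonneg _ _
  refine le_trans (le_add_of_nonneg_right (hn2 g)) ((opF_ok J).quad_le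
    (Ψ := fun g => ∑ l ∈ F, pF J (res (S l) g) ^ 2 + ∑ l ∈ F, sq2 J (res (S l) g)) (by norm_num)
    (fun g => ?_) (fun g g' => ?_) (fun g g' e => ?_) ?_ g)
  · linarith [sum_pF_sq_le_l1 J F S hd g, (sum_sq2_res_le J F S hd g).trans (sq2_le_l1 J g)]
  · refine sqrt_add_two (hn1 _) (hn1 _) (hn1 _) (hn2 _) (hn2 _) (hn2 _)
      (sqrt_sum_pF_add J F S g g') ?_
    have := sqrt_sum_add_le F (fun l => √(sq2 J (res (S l) (g + g'))))
      (fun l => √(sq2 J (res (S l) g))) (fun l => √(sq2 J (res (S l) g')))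
      (fun _ _ => Real.sqrt_nonneg _) fun l _ => by rw [res_add]; exact sqrt_sq2_add J _ _
    simpa only [Real.sq_sqrt (sq2_nonneg _ _)] using this
  · exact add_le_add (sum_pF_mono J F S g g' e) (sum_le_sum fun l _ => sq2_mono (abs_res_mono _ e))
  rintro g t (⟨q', κ', F', S', u, h1, h2, h3, h4, h5, h6, h7⟩ |
      ⟨c, k0, N, H, u, D, b, h1, h2, h3, h4, h5, h6, h7, h8⟩)
  · have e1 := sum_le_sum fun l (_ : l ∈ F) => pF_u1 J h1 h2 h3 (g := res (S l) g)
      fun i hi hg => h4 i hi (res_ne_zero hg).2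
    have e1' := sum_le_sum fun l (_ : l ∈ F) => sq2_le_sum_res J F' S' (res (S l) g)
      fun i hi hg => h4 i hi (res_ne_zero hg).2
    rw [← mul_sum, sum_comm] at e1
    rw [sum_comm (s := F) (t := F')] at e1'
    have e2 := sum_le_sum fun l hl => (h5 l hl).2
    simp_rw [res_comm (S' _)] at e1 e1'
    rw [← mul_sum, sum_add_distrib] at e2
    linarith [sum_nonneg (s := F') fun l _ => hn2 (res (S' l) g)]
  · have hu : ∀ k ∈ Ico k0 N, pF J (res (itv c k) g) ≤ u k := fun k hk => (h5 k hk).1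
    obtain ⟨k1, hk1, hk2, hk3, hk4⟩ := exists_kstar c h2 q
    have hsupp : ∀ l ∈ F, ∀ i ∈ J, res (S l) g i ≠ 0 → c k1 ≤ i ∧ i < c N := fun l hl i hi hg => by
      have := h4 i hi (res_ne_zero hg).2
      refine ⟨?_, this.2⟩
      rcases hk3 with e | e
      · rw [e]; exact this.1
      · exact e.trans (hq l hl i (res_ne_zero hg).1)
    have e1 := sum_le_sum fun l (hl : l ∈ F) => pF_u2 J h1 hk2
      ((Nat.sub_le_sub_left hk1 N).trans (h3.trans (gam_mono (h1.monotone hk1)))) (hsupp l hl)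
      (fun k _ => le_rfl) (h6.res hk1 (S l) hu)
    have e1' := sum_le_sum fun l (hl : l ∈ F) => sq2_le_sum_res J (Ico k1 N) (itv c) (res (S l) g)
      fun i hi hg => exists_itv' hk2.le (hsupp l hl i hi hg).1 (hsupp l hl i hi hg).2
    rw [← mul_sum, sum_comm, mul_sum] at e1
    rw [sum_comm (s := F) (t := Ico k1 N)] at e1'
    have e2 : ∀ k ∈ Ico k1 N, 4 * ∑ l ∈ F, wt c k1 (fun k => pF J (res (itv c k) (res (S l) g))) D k +
        ∑ l ∈ F, sq2 J (res (itv c k) (res (S l) g)) ≤ 8 * wt c k0 u D k := by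
      intro k hk
      have hk' : k ∈ Ico k0 N := by rw [mem_Ico] at hk ⊢; omega
      have e3 := (h5 k hk').2
      simp_rw [res_comm (itv c _)]
      by_cases e : k = k1
      · simp only [wt, if_pos e]
        have := h6.sq_le_wt hk'
        unfold wt at this
        linarith [hn2 (res (itv c k) g)]
      · rw [mem_Ico] at hk
        obtain ⟨e4, e5, -⟩ := h6 k (by omega) hk.2
        have e6 := hk4 k (by omega) hk.2
        simp only [wt, if_neg e, if_neg (show k ≠ k0 by omega)]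
        refine rho2_split F (hF.trans (gam_le_GG e6)) hd0
          (hdq.trans (by exact_mod_cast dd_mono e6.le)) _ (hn2 _) e3 ?_ e4 e5
        rw [mul_sum]
        exact sum_le_sum fun l _ => hpd _
    have e3 := sum_le_sum e2
    rw [sum_add_distrib, ← mul_sum (a := 8)] at e3
    have e4 : ∑ k ∈ Ico k1 N, wt c k0 u D k ≤ ∑ k ∈ Ico k0 N, wt c k0 u D k :=
      sum_le_sum_of_subset_of_nonneg (Ico_subset_Ico hk1 le_rfl) fun _ _ _ => wt_nonneg _ _ _ _ _
    linarith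

end Pool.Agent.JLS
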