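import Pool.Agent.Lib.MP_2f16e6_an.Obj

/-!
The main lemma: along a long family, the product of the norms of a common combination is small.
-/

set_option autoImplicit false

namespace Pool.Agent.JLS

open Finset

instance : Inhabited Dat := ⟨⟨0, 0, 0, 0⟩⟩

def VObj (c : Ctx) (s1 s2 : ℕ) : Prop :=
  ∃ o, Obj c s1 s2 o 32 ∧ Flat c.J o.u (nP (tm (c.T s1) + 1)) 32 ∧ pF c.J (o.a' * c.w) ≤ 100

def Aux (c : Ctx) (s1 s2 : ℕ) (A B C : ℝ) : Prop :=
  ∃ o, Obj c s1 s2 o C ∧ Flat c.J o.u (nP (tm (c.T s1) + 1)) C ∧ pF c.J (o.a' * c.w) ≤ A ∧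
    Spl c.J (o.a' * c.y) (GG (c.T s1) ^ 2) B ∧ Tail c.J c.P c.H (o.a' * c.y) (c.T s1)

def Typ (c : Ctx) (s1 s2 : ℕ) (A B C : ℝ) : Prop :=
  ∃ o, Obj c s1 s2 o C ∧ Orth c.J c.P c.H (o.a' * c.y) (c.T s1) ∧ pF c.J (o.a' * c.w) ≤ A ∧
    Spl c.J (o.a' * c.y) (GG (c.T s1) ^ 2) B ∧ Tail c.J c.P c.H (o.a' * c.y) (c.T s1) ∧
    Loose c.J (ty (c.T s1) c.H) (A⁻¹ • (o.a' * c.w))

theorem exists_vobj (c : Ctx) {s1 s2 : ℕ} (h1 : c.r1 ≤ s1) (h2 : s2 ≤ c.r2)
    (h : Long c.T 1 s1 s2) : VObj c s1 s2 := by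
  obtain ⟨ρ, hρ, e1, e2, -⟩ := h.strict
  have hs : s1 + nP (tm (c.T s1) + 1 + 1) ≤ s2 := by
    have := hρ.add_le_nat (nP (tm (c.T s1) + 2)) 0
    rw [e1, add_zero] at this
    change s1 + nP (tm (c.T s1) + 2) ≤ s2
    omega
  obtain ⟨r, L, f1, f2, f3, Γ, u, us, g1, g2, g3, g4, g5, g6, g7⟩ :=
    exists_flat_combo c.J c.hT s1 (tm (c.T s1) + 1) c.μ0 fun r hr hr' =>
      c.μ1 r (mem_Ico.2 ⟨by omega, by omega⟩)
  set I := Set.Ico (c.T r) (c.T (r + L)) with hI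
  have hsub : I ⊆ Set.Ico (c.T s1) (c.T s2) := fun i hi =>
    ⟨(c.hT.monotone f1).trans hi.1, hi.2.trans_le (c.hT.monotone (by omega))⟩
  have hL : (0 : ℝ) < L := by exact_mod_cast f2
  have ha : Monotone fun s => c.T (r + s) := fun s s' h => c.hT.monotone (by omega)
  have hsum := res_Ico_eq_sum ha L
  simp only [add_zero] at hsum
  have hmem : ∀ s < L, r + s ∈ Ico c.r1 c.r2 := fun s hs => mem_Ico.2 ⟨by omega, by omega⟩
  refine ⟨⟨res I fun _ => (√L)⁻¹, res Γ (res I fun _ => (√L)⁻¹), u, res I us⟩,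
    ⟨h1, by omega, h2, fun i => ?_, fun i => ?_, fun r' i hi => ?_,
      fun i hi => Set.indicator_of_notMem (fun h => hi (hsub h)) (fun _ : ℕ => (√(L : ℝ))⁻¹),
      fun i hi => g3 i fun h => hi (hsub h),
      fun i hi => (Set.indicator_of_notMem (fun h => hi (hsub h)) _ : res I _ i = 0), ?_, ?_,
      ((sst_ln _).res_le _ _).trans g4, fun i hi => ?_,
      g5.mono (nP_mono ((tmin_le_tm _).trans (Nat.le_succ _))) le_rfl⟩, g5, ?_⟩
  · exact Set.indicator_nonneg (fun i _ => Set.indicator_nonneg (fun _ _ => by positivity) _) _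
  · exact Set.indicator_le_self' (fun _ _ => Set.indicator_nonneg (fun _ _ => by positivity) _) i
  · have : i ∈ I ↔ c.T r' ∈ I := by
      constructor
      · intro h
        exact ⟨c.hT.monotone (Nat.lt_succ_iff.1 (c.hT.lt_iff_lt.1 (h.1.trans_lt hi.2))),
          hi.1.trans_lt h.2⟩
      · intro h
        exact ⟨h.1.trans hi.1, hi.2.trans_le (c.hT.monotone (c.hT.lt_iff_lt.1 h.2))⟩
    by_cases h : i ∈ I
    · simp only [res, Set.indicator_of_mem h, Set.indicator_of_mem (this.1 h)]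
    · simp only [res, Set.indicator_of_notMem h, Set.indicator_of_notMem fun h' => h (this.2 h')]
  · have : ∀ i ∈ c.J, (res I (fun _ => (√L)⁻¹) i) ^ 2 * c.μ i = (L : ℝ)⁻¹ * res I c.μ i :=
      fun i _ => by
        by_cases h : i ∈ I
        · simp only [res, Set.indicator_of_mem h, inv_sqrt_sq]
        · simp [res, Set.indicator_of_notMem h]
    rw [sum_congr rfl this, ← mul_sum, hsum]
    simp only [Finset.sum_apply]
    have e4 : ∀ s ∈ range L, ∑ i ∈ c.J, res (itv (fun s => c.T (r + s)) s) c.μ i = 1 :=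
      fun s hs => c.μ1 _ (hmem s (mem_range.1 hs))
    rw [sum_comm, sum_congr rfl e4]
    simp [f2.ne']
  · refine le_trans (le_of_eq (sum_congr rfl fun i _ => ?_)) (g7.trans (inv_anti₀
      (by exact_mod_cast pos_of_tmin_le le_rfl) ?_))
    · by_cases h : i ∈ I <;> by_cases h' : i ∈ Γ
      · simp [res, h, h']
      · simp only [res, Pi.sub_apply, Set.indicator_of_mem h, Set.indicator_of_notMem h',
          Set.indicator_of_mem (show i ∈ Γᶜ from h'), sub_zero, inv_sqrt_sq, Pi.smul_apply,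
          smul_eq_mul]
      · simp [res, h, h']
      · simp [res, h, h']
    · have := tmin_mono (c.hP.trans (c.hT.monotone h1))
      have := tmin_le_tm (c.T s1)
      have := add_four_le_mm (tm (c.T s1) + 1)
      exact_mod_cast (by omega : tmin c.P ≤ mm (tm (c.T s1) + 1))
  · by_cases h : i ∈ I <;> by_cases h' : i ∈ Γ
    · have := g6 i hi h'
      simp only [res, Set.indicator_of_mem h, Set.indicator_of_mem h', inv_sqrt_sq] at this ⊢
      rwa [abs_of_nonneg (g1 i), abs_of_nonneg (g2 i)]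
    · simp only [res, Set.indicator_of_notMem h']; simp; positivity
    · simp [res, h, h']
    · simp [res, h, h']
  · have e3 := pF_avg_le (J := c.J) ha f2 (g := fun s => res (itv (fun s => c.T (r + s)) s) c.w)
      ((show L ≤ nP (tm (c.T s1) + 1 + 1) by omega).trans ((nP_le_gam le_rfl).trans
        (gam_mono (c.hT.monotone (by omega)))))
      (fun s _ i hi => Set.indicator_of_notMem hi _) zero_le_one fun s hs => c.hw _ (hmem s hs)
    rw [mul_one] at e3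
    refine ((pF_ln _).solid _ _ fun i _ => ?_).trans e3
    unfold avg
    rw [← hsum, Pi.mul_apply, abs_mul, Pi.smul_apply, smul_eq_mul, abs_mul]
    by_cases h : i ∈ I
    · refine mul_le_mul ((abs_res_le _ _ _).trans (abs_res_le _ _ _)) (le_of_eq ?_) (abs_nonneg _)
        (abs_nonneg _)
      rw [← hI]; simp only [res, Set.indicator_of_mem h]
    · have : res Γ (res I fun _ => (√L)⁻¹) i = 0 := by simp [res, Set.indicator, h]
      simp only [this, abs_zero, zero_mul]; positivity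

theorem succ_mul {c : Ctx} {ρ : ℕ → ℕ} {n : ℕ} {o : ℕ → Dat} {C : ℝ}
    (h : ∀ s < n, Obj c (ρ s) (ρ (s + 1)) (o s) C) (f : ℕ → ℝ) :
    Succ (fun s => c.T (ρ s)) n fun s => (o s).a' * f := fun s hs i hi => by
  beta_reduce
  rw [Pi.mul_apply, (h s hs).suppa' i hi, zero_mul]

theorem levelHyp {c : Ctx} {ρ : ℕ → ℕ} (hρ : StrictMono ρ) {τ : ℕ} {o : ℕ → Dat} {B C : ℝ}
    (h : ∀ s < nP (τ + 1), Obj c (ρ s) (ρ (s + 1)) (o s) C) (h1 : tmin (c.T (ρ 0)) ≤ τ)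
    (h2 : τ ≤ tm (c.T (ρ 0)) + 1)
    (hs : ∀ s < nP (τ + 1), Spl c.J ((o s).a' * c.y) (GG (c.T (ρ s)) ^ 2) B)
    (ht : ∀ s < nP (τ + 1), Tail c.J c.P c.H ((o s).a' * c.y) (c.T (ρ s))) (hB0 : 0 ≤ B)
    (hB1 : B ≤ 2 * dd c.P) :
    LevelHyp c.J c.P c.H (fun s => c.T (ρ s)) (nP (τ + 1)) (fun s => (o s).a' * c.y) B :=
  ⟨c.hT.comp hρ, (h 0 (nP_pos _)).P_le, tmin_le_nP h1, nP_le_gam h2, succ_mul h _,
    fun s _ i hi => by rw [Pi.mul_apply, c.hy0 i hi, mul_zero], fun s hs => (h s hs).sq2_x, hs, ht,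
    hB0, hB1⟩

theorem av_tail {c : Ctx} {ρ : ℕ → ℕ} (hρ : StrictMono ρ) {τ : ℕ} {o : ℕ → Dat} {C : ℝ}
    (h : ∀ s < nP (τ + 1), Obj c (ρ s) (ρ (s + 1)) (o s) C) (h1 : tmin (c.T (ρ 0)) ≤ τ)
    (h2 : τ ≤ tm (c.T (ρ 0)) + 1)
    (ho : ∀ s < nP (τ + 1), Orth c.J c.P c.H ((o s).a' * c.y) (c.T (ρ s)))
    (ho' : Orth c.J c.P c.H ((avDat τ o).a' * c.y) (c.T (ρ 0))) :
    Tail c.J c.P c.H ((avDat τ o).a' * c.y) (c.T (ρ 0)) := by
  simp only [avDat, avg_mul] at ho' ⊢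
  exact avg_tail (a := fun s => c.T (ρ s)) (c.hT.comp hρ) (tmin_le_nP h1) (nP_le_gam h2)
    (succ_mul h _) (Nat.cast_nonneg _) (by exact_mod_cast dd_mono (h 0 (nP_pos _)).P_le)
    (fun s hs => (h s hs).sq2_x) ho ho'

theorem aux_base (c : Ctx) (hd : (160 : ℝ) ≤ dd c.P) {s1 s2 : ℕ} (h1 : c.r1 ≤ s1) (h2 : s2 ≤ c.r2)
    (h : Long c.T 2 s1 s2) : Aux c s1 s2 (100 * 100) 200 (5 * 32) := by
  obtain ⟨ρ, hρ, rfl, e2, e3⟩ := h.strict
  have hV : ∀ s, s < nP (tm (c.T (ρ 0)) + 1 + 1) → VObj c (ρ s) (ρ (s + 1)) := fun s hs =>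
    exists_vobj c (h1.trans (hρ.monotone (Nat.zero_le s))) ((hρ.monotone hs).trans (e2.trans h2))
      (e3 s hs)
  choose! o p1 p2 p3 using hV
  have t1 : tmin (c.T (ρ 0)) ≤ tm (c.T (ρ 0)) + 1 := (tmin_le_tm _).trans (Nat.le_succ _)
  have ob := av_obj hρ (by norm_num) p1 e2 h2 t1
  have fl := av_flat hρ (by norm_num) p1
  refine ⟨_, ob, fl, ?_, ob.spl_crude, av_tail hρ p1 t1 le_rfl
    (fun s hs => (p1 s hs).orth_of_flat (by linarith) (p2 s hs)) (ob.orth_of_flat (by linarith) fl)⟩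
  simp only [avDat, avg_mul]
  exact pF_avg_le (c.hT.comp hρ).monotone (nP_pos _) (nP_le_gam le_rfl) (succ_mul p1 _)
    (by norm_num) p3

theorem typ_step (c : Ctx) {A B C : ℝ} (hA : 0 < A) (hC : 0 < C) (hCd : 5 * C ≤ dd c.P)
    (hCA : 10 * C ≤ (100 * A) ^ 2) (hB0 : 100 / (dd c.P : ℝ) ≤ B) (hB1 : B ≤ 2 * dd c.P)
    {ρ : ℕ → ℕ} (hρ : StrictMono ρ) {s2 : ℕ} (e2 : ρ (nP (tm (c.T (ρ 0)) + 2)) ≤ s2)
    (h2 : s2 ≤ c.r2) (h : ∀ s, s < nP (tm (c.T (ρ 0)) + 2) → Aux c (ρ s) (ρ (s + 1)) A B C) :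
    Typ c (ρ 0) s2 (100 * A) (B / 20) (5 * C) := by
  set τ := ty (c.T (ρ 0)) c.H with hτ
  have t1 : tmin (c.T (ρ 0)) ≤ τ := tmin_le_ty _ _
  have t2 : τ ≤ tm (c.T (ρ 0)) := ty_le_tm _ _
  have t3 : nP (τ + 1) ≤ nP (tm (c.T (ρ 0)) + 2) := nP_mono (by omega)
  choose! o p1 p2 p3 p4 p5 using fun s (hs : s < nP (τ + 1)) => h s (hs.trans_le t3)
  have ob := av_obj hρ hC p1 ((hρ.monotone t3).trans e2) h2 t1
  have fl := av_flat hρ hC p1
  have hB : 0 ≤ B := le_trans (by positivity) hB0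
  have orth : Orth c.J c.P c.H ((avDat τ o).a' * c.y) (c.T (ρ 0)) := by
    intro q H b q1 q2 q3 q4
    have hne : ty q H ≠ τ := by
      rcases q2.eq_or_lt with e | e
      · rw [hτ, ← e]; exact fun e' => q3 (ty_inj e')
      · have := ty_le_tm q H; have := tm_lt_tmin e; omega
    rcases lt_or_gt_of_ne hne with e | e
    · exact ob.pr_le' q1 (tmin_le_ty q H) hCd (fl.mono (nP_mono e) le_rfl) q4
    · simp only [avDat, avg_mul]
      have e1 : ∀ s ∈ range (nP (τ + 1)), pr c.J ((o s).a' * c.y) b ≤ eps1 q / nP (ty q H) :=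
        fun s hs => (p1 s (mem_range.1 hs)).pr_le q1 (tmin_le_ty q H) (by linarith)
          ((p2 s (mem_range.1 hs)).mono (nP_mono (Nat.succ_le_succ ((ty_le_tm q H).trans
            (tm_strictMono.monotone (q2.trans (c.hT.monotone (hρ.monotone (Nat.zero_le s))))))))
            le_rfl) q4
      have e3 := sum_le_card_nsmul _ _ _ e1
      rw [card_range, nsmul_eq_mul] at e3
      refine (pr_avg_le _ _ _ _ _).trans ((mul_le_of_le_one_left (sum_nonneg fun _ _ =>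
        pr_nonneg _ _ _) (inv_sqrt_le_one (nP_pos _))).trans (e3.trans ?_))
      have e4 : (nP (τ + 1) : ℝ) ≤ nP (ty q H) := by exact_mod_cast nP_mono e
      have e5 : (0 : ℝ) < nP (ty q H) := by exact_mod_cast nP_pos _
      rw [mul_div_assoc', div_le_iff₀ e5, mul_comm]
      exact mul_le_mul_of_nonneg_left e4 (eps1_pos q).le
  refine ⟨_, ob, orth, ?_, ?_, av_tail hρ p1 t1 (by omega)
    (fun s hs => (p1 s hs).orth_of_flat (by linarith) (p2 s hs)) orth,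
    av_loose hρ hC p1 ob (by positivity) hCA⟩
  · simp only [avDat, avg_mul]
    exact pF_avg_le (c.hT.comp hρ).monotone (nP_pos _) (nP_le_gam (by
      change τ ≤ tm (c.T (ρ 0)) + 1; omega)) (succ_mul p1 _) hA.le p3
  · simp only [avDat, avg_mul]
    exact (levelHyp hρ p1 t1 (by omega) p4 p5 hB hB1).level hB0

theorem spec_step (c : Ctx) {A B C : ℝ} (hA : 0 < A) (hC : 0 < C) (hCd : 5 * C ≤ dd c.P)
    (hB0 : 100 / (dd c.P : ℝ) ≤ B) (hB1 : B ≤ 2 * dd c.P)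
    {ρ : ℕ → ℕ} (hρ : StrictMono ρ) {s2 : ℕ} (e2 : ρ (nP (tm (c.T (ρ 0)) + 2)) ≤ s2)
    (h2 : s2 ≤ c.r2) (h : ∀ s, s < nP (tm (c.T (ρ 0)) + 1 + 1) → Typ c (ρ s) (ρ (s + 1)) A B C) :
    Aux c (ρ 0) s2 (2 * A) (B / 20) (5 * C) := by
  choose! o p1 p2 p3 p4 p5 p6 using h
  have t1 : tmin (c.T (ρ 0)) ≤ tm (c.T (ρ 0)) + 1 := (tmin_le_tm _).trans (Nat.le_succ _)
  have ob := av_obj hρ hC p1 e2 h2 t1
  have fl := av_flat hρ hC p1
  have hB : 0 ≤ B := le_trans (by positivity) hB0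
  refine ⟨_, ob, fl, ?_, ?_, av_tail hρ p1 t1 le_rfl p2 (ob.orth_of_flat hCd fl)⟩
  · simp only [avDat, avg_mul]
    exact pF_special_le (a := fun s => c.T (ρ s)) (c.hT.comp hρ) (nP_pos _) (nP_le_gam le_rfl)
      (succ_mul p1 _) hA p3 (fun s _ i hi => by rw [Pi.mul_apply, c.hw0 i hi, mul_zero]) p6
  · simp only [avDat, avg_mul]
    exact (levelHyp hρ p1 t1 le_rfl p4 p5 hB hB1).level hB0

theorem aux_all (c : Ctx) (j : ℕ) (hd : (4000 : ℝ) * 400 ^ j ≤ dd c.P) :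
    ∀ s1 s2, c.r1 ≤ s1 → s2 ≤ c.r2 → Long c.T (2 * j + 2) s1 s2 →
      Aux c s1 s2 (10000 * 200 ^ j) (200 / 400 ^ j) (160 * 25 ^ j) := by
  induction j with
  | zero =>
    intro s1 s2 h1 h2 h
    have := aux_base c (by simp only [pow_zero] at hd; linarith) h1 h2 h
    norm_num at this ⊢
    exact this
  | succ j ih =>
    intro s1 s2 h1 h2 h
    have k1 : (1 : ℝ) ≤ 25 ^ j := one_le_pow₀ (by norm_num)
    have k2 : (25 : ℝ) ^ j ≤ 400 ^ j := pow_le_pow_left₀ (by norm_num) (by norm_num) j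
    have k3 : (25 : ℝ) ^ j ≤ 200 ^ j := pow_le_pow_left₀ (by norm_num) (by norm_num) j
    rw [pow_succ] at hd
    have hd0 : (0 : ℝ) < dd c.P := by exact_mod_cast dd_pos _
    have k4 : (200 : ℝ) / 400 ^ j ≤ 200 := div_le_self (by norm_num) (by linarith)
    have k5 : 100 / (dd c.P : ℝ) ≤ 200 / 400 ^ j / 20 := by
      rw [div_div, div_le_div_iff₀ hd0 (by positivity)]; nlinarith
    have k6 : (0 : ℝ) < 200 / 400 ^ j := by positivity
    obtain ⟨ρ, hρ, rfl, e2, e3⟩ := Long.strict (t := 2 * j + 2 + 1) h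
    have := spec_step c (A := 100 * (10000 * 200 ^ j)) (B := 200 / 400 ^ j / 20)
      (C := 5 * (160 * 25 ^ j)) (by positivity) (by positivity) (by nlinarith) k5 (by nlinarith)
      hρ e2 h2 fun s hs => by
        obtain ⟨ρ', hρ', f1, f2, f3⟩ := (e3 s hs).strict
        have g1 : c.r1 ≤ ρ s := h1.trans (hρ.monotone (Nat.zero_le s))
        have g2 : ρ (s + 1) ≤ c.r2 := (hρ.monotone hs).trans (e2.trans h2)
        rw [← f1] at f2 f3 g1 ⊢
        exact typ_step c (by positivity) (by positivity) (by nlinarith) (by nlinarith)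
          (by linarith) (by nlinarith) hρ' f2 g2 fun s' hs' =>
            ih (by nlinarith) _ _ (g1.trans (hρ'.monotone (Nat.zero_le s')))
              ((hρ'.monotone hs').trans (f2.trans g2)) (f3 s' hs')
    convert this using 1
    · ring
    · rw [pow_succ]; field_simp; norm_num
    · ring

/-- the main lemma -/
theorem main_lemma (c : Ctx) (hpd : ∀ g, pF c.J g ^ 2 ≤ (dd c.P : ℝ) ^ 2 * sq2 c.J g) (j : ℕ)
    (hd : (4000 : ℝ) * 400 ^ j ≤ dd c.P) (h : Long c.T (2 * j + 2) c.r1 c.r2) :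
    ∃ a : ℕ → ℝ, (∀ r, ∀ i ∈ itv c.T r, a i = a (c.T r)) ∧
      (∀ i, i ∉ Set.Ico (c.T c.r1) (c.T c.r2) → a i = 0) ∧ ∑ r ∈ Ico c.r1 c.r2, a (c.T r) ^ 2 = 1 ∧
      eF c.J (a * c.y) ≤ 400 / 400 ^ j ∧ pF c.J (a * c.w) ≤ 20000 * 200 ^ j := by
  obtain ⟨o, ob, -, h1, h2, -⟩ := aux_all c j hd _ _ le_rfl le_rfl h
  have hd0 : (0 : ℝ) < dd c.P := by exact_mod_cast dd_pos _
  have k1 : (1 : ℝ) ≤ 400 ^ j := one_le_pow₀ (by norm_num)
  have k2 : (1 : ℝ) ≤ 200 ^ j := one_le_pow₀ (by norm_num)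
  have k3 : 2 * (dd c.P : ℝ) ^ 2 * (tmin c.P : ℝ)⁻¹ ≤ ((dd c.P : ℝ)⁻¹) ^ 2 := by
    have e1 : 2 * (dd c.P ^ 2) ^ 2 ≤ tmin c.P := le_trans (Nat.mul_le_mul_left _
      (Nat.pow_le_pow_left (Nat.le_mul_of_pos_left _ (pow_pos (ZZ_pos _) 4)) _)) (big_le_tmin' c.P)
    have e2 : (tmin c.P : ℝ)⁻¹ ≤ (2 * ((dd c.P : ℝ) ^ 2) ^ 2)⁻¹ :=
      inv_anti₀ (by positivity) (by exact_mod_cast e1)
    refine (mul_le_mul_of_nonneg_left e2 (by positivity)).trans (le_of_eq ?_)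
    field_simp
  have k4 : (dd c.P : ℝ)⁻¹ ≤ 200 / 400 ^ j := by
    rw [inv_eq_one_div, div_le_div_iff₀ hd0 (by positivity)]; nlinarith
  have k5 : (dd c.P : ℝ)⁻¹ ≤ 1 := inv_le_one_of_one_le₀ (by linarith)
  have split : ∀ f : ℕ → ℝ, o.a * f = o.a' * f + (o.a - o.a') * f := fun f => by ring
  refine ⟨o.a, ob.const, ob.suppa, ob.sum_coef, ?_, ?_⟩
  · have e1 : sq2 c.J ((o.a - o.a') * c.y) ≤ ((dd c.P : ℝ)⁻¹) ^ 2 := by
      refine le_trans ?_ ((mul_le_mul_of_nonneg_left ob.bad (by positivity)).trans k3)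
      rw [mul_sum]
      refine sum_le_sum fun i hi => ?_
      rw [Pi.mul_apply, mul_pow]
      linarith [mul_le_mul_of_nonneg_left (c.yμ i hi) (sq_nonneg ((o.a - o.a') i))]
    have e2 := (abs_le_of_sq_le_sq' ((eF_sq_le _ _).trans e1) (by positivity)).2
    have e3 := h2.eF_le (pow_pos (GG_pos _) 2) (by positivity)
    have e4 := (eF_ln c.J).add_le (o.a' * c.y) ((o.a - o.a') * c.y)
    rw [split]
    have : (400 : ℝ) / 400 ^ j = 200 / 400 ^ j + 200 / 400 ^ j := by ring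
    linarith
  · have e1 : (dd c.P : ℝ) ^ 2 * sq2 c.J ((o.a - o.a') * c.w) ≤ ((dd c.P : ℝ)⁻¹) ^ 2 := by
      refine le_trans ?_ ((mul_le_mul_of_nonneg_left ob.bad (by positivity)).trans k3)
      rw [mul_sum, mul_sum]
      refine sum_le_sum fun i hi => ?_
      rw [Pi.mul_apply, mul_pow]
      nlinarith [mul_le_mul_of_nonneg_left (mul_le_mul_of_nonneg_left (c.wμ i hi)
        (sq_nonneg ((o.a - o.a') i))) (sq_nonneg (dd c.P : ℝ))]
    have e2 := (abs_le_of_sq_le_sq' ((hpd _).trans e1) (by positivity)).2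
    have e4 := (pF_ln c.J).add_le (o.a' * c.w) ((o.a - o.a') * c.w)
    rw [split]
    linarith

end Pool.Agent.JLS
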