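import Pool.Agent.Lib.MP_2f16e6_an.LevelC
import Pool.Agent.Lib.MP_2f16e6_an.Combo
import Pool.Agent.Lib.MP_2f16e6_an.Long

/-!
Common combinations of functionals and vectors, and their averages.
-/

set_option autoImplicit false

namespace Pool.Agent.JLS

open Finset

/-- functionals `y` and vectors `w` with disjoint supports along the intervals of `T` -/
structure Ctx where
  J : Finset ℕ
  P : ℕ
  T : ℕ → ℕ
  r1 : ℕ
  r2 : ℕ
  H : Set ℕ
  y : ℕ → ℝ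
  w : ℕ → ℝ
  μ : ℕ → ℝ
  hT : StrictMono T
  hP : P ≤ T r1
  hy0 : ∀ i ∈ H, y i = 0
  hw0 : ∀ i, i ∉ H → w i = 0
  hw : ∀ r ∈ Ico r1 r2, pF J (res (itv T r) w) ≤ 1
  hy : ∀ r ∈ Ico r1 r2, eF J (res (itv T r) y) ≤ 1
  μ0 : ∀ i, 0 ≤ μ i
  μ1 : ∀ r ∈ Ico r1 r2, ∑ i ∈ J, res (itv T r) μ i = 1
  wμ : ∀ i ∈ J, w i ^ 2 ≤ 2 * μ i
  yμ : ∀ i ∈ J, y i ^ 2 ≤ 2 * (dd P : ℝ) ^ 2 * μ i

/-- coefficients, their good part, and a factorisation -/
structure Dat where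
  a : ℕ → ℝ
  a' : ℕ → ℝ
  u : ℕ → ℝ
  us : ℕ → ℝ

structure Obj (c : Ctx) (s1 s2 : ℕ) (o : Dat) (C : ℝ) : Prop where
  le1 : c.r1 ≤ s1
  le12 : s1 ≤ s2
  le2 : s2 ≤ c.r2
  a0 : ∀ i, 0 ≤ o.a' i
  aa : ∀ i, o.a' i ≤ o.a i
  const : ∀ r, ∀ i ∈ itv c.T r, o.a i = o.a (c.T r)
  suppa : ∀ i, i ∉ Set.Ico (c.T s1) (c.T s2) → o.a i = 0
  suppu : ∀ i, i ∉ Set.Ico (c.T s1) (c.T s2) → o.u i = 0
  suppus : ∀ i, i ∉ Set.Ico (c.T s1) (c.T s2) → o.us i = 0
  norm : ∑ i ∈ c.J, o.a i ^ 2 * c.μ i = 1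
  bad : ∑ i ∈ c.J, (o.a - o.a') i ^ 2 * c.μ i ≤ (tmin c.P : ℝ)⁻¹
  us1 : sst c.J o.us ≤ 1
  fac : ∀ i ∈ c.J, o.a' i ^ 2 * c.μ i ≤ |o.u i| * |o.us i|
  flat : Flat c.J o.u (nP (tmin (c.T s1))) C

theorem orth_num {P c σ : ℕ} (hP : P ≤ c) (hσ : tmin c ≤ σ) {C : ℝ} (hC : C ≤ dd P) :
    2 * (dd P : ℝ) ^ 2 * C / mm σ ≤ (eps1 c / nP σ) ^ 2 := by
  have h1 : (dd P : ℝ) ≤ dd c := by exact_mod_cast dd_mono hP
  have h2 : (1 : ℝ) ≤ dd P := by exact_mod_cast dd_pos P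
  have h3 : (0 : ℝ) < nP σ := by exact_mod_cast nP_pos σ
  have h4 : (0 : ℝ) < DM c := by exact_mod_cast DM_pos c
  have h5 : (0 : ℝ) < ZZ c := by exact_mod_cast ZZ_pos c
  have h6 : 2 * ((DM c : ℝ) * (ZZ c : ℝ) ^ 4 * (dd c : ℝ) ^ 2) ^ 2 ≤ σ + 4 := by
    exact_mod_cast (big_le_tmin c).trans (by omega)
  have h7 : (dd P : ℝ) ^ 2 * C ≤ (dd c : ℝ) ^ 4 := by
    calc _ ≤ (dd P : ℝ) ^ 2 * (dd P : ℝ) ^ 2 :=
          mul_le_mul_of_nonneg_left (hC.trans (le_self_pow₀ h2 (by norm_num))) (sq_nonneg _)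
      _ = (dd P : ℝ) ^ 4 := by ring
      _ ≤ _ := pow_le_pow_left₀ (by linarith) h1 4
  unfold eps1 mm
  push_cast
  rw [div_pow, inv_pow, div_le_div_iff₀ (by positivity) (by positivity), ← mul_assoc _ (σ + 4 : ℝ)]
  refine mul_le_mul_of_nonneg_right ?_ (by positivity)
  rw [le_inv_mul_iff₀ (by positivity)]
  nlinarith [mul_le_mul_of_nonneg_left h7 (sq_nonneg ((DM c : ℝ) * (ZZ c : ℝ) ^ 4))]

theorem avg_mul (n : ℕ) (A : Finset ℕ) (f : ℕ → ℕ → ℝ) (y : ℕ → ℝ) :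
    avg n A f * y = avg n A fun s => f s * y := by
  unfold avg; rw [smul_mul_assoc, sum_mul]

theorem avg_sub (n : ℕ) (A : Finset ℕ) (f g : ℕ → ℕ → ℝ) :
    avg n A f - avg n A g = avg n A fun s => f s - g s := by
  unfold avg; rw [← smul_sub, sum_sub_distrib]

theorem pF_res_avg {J : Finset ℕ} {a : ℕ → ℕ} (ha : Monotone a) {n : ℕ} {g : ℕ → ℕ → ℝ}
    (h : Succ a n g) {A : ℝ} {s : ℕ} (hs : s < n) (hg : pF J (g s) ≤ A) :
    pF J (res (itv a s) (avg n (range n) g)) ≤ (√n)⁻¹ * A := by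
  refine ((pF_ln J).le_mul (g' := g s) (c := (√n)⁻¹) (by positivity) fun i _ => ?_).trans
    (mul_le_mul_of_nonneg_left hg (by positivity))
  by_cases hi : i ∈ itv a s
  · simp only [res, Set.indicator_of_mem hi]
    rw [avg_apply ha h subset_rfl (mem_range.2 hs) hi, abs_mul, abs_of_nonneg (by positivity)]
  · simp only [res, Set.indicator_of_notMem hi, abs_zero]; positivity

theorem exists_of_avg_ne {a : ℕ → ℕ} {n : ℕ} {g : ℕ → ℕ → ℝ} (h : Succ a n g) {i : ℕ}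
    (hi : avg n (range n) g i ≠ 0) : ∃ s ∈ range n, i ∈ itv a s := by
  by_contra hno
  exact hi (avg_eq_zero h subset_rfl fun s hs his => hno ⟨s, hs, his⟩)

theorem sum_inv_sqrt {n : ℕ} (hn : 0 < n) (A : ℝ) : ∑ _s ∈ range n, ((√n)⁻¹ * A) ^ 2 = A ^ 2 := by
  have : (0 : ℝ) < n := by exact_mod_cast hn
  rw [sum_const, card_range, nsmul_eq_mul, mul_pow, inv_sqrt_sq]; field_simp

theorem pF_avg_le {J : Finset ℕ} {a : ℕ → ℕ} (ha : Monotone a) {n : ℕ} (hn0 : 0 < n)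
    (hn : n ≤ gam (a 0)) {g : ℕ → ℕ → ℝ} (h : Succ a n g) {A : ℝ} (hA : 0 ≤ A)
    (hg : ∀ s < n, pF J (g s) ≤ A) : pF J (avg n (range n) g) ≤ 100 * A := by
  have e1 := pF_u1 J (q := a 0) (F := range n) (S := itv a) (by rwa [card_range])
    (fun l _ i hi => (ha (Nat.zero_le l)).trans hi.1) (itv_disj ha _) (g := avg n (range n) g)
    fun i _ hi => exists_of_avg_ne h hi
  have e2 := sum_le_sum fun s (hs : s ∈ range n) => pow_le_pow_left₀ ((pF_ln J).nonneg _)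
    (pF_res_avg ha h (mem_range.1 hs) (hg s (mem_range.1 hs))) 2
  rw [sum_inv_sqrt hn0] at e2
  exact (abs_le_of_sq_le_sq' (by nlinarith) (by positivity)).2

theorem pF_special_le {J : Finset ℕ} {a : ℕ → ℕ} (ha : StrictMono a) {n : ℕ} (hn0 : 0 < n)
    (hn : n ≤ gam (a 0)) {g : ℕ → ℕ → ℝ} (h : Succ a n g) {A : ℝ} (hA : 0 < A)
    (hg : ∀ s < n, pF J (g s) ≤ A) {H : Set ℕ} (hH : ∀ s < n, ∀ i, i ∉ H → g s i = 0)
    (hl : ∀ s < n, Loose J (ty (a s) H) (A⁻¹ • g s)) : pF J (avg n (range n) g) ≤ 2 * A := by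
  have e1 := pF_u2 J (c := a) (k0 := 0) (N := n) (H := H) (u := fun _ => (√n)⁻¹ * A)
    (D := fun _ => (√n)⁻¹ * A) (b := fun s => A⁻¹ • g s) (g := avg n (range n) g) ha hn0 hn
    (fun i _ hi => by
      obtain ⟨s, hs, his⟩ := exists_of_avg_ne h hi
      exact ⟨(ha.monotone (Nat.zero_le s)).trans his.1,
        his.2.trans_le (ha.monotone (mem_range.1 hs))⟩)
    (fun k hk => pF_res_avg ha.monotone h (mem_Ico.1 hk).2 (hg k (mem_Ico.1 hk).2))
    (fun k _ hk => ⟨by positivity, le_rfl, hl k hk, fun i _ hi => by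
      rw [avg_apply ha.monotone h subset_rfl (mem_range.2 hk) hi]
      refine ⟨fun hne => by by_contra hH'; exact hne (by rw [hH k hk i hH', mul_zero]), le_of_eq ?_⟩
      beta_reduce
      rw [Pi.smul_apply, smul_eq_mul, abs_mul, abs_mul, abs_of_pos (inv_pos.2 hA),
        abs_of_nonneg (by positivity)]
      field_simp⟩)
  have e2 : ∀ k, wt a 0 (fun _ => (√n)⁻¹ * A) (fun _ => (√n)⁻¹ * A) k = ((√n)⁻¹ * A) ^ 2 :=
    fun k => by unfold wt; split_ifs; exacts [rfl, rho2_self _ _]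
  simp_rw [e2] at e1
  rw [← range_eq_Ico, sum_inv_sqrt hn0] at e1
  exact (abs_le_of_sq_le_sq' (by nlinarith) (by positivity)).2

namespace Obj

variable {c : Ctx} {s1 s2 : ℕ} {o : Dat} {C : ℝ} (h : Obj c s1 s2 o C)
include h

theorem P_le : c.P ≤ c.T s1 := c.hP.trans (c.hT.monotone h.le1)

theorem suppa' (i : ℕ) (hi : i ∉ Set.Ico (c.T s1) (c.T s2)) : o.a' i = 0 :=
  le_antisymm (h.suppa i hi ▸ h.aa i) (h.a0 i)

theorem x_sq (i : ℕ) (hi : i ∈ c.J) :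
    (o.a' * c.y) i ^ 2 ≤ 2 * (dd c.P : ℝ) ^ 2 * (|o.u i| * |o.us i|) := by
  rw [Pi.mul_apply, mul_pow]
  have := mul_le_mul_of_nonneg_left (c.yμ i hi) (sq_nonneg (o.a' i))
  nlinarith [mul_le_mul_of_nonneg_left (h.fac i hi) (show 0 ≤ 2 * (dd c.P : ℝ) ^ 2 by positivity)]

theorem g_sq (i : ℕ) (hi : i ∈ c.J) : (o.a' * c.w) i ^ 2 ≤ 2 * (|o.u i| * |o.us i|) := by
  rw [Pi.mul_apply, mul_pow]
  have := mul_le_mul_of_nonneg_left (c.wμ i hi) (sq_nonneg (o.a' i))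
  nlinarith [h.fac i hi]

theorem sq2_x : sq2 c.J (o.a' * c.y) ≤ 2 * (dd c.P : ℝ) ^ 2 := by
  rw [← mul_one (2 * _), ← h.norm, mul_sum]
  refine sum_le_sum fun i hi => ?_
  rw [Pi.mul_apply, mul_pow]
  have := mul_le_mul (pow_le_pow_left₀ (h.a0 i) (h.aa i) 2) (c.yμ i hi) (sq_nonneg _) (sq_nonneg _)
  linarith

theorem sum_coef : ∑ r ∈ Ico s1 s2, o.a (c.T r) ^ 2 = 1 := by
  have e1 : ∀ r ∈ Ico s1 s2, o.a (c.T r) ^ 2 =
      ∑ i ∈ c.J, res (itv c.T r) (fun i => o.a i ^ 2 * c.μ i) i := fun r hr => by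
    rw [mem_Ico] at hr
    rw [← mul_one (_ ^ 2), ← c.μ1 r (mem_Ico.2 ⟨h.le1.trans hr.1, hr.2.trans_le h.le2⟩), mul_sum]
    refine sum_congr rfl fun i _ => ?_
    by_cases hi : i ∈ itv c.T r
    · simp only [res, Set.indicator_of_mem hi, h.const r i hi]
    · simp only [res, Set.indicator_of_notMem hi, mul_zero]
  rw [sum_congr rfl e1, sum_comm, ← h.norm]
  refine sum_congr rfl fun i _ => ?_
  by_cases hi : i ∈ Set.Ico (c.T s1) (c.T s2)
  · obtain ⟨r, hr, hir⟩ := exists_itv' h.le12 hi.1 hi.2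
    rw [sum_eq_single_of_mem r hr fun r' _ hne => Set.indicator_of_notMem
      (fun h' => hne (itv_unique c.hT.monotone h' hir)) _]
    exact Set.indicator_of_mem hir _
  · rw [sum_eq_zero fun r _ => ?_, h.suppa i hi]
    · simp
    · by_cases hir : i ∈ itv c.T r
      · simp only [res, Set.indicator_of_mem hir, h.suppa i hi]; simp
      · exact Set.indicator_of_notMem hir _

theorem eF_x : eF c.J (o.a' * c.y) ≤ 2 := by
  refine (eF_upper_itv c.J (Ico s1 s2) (itv c.T) (fun _ _ => Set.ordConnected_Ico)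
    (itv_disj c.hT.monotone _) fun i _ hi => ?_).trans ?_
  · have : i ∈ Set.Ico (c.T s1) (c.T s2) := by
      by_contra h'; exact hi (by rw [Pi.mul_apply, h.suppa' i h', zero_mul])
    exact exists_itv' h.le12 this.1 this.2
  have : ∑ r ∈ Ico s1 s2, eF c.J (res (itv c.T r) (o.a' * c.y)) ^ 2 ≤ 1 := by
    rw [← h.sum_coef]
    refine sum_le_sum fun r hr => pow_le_pow_left₀ ((eF_ln _).nonneg _) ?_ 2
    rw [mem_Ico] at hr
    have h0 := (h.a0 (c.T r)).trans (h.aa _)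
    refine ((eF_ln _).le_mul h0 fun i _ => ?_).trans (mul_le_of_le_one_right h0
      (c.hy r (mem_Ico.2 ⟨h.le1.trans hr.1, hr.2.trans_le h.le2⟩)))
    by_cases hi : i ∈ itv c.T r
    · simp only [res, Set.indicator_of_mem hi]
      rw [Pi.mul_apply, abs_mul, abs_of_nonneg (h.a0 i), ← h.const r i hi]
      exact mul_le_mul_of_nonneg_right (h.aa i) (abs_nonneg _)
    · simp only [res, Set.indicator_of_notMem hi, abs_zero, mul_zero, le_refl]
  linarith [Real.sqrt_le_one.2 this]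

theorem spl_crude : Spl c.J (o.a' * c.y) (GG (c.T s1) ^ 2) 200 := fun κ F S h1 h2 => by
  have e1 := eF_lower c.J (h1.trans ((sq_GG_le_MM _).trans (MM_le_gam _))) h2 (x := o.a' * c.y)
    fun i _ hi => by rw [Pi.mul_apply, h.suppa' i fun h' => absurd h'.1 (not_le.2 hi), zero_mul]
  have e2 := pow_le_pow_left₀ ((eF_ln _).nonneg _) h.eF_x 2
  linarith

theorem pr_le {σ q : ℕ} (hq : c.P ≤ q) (hσ : tmin q ≤ σ) {C' : ℝ} (hC : C' ≤ dd c.P)
    (hf : Flat c.J o.u (nP (σ + 1)) C') {b : ℕ → ℝ} (hb : Loose c.J σ b) :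
    pr c.J (o.a' * c.y) b ≤ eps1 q / nP σ :=
  (abs_le_of_sq_le_sq' ((orth_sq hb (by positivity) h.x_sq h.us1 hf).trans (orth_num hq hσ hC))
    (by have := eps1_pos q; positivity)).2

theorem pr_le' {σ q : ℕ} (hq : c.P ≤ q) (hσ : tmin q ≤ σ) {C' : ℝ} (hC : C' ≤ dd c.P)
    (hf : Flat c.J o.u (nP (σ + 1)) C') {b : ℕ → ℝ} (hb : Loose c.J σ b) :
    pr c.J (o.a' * c.y) b ≤ eps1 q :=
  (h.pr_le hq hσ hC hf hb).trans (div_le_self (eps1_pos q).le (by exact_mod_cast nP_pos σ))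

theorem orth_of_flat {C' : ℝ} (hC : C' ≤ dd c.P) (hf : Flat c.J o.u (nP (tm (c.T s1) + 1)) C') :
    Orth c.J c.P c.H (o.a' * c.y) (c.T s1) := fun q H b h1 h2 _ h4 =>
  h.pr_le' h1 (tmin_le_ty q H) hC (hf.mono (nP_mono (Nat.succ_le_succ
    ((ty_le_tm q H).trans (tm_strictMono.monotone h2)))) le_rfl) h4

end Obj

/-- the average of type `τ` -/
noncomputable def avDat (τ : ℕ) (o : ℕ → Dat) : Dat where
  a := avg (nP (τ + 1)) (range (nP (τ + 1))) fun s => (o s).a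
  a' := avg (nP (τ + 1)) (range (nP (τ + 1))) fun s => (o s).a'
  u := ((mm τ : ℝ) / nP (τ + 1)) • ∑ s ∈ range (nP (τ + 1)), (o s).u
  us := (mm τ : ℝ)⁻¹ • ∑ s ∈ range (nP (τ + 1)), (o s).us

theorem av_flat {c : Ctx} {ρ : ℕ → ℕ} (hρ : StrictMono ρ) {τ : ℕ} {o : ℕ → Dat} {C : ℝ}
    (hC : 0 < C) (h : ∀ s < nP (τ + 1), Obj c (ρ s) (ρ (s + 1)) (o s) C) :
    Flat c.J (avDat τ o).u (nP τ) (5 * C) := by
  refine ris_flat (a := fun s => c.T (ρ s)) (c.hT.comp hρ) τ (fun s hs => (h s hs).suppu) hC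
    (fun s hs => (h s hs).flat.ss_le (nP_pos _)) fun s hs σ => ?_
  rcases le_or_gt (σ + 1) (tmin (c.T (ρ s))) with e | e
  · exact Or.inl ((h s hs).flat.mono (nP_mono e) le_rfl)
  · have := lt_tmin (c.T (ρ s))
    have := add_four_le_mm σ
    right; change c.T (ρ s) ≤ _; omega

theorem av_obj {c : Ctx} {ρ : ℕ → ℕ} (hρ : StrictMono ρ) {τ : ℕ} {o : ℕ → Dat} {C : ℝ}
    (hC : 0 < C) (h : ∀ s < nP (τ + 1), Obj c (ρ s) (ρ (s + 1)) (o s) C) {s2 : ℕ}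
    (h1 : ρ (nP (τ + 1)) ≤ s2) (h2 : s2 ≤ c.r2) (hτ : tmin (c.T (ρ 0)) ≤ τ) :
    Obj c (ρ 0) s2 (avDat τ o) (5 * C) := by
  have hn := nP_pos (τ + 1)
  have hnr : (0 : ℝ) < nP (τ + 1) := by exact_mod_cast hn
  have hm := mm_pos τ
  have ha : Monotone fun s => c.T (ρ s) := (c.hT.comp hρ).monotone
  have sa : Succ (fun s => c.T (ρ s)) (nP (τ + 1)) fun s => (o s).a := fun s hs => (h s hs).suppa
  have sa' : Succ (fun s => c.T (ρ s)) (nP (τ + 1)) fun s => (o s).a' := fun s hs => (h s hs).suppa'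
  have su : Succ (fun s => c.T (ρ s)) (nP (τ + 1)) fun s => (o s).u := fun s hs => (h s hs).suppu
  have sus : Succ (fun s => c.T (ρ s)) (nP (τ + 1)) fun s => (o s).us := fun s hs => (h s hs).suppus
  have out : ∀ i, i ∉ Set.Ico (c.T (ρ 0)) (c.T s2) → ∀ s ∈ range (nP (τ + 1)),
      i ∉ itv (fun s => c.T (ρ s)) s := fun i hi s hs his =>
    hi ⟨(ha (Nat.zero_le s)).trans his.1, his.2.trans_le
      ((ha (mem_range.1 hs)).trans (c.hT.monotone h1))⟩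
  refine ⟨(h 0 hn).le1, (hρ.monotone (Nat.zero_le _)).trans h1, h2, fun i => ?_, fun i => ?_,
    fun r i hi => ?_, fun i hi => avg_eq_zero sa subset_rfl (out i hi), fun i hi => ?_,
    fun i hi => ?_, ?_, ?_, sst_avg_le ha le_rfl sus fun s hs => (h s hs).us1, fun i hi => ?_,
    (av_flat hρ hC h).mono (nP_mono hτ) le_rfl⟩
  · simp only [avDat, avg, Pi.smul_apply, smul_eq_mul, Finset.sum_apply]
    exact mul_nonneg (by positivity) (sum_nonneg fun s hs => (h s (mem_range.1 hs)).a0 i)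
  · simp only [avDat, avg, Pi.smul_apply, smul_eq_mul, Finset.sum_apply]
    exact mul_le_mul_of_nonneg_left (sum_le_sum fun s hs => (h s (mem_range.1 hs)).aa i)
      (by positivity)
  · simp only [avDat, avg, Pi.smul_apply, smul_eq_mul, Finset.sum_apply]
    rw [sum_congr rfl fun s hs => (h s (mem_range.1 hs)).const r i hi]
  · simp only [avDat]; rw [Pi.smul_apply, su.sum_eq_zero subset_rfl (out i hi), smul_zero]
  · simp only [avDat]; rw [Pi.smul_apply, sus.sum_eq_zero subset_rfl (out i hi), smul_zero]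
  · simp only [avDat]
    rw [sum_avg_sq ha sa subset_rfl, sum_congr rfl fun s hs => (h s (mem_range.1 hs)).norm]
    simp [hn.ne']
  · simp only [avDat]
    rw [avg_sub, sum_avg_sq ha (fun s hs i hi => by simp [sa s hs i hi, sa' s hs i hi]) subset_rfl]
    exact inv_mul_sum_le hn subset_rfl (by positivity) fun s hs => (h s (mem_range.1 hs)).bad
  · simp only [avDat]
    by_cases hi' : ∃ s ∈ range (nP (τ + 1)), i ∈ itv (fun s => c.T (ρ s)) s
    · obtain ⟨s, hs, his⟩ := hi'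
      rw [avg_apply ha sa' subset_rfl hs his, Pi.smul_apply, Pi.smul_apply,
        su.sum_apply ha subset_rfl hs his, sus.sum_apply ha subset_rfl hs his, mul_pow, inv_sqrt_sq,
        smul_eq_mul, smul_eq_mul, abs_mul, abs_mul, abs_of_pos (inv_pos.2 hm),
        abs_of_pos (div_pos hm hnr), mul_assoc]
      refine (mul_le_mul_of_nonneg_left ((h s (mem_range.1 hs)).fac i hi) (by positivity)).trans
        (le_of_eq ?_)
      field_simp
    · rw [avg_eq_zero sa' subset_rfl fun s hs his => hi' ⟨s, hs, his⟩]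
      simp only [ne_eq, OfNat.ofNat_ne_zero, not_false_eq_true, zero_pow, zero_mul]; positivity

theorem av_loose {c : Ctx} {ρ : ℕ → ℕ} (hρ : StrictMono ρ) {τ : ℕ} {o : ℕ → Dat} {C : ℝ}
    (hC : 0 < C) (h : ∀ s < nP (τ + 1), Obj c (ρ s) (ρ (s + 1)) (o s) C) {s1 s2 : ℕ} {C' : ℝ}
    (ho : Obj c s1 s2 (avDat τ o) C') {A : ℝ} (hA : 0 < A) (hCA : 10 * C ≤ A ^ 2) :
    Loose c.J τ (A⁻¹ • ((avDat τ o).a' * c.w)) := by
  have hm := mm_pos τ
  obtain ⟨lam, h1, h2, h3⟩ := exists_lab (J := c.J) (c.hT.comp hρ).monotone (τ := τ) le_rfl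
    (k := fun s => (o s).us) (fun s hs => (h s hs).suppus) fun s hs => (h s hs).us1
  refine ⟨(5 * C)⁻¹ • (avDat τ o).u, _, lam, h1, h2, ?_, h3, fun i hi => ?_⟩
  · rw [(ss_ln _).smul_eq, abs_of_pos (by positivity), inv_mul_le_iff₀ (by positivity), mul_one]
    exact (av_flat hρ hC h).ss_le (nP_pos _)
  · have e1 := ho.g_sq i hi
    have e2 : |(avDat τ o).us i| = (mm τ : ℝ)⁻¹ * |(∑ s ∈ range (nP (τ + 1)), (o s).us) i| := by
      simp only [avDat]; rw [Pi.smul_apply, smul_eq_mul, abs_mul, abs_of_pos (inv_pos.2 hm)]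
    rw [e2] at e1
    rw [Pi.smul_apply, Pi.smul_apply, smul_eq_mul, smul_eq_mul, mul_pow, abs_mul,
      abs_of_pos (show 0 < (5 * C)⁻¹ by positivity), inv_pow]
    have e3 : (A ^ 2)⁻¹ ≤ (10 * C)⁻¹ := inv_anti₀ (by positivity) hCA
    refine (mul_le_mul e3 e1 (sq_nonneg _) (by positivity)).trans (le_of_eq ?_)
    field_simp
    ring

end Pool.Agent.JLS
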