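import Pool.Agent.Lib.MP_2f16e6_an.Space

/-!
Block O, part A: a bounded operator with zero diagonal is small on the intervals of a partition
that admits an upper 2-estimate.
-/

set_option autoImplicit false

namespace Pool.Agent.JLS

open Finset Filter Topology

theorem sign_mat {κ : Type} (F : Finset κ) (a : κ → κ → ℝ) :
    ∃ σ : κ → ℝ, (∀ i, σ i = 1 ∨ σ i = -1) ∧
      ∑ i ∈ F, ∑ j ∈ F, σ i * σ j * a i j ≤ ∑ i ∈ F, a i i := by
  classical
  induction F using Finset.induction_on with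
  | empty => exact ⟨fun _ => 1, fun _ => Or.inl rfl, by simp⟩
  | insert k F hk ih =>
    obtain ⟨σ, hσ, h⟩ := ih
    obtain ⟨s, hs, hst⟩ : ∃ s : ℝ, (s = 1 ∨ s = -1) ∧
        s * (∑ i ∈ F, σ i * (a i k + a k i)) ≤ 0 := by
      rcases le_total (∑ i ∈ F, σ i * (a i k + a k i)) 0 with h | h
      · exact ⟨1, Or.inl rfl, by linarith⟩
      · exact ⟨-1, Or.inr rfl, by linarith⟩
    refine ⟨Function.update σ k s, fun i => ?_, ?_⟩
    · by_cases hi : i = k
      · subst hi; simpa using hs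
      · simpa [Function.update_of_ne hi] using hσ i
    · have e : ∀ i ∈ F, Function.update σ k s i = σ i := fun i hi =>
        Function.update_of_ne (by rintro rfl; exact hk hi) _ _
      simp only [sum_insert hk, Function.update_self]
      have e1 : ∑ j ∈ F, s * Function.update σ k s j * a k j = ∑ j ∈ F, s * σ j * a k j :=
        sum_congr rfl fun j hj => by rw [e j hj]
      have e2 : ∑ i ∈ F, (Function.update σ k s i * s * a i k +
          ∑ j ∈ F, Function.update σ k s i * Function.update σ k s j * a i j) =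
          ∑ i ∈ F, (σ i * s * a i k + ∑ j ∈ F, σ i * σ j * a i j) :=
        sum_congr rfl fun i hi => by
          rw [e i hi]
          congr 1
          exact sum_congr rfl fun j hj => by rw [e j hj]
      have e3 : s * (∑ i ∈ F, σ i * (a i k + a k i)) =
          ∑ j ∈ F, s * σ j * a k j + ∑ i ∈ F, σ i * s * a i k := by
        rw [mul_sum, ← sum_add_distrib]
        exact sum_congr rfl fun i _ => by ring
      have e4 : s * s = 1 := by rcases hs with rfl | rfl <;> norm_num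
      rw [e1, e2, sum_add_distrib, e4]
      linarith

theorem split_mat {κ : Type} (F : Finset κ) (a : κ → κ → ℝ) (h0 : ∀ i, a i i = 0) :
    ∃ α β : κ → ℝ, (∀ i, |α i| ≤ 1) ∧ (∀ i, |β i| ≤ 1) ∧ (∀ i, α i * β i = 0) ∧
      (∑ i ∈ F, ∑ j ∈ F, a i j) / 4 ≤ ∑ i ∈ F, ∑ j ∈ F, α i * β j * a i j := by
  obtain ⟨σ, hσ, h⟩ := sign_mat F a
  simp only [h0, sum_const_zero] at h
  have hα : ∀ i, |(1 + σ i) / 2| ≤ 1 := fun i => by rcases hσ i with e | e <;> simp [e]
  have hβ : ∀ i, |(1 - σ i) / 2| ≤ 1 := fun i => by rcases hσ i with e | e <;> simp [e]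
  have hαβ : ∀ i, (1 + σ i) / 2 * ((1 - σ i) / 2) = 0 := fun i => by
    rcases hσ i with e | e <;> simp [e]
  have key : ∑ i ∈ F, ∑ j ∈ F, a i j - ∑ i ∈ F, ∑ j ∈ F, σ i * σ j * a i j =
      2 * (∑ i ∈ F, ∑ j ∈ F, (1 + σ i) / 2 * ((1 - σ j) / 2) * a i j) +
      2 * (∑ i ∈ F, ∑ j ∈ F, (1 - σ i) / 2 * ((1 + σ j) / 2) * a i j) := by
    simp only [mul_sum, ← sum_add_distrib, ← sum_sub_distrib]
    exact sum_congr rfl fun i _ => sum_congr rfl fun j _ => by ring
  rcases le_total (∑ i ∈ F, ∑ j ∈ F, (1 + σ i) / 2 * ((1 - σ j) / 2) * a i j)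
    (∑ i ∈ F, ∑ j ∈ F, (1 - σ i) / 2 * ((1 + σ j) / 2) * a i j) with h1 | h1
  · exact ⟨fun i => (1 - σ i) / 2, fun i => (1 + σ i) / 2, hβ, hα,
      fun i => by rw [mul_comm]; exact hαβ i, by linarith⟩
  · exact ⟨fun i => (1 + σ i) / 2, fun i => (1 - σ i) / 2, hα, hβ, hαβ, by linarith⟩

theorem res_of_mem {S : Set ℕ} {i : ℕ} (h : i ∈ S) (g : ℕ → ℝ) : res S g i = g i :=
  Set.indicator_of_mem h g

theorem res_of_not {S : Set ℕ} {i : ℕ} (h : i ∉ S) (g : ℕ → ℝ) : res S g i = 0 :=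
  Set.indicator_of_notMem h g

namespace Rigid

variable (R : Rigid)

theorem ext' {z w : R.X} (h : ∀ i, R.ι z i = R.ι w i) : z = w := R.ι_inj (funext h)

open Classical in
theorem ι_proj_apply (S : Set ℕ) (z : R.X) (i : ℕ) :
    R.ι (R.proj S z) i = if i ∈ S then R.ι z i else 0 := by
  by_cases h : i ∈ S <;> simp [res, h]

/-- the finitely supported vector with the values of `g` on `I` -/
noncomputable def vec (I : Finset ℕ) (g : ℕ → ℝ) : R.X := ∑ i ∈ I, g i • R.e i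

theorem ι_vec (I : Finset ℕ) (g : ℕ → ℝ) (i : ℕ) :
    R.ι (R.vec I g) i = if i ∈ I then g i else 0 := by
  unfold vec
  rw [map_sum, Finset.sum_apply]
  simp only [map_smul, ι_e, Pi.smul_apply, smul_eq_mul, Pi.single_apply, mul_ite, mul_one,
    mul_zero]
  rw [sum_ite_eq]

theorem proj_eq_vec (I : Finset ℕ) (z : R.X) : R.proj (I : Set ℕ) z = R.vec I (R.ι z) :=
  R.ext' fun i => by
    rw [ι_proj_apply, ι_vec]; by_cases h : i ∈ I <;> simp [h]

theorem eq_vec {I : Finset ℕ} {z : R.X} (h : ∀ i, i ∉ I → R.ι z i = 0) :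
    z = R.vec I (R.ι z) :=
  R.ext' fun i => by
    rw [ι_vec]; by_cases hi : i ∈ I <;> simp [hi, h]

theorem norm_eq_of_abs {z w : R.X} (h : ∀ i, |R.ι z i| = |R.ι w i|) : ‖z‖ = ‖w‖ :=
  le_antisymm (by simpa using R.norm_le_mul (c := 1) zero_le_one fun i => by simp [h i])
    (by simpa using R.norm_le_mul (c := 1) zero_le_one fun i => by simp [h i])

theorem norm_le_of_abs {z w : R.X} (h : ∀ i, |R.ι z i| ≤ |R.ι w i|) : ‖z‖ ≤ ‖w‖ := by
  simpa using R.norm_le_mul (c := 1) zero_le_one fun i => by simp [h i]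

/-- the compression of `A` to the interval `[a, b)` has norm larger than `δ` -/
def Bad (A : R.X →ₗ[ℝ] R.X) (δ : ℝ) (a b : ℕ) : Prop :=
  ∃ z, δ * ‖R.proj (Set.Ico a b) z‖ < ‖R.proj (Set.Ico a b) (A (R.proj (Set.Ico a b) z))‖

theorem bad_pair (A : R.X →ₗ[ℝ] R.X) (hd : ∀ i, R.ι (A (R.e i)) i = 0) (n : ℕ) (I : Finset ℕ)
    (hI : I ⊆ R.J n) (δ : ℝ) (z : R.X)
    (hz : δ * ‖R.proj (I : Set ℕ) z‖ < ‖R.proj (I : Set ℕ) (A (R.proj (I : Set ℕ) z))‖) :
    ∃ (y : ℕ → ℝ) (w : R.X), (∀ i, i ∉ I → y i = 0) ∧ (∀ i, i ∉ I → R.ι w i = 0) ∧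
      (∀ i, y i * R.ι w i = 0) ∧ ‖w‖ ≤ 1 ∧ (∀ g, ∑ i ∈ I, |y i| * |g i| ≤ R.p n g) ∧
      δ / 4 ≤ ∑ i ∈ I, y i * R.ι (A w) i := by
  classical
  set u := R.proj (I : Set ℕ) z with hu
  have hu0 : u ≠ 0 := by
    intro h
    rw [h] at hz
    simp at hz
  have hnu : 0 < ‖u‖ := norm_pos_iff.2 hu0
  set w0 : R.X := ‖u‖⁻¹ • u with hw0
  have hw1 : ‖w0‖ = 1 := by
    rw [hw0, norm_smul, norm_inv, norm_norm, inv_mul_cancel₀ hnu.ne']
  have hws : ∀ i, i ∉ I → R.ι w0 i = 0 := fun i hi => by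
    rw [hw0, map_smul, Pi.smul_apply, hu, ι_proj_apply]; simp [hi]
  have hbig : δ < ‖R.proj (I : Set ℕ) (A w0)‖ := by
    rw [hw0, map_smul, map_smul, norm_smul, norm_inv, norm_norm, lt_inv_mul_iff₀ hnu, mul_comm]
    exact hz
  obtain ⟨φ, hφ1, hφ⟩ := exists_dual_vector'' ℝ (R.proj (I : Set ℕ) (A w0))
  have hφv : ∀ g, φ (R.vec I g) = ∑ i ∈ I, g i * φ (R.e i) := fun g => by
    simp [vec, map_sum]
  have hAv : ∀ g i, R.ι (A (R.vec I g)) i = ∑ j ∈ I, g j * R.ι (A (R.e j)) i := fun g i => by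
    simp [vec, map_sum, Finset.sum_apply]
  obtain ⟨α, β, hα, hβ, hαβ, hs⟩ := split_mat I
    (fun i j => φ (R.e i) * R.ι (A (R.e j)) i * R.ι w0 j) fun i => by simp [hd]
  have htot : ∑ i ∈ I, ∑ j ∈ I, φ (R.e i) * R.ι (A (R.e j)) i * R.ι w0 j =
      ‖R.proj (I : Set ℕ) (A w0)‖ := by
    have : φ (R.proj (I : Set ℕ) (A w0)) = ‖R.proj (I : Set ℕ) (A w0)‖ := by simpa using hφ
    rw [← this, proj_eq_vec, hφv]
    refine sum_congr rfl fun i _ => ?_
    conv_rhs => rw [R.eq_vec hws, hAv, sum_mul]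
    exact sum_congr rfl fun j _ => by ring
  refine ⟨fun i => if i ∈ I then α i * φ (R.e i) else 0, R.vec I fun i => β i * R.ι w0 i,
    fun i hi => by simp [hi], fun i hi => by simp [ι_vec, hi], fun i => ?_, ?_, fun g => ?_, ?_⟩
  · rw [ι_vec]
    by_cases hi : i ∈ I
    · simp only [hi, if_true]
      calc α i * φ (R.e i) * (β i * R.ι w0 i) = α i * β i * (φ (R.e i) * R.ι w0 i) := by ring
        _ = 0 := by rw [hαβ, zero_mul]
    · simp [hi]
  · rw [← hw1]
    refine R.norm_le_of_abs fun i => ?_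
    rw [ι_vec]
    by_cases hi : i ∈ I
    · simp only [hi, if_true, abs_mul]
      exact mul_le_of_le_one_left (abs_nonneg _) (hβ i)
    · simp [hi]
  · set s : ℕ → ℝ := fun i => if 0 ≤ φ (R.e i) then |g i| else -|g i| with hs'
    have h1 : ∀ i, s i * φ (R.e i) = |φ (R.e i)| * |g i| := fun i => by
      by_cases h : 0 ≤ φ (R.e i)
      · simp only [hs', h, if_true, abs_of_nonneg h]; ring
      · simp only [hs', h, if_false, abs_of_neg (not_le.1 h)]; ring
    have h2 : ∀ i, |s i| = |g i| := fun i => by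
      by_cases h : 0 ≤ φ (R.e i) <;> simp [hs', h]
    calc ∑ i ∈ I, |if i ∈ I then α i * φ (R.e i) else 0| * |g i|
        ≤ ∑ i ∈ I, s i * φ (R.e i) := sum_le_sum fun i hi => by
          rw [h1, if_pos hi, abs_mul]
          exact mul_le_mul_of_nonneg_right (mul_le_of_le_one_left (abs_nonneg _) (hα i))
            (abs_nonneg _)
      _ = φ (R.vec I s) := (hφv s).symm
      _ ≤ ‖R.vec I s‖ := by
          have := φ.le_opNorm (R.vec I s)
          rw [Real.norm_eq_abs] at this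
          exact (le_abs_self _).trans (this.trans (mul_le_of_le_one_left (norm_nonneg _) hφ1))
      _ = R.p n (R.ι (R.vec I s)) := R.norm_eq_p fun i hi => by
          rw [ι_vec, if_neg fun h => hi (hI h)]
      _ ≤ R.p n g := R.solid n _ _ fun i _ => by
          rw [ι_vec]
          by_cases hi : i ∈ I <;> simp [hi, h2]
  · rw [htot] at hs
    refine le_trans (by linarith) (hs.trans (le_of_eq ?_))
    refine sum_congr rfl fun i hi => ?_
    beta_reduce
    rw [if_pos hi, hAv, mul_sum]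
    exact sum_congr rfl fun j _ => by ring

theorem itv_unique {T : ℕ → ℕ} (hT : StrictMono T) {r r' i : ℕ} (h : i ∈ Ico (T r) (T (r + 1)))
    (h' : i ∈ Ico (T r') (T (r' + 1))) : r = r' := by
  rw [mem_Ico] at h h'
  have h1 : r < r' + 1 := hT.lt_iff_lt.1 (lt_of_le_of_lt h.1 h'.2)
  have h2 : r' < r + 1 := hT.lt_iff_lt.1 (lt_of_le_of_lt h'.1 h.2)
  omega

theorem sum_itv {T : ℕ → ℕ} (hT : StrictMono T) {m : ℕ} (f : ℕ → ℕ → ℝ)
    (hf : ∀ r < m, ∀ i, i ∉ Ico (T r) (T (r + 1)) → f r i = 0) {r i : ℕ} (hr : r < m)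
    (hi : i ∈ Ico (T r) (T (r + 1))) : ∑ r' ∈ range m, f r' i = f r i :=
  sum_eq_single_of_mem r (mem_range.2 hr) fun r' hr' hne =>
    hf r' (mem_range.1 hr') i fun h => hne (itv_unique hT h hi)

theorem abs_sum_itv {T : ℕ → ℕ} (hT : StrictMono T) {m : ℕ} (f : ℕ → ℕ → ℝ)
    (hf : ∀ r < m, ∀ i, i ∉ Ico (T r) (T (r + 1)) → f r i = 0) (a σ : ℕ → ℝ)
    (hσ : ∀ r, σ r = 1 ∨ σ r = -1) (ha : ∀ r, ∀ i ∈ itv T r, a i = a (T r)) (i : ℕ) :
    |∑ r ∈ range m, σ r * a (T r) * f r i| = |a i * ∑ r ∈ range m, f r i| := by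
  by_cases h : ∃ r < m, i ∈ Ico (T r) (T (r + 1))
  · obtain ⟨r, hr, hi⟩ := h
    rw [sum_itv hT f hf hr hi, sum_itv hT (fun r i => σ r * a (T r) * f r i)
      (fun r hr i hi => by rw [hf r hr i hi, mul_zero]) hr hi,
      ha r i (by simpa using hi), mul_assoc, abs_mul]
    rcases hσ r with e | e <;> simp [e]
  · push Not at h
    rw [sum_eq_zero fun r hr => by rw [hf r (mem_range.1 hr) i (h r (mem_range.1 hr)), mul_zero],
      sum_eq_zero fun r hr => hf r (mem_range.1 hr) i (h r (mem_range.1 hr)), mul_zero]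

theorem ue_of_bad (K δ : ℝ) (hK : 0 < K) (hδ : 0 < δ) : ∃ C : ℝ, ∃ n0 : ℕ,
    ∀ A : R.X →ₗ[ℝ] R.X, (∀ z, ‖A z‖ ≤ K * ‖z‖) → (∀ i, R.ι (A (R.e i)) i = 0) →
    ∀ n, n0 ≤ n → ∀ (T : ℕ → ℕ) (m : ℕ), StrictMono T → R.P n ≤ T 0 → T m ≤ R.P (n + 1) →
    (∀ r < m, R.Bad A δ (T r) (T (r + 1))) →
    ∀ g, R.p n (res (Set.Ico (T 0) (T m)) g) ^ 2 ≤
      C ^ 2 * ∑ r ∈ range m, R.p n (res (itv T r) g) ^ 2 := by
  classical
  obtain ⟨C, n0, hR⟩ := R.rigid (δ / (8 * K)) (by positivity)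
  refine ⟨C, n0, fun A hA hd n hn T m hT h0 hm hbad => ?_⟩
  have hsub : ∀ r < m, Ico (T r) (T (r + 1)) ⊆ R.J n := fun r hr =>
    Ico_subset_Ico (h0.trans (hT.monotone (Nat.zero_le r))) ((hT.monotone hr).trans hm)
  have hex : ∀ r, ∃ (y : ℕ → ℝ) (w : R.X), r < m →
      (∀ i, i ∉ Ico (T r) (T (r + 1)) → y i = 0) ∧
      (∀ i, i ∉ Ico (T r) (T (r + 1)) → R.ι w i = 0) ∧ (∀ i, y i * R.ι w i = 0) ∧ ‖w‖ ≤ 1 ∧
      (∀ g, ∑ i ∈ Ico (T r) (T (r + 1)), |y i| * |g i| ≤ R.p n g) ∧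
      δ / 4 ≤ ∑ i ∈ Ico (T r) (T (r + 1)), y i * R.ι (A w) i := fun r => by
    by_cases hr : r < m
    · obtain ⟨z, hz⟩ := hbad r hr
      rw [← coe_Ico] at hz
      obtain ⟨y, w, h⟩ := R.bad_pair A hd n _ (hsub r hr) δ z hz
      exact ⟨y, w, fun _ => h⟩
    · exact ⟨0, 0, fun h => absurd h hr⟩
  choose y w h using hex
  have hy : ∀ r < m, ∀ i, i ∉ Ico (T r) (T (r + 1)) → y r i = 0 := fun r hr => (h r hr).1
  have hw : ∀ r < m, ∀ i, i ∉ Ico (T r) (T (r + 1)) → R.ι (w r) i = 0 := fun r hr => (h r hr).2.1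
  refine Or.elim (hR n hn T 0 m hT (Nat.zero_le m) h0 hm {i | ∑ r ∈ range m, R.ι (w r) i ≠ 0}
    (fun i => ∑ r ∈ range m, y r i) (fun i => ∑ r ∈ range m, R.ι (w r) i) ?_ ?_ ?_ ?_) ?_ ?_
  rotate_left 4
  · intro h1
    simpa only [range_eq_Ico] using h1
  · rintro ⟨a, B, hB, ha, -, ha1, hay, haw⟩
    exfalso
    obtain ⟨σ, hσ, hs⟩ := sign_mat (range m)
      fun r r' => -(a (T r) * a (T r') * ∑ i ∈ R.J n, y r i * R.ι (A (w r')) i)
    set u : R.X := ∑ r ∈ range m, (σ r * a (T r)) • w r with hu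
    have hιu : ∀ i, R.ι u i = ∑ r ∈ range m, σ r * a (T r) * R.ι (w r) i := fun i => by
      simp [hu, map_sum, Finset.sum_apply]
    have hAu : ∀ i, R.ι (A u) i = ∑ r ∈ range m, σ r * a (T r) * R.ι (A (w r)) i := fun i => by
      simp [hu, map_sum, Finset.sum_apply]
    have hnu : ‖u‖ = R.p n fun i => a i * ∑ r ∈ range m, R.ι (w r) i := by
      rw [R.norm_eq_p (n := n) fun i hi => by
        rw [hιu]
        exact sum_eq_zero fun r hr => by
          rw [hw r (mem_range.1 hr) i fun h => hi (hsub r (mem_range.1 hr) h), mul_zero]]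
      exact R.p_congr n fun i _ => by
        rw [hιu]; exact abs_sum_itv hT (fun r i => R.ι (w r) i) hw a σ hσ ha i
    have e1 : ∑ r ∈ range m, ∑ r' ∈ range m, σ r * σ r' *
        -(a (T r) * a (T r') * ∑ i ∈ R.J n, y r i * R.ι (A (w r')) i) =
        -∑ i ∈ R.J n, (∑ r ∈ range m, σ r * a (T r) * y r i) * R.ι (A u) i := by
      simp only [hAu, sum_mul_sum]
      simp only [mul_sum, mul_neg, sum_neg_distrib, neg_inj]
      rw [sum_comm (s := R.J n)]
      refine sum_congr rfl fun r _ => ?_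
      rw [sum_comm (s := R.J n)]
      exact sum_congr rfl fun r' _ => sum_congr rfl fun i _ => by ring
    have e2 : δ / 4 ≤ ∑ r ∈ range m,
        a (T r) * a (T r) * ∑ i ∈ R.J n, y r i * R.ι (A (w r)) i := by
      calc δ / 4 = ∑ r ∈ range m, a (T r) ^ 2 * (δ / 4) := by
            rw [← sum_mul, range_eq_Ico, ha1, one_mul]
        _ ≤ _ := sum_le_sum fun r hr => by
            rw [← sq]
            refine mul_le_mul_of_nonneg_left ?_ (sq_nonneg _)
            rw [← sum_subset (hsub r (mem_range.1 hr)) fun i _ hi => by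
              rw [hy r (mem_range.1 hr) i hi, zero_mul]]
            exact (h r (mem_range.1 hr)).2.2.2.2.2
    have e3 : ∑ i ∈ R.J n, (∑ r ∈ range m, σ r * a (T r) * y r i) * R.ι (A u) i ≤
        B * R.p n (R.ι (A u)) := by
      refine le_trans (sum_le_sum fun i _ => ?_) (hay (R.ι (A u)))
      rw [← abs_sum_itv hT y hy a σ hσ ha i, ← abs_mul]
      exact le_abs_self _
    have e4 : R.p n (R.ι (A u)) ≤ K * ‖u‖ := (R.p_le_norm n _).trans (hA u)
    rw [e1, sum_neg_distrib] at hs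
    have e5 : B * R.p n (R.ι (A u)) ≤ K * (δ / (8 * K)) := by
      calc B * R.p n (R.ι (A u)) ≤ B * (K * ‖u‖) := mul_le_mul_of_nonneg_left e4 hB
        _ = K * (B * ‖u‖) := by ring
        _ ≤ K * (δ / (8 * K)) := by
          rw [hnu]; exact mul_le_mul_of_nonneg_left haw hK.le
    have e6 : K * (δ / (8 * K)) = δ / 8 := by field_simp
    linarith
  · intro i hi
    by_cases hr : ∃ r < m, i ∈ Ico (T r) (T (r + 1))
    · obtain ⟨r, hr, hi'⟩ := hr
      have h1 := sum_itv hT (fun r i => R.ι (w r) i) hw hr hi'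
      rw [sum_itv hT y hy hr hi']
      simp only [Set.mem_ofPred_eq, h1] at hi
      exact (mul_eq_zero.1 ((h r hr).2.2.1 i)).resolve_right hi
    · push Not at hr
      exact sum_eq_zero fun r hr' => hy r (mem_range.1 hr') i (hr r (mem_range.1 hr'))
  · intro i hi
    simpa using hi
  · intro r hr
    have hr' : r < m := (mem_Ico.1 hr).2
    refine le_trans (le_of_eq ?_) ((R.p_le_norm n (w r)).trans (h r hr').2.2.2.1)
    congr 1
    funext i
    by_cases hi : i ∈ Ico (T r) (T (r + 1))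
    · rw [res_of_mem (by simpa using hi)]
      exact sum_itv hT (fun r i => R.ι (w r) i) hw hr' hi
    · rw [res_of_not (by simpa using hi), hw r hr' i hi]
  · intro r hr g
    have hr' : r < m := (mem_Ico.1 hr).2
    refine le_trans (le_of_eq ?_) ((h r hr').2.2.2.2.1 g)
    exact sum_congr rfl fun i hi => by rw [sum_itv hT y hy hr' hi]

theorem p_sq_le_two (n : ℕ) (g h k : ℕ → ℝ) (e : ∀ i ∈ R.J n, g i = h i + k i) :
    R.p n g ^ 2 ≤ 2 * R.p n h ^ 2 + 2 * R.p n k ^ 2 := by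
  have h1 : R.p n g ≤ R.p n h + R.p n k :=
    (R.p_congr n fun i hi => by rw [e i hi, Pi.add_apply]).le.trans (R.add_le n h k)
  have h2 := pow_le_pow_left₀ (R.p_nonneg n g) h1 2
  nlinarith [sq_nonneg (R.p n h - R.p n k)]

theorem not_bad_of_le (A : R.X →ₗ[ℝ] R.X) (δ : ℝ) {a b : ℕ} (h : b ≤ a) : ¬ R.Bad A δ a b := by
  rintro ⟨z, hz⟩
  have e : ∀ w, R.proj (Set.Ico a b) w = 0 := fun w => R.ext' fun i => by
    rw [ι_proj_apply, if_neg (by simp; omega)]; simp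
  simp [e] at hz

theorem not_bad_single (A : R.X →ₗ[ℝ] R.X) (hd : ∀ i, R.ι (A (R.e i)) i = 0) {δ : ℝ} (hδ : 0 < δ)
    (a : ℕ) : ¬ R.Bad A δ a (a + 1) := by
  rintro ⟨z, hz⟩
  have e : ∀ w, R.proj (Set.Ico a (a + 1)) w = R.ι w a • R.e a := fun w => R.ext' fun i => by
    rw [ι_proj_apply, map_smul, ι_e]
    by_cases hi : i = a
    · subst hi; simp
    · rw [if_neg (by simp; omega)]; simp [hi]
  rw [e (A _), e z, map_smul, map_smul, Pi.smul_apply, hd] at hz
  simp only [smul_zero, zero_smul, norm_zero] at hz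
  exact absurd hz (not_lt.2 (by positivity))

theorem block_seq (K δ : ℝ) (hK : 0 < K) (hδ : 0 < δ) : ∃ M : ℝ, 0 < M ∧
    ∀ A : R.X →ₗ[ℝ] R.X, (∀ z, ‖A z‖ ≤ K * ‖z‖) → (∀ i, R.ι (A (R.e i)) i = 0) →
    ∀ n, ∃ (T : ℕ → ℕ) (m : ℕ), StrictMono T ∧ T 0 = R.P n ∧ T m = R.P (n + 1) ∧
      (∀ r < m, ¬ R.Bad A δ (T r) (T (r + 1) - 1)) ∧
      ∀ g, R.p n g ^ 2 ≤ M * ∑ r ∈ range m, R.p n (res (itv T r) g) ^ 2 := by
  classical
  obtain ⟨C, n0, hC⟩ := R.ue_of_bad K δ hK hδ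
  refine ⟨2 * C ^ 2 + 2 + (dd (R.P n0) : ℝ) ^ 2, by positivity, fun A hA hd n => ?_⟩
  have hP : R.P n < R.P (n + 1) := R.P_mono (Nat.lt_succ_self n)
  rcases lt_or_ge n n0 with hn | hn
  · refine ⟨fun r => R.P n + r, R.P (n + 1) - R.P n, fun a b h => by simpa using h, rfl,
      by beta_reduce; omega, fun r _ => R.not_bad_of_le A δ (by beta_reduce; omega), fun g => ?_⟩
    have h1 : (dd (R.P n) : ℝ) ≤ dd (R.P n0) := by
      have : dd (R.P n) ≤ dd (R.P n0) :=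
        Nat.pow_le_pow_right (by norm_num) (Nat.succ_le_succ (R.P_mono.monotone hn.le))
      exact_mod_cast this
    have h2 : ∑ i ∈ R.J n, g i ^ 2 ≤
        ∑ r ∈ range (R.P (n + 1) - R.P n), R.p n (res (itv (fun r => R.P n + r) r) g) ^ 2 := by
      rw [sum_Ico_eq_sum_range]
      refine sum_le_sum fun r hr => ?_
      have h3 := R.abs_le_p n (res (itv (fun r => R.P n + r) r) g) (i := R.P n + r)
        (by have := mem_range.1 hr; simp; omega)
      rw [res_of_mem (by simp)] at h3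
      rw [← sq_abs]
      exact pow_le_pow_left₀ (abs_nonneg _) h3 2
    refine (R.le_l2 n g).trans (mul_le_mul ?_ h2 (sum_nonneg fun _ _ => sq_nonneg _)
      (by positivity))
    have := pow_le_pow_left₀ (Nat.cast_nonneg _) h1 2
    nlinarith [sq_nonneg C]
  · have hex : ∀ a, ∃ b, a < b ∧ (R.Bad A δ a b ∨ R.P (n + 1) ≤ b) := fun a =>
      ⟨max (a + 1) (R.P (n + 1)), by omega, Or.inr (le_max_right _ _)⟩
    set nxt : ℕ → ℕ := fun a => Nat.find (hex a) with hnxt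
    have n1 : ∀ a, a < nxt a := fun a => (Nat.find_spec (hex a)).1
    have n2 : ∀ a, a < R.P (n + 1) → nxt a ≤ R.P (n + 1) := fun a ha =>
      Nat.find_min' (hex a) ⟨ha, Or.inr le_rfl⟩
    have n3 : ∀ a, nxt a < R.P (n + 1) → R.Bad A δ a (nxt a) := fun a ha =>
      (Nat.find_spec (hex a)).2.resolve_right (not_le.2 ha)
    have n4 : ∀ a, ¬ R.Bad A δ a (nxt a - 1) := fun a hb => by
      rcases le_or_gt (nxt a - 1) a with h | h
      · exact R.not_bad_of_le A δ h hb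
      · exact Nat.find_min (hex a) (m := nxt a - 1) (by have := n1 a; change _ < nxt a; omega)
          ⟨h, Or.inl hb⟩
    set T : ℕ → ℕ := fun r => nxt^[r] (R.P n) with hTdef
    have T0 : T 0 = R.P n := rfl
    have Ts : ∀ r, T (r + 1) = nxt (T r) := fun r => Function.iterate_succ_apply' _ _ _
    have hT : StrictMono T := strictMono_nat_of_lt_succ fun r => by rw [Ts]; exact n1 _
    have hm : ∃ m, R.P (n + 1) ≤ T (m + 1) :=
      ⟨R.P (n + 1), (Nat.le_succ _).trans (hT.id_le _)⟩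
    have hlt : T (Nat.find hm) < R.P (n + 1) := by
      rcases h : Nat.find hm with _ | k
      · exact hP
      · exact not_le.1 (Nat.find_min hm (m := k) (by omega))
    set m := Nat.find hm with hmdef
    have hTm : T (m + 1) = R.P (n + 1) :=
      le_antisymm (by rw [Ts]; exact n2 _ hlt) (Nat.find_spec hm)
    refine ⟨T, m + 1, hT, T0, hTm, fun r _ => by rw [Ts]; exact n4 _, fun g => ?_⟩
    have h1 := hC A hA hd n hn T m hT T0.ge hlt.le (fun r hr => by
      rw [Ts]; apply n3; rw [← Ts]; exact (hT.monotone hr).trans_lt hlt) g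
    have h2 := R.p_sq_le_two n g (res (Set.Ico (T 0) (T m)) g) (res (itv T m) g) fun i hi => by
      rw [mem_Ico] at hi
      by_cases h : i < T m
      · rw [res_of_mem (by simp; omega), res_of_not (by simp; omega), add_zero]
      · rw [res_of_not (by simp; omega), res_of_mem (by simp; omega), zero_add]
    rw [sum_range_succ]
    have h3 : 0 ≤ ∑ r ∈ range m, R.p n (res (itv T r) g) ^ 2 := sum_nonneg fun _ _ => sq_nonneg _
    have h4 := sq_nonneg (R.p n (res (itv T m) g))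
    have h5 := mul_nonneg (sq_nonneg C) h4
    have h6 := mul_nonneg (sq_nonneg (dd (R.P n0) : ℝ)) (add_nonneg h3 h4)
    nlinarith

/-- index set for the intervals of a partition -/
abbrev Ix : Type := (_ : ℕ) × (ℕ × Bool)

/-- a partition of `[0, P N)` into intervals inside blocks with an upper 2-estimate -/
structure Cut (N : ℕ) (M : ℝ) where
  F : Finset Ix
  lo : Ix → ℕ
  hi : Ix → ℕ
  lo_ge : ∀ j ∈ F, R.P j.1 ≤ lo j
  hi_le : ∀ j ∈ F, hi j ≤ R.P (j.1 + 1)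
  blk_lt : ∀ j ∈ F, j.1 < N
  lo_le : ∀ j ∈ F, lo j ≤ hi j
  ord : ∀ j ∈ F, ∀ k ∈ F, j ≠ k → hi j ≤ lo k ∨ hi k ≤ lo j
  cover : ∀ i < R.P N, ∃ j ∈ F, lo j ≤ i ∧ i < hi j
  ue : ∀ z, ‖R.proj (Set.Iio (R.P N)) z‖ ^ 2 ≤
    M * ∑ j ∈ F, ‖R.proj (Set.Ico (lo j) (hi j)) z‖ ^ 2

theorem norm_proj_Ico {n a b : ℕ} (ha : R.P n ≤ a) (hb : b ≤ R.P (n + 1)) (z : R.X) :
    ‖R.proj (Set.Ico a b) z‖ = R.p n (res (Set.Ico a b) (R.ι z)) := by
  rw [R.norm_eq_p (n := n) fun i hi => by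
    rw [ι_proj_apply, if_neg]
    simp only [mem_Ico, Set.mem_Ico] at hi ⊢
    omega, ι_proj]

theorem exists_cut (K δ : ℝ) (hK : 0 < K) (hδ : 0 < δ) : ∃ M : ℝ, 0 < M ∧
    ∀ A : R.X →ₗ[ℝ] R.X, (∀ z, ‖A z‖ ≤ K * ‖z‖) → (∀ i, R.ι (A (R.e i)) i = 0) →
    ∀ N, ∃ c : R.Cut N M, ∀ j ∈ c.F, ¬ R.Bad A δ (c.lo j) (c.hi j) := by
  classical
  obtain ⟨M, hM, h⟩ := R.block_seq K δ hK hδ
  refine ⟨2 * M, by positivity, fun A hA hd N => ?_⟩
  choose T m hT T0 Tm hb hu using h A hA hd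
  have hlt : ∀ n r, T n r < T n (r + 1) := fun n r => hT n (Nat.lt_succ_self r)
  have hge : ∀ n r, R.P n ≤ T n r := fun n r => by
    rw [← T0]; exact (hT n).monotone (Nat.zero_le r)
  have hle : ∀ n, ∀ r < m n, T n (r + 1) ≤ R.P (n + 1) := fun n r hr => by
    rw [← Tm]; exact (hT n).monotone hr
  set lo : Ix → ℕ := fun j => if j.2.2 then T j.1 (j.2.1 + 1) - 1 else T j.1 j.2.1 with hlo
  set hi : Ix → ℕ := fun j => if j.2.2 then T j.1 (j.2.1 + 1) else T j.1 (j.2.1 + 1) - 1 with hhi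
  have b1 : ∀ j : Ix, T j.1 j.2.1 ≤ lo j := fun j => by
    have := hlt j.1 j.2.1
    simp only [hlo]; split_ifs <;> omega
  have b2 : ∀ j : Ix, hi j ≤ T j.1 (j.2.1 + 1) := fun j => by
    simp only [hhi]; split_ifs <;> omega
  have hmem : ∀ j : Ix, j ∈ (range N).sigma (fun n => range (m n) ×ˢ (univ : Finset Bool)) ↔
      j.1 < N ∧ j.2.1 < m j.1 := fun j => by simp
  refine ⟨⟨(range N).sigma fun n => range (m n) ×ˢ univ, lo, hi, fun j _ => (hge _ _).trans (b1 j),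
    fun j hj => (b2 j).trans (hle _ _ ((hmem j).1 hj).2), fun j hj => ((hmem j).1 hj).1,
    fun j _ => ?_, fun j hj k hk hjk => ?_, fun i hi' => ?_, fun z => ?_⟩, fun j hj => ?_⟩
  · have := hlt j.1 j.2.1
    simp only [hlo, hhi]; split_ifs <;> omega
  · have key : ∀ j k : Ix, j.2.1 < m j.1 → (j.1 < k.1 ∨ (j.1 = k.1 ∧ j.2.1 < k.2.1)) →
        hi j ≤ lo k := fun j k hj h => by
      refine (b2 j).trans (le_trans ?_ (b1 k))
      rcases h with h | ⟨h, h'⟩
      · exact (hle _ _ hj).trans ((R.P_mono.monotone h).trans (hge _ _))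
      · rw [h]; exact (hT _).monotone h'
    have hj' := ((hmem j).1 hj).2
    have hk' := ((hmem k).1 hk).2
    by_cases h1 : j.1 < k.1 ∨ (j.1 = k.1 ∧ j.2.1 < k.2.1)
    · exact Or.inl (key j k hj' h1)
    by_cases h2 : k.1 < j.1 ∨ (k.1 = j.1 ∧ k.2.1 < j.2.1)
    · exact Or.inr (key k j hk' h2)
    obtain ⟨n, r, b⟩ := j
    obtain ⟨n', r', b'⟩ := k
    have e1 : n = n' := by simp only at h1 h2; omega
    have e2 : r = r' := by simp only at h1 h2; omega
    subst e1 e2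
    cases b <;> cases b' <;> simp [hlo, hhi] at hjk ⊢
  · obtain ⟨n, hn⟩ := R.exists_block i
    have hnN := (R.block_lt hn).1 hi'
    rw [mem_Ico] at hn
    have hr : ∃ r, i < T n (r + 1) := ⟨i, lt_of_lt_of_le (Nat.lt_succ_self i) ((hT n).id_le _)⟩
    have h1 : T n (Nat.find hr) ≤ i := by
      rcases h : Nat.find hr with _ | k
      · rw [T0]; exact hn.1
      · exact not_lt.1 (Nat.find_min hr (m := k) (by omega))
    have h2 := Nat.find_spec hr
    have h3 : Nat.find hr < m n := (hT n).lt_iff_lt.1 (by rw [Tm]; omega)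
    by_cases h4 : i < T n (Nat.find hr + 1) - 1
    · exact ⟨⟨n, Nat.find hr, false⟩, (hmem _).2 ⟨hnN, h3⟩, by simpa [hlo] using h1,
        by simpa [hhi] using h4⟩
    · exact ⟨⟨n, Nat.find hr, true⟩, (hmem _).2 ⟨hnN, h3⟩, by simp [hlo]; omega,
        by simpa [hhi] using h2⟩
  · rw [R.norm_eq_vn (N := N) fun i hi => by rw [ι_proj_apply, if_neg (by simpa using hi)],
      vn_sq, sum_sigma, mul_sum]
    refine sum_le_sum fun n hn => ?_
    rw [R.p_congr n (h := R.ι z) fun i hi => by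
      rw [ι_proj_apply, if_pos (by simpa using (R.block_lt hi).2 (mem_range.1 hn))]]
    refine (hu n _).trans ?_
    rw [sum_product, mul_comm 2 M, mul_assoc, mul_sum (a := 2)]
    refine mul_le_mul_of_nonneg_left (sum_le_sum fun r hr => ?_) hM.le
    have h1 := hlt n r
    have h2 := hge n r
    have h3 := hle n r (mem_range.1 hr)
    rw [Fintype.sum_bool]
    simp only [hlo, hhi, if_true, Bool.false_eq_true, if_false]
    rw [R.norm_proj_Ico (n := n) (by omega) h3, R.norm_proj_Ico (n := n) h2 (by omega), mul_add]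
    refine R.p_sq_le_two n _ _ _ fun i _ => ?_
    by_cases a1 : i ∈ Set.Ico (T n (r + 1) - 1) (T n (r + 1))
    · rw [res_of_mem a1, res_of_mem (by simp at a1 ⊢; omega), res_of_not (by simp at a1 ⊢; omega),
        add_zero]
    · rw [res_of_not a1, zero_add]
      by_cases a2 : i ∈ Set.Ico (T n r) (T n (r + 1) - 1)
      · rw [res_of_mem a2, res_of_mem (by simp at a2 ⊢; omega)]
      · rw [res_of_not a2, res_of_not (by simp at a1 a2 ⊢; omega)]
  · obtain ⟨n, r, b⟩ := j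
    have h1 := hlt n r
    cases b
    · simpa [hlo, hhi] using hb n r ((hmem _).1 hj).2
    · have := R.not_bad_single A hd hδ (T n (r + 1) - 1)
      rw [show T n (r + 1) - 1 + 1 = T n (r + 1) by omega] at this
      simpa [hlo, hhi] using this

end Rigid

end Pool.Agent.JLS
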