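import Pool.Agent.Lib.MP_2f16e6_an.Space
import Pool.Agent.Lib.MP_2f16e6_an.Hilbert
import Pool.Agent.Lib.MP_2f16e6_an.Atoms

set_option autoImplicit false

namespace Pool.Agent.JLS

open Finset Filter Topology

namespace Rigid
variable (R : Rigid)

theorem p_sub_le (n : ℕ) (g h : ℕ → ℝ) : R.p n g - R.p n h ≤ ∑ i ∈ R.J n, |g i - h i| := by
  have h1 := R.add_le n h (g - h)
  have h2 := R.le_l1 n (g - h)
  rw [add_sub_cancel] at h1
  simp only [Pi.sub_apply] at h2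
  linarith

theorem p_tendsto {κ : Type} {l : Filter κ} {g : κ → ℕ → ℝ} {h : ℕ → ℝ}
    (hg : ∀ i, Tendsto (fun j => g j i) l (𝓝 (h i))) (n : ℕ) :
    Tendsto (fun j => R.p n (g j)) l (𝓝 (R.p n h)) := by
  rw [tendsto_iff_dist_tendsto_zero]
  have h0 : Tendsto (fun j => ∑ i ∈ R.J n, |g j i - h i|) l (𝓝 0) := by
    have : Tendsto (fun j => ∑ i ∈ R.J n, |g j i - h i|) l (𝓝 (∑ i ∈ R.J n, |h i - h i|)) :=
      tendsto_finsetSum _ fun i _ => ((hg i).sub_const (h i)).abs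
    simpa using this
  refine squeeze_zero (fun _ => dist_nonneg) (fun j => ?_) h0
  rw [Real.dist_eq, abs_sub_le_iff]
  refine ⟨R.p_sub_le n _ _, ?_⟩
  simpa only [abs_sub_comm] using R.p_sub_le n h (g j)

theorem vn_tendsto {κ : Type} {l : Filter κ} {g : κ → ℕ → ℝ} {h : ℕ → ℝ}
    (hg : ∀ i, Tendsto (fun j => g j i) l (𝓝 (h i))) (N : ℕ) :
    Tendsto (fun j => R.vn N (g j)) l (𝓝 (R.vn N h)) :=
  (tendsto_finsetSum _ fun n _ => (R.p_tendsto hg n).pow 2).sqrt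

theorem fatou {κ : Type} {l : Filter κ} [l.NeBot] {z : κ → R.X} {h : ℕ → ℝ} {b : κ → ℝ} {B : ℝ}
    (hg : ∀ i, Tendsto (fun j => R.ι (z j) i) l (𝓝 (h i))) (hb : ∀ᶠ j in l, ‖z j‖ ≤ b j)
    (hB : Tendsto b l (𝓝 B)) (N : ℕ) : R.vn N h ≤ B :=
  le_of_tendsto_of_tendsto (R.vn_tendsto hg N) hB
    (hb.mono fun j hj => (R.vn_le_norm N (z j)).trans hj)

instance : CompleteSpace R.X := by
  refine Metric.complete_of_cauchySeq_tendsto fun u hu => ?_
  have hc : ∀ i, ∃ a, Tendsto (fun n => R.ι (u n) i) atTop (𝓝 a) := by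
    intro i
    apply cauchySeq_tendsto_of_complete
    rw [Metric.cauchySeq_iff] at hu ⊢
    intro ε hε
    obtain ⟨N, hN⟩ := hu ε hε
    refine ⟨N, fun m hm n hn => lt_of_le_of_lt ?_ (hN m hm n hn)⟩
    rw [Real.dist_eq, dist_eq_norm]
    simpa using R.abs_le_norm (u m - u n) i
  choose g hg using hc
  obtain ⟨B, hB⟩ := hu.isBounded_range.exists_norm_le
  let w := R.mkX g B (R.fatou hg (Eventually.of_forall fun n => hB _ ⟨n, rfl⟩) tendsto_const_nhds)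
  refine ⟨w, ?_⟩
  rw [Metric.tendsto_atTop]
  intro ε hε
  obtain ⟨N, hN⟩ := Metric.cauchySeq_iff.1 hu (ε / 2) (by positivity)
  refine ⟨N, fun n hn => lt_of_le_of_lt (b := ε / 2) ?_ (by linarith)⟩
  rw [dist_eq_norm]
  refine R.norm_le_of_vn (R.fatou (l := atTop) (z := fun m => u n - u m) (fun i => ?_) ?_
    tendsto_const_nhds)
  · simpa [w] using (hg i).const_sub (R.ι (u n) i)
  · filter_upwards [eventually_ge_atTop N] with m hm
    rw [← dist_eq_norm]; exact (hN n hn m hm).le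

theorem vn_to_norm (z : R.X) : Tendsto (fun N => R.vn N (R.ι z)) atTop (𝓝 ‖z‖) :=
  tendsto_atTop_ciSup (fun _ _ h => R.vn_mono h _)
    ⟨‖z‖, by rintro _ ⟨N, rfl⟩; exact R.vn_le_norm N z⟩

theorem sub_proj (W : ℕ) (z : R.X) : z - R.proj (Set.Iio W) z = R.proj (Set.Ici W) z := by
  apply R.ι_inj
  funext i
  by_cases h : i < W
  · simp [res, Set.indicator, h]
  · simp [res, Set.indicator, h, not_lt.1 h]

theorem vn_Ici (N M : ℕ) (g : ℕ → ℝ) :
    R.vn M (res (Set.Ici (R.P N)) g) ^ 2 = ∑ n ∈ Ico N M, R.p n g ^ 2 := by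
  rw [vn_sq]
  symm
  rw [range_eq_Ico]
  refine sum_subset_zero_on_sdiff (Ico_subset_Ico_left (Nat.zero_le N)) (fun n hn => ?_)
    (fun n hn => ?_)
  · have hn' : n < N := by
      rw [Finset.mem_sdiff, Finset.mem_Ico, Finset.mem_Ico] at hn; omega
    rw [R.p_eq_zero n fun i hi => ?_]
    · simp
    · have := (R.block_lt hi).2 hn'
      simp [res, Set.indicator, this]
  · rw [R.p_congr n (g := g) (h := res (Set.Ici (R.P N)) g) fun i hi => ?_]
    have h1 : ¬ i < R.P N := fun h => by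
      have := (R.block_lt hi).1 h
      simp only [mem_Ico] at hn; omega
    simp [res, Set.indicator, not_lt.1 h1]

theorem norm_proj_Iio (N : ℕ) (z : R.X) : ‖R.proj (Set.Iio (R.P N)) z‖ = R.vn N (R.ι z) := by
  rw [R.norm_eq_vn (N := N) fun i hi => by simp [res, Set.indicator, hi]]
  have h : ∀ i < R.P N, |R.ι (R.proj (Set.Iio (R.P N)) z) i| = |R.ι z i| := fun i hi => by
    simp [res, Set.indicator, hi]
  apply le_antisymm
  · simpa using R.vn_le_mul N zero_le_one (g := R.ι (R.proj (Set.Iio (R.P N)) z)) (h := R.ι z)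
      fun i hi => by rw [h i hi, one_mul]
  · simpa using R.vn_le_mul N zero_le_one (h := R.ι (R.proj (Set.Iio (R.P N)) z)) (g := R.ι z)
      fun i hi => by rw [h i hi, one_mul]

theorem norm_sq_split (N : ℕ) (z : R.X) :
    ‖z‖ ^ 2 = R.vn N (R.ι z) ^ 2 + ‖R.proj (Set.Ici (R.P N)) z‖ ^ 2 := by
  refine tendsto_nhds_unique_of_eventuallyEq ((R.vn_to_norm z).pow 2)
    (((R.vn_to_norm (R.proj (Set.Ici (R.P N)) z)).pow 2).const_add _) ?_
  filter_upwards [eventually_ge_atTop N] with M hM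
  rw [ι_proj, vn_Ici, vn_sq, vn_sq, sum_range_add_sum_Ico _ hM]

theorem tail_tendsto' (z : R.X) :
    Tendsto (fun N => ‖R.proj (Set.Ici (R.P N)) z‖) atTop (𝓝 0) := by
  have h : Tendsto (fun N => √(‖z‖ ^ 2 - R.vn N (R.ι z) ^ 2)) atTop (𝓝 √(‖z‖ ^ 2 - ‖z‖ ^ 2)) :=
    (((R.vn_to_norm z).pow 2).const_sub _).sqrt
  rw [sub_self, Real.sqrt_zero] at h
  refine h.congr fun N => ?_
  rw [R.norm_sq_split N z, add_sub_cancel_left, Real.sqrt_sq (norm_nonneg _)]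

theorem tail_tendsto (z : R.X) :
    Tendsto (fun N => ‖z - R.proj (Set.Iio (R.P N)) z‖) atTop (𝓝 0) := by
  simp_rw [sub_proj]; exact R.tail_tendsto' z

theorem proj_tendsto (z : R.X) :
    Tendsto (fun N => R.proj (Set.Iio (R.P N)) z) atTop (𝓝 z) := by
  rw [tendsto_iff_norm_sub_tendsto_zero]
  simpa only [norm_sub_rev] using R.tail_tendsto z

instance : TopologicalSpace.SeparableSpace R.X := by
  rw [← TopologicalSpace.isSeparable_univ_iff]
  refine ((Set.countable_range R.e).isSeparable.span (R := ℝ)).closure.mono fun z _ => ?_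
  refine mem_closure_of_tendsto (R.proj_tendsto z) (Eventually.of_forall fun N => ?_)
  rw [proj_Iio_eq_sum]
  exact Submodule.sum_mem _ fun i _ => Submodule.smul_mem _ _ (Submodule.subset_span ⟨i, rfl⟩)

theorem exists_ulim {κ : Type} (𝒰 : Ultrafilter κ) (z : κ → R.X) (B : ℝ)
    (hb : ∀ᶠ j in (𝒰 : Filter κ), ‖z j‖ ≤ B) :
    ∃ w : R.X, ‖w‖ ≤ B ∧ ∀ i, Tendsto (fun j => R.ι (z j) i) 𝒰 (𝓝 (R.ι w i)) := by
  have hc : ∀ i, ∃ a, Tendsto (fun j => R.ι (z j) i) 𝒰 (𝓝 a) := by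
    intro i
    obtain ⟨a, -, ha⟩ := (isCompact_Icc (a := -B) (b := B)).ultrafilter_le_nhds
      (𝒰.map fun j => R.ι (z j) i) (by
        rw [le_principal_iff, Ultrafilter.coe_map, Filter.mem_map]
        filter_upwards [hb] with j hj
        exact abs_le.1 ((R.abs_le_norm (z j) i).trans hj))
    exact ⟨a, ha⟩
  choose g hg using hc
  have h := R.fatou hg hb tendsto_const_nhds
  exact ⟨R.mkX g B h, R.norm_le_of_vn h, hg⟩

theorem exists_ulim_lin {κ E : Type} [AddCommGroup E] [Module ℝ E] (𝒰 : Ultrafilter κ)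
    (W : κ → E →ₗ[ℝ] R.X) (hb : ∀ y, ∃ B, ∀ᶠ j in (𝒰 : Filter κ), ‖W j y‖ ≤ B) :
    ∃ S : E →ₗ[ℝ] R.X, ∀ y i, Tendsto (fun j => R.ι (W j y) i) 𝒰 (𝓝 (R.ι (S y) i)) := by
  have h : ∀ y, ∃ w : R.X, ∀ i, Tendsto (fun j => R.ι (W j y) i) 𝒰 (𝓝 (R.ι w i)) := fun y => by
    obtain ⟨B, hB⟩ := hb y
    obtain ⟨w, -, hw⟩ := R.exists_ulim 𝒰 _ B hB
    exact ⟨w, hw⟩
  choose S hS using h
  refine ⟨⟨⟨S, fun a b => ?_⟩, fun c a => ?_⟩, hS⟩
  · apply R.ι_inj
    funext i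
    refine tendsto_nhds_unique (hS (a + b) i) ?_
    simpa using (hS a i).add (hS b i)
  · apply R.ι_inj
    funext i
    refine tendsto_nhds_unique (hS (c • a) i) ?_
    simpa using (hS a i).const_mul c

theorem shrink (φ : R.X →L[ℝ] ℝ) {ε : ℝ} (hε : 0 < ε) :
    ∃ N, ∀ z, |φ (R.proj (Set.Ici (R.P N)) z)| ≤ ε * ‖z‖ := by
  by_contra hcon
  push Not at hcon
  have step : ∀ N, ∃ M, N ≤ M ∧ ∃ x : R.X, (∀ i, i < R.P N → R.ι x i = 0) ∧
      (∀ i, R.P M ≤ i → R.ι x i = 0) ∧ ‖x‖ ≤ 1 ∧ ε ≤ φ x := by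
    intro N
    obtain ⟨z, hz⟩ := hcon N
    have hz0 : 0 < ‖z‖ := by
      rw [norm_pos_iff]; rintro rfl; simp at hz
    have ht := ((φ.continuous.tendsto _).comp (R.proj_tendsto (R.proj (Set.Ici (R.P N)) z))).abs
    obtain ⟨M, hM1, hM2⟩ := ((ht.eventually (lt_mem_nhds hz)).and (eventually_ge_atTop N)).exists
    set y := R.proj (Set.Iio (R.P M)) (R.proj (Set.Ici (R.P N)) z) with hy
    have hM3 : ε * ‖z‖ < |φ y| := hM1
    have hy1 : ‖y‖ ≤ ‖z‖ := (R.norm_proj_le _ _).trans (R.norm_proj_le _ _)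
    obtain ⟨s, hs, hs'⟩ : ∃ s : ℝ, |s| = 1 ∧ s * φ y = |φ y| := by
      rcases le_total 0 (φ y) with h | h
      · exact ⟨1, by simp, by simp [abs_of_nonneg h]⟩
      · exact ⟨-1, by simp, by simp [abs_of_nonpos h]⟩
    refine ⟨M, hM2, (s / ‖z‖) • y, fun i hi => ?_, fun i hi => ?_, ?_, ?_⟩
    · simp [hy, res, Set.indicator, hi]
    · simp [hy, res, Set.indicator, hi]
    · rw [norm_smul, Real.norm_eq_abs, abs_div, hs, abs_of_pos hz0, one_div, inv_mul_le_iff₀ hz0]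
      simpa using hy1
    · rw [map_smul, smul_eq_mul, div_mul_eq_mul_div, hs', le_div_iff₀ hz0]
      exact hM3.le
  have key : ∀ K : ℕ, ∃ M, ∃ s : R.X, (∀ i, R.P M ≤ i → R.ι s i = 0) ∧ ‖s‖ ^ 2 ≤ K ∧
      K * ε ≤ φ s := by
    intro K
    induction K with
    | zero => exact ⟨0, 0, by simp, by simp, by simp⟩
    | succ K ih =>
      obtain ⟨M, s, h1, h2, h3⟩ := ih
      obtain ⟨M', hM, x, g1, g2, g3, g4⟩ := step M
      refine ⟨M', s + x, fun i hi => ?_, ?_, ?_⟩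
      · simp [g2 i hi, h1 i ((R.P_mono.monotone hM).trans hi)]
      · have e1 : R.proj (Set.Iio (R.P M)) (s + x) = s := by
          apply R.ι_inj; funext i
          by_cases h : i < R.P M
          · simp [res, Set.indicator, h, g1 i h]
          · simp [res, Set.indicator, h, h1 i (not_lt.1 h)]
        have e2 : R.proj (Set.Ici (R.P M)) (s + x) = x := by
          rw [← sub_proj, e1]; abel
        rw [R.norm_sq_split M, ← norm_proj_Iio, e1, e2]
        have := pow_le_pow_left₀ (norm_nonneg x) g3 2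
        push_cast; linarith
      · rw [map_add]; push_cast; linarith
  obtain ⟨K, hK⟩ := exists_nat_gt (‖φ‖ ^ 2 / ε ^ 2)
  obtain ⟨M, s, -, h2, h3⟩ := key K
  have hK0 : (0 : ℝ) < K := lt_of_le_of_lt (by positivity) hK
  rw [div_lt_iff₀ (by positivity)] at hK
  have h4 : φ s ≤ ‖φ‖ * ‖s‖ := (le_abs_self _).trans (φ.le_opNorm s)
  have h5 : (K * ε) ^ 2 ≤ (‖φ‖ * ‖s‖) ^ 2 := pow_le_pow_left₀ (by positivity) (h3.trans h4) 2
  have h6 : (‖φ‖ * ‖s‖) ^ 2 ≤ ‖φ‖ ^ 2 * K := by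
    rw [mul_pow]; exact mul_le_mul_of_nonneg_left h2 (by positivity)
  nlinarith

theorem weak_tendsto {κ : Type} (l : Filter κ) (z : κ → R.X) (w : R.X) (B : ℝ)
    (hb : ∀ᶠ j in l, ‖z j‖ ≤ B) (hw : ∀ i, Tendsto (fun j => R.ι (z j) i) l (𝓝 (R.ι w i)))
    (φ : R.X →L[ℝ] ℝ) : Tendsto (fun j => φ (z j)) l (𝓝 (φ w)) := by
  rw [Metric.tendsto_nhds]
  intro ε hε
  set D := |B| + ‖w‖ + 1 with hD
  have hD0 : 0 < D := by positivity
  obtain ⟨N, hN⟩ := R.shrink φ (ε := ε / 2 / D) (by positivity)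
  have h1 : Tendsto (fun j => φ (R.proj (Set.Iio (R.P N)) (z j - w))) l (𝓝 0) := by
    simp_rw [proj_Iio_eq_sum, map_sum, map_smul, smul_eq_mul]
    have : Tendsto (fun j => ∑ i ∈ range (R.P N), (R.ι (z j) i - R.ι w i) * φ (R.e i)) l
        (𝓝 (∑ i ∈ range (R.P N), (R.ι w i - R.ι w i) * φ (R.e i))) :=
      tendsto_finsetSum _ fun i _ => ((hw i).sub_const _).mul_const _
    simpa using this
  filter_upwards [hb, Metric.tendsto_nhds.1 h1 (ε / 2) (by positivity)] with j hj hj'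
  rw [Real.dist_eq, sub_zero] at hj'
  rw [Real.dist_eq, ← map_sub]
  have e : z j - w = R.proj (Set.Iio (R.P N)) (z j - w) + R.proj (Set.Ici (R.P N)) (z j - w) := by
    rw [← sub_proj]; abel
  have h2 : ‖z j - w‖ ≤ D := by
    have := norm_sub_le (z j) w
    have := le_abs_self B
    linarith
  have h3 := (hN (z j - w)).trans (mul_le_mul_of_nonneg_left h2 (by positivity))
  rw [div_mul_cancel₀ _ hD0.ne'] at h3
  rw [e, map_add]
  exact lt_of_le_of_lt (abs_add_le _ _) (by linarith)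

theorem mem_of_ulim {κ : Type} (l : Filter κ) [l.NeBot] (z : κ → R.X) (w : R.X) (B : ℝ)
    (hb : ∀ᶠ j in l, ‖z j‖ ≤ B) (hw : ∀ i, Tendsto (fun j => R.ι (z j) i) l (𝓝 (R.ι w i)))
    (M : Submodule ℝ R.X) (hM : IsClosed (M : Set R.X)) (hz : ∀ᶠ j in l, z j ∈ M) :
    w ∈ M := by
  by_contra hcon
  obtain ⟨φ, u, h1, h2⟩ := geometric_hahn_banach_point_closed M.convex hM hcon
  have := ge_of_tendsto (R.weak_tendsto l z w B hb hw φ) (hz.mono fun j hj => (h2 _ hj).le)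
  linarith

theorem tail_quad : ∃ C : ℝ, ∀ (N k : ℕ), k ≤ R.P N →
    ∀ (E : Type) [AddCommGroup E] [Module ℝ E] (L : E →ₗ[ℝ] R.X) (v : Fin k → R.X),
    (∀ y, L y ∈ Submodule.span ℝ (Set.range v)) →
    ∃ Q : QuadraticForm ℝ E, ∀ y, ‖R.proj (Set.Ici (R.P N)) (L y)‖ ^ 2 ≤ Q y ∧
      Q y ≤ C ^ 2 * ‖R.proj (Set.Ici (R.P N)) (L y)‖ ^ 2 := by
  obtain ⟨C, hC⟩ := R.lemA
  refine ⟨C, fun N k hk E _ _ L v hL => ?_⟩
  have h : ∀ m, ∃ Q : QuadraticForm ℝ E, N ≤ m → ∀ y, R.p m (R.ι (L y)) ^ 2 ≤ Q y ∧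
      Q y ≤ C ^ 2 * R.p m (R.ι (L y)) ^ 2 := by
    intro m
    by_cases hm : N ≤ m
    · obtain ⟨Q, hQ⟩ := hC m (R.P m) k le_rfl (hk.trans (R.P_mono.monotone hm)) E (R.ι ∘ₗ L)
        (fun j => R.ι (v j)) (fun y => by
          have := Submodule.mem_map_of_mem (f := R.ι) (hL y)
          rw [Submodule.map_span, ← Set.range_comp] at this
          exact this) (fun y i hi hi' => absurd (mem_Ico.1 hi).1 (not_le.2 hi'))
      exact ⟨Q, fun _ => hQ⟩
    · exact ⟨0, fun h => absurd h hm⟩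
  choose Q hQ using h
  have b : ∀ M y, R.vn M (R.ι (R.proj (Set.Ici (R.P N)) (L y))) ^ 2 ≤ (∑ m ∈ Ico N M, Q m) y ∧
      (∑ m ∈ Ico N M, Q m) y ≤ C ^ 2 * ‖R.proj (Set.Ici (R.P N)) (L y)‖ ^ 2 := by
    intro M y
    rw [_root_.sum_apply]
    constructor
    · rw [ι_proj, vn_Ici]
      exact sum_le_sum fun m hm => (hQ m (mem_Ico.1 hm).1 y).1
    · refine (sum_le_sum fun m hm => (hQ m (mem_Ico.1 hm).1 y).2).trans ?_
      rw [← mul_sum, ← vn_Ici, ← ι_proj]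
      exact mul_le_mul_of_nonneg_left
        (pow_le_pow_left₀ (R.vn_nonneg _ _) (R.vn_le_norm _ _) 2) (sq_nonneg _)
  obtain ⟨Q', hQ'⟩ := quad_ulim (Ultrafilter.of (atTop : Filter ℕ)) (fun M => ∑ m ∈ Ico N M, Q m)
    fun y => ⟨_, Eventually.of_forall fun M => by
      rw [abs_of_nonneg ((sq_nonneg _).trans (b M y).1)]; exact (b M y).2⟩
  refine ⟨Q', fun y => ⟨?_, le_of_tendsto' (hQ' y) fun M => (b M y).2⟩⟩
  exact le_of_tendsto_of_tendsto' (((R.vn_to_norm _).pow 2).mono_left (Ultrafilter.of_le _))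
    (hQ' y) fun M => (b M y).1

theorem HF.norm_le {U : R.X →ₗ[ℝ] R.X} {C : ℝ} (h : R.HF U C) (z : R.X) :
    ‖U z‖ ≤ |C| * ‖z‖ := by
  obtain ⟨Q, hQ⟩ := h
  refine (abs_le_of_sq_le_sq' ?_ (by positivity)).2
  rw [mul_pow, sq_abs]
  exact (hQ z).1.trans (hQ z).2

theorem small_vec {U : R.X →ₗ[ℝ] R.X} {C : ℝ} (hU : R.HF U C) {η : ℝ} (hη : 0 < η) (n0 : ℕ) :
    ∃ n, n0 ≤ n ∧ ∃ x : R.X, (∀ i, i ∉ R.J n → R.ι x i = 0) ∧ ‖x‖ = 1 ∧ ‖U x‖ ≤ η := by
  obtain ⟨Q, hQ⟩ := hU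
  obtain ⟨n, hn, x, hx⟩ := R.nonEucl (C / η) n0
  obtain ⟨ε, hε, hs⟩ := sign_lemma Q (R.J n) fun i => x i • R.e i
  set y := ∑ i ∈ R.J n, ε i • x i • R.e i with hy
  have hc : ∀ i, R.ι y i = if i ∈ R.J n then ε i * x i else 0 := by
    intro i
    rw [hy, map_sum, Finset.sum_apply]
    simp only [map_smul, ι_e, Pi.smul_apply, smul_eq_mul, Pi.single_apply, mul_ite, mul_one,
      mul_zero]
    rw [sum_ite_eq]
  have h0 : ∀ i, i ∉ R.J n → R.ι y i = 0 := fun i hi => by rw [hc, if_neg hi]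
  have h1 : ‖y‖ = R.p n x := by
    rw [R.norm_eq_p h0]
    refine R.p_congr n fun i hi => ?_
    rw [hc, if_pos hi, abs_mul]
    rcases hε i with h | h <;> simp [h]
  have h2 : ∑ i ∈ R.J n, Q (x i • R.e i) ≤ C ^ 2 * ∑ i ∈ R.J n, x i ^ 2 := by
    rw [mul_sum]
    refine sum_le_sum fun i _ => (hQ _).2.trans (mul_le_mul_of_nonneg_left ?_ (sq_nonneg _))
    rw [norm_smul, mul_pow, Real.norm_eq_abs, sq_abs]
    have := pow_le_pow_left₀ (norm_nonneg _) (R.norm_e_le i) 2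
    nlinarith [sq_nonneg (x i)]
  have h3 : ‖U y‖ ^ 2 < (η * ‖y‖) ^ 2 := by
    have e : C ^ 2 = η ^ 2 * (C / η) ^ 2 := by field_simp
    have h4 := mul_lt_mul_of_pos_left hx (pow_pos hη 2)
    rw [← mul_assoc, ← e] at h4
    rw [mul_pow, h1]
    exact lt_of_le_of_lt ((hQ y).1.trans (hs.trans h2)) h4
  have h5 : ‖U y‖ < η * ‖y‖ := (abs_lt_of_sq_lt_sq' h3 (by positivity)).2
  have h6 : 0 < ‖y‖ := by
    rw [norm_pos_iff]; intro h; simp [h] at h5
  refine ⟨n, hn, ‖y‖⁻¹ • y, fun i hi => by simp [h0 i hi], ?_, ?_⟩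
  · rw [norm_smul, norm_inv, norm_norm, inv_mul_cancel₀ h6.ne']
  · rw [map_smul, norm_smul, norm_inv, norm_norm, inv_mul_le_iff₀ h6]
    linarith

theorem l2_sum_le (t : L2) (F : Finset ℕ) : ∑ k ∈ F, t k ^ 2 ≤ ‖t‖ ^ 2 := by
  have := lp.sum_rpow_le_norm_rpow (p := 2) (by norm_num) t F
  simpa using this

section seq
variable {nn : ℕ → ℕ} (hn : StrictMono nn) {x : ℕ → R.X}
  (hx : ∀ k i, i ∉ R.J (nn k) → R.ι (x k) i = 0) (h1 : ∀ k, ‖x k‖ = 1)

/-- the formal sum of the multiples of the vectors `x k` -/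
noncomputable def sm (x : ℕ → R.X) (t : ℕ → ℝ) : ℕ → ℝ :=
  fun i => ∑ k ∈ range (i + 1), t k * R.ι (x k) i

include hn hx in
theorem sm_mem (t : ℕ → ℝ) {k i : ℕ} (hi : i ∈ R.J (nn k)) : R.sm x t i = t k * R.ι (x k) i := by
  unfold sm
  refine sum_eq_single_of_mem k ?_ fun j _ hj => ?_
  · have := hn.le_apply (x := k)
    have := R.le_P (nn k)
    have := (mem_Ico.1 hi).1
    rw [mem_range]; omega
  · rw [hx j i fun h => hj (hn.injective (R.block_unique h hi)), mul_zero]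

include hx in
theorem sm_not_mem (t : ℕ → ℝ) {i : ℕ} (hi : ∀ k, i ∉ R.J (nn k)) : R.sm x t i = 0 :=
  sum_eq_zero fun k _ => by rw [hx k i (hi k), mul_zero]

include hn hx h1 in
theorem sm_vn (t : L2) (N : ℕ) : R.vn N (R.sm x t) ≤ ‖t‖ := by
  classical
  refine (abs_le_of_sq_le_sq' ?_ (norm_nonneg _)).2
  refine le_trans ?_ (l2_sum_le t (range N))
  have e : ∀ k, R.p (nn k) (R.sm x t) ^ 2 = t k ^ 2 := by
    intro k
    rw [R.p_congr (nn k) (h := t k • R.ι (x k)) fun i hi => by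
      rw [R.sm_mem hn hx t hi]; rfl, R.smul_eq, ← R.norm_eq_p (hx k), h1, mul_one, sq_abs]
  simp_rw [← e]
  rw [vn_sq, ← sum_image (f := fun n => R.p n (R.sm x t) ^ 2) fun a _ b _ h => hn.injective h]
  rw [← sum_filter_ne_zero]
  refine sum_le_sum_of_subset_of_nonneg (fun n hN => ?_) fun _ _ _ => sq_nonneg _
  obtain ⟨hN, h⟩ := mem_filter.1 hN
  by_contra hc
  apply h
  rw [R.p_eq_zero n fun i hi => R.sm_not_mem hx t fun k hk => hc ?_]
  · simp
  · have := R.block_unique hi hk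
    have := hn.le_apply (x := k)
    rw [mem_range] at hN
    exact mem_image.2 ⟨k, mem_range.2 (by omega), by omega⟩

include hn hx h1 in
theorem exists_a0 : ∃ a : L2 →ₗ[ℝ] R.X, ∀ t, R.ι (a t) = R.sm x t ∧ ‖a t‖ ≤ ‖t‖ := by
  refine ⟨⟨⟨fun t => R.mkX (R.sm x t) ‖t‖ (R.sm_vn hn hx h1 t), fun a b => ?_⟩, fun c a => ?_⟩,
    fun t => ⟨rfl, R.norm_le_of_vn (R.sm_vn hn hx h1 t)⟩⟩
  · apply R.ι_inj; funext i
    simp [sm, add_mul, sum_add_distrib]
  · apply R.ι_inj; funext i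
    simp [sm, mul_sum, mul_assoc]

include hn hx in
theorem proj_a0 {z : R.X} {t : ℕ → ℝ} (hz : R.ι z = R.sm x t) (K : ℕ) :
    R.proj (Set.Iio (R.P (nn K))) z = ∑ k ∈ range K, t k • x k := by
  apply R.ι_inj; funext i
  rw [map_sum, Finset.sum_apply, ι_proj, hz]
  simp only [map_smul, Pi.smul_apply, smul_eq_mul]
  by_cases h : ∃ k, i ∈ R.J (nn k)
  · obtain ⟨k, hk⟩ := h
    have h2 := (R.block_lt (N := nn K) hk).trans hn.lt_iff_lt
    have h3 : ∀ j, j ≠ k → t j * R.ι (x j) i = 0 := fun j hj => by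
      rw [hx j i fun h => hj (hn.injective (R.block_unique h hk)), mul_zero]
    by_cases hK : k < K
    · rw [sum_eq_single_of_mem k (mem_range.2 hK) fun j _ hj => h3 j hj, res,
        Set.indicator_of_mem (Set.mem_Iio.2 (h2.2 hK)), R.sm_mem hn hx t hk]
    · rw [sum_eq_zero fun j hj => h3 j (by rw [mem_range] at hj; omega), res,
        Set.indicator_of_notMem fun h => hK (h2.1 (Set.mem_Iio.1 h))]
  · push Not at h
    rw [sum_eq_zero fun k _ => by rw [hx k i (h k), mul_zero]]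
    simp [res, Set.indicator, R.sm_not_mem hx t h]

include hn hx h1 in
theorem exists_b0 : ∃ b : R.X →ₗ[ℝ] L2, (∀ z, ‖b z‖ ≤ ‖z‖) ∧
    ∀ (z : R.X) (t : L2), R.ι z = R.sm x t → b z = t := by
  classical
  have h : ∀ k, ∃ φ : R.X →L[ℝ] ℝ, ‖φ‖ = 1 ∧ φ (x k) = ‖x k‖ := fun k =>
    exists_dual_vector ℝ (x k) (by rw [h1]; exact one_ne_zero)
  choose φ hφ hφ' using h
  have hb : ∀ (z : R.X) (F : Finset ℕ),
      ∑ k ∈ F, ‖φ k (R.proj (R.J (nn k)) z)‖ ^ (2 : ENNReal).toReal ≤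
        ‖z‖ ^ (2 : ENNReal).toReal := by
    intro z F
    simp only [ENNReal.toReal_ofNat, Real.rpow_ofNat]
    have e : ∀ k, ‖φ k (R.proj (R.J (nn k)) z)‖ ^ 2 ≤ R.p (nn k) (R.ι z) ^ 2 := by
      intro k
      refine pow_le_pow_left₀ (norm_nonneg _) (((φ k).le_opNorm _).trans ?_) 2
      rw [hφ, one_mul, R.norm_eq_p (n := nn k) fun i hi => by
        rw [ι_proj]; exact Set.indicator_of_notMem hi _]
      refine (R.p_congr _ fun i hi => ?_).le
      rw [ι_proj, res, Set.indicator_of_mem hi]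
    refine (sum_le_sum fun k _ => e k).trans ?_
    rw [← sum_image (f := fun n => R.p n (R.ι z) ^ 2) fun a _ b _ h => hn.injective h]
    obtain ⟨N, hN⟩ := (F.image nn).exists_nat_subset_range
    refine (sum_le_sum_of_subset_of_nonneg hN fun _ _ _ => sq_nonneg _).trans ?_
    rw [← vn_sq]
    exact pow_le_pow_left₀ (R.vn_nonneg _ _) (R.vn_le_norm _ _) 2
  refine ⟨⟨⟨fun z => ⟨fun k => φ k (R.proj (R.J (nn k)) z), memℓp_gen' (hb z)⟩, fun a b => ?_⟩,
    fun c a => ?_⟩, fun z => lp.norm_le_of_forall_sum_le (by norm_num) (norm_nonneg _) (hb z),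
    fun z t hz => ?_⟩
  · ext k
    show φ k (R.proj _ (a + b)) = φ k (R.proj _ a) + φ k (R.proj _ b)
    rw [map_add, map_add]
  · ext k
    show φ k (R.proj _ (c • a)) = c • φ k (R.proj _ a)
    rw [map_smul, map_smul]
  · ext k
    have e : R.proj (R.J (nn k)) z = t k • x k := by
      apply R.ι_inj; funext i
      rw [ι_proj, hz, map_smul, Pi.smul_apply, smul_eq_mul, res]
      by_cases hi : i ∈ R.J (nn k)
      · rw [Set.indicator_of_mem hi, R.sm_mem hn hx t hi]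
      · rw [Set.indicator_of_notMem hi, hx k i hi, mul_zero]
    show φ k (R.proj (R.J (nn k)) z) = t k
    rw [e, map_smul, hφ', h1, smul_eq_mul, mul_one]

end seq

theorem absorb_range {Y : Type} [NormedAddCommGroup Y] [NormedSpace ℝ Y] [CompleteSpace Y]
    (J : Y →L[ℝ] R.X) (c : ℝ) (hc : 0 < c) (hJ : ∀ y, c * ‖y‖ ≤ ‖J y‖)
    (U : R.X →ₗ[ℝ] R.X) (C : ℝ) (hU : R.HF U C) (hr : ∀ z, ∃ y, z - U z = J y) :
    Nonempty (Y ≃L[ℝ] Y × L2) := by
  have h := fun (k n0 : ℕ) => R.small_vec hU (η := (1 / 2) ^ k / 4) (by positivity) n0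
  choose f hf x hx h1 hs using h
  let m : ℕ → ℕ := fun k => Nat.rec 0 (fun k a => f k a + 1) k
  have hm : ∀ k, m (k + 1) = f k (m k) + 1 := fun _ => rfl
  have hn : StrictMono fun k => f k (m k) := strictMono_nat_of_lt_succ fun k => by
    have := hf (k + 1) (m (k + 1))
    have := hm k
    omega
  obtain ⟨a0, ha0⟩ := R.exists_a0 hn (fun k => hx k (m k)) fun k => h1 k (m k)
  obtain ⟨b0, hb0, hba⟩ := R.exists_b0 hn (fun k => hx k (m k)) fun k => h1 k (m k)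
  have hUa : ∀ t : L2, ‖U (a0 t)‖ ≤ 1 / 2 * ‖t‖ := by
    intro t
    have ht := (((U.mkContinuous _ hU.norm_le).continuous.tendsto _).comp
      ((R.proj_tendsto (a0 t)).comp hn.tendsto_atTop)).norm
    refine le_of_tendsto' ht fun K => ?_
    show ‖U (R.proj (Set.Iio (R.P (f K (m K)))) (a0 t))‖ ≤ _
    rw [R.proj_a0 hn (fun k => hx k (m k)) (ha0 t).1 K, map_sum]
    refine (norm_sum_le _ _).trans ?_
    have e : ∀ k, ‖U (t k • x k (m k))‖ ≤ ‖t‖ / 4 * (1 / 2) ^ k := by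
      intro k
      rw [map_smul, norm_smul]
      have := mul_le_mul (lp.norm_apply_le_norm (by norm_num) t k) (hs k (m k)) (norm_nonneg _)
        (norm_nonneg _)
      linarith
    refine (sum_le_sum fun k _ => e k).trans ?_
    rw [← mul_sum]
    have := mul_le_mul_of_nonneg_left (sum_geometric_two_le K) (show 0 ≤ ‖t‖ / 4 by positivity)
    linarith
  have hinj : Function.Injective J := by
    rw [injective_iff_map_eq_zero]
    intro y hy
    have := hJ y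
    rw [hy, norm_zero] at this
    have h2 := norm_nonneg y
    exact norm_eq_zero.1 (by nlinarith)
  choose g hg using hr
  let a : L2 →ₗ[ℝ] Y := ⟨⟨fun t => g (a0 t), fun s t => hinj (by
    rw [map_add J, ← hg, ← hg, ← hg, map_add, map_add]; abel)⟩, fun r t => hinj (by
    rw [map_smul J, ← hg, ← hg, map_smul, map_smul, smul_sub]; rfl)⟩
  have ha : ∀ t, ‖a t‖ ≤ 2 / c * ‖t‖ := by
    intro t
    have h2 := hJ (g (a0 t))
    rw [← hg] at h2
    have h3 := norm_sub_le (a0 t) (U (a0 t))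
    have h4 := hUa t
    have h5 := (ha0 t).2
    have h6 := norm_nonneg t
    rw [div_mul_eq_mul_div, le_div_iff₀ hc]
    show ‖g (a0 t)‖ * c ≤ _
    linarith
  refine absorb (a.mkContinuous _ ha) ((b0.mkContinuous 1 fun z => by simpa using hb0 z).comp J)
    fun t => ?_
  show ‖t - b0 (J (g (a0 t)))‖ ≤ _
  rw [← hg, map_sub, hba _ t (ha0 t).1, sub_sub_cancel]
  exact (hb0 _).trans (hUa t)

theorem not_finiteDimensional : ¬ FiniteDimensional ℝ R.X := by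
  intro h
  refine Module.Finite.not_linearIndependent_of_infinite (R := ℝ) R.e
    (LinearIndependent.of_comp R.ι ?_)
  have : R.ι ∘ R.e = fun i => Pi.single i 1 := funext fun i => R.ι_e i
  rw [this]
  exact Pi.linearIndependent_single_one ℕ ℝ

theorem not_l2 : ¬ Nonempty (R.X ≃L[ℝ] L2) := by
  rintro ⟨T⟩
  have h : R.HF LinearMap.id (‖(T.symm : L2 →L[ℝ] R.X)‖ * ‖(T : R.X →L[ℝ] L2)‖) := by
    refine ⟨‖(T.symm : L2 →L[ℝ] R.X)‖ ^ 2 •
      ((LinearMap.BilinMap.toQuadraticMap (innerₗ L2)).comp (T : R.X →L[ℝ] L2).toLinearMap),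
      fun z => ?_⟩
    have e : (‖(T.symm : L2 →L[ℝ] R.X)‖ ^ 2 •
        ((LinearMap.BilinMap.toQuadraticMap (innerₗ L2)).comp
          (T : R.X →L[ℝ] L2).toLinearMap)) z = (‖(T.symm : L2 →L[ℝ] R.X)‖ * ‖T z‖) ^ 2 := by
      simp [mul_pow]
    rw [e, ← mul_pow]
    constructor
    · refine pow_le_pow_left₀ (norm_nonneg _) ?_ 2
      simpa using (T.symm : L2 →L[ℝ] R.X).le_opNorm (T z)
    · refine pow_le_pow_left₀ (by positivity) ?_ 2
      rw [mul_assoc]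
      exact mul_le_mul_of_nonneg_left ((T : R.X →L[ℝ] L2).le_opNorm z) (norm_nonneg _)
  obtain ⟨n, -, x, -, h1, h2⟩ := R.small_vec h (η := 1 / 2) (by norm_num) 0
  rw [LinearMap.id_apply, h1] at h2
  norm_num at h2

end Rigid

end Pool.Agent.JLS
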