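import Pool.Agent.Lib.MP_2f16e6_an.OpA
import Pool.Agent.Lib.MP_2f16e6_an.SpaceTop

/-!
Block O, part B: the off-diagonal part of an operator with respect to a partition into intervals
factors through a Hilbert space.
-/

set_option autoImplicit false

namespace Pool.Agent.JLS

open Finset Filter Topology

namespace Rigid

variable (R : Rigid)

/-- `HF` with the squared constant -/
def HG (U : R.X →ₗ[ℝ] R.X) (M : ℝ) : Prop :=
  ∃ Q : QuadraticForm ℝ R.X, ∀ z, ‖U z‖ ^ 2 ≤ Q z ∧ Q z ≤ M * ‖z‖ ^ 2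

/-- boundedness with the squared constant -/
def Bd (A : R.X →ₗ[ℝ] R.X) (M : ℝ) : Prop := ∀ z, ‖A z‖ ^ 2 ≤ M * ‖z‖ ^ 2

variable {R}

theorem sq_add_le (x y : R.X) : ‖x + y‖ ^ 2 ≤ 2 * ‖x‖ ^ 2 + 2 * ‖y‖ ^ 2 := by
  have h := pow_le_pow_left₀ (norm_nonneg _) (norm_add_le x y) 2
  nlinarith [sq_nonneg (‖x‖ - ‖y‖)]

theorem sq_sub_le (x y : R.X) : ‖x - y‖ ^ 2 ≤ 2 * ‖x‖ ^ 2 + 2 * ‖y‖ ^ 2 := by
  simpa [sub_eq_add_neg] using sq_add_le x (-y)

theorem HG.bd {U : R.X →ₗ[ℝ] R.X} {M : ℝ} (h : R.HG U M) : R.Bd U M := by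
  obtain ⟨Q, hQ⟩ := h
  exact fun z => (hQ z).1.trans (hQ z).2

theorem HG.add {U V : R.X →ₗ[ℝ] R.X} {M M' : ℝ} (h : R.HG U M) (h' : R.HG V M') :
    R.HG (U + V) (2 * M + 2 * M') := by
  obtain ⟨Q, hQ⟩ := h
  obtain ⟨Q', hQ'⟩ := h'
  refine ⟨(2 : ℝ) • Q + (2 : ℝ) • Q', fun z => ?_⟩
  have := sq_add_le (U z) (V z)
  simp only [LinearMap.add_apply, _root_.add_apply, _root_.smul_apply, smul_eq_mul]
  constructor <;> linarith [hQ z, hQ' z]

theorem HG.sub {U V : R.X →ₗ[ℝ] R.X} {M M' : ℝ} (h : R.HG U M) (h' : R.HG V M') :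
    R.HG (U - V) (2 * M + 2 * M') := by
  obtain ⟨Q, hQ⟩ := h
  obtain ⟨Q', hQ'⟩ := h'
  refine ⟨(2 : ℝ) • Q + (2 : ℝ) • Q', fun z => ?_⟩
  have := sq_sub_le (U z) (V z)
  simp only [LinearMap.sub_apply, _root_.add_apply, _root_.smul_apply, smul_eq_mul]
  constructor <;> linarith [hQ z, hQ' z]

theorem HG.comp_left {U A : R.X →ₗ[ℝ] R.X} {M a : ℝ} (h : R.HG U M) (hA : R.Bd A a)
    (ha : 0 ≤ a) : R.HG (A ∘ₗ U) (a * M) := by
  obtain ⟨Q, hQ⟩ := h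
  refine ⟨a • Q, fun z => ?_⟩
  simp only [LinearMap.comp_apply, _root_.smul_apply, smul_eq_mul, mul_assoc]
  exact ⟨(hA _).trans (mul_le_mul_of_nonneg_left (hQ z).1 ha),
    mul_le_mul_of_nonneg_left (hQ z).2 ha⟩

theorem HG.comp_right {U A : R.X →ₗ[ℝ] R.X} {M a : ℝ} (h : R.HG U M) (hA : R.Bd A a)
    (hM : 0 ≤ M) : R.HG (U ∘ₗ A) (M * a) := by
  obtain ⟨Q, hQ⟩ := h
  refine ⟨Q.comp A, fun z => ?_⟩
  simp only [LinearMap.comp_apply, QuadraticMap.comp_apply, mul_assoc]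
  exact ⟨(hQ _).1, (hQ _).2.trans (mul_le_mul_of_nonneg_left (hA z) hM)⟩

theorem Bd.sub {A B : R.X →ₗ[ℝ] R.X} {a b : ℝ} (h : R.Bd A a) (h' : R.Bd B b) :
    R.Bd (A - B) (2 * a + 2 * b) := fun z => by
  have := sq_sub_le (A z) (B z)
  simp only [LinearMap.sub_apply]
  linarith [h z, h' z]

theorem Bd.comp {A B : R.X →ₗ[ℝ] R.X} {a b : ℝ} (h : R.Bd A a) (h' : R.Bd B b) (ha : 0 ≤ a) :
    R.Bd (A ∘ₗ B) (a * b) := fun z => by
  rw [mul_assoc]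
  exact (h _).trans (mul_le_mul_of_nonneg_left (h' z) ha)

theorem bd_id : R.Bd LinearMap.id 1 := fun z => by simp

theorem proj_of_supp {S : Set ℕ} {z : R.X} (h : ∀ i, i ∉ S → R.ι z i = 0) : R.proj S z = z :=
  R.ext' fun i => by
    rw [ι_proj_apply]; split_ifs with hi
    · rfl
    · exact (h i hi).symm

theorem proj_eq_zero {S : Set ℕ} {z : R.X} (h : ∀ i ∈ S, R.ι z i = 0) : R.proj S z = 0 :=
  R.ext' fun i => by
    rw [ι_proj_apply]; split_ifs with hi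
    · simp [h i hi]
    · simp

theorem ι_proj_not {S : Set ℕ} {i : ℕ} (h : i ∉ S) (z : R.X) : R.ι (R.proj S z) i = 0 := by
  rw [ι_proj_apply, if_neg h]

theorem ι_proj_mem {S : Set ℕ} {i : ℕ} (h : i ∈ S) (z : R.X) : R.ι (R.proj S z) i = R.ι z i := by
  rw [ι_proj_apply, if_pos h]

namespace Cut

variable {N : ℕ} {M : ℝ} (c : R.Cut N M)

/-- the interval with index `j` -/
abbrev I (j : Ix) : Set ℕ := Set.Ico (c.lo j) (c.hi j)

/-- the block diagonal part of an operator -/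
noncomputable def diag (A : R.X →ₗ[ℝ] R.X) : R.X →ₗ[ℝ] R.X :=
  ∑ j ∈ c.F, R.proj (c.I j) ∘ₗ A ∘ₗ R.proj (c.I j)

theorem diag_apply (A : R.X →ₗ[ℝ] R.X) (z : R.X) :
    c.diag A z = ∑ j ∈ c.F, R.proj (c.I j) (A (R.proj (c.I j) z)) := by
  simp [diag, LinearMap.sum_apply]

theorem uniq {j k : Ix} (hj : j ∈ c.F) (hk : k ∈ c.F) {i : ℕ} (h : i ∈ c.I j) (h' : i ∈ c.I k) :
    j = k := by
  by_contra hne
  have := c.ord j hj k hk hne
  simp only [Set.mem_Ico] at h h'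
  omega

theorem lt_P {j : Ix} (hj : j ∈ c.F) {i : ℕ} (h : i ∈ c.I j) : i < R.P N :=
  h.2.trans_le ((c.hi_le j hj).trans (R.P_mono.monotone (c.blk_lt j hj)))

theorem le (z : R.X) : ∑ j ∈ c.F, ‖R.proj (c.I j) z‖ ^ 2 ≤ 4 * ‖z‖ ^ 2 := by
  classical
  rw [← sum_fiberwise_of_maps_to (s := c.F) (t := range N) (g := fun j => j.1)
    fun j hj => mem_range.2 (c.blk_lt j hj)]
  calc _ ≤ ∑ n ∈ range N, 4 * R.p n (R.ι z) ^ 2 := sum_le_sum fun n _ => by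
        refine le_trans (le_of_eq (sum_congr rfl fun j hj => ?_))
          (R.lower_itv n Ix (c.F.filter fun j => j.1 = n) c.I (fun _ _ => Set.ordConnected_Ico)
            (fun j hj k hk hne => Set.disjoint_left.2 fun i h h' =>
              hne (c.uniq (mem_filter.1 hj).1 (mem_filter.1 hk).1 h h')) (R.ι z))
        obtain ⟨hj', e⟩ := mem_filter.1 hj
        rw [R.norm_proj_Ico (c.lo_ge j hj') (c.hi_le j hj'), e]
    _ = 4 * R.vn N (R.ι z) ^ 2 := by rw [vn_sq, mul_sum]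
    _ ≤ 4 * ‖z‖ ^ 2 := by
        have := pow_le_pow_left₀ (R.vn_nonneg _ _) (R.vn_le_norm N z) 2
        linarith

theorem ι_sum (f : Ix → R.X) (i : ℕ) : R.ι (∑ k ∈ c.F, f k) i = ∑ k ∈ c.F, R.ι (f k) i := by
  rw [map_sum, Finset.sum_apply]

theorem proj_sum (f : Ix → R.X) (hf : ∀ k ∈ c.F, ∀ i, i ∉ c.I k → R.ι (f k) i = 0) {j : Ix}
    (hj : j ∈ c.F) : R.proj (c.I j) (∑ k ∈ c.F, f k) = f j := by
  rw [map_sum, sum_eq_single_of_mem j hj fun k hk hne =>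
    proj_eq_zero fun i hi => hf k hk i fun h => hne (c.uniq hk hj h hi), proj_of_supp (hf j hj)]

theorem sum_supp (f : Ix → R.X) (hf : ∀ k ∈ c.F, ∀ i, i ∉ c.I k → R.ι (f k) i = 0) (i : ℕ)
    (hi : i ∉ Set.Iio (R.P N)) : R.ι (∑ k ∈ c.F, f k) i = 0 := by
  rw [ι_sum]
  exact sum_eq_zero fun k hk => hf k hk i fun h => hi (c.lt_P hk h)

theorem sum_proj (z : R.X) : ∑ k ∈ c.F, R.proj (c.I k) z = R.proj (Set.Iio (R.P N)) z :=
  R.ext' fun i => by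
    by_cases hi : i ∈ Set.Iio (R.P N)
    · obtain ⟨j, hj, h⟩ := c.cover i hi
      rw [← ι_proj_mem (S := c.I j) h, c.proj_sum _ (fun k _ i hi => ι_proj_not hi z) hj,
        ι_proj_mem (S := c.I j) h, ι_proj_mem hi]
    · rw [c.sum_supp _ (fun k _ i hi => ι_proj_not hi z) i hi, ι_proj_not hi]

theorem proj_diag (A : R.X →ₗ[ℝ] R.X) (z : R.X) {j : Ix} (hj : j ∈ c.F) :
    R.proj (c.I j) (c.diag A z) = R.proj (c.I j) (A (R.proj (c.I j) z)) := by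
  rw [diag_apply, c.proj_sum _ (fun k _ i hi => ι_proj_not hi _) hj]

theorem diag_supp (A : R.X →ₗ[ℝ] R.X) (z : R.X) (i : ℕ) (hi : i ∉ Set.Iio (R.P N)) :
    R.ι (c.diag A z) i = 0 := by
  rw [diag_apply, c.sum_supp _ (fun k _ i hi => ι_proj_not hi _) i hi]

theorem hg (hM : 0 ≤ M) {U B : R.X →ₗ[ℝ] R.X} {a b : ℝ} (ha : 0 ≤ a) (hB : R.Bd B b)
    (hU : ∀ z i, i ∉ Set.Iio (R.P N) → R.ι (U z) i = 0)
    (h : ∀ j ∈ c.F, ∃ Q : QuadraticForm ℝ R.X, ∀ z, ‖R.proj (c.I j) (U z)‖ ^ 2 ≤ Q z ∧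
      Q z ≤ a * ‖R.proj (c.I j) (B z)‖ ^ 2) : R.HG U (M * (a * (4 * b))) := by
  choose! Q hQ using h
  refine ⟨M • ∑ j ∈ c.F, Q j, fun z => ?_⟩
  simp only [_root_.smul_apply, _root_.sum_apply, smul_eq_mul, mul_assoc]
  constructor
  · have := c.ue (U z)
    rw [proj_of_supp (hU z)] at this
    exact this.trans (mul_le_mul_of_nonneg_left (sum_le_sum fun j hj => (hQ j hj z).1) hM)
  · refine mul_le_mul_of_nonneg_left ((sum_le_sum fun j hj => (hQ j hj z).2).trans ?_) hM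
    rw [← mul_sum]
    refine mul_le_mul_of_nonneg_left ((c.le _).trans ?_) ha
    linarith [hB z]

theorem bd_diag (hM : 0 ≤ M) {A : R.X →ₗ[ℝ] R.X} {a : ℝ} (ha : 0 ≤ a) (hA : R.Bd A a) :
    R.Bd (c.diag A) (M * (a * 4)) := fun z => by
  have := c.ue (c.diag A z)
  rw [proj_of_supp (c.diag_supp A z)] at this
  rw [mul_assoc, mul_assoc]
  refine this.trans (mul_le_mul_of_nonneg_left ?_ hM)
  refine le_trans ?_ (mul_le_mul_of_nonneg_left (c.le z) ha)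
  rw [mul_sum]
  refine sum_le_sum fun j hj => le_trans ?_ (hA _)
  rw [c.proj_diag A z hj]
  exact pow_le_pow_left₀ (norm_nonneg _) (R.norm_proj_le _ _) 2

end Cut

variable (R)

theorem exists_Pi : ∃ C : ℝ, 0 ≤ C ∧ ∀ n a b : ℕ, R.P n ≤ a → b ≤ R.P (n + 1) →
    ∀ A : R.X →ₗ[ℝ] R.X, ∃ (Pk : R.X →ₗ[ℝ] R.X) (Q : QuadraticForm ℝ R.X),
      (∀ z i, i ∉ Set.Ico a b → R.ι (Pk z) i = 0) ∧ (∀ z, Pk (R.proj (Set.Ico a b) z) = Pk z) ∧
      (∀ z, ∀ i < a, R.ι (A (R.proj (Set.Ico a b) z - Pk z)) i = 0) ∧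
      ∀ z, ‖Pk z‖ ^ 2 ≤ Q z ∧ Q z ≤ C * ‖R.proj (Set.Ico a b) z‖ ^ 2 := by
  obtain ⟨C, hC⟩ := R.lemB
  refine ⟨C ^ 2, sq_nonneg C, fun n a b ha hb A => ?_⟩
  obtain ⟨Pr, Q, h1, h2, h3, h4⟩ := hC n a a ha le_rfl (Ico a b) (Ico_subset_Ico ha hb)
    (fun i hi => (mem_Ico.1 hi).1) fun i i' => R.ι (A (R.e i')) i
  rw [coe_Ico] at h2 h4
  have e : ∀ z, R.ι (R.trunc b (Pr (R.ι z))) = Pr (R.ι z) := fun z => by
    funext i
    rw [ι_trunc]
    by_cases hi : i ∈ Set.Iio b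
    · exact res_of_mem hi _
    · rw [res_of_not hi, h1 _ i (by simp at hi ⊢; omega)]
  have s : ∀ z i, i ∉ Set.Ico a b → R.ι (R.trunc b (Pr (R.ι z))) i = 0 := fun z i hi => by
    rw [e, h1 _ i (by simpa using hi)]
  refine ⟨R.trunc b ∘ₗ Pr ∘ₗ R.ι, Q.comp R.ι, s, fun z => ?_, fun z i hi => ?_, fun z => ?_⟩
  · simp only [LinearMap.comp_apply, ι_proj]
    rw [← h2]
  · simp only [LinearMap.comp_apply]
    rw [R.eq_vec (I := Ico a b) (z := R.proj (Set.Ico a b) z - R.trunc b (Pr (R.ι z)))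
      fun i hi => by
        rw [map_sub, Pi.sub_apply, s z i (by simpa using hi), ι_proj_not (by simpa using hi),
          sub_zero]]
    have h5 := h3 ⟨i, hi⟩ (R.ι z)
    rw [vec, map_sum, map_sum, Finset.sum_apply, ← sub_eq_zero.2 h5.symm, ← sum_sub_distrib]
    refine sum_congr rfl fun i' hi' => ?_
    rw [map_smul, map_smul, Pi.smul_apply, map_sub, Pi.sub_apply, e,
      ι_proj_mem (by simpa using hi'), smul_eq_mul]
    ring
  · simp only [LinearMap.comp_apply, QuadraticMap.comp_apply]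
    rw [R.norm_proj_Ico ha hb, R.norm_eq_p (n := n) fun i hi => s z i (by
      simp only [mem_Ico, Set.mem_Ico] at hi ⊢; omega), e]
    exact h4 _

theorem exists_QA : ∃ C : ℝ, 0 ≤ C ∧ ∀ n a b : ℕ, R.P n ≤ a → b ≤ R.P (n + 1) →
    ∀ G : R.X →ₗ[ℝ] R.X, (∀ z, (∀ i < a, R.ι z i = 0) → R.proj (Set.Ico a b) (G z) = 0) →
    ∃ Q : QuadraticForm ℝ R.X, ∀ z, ‖R.proj (Set.Ico a b) (G z)‖ ^ 2 ≤ Q z ∧
      Q z ≤ C * ‖R.proj (Set.Ico a b) (G z)‖ ^ 2 := by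
  obtain ⟨C, hC⟩ := R.lemA
  refine ⟨C ^ 2, sq_nonneg C, fun n a b ha hb G hG => ?_⟩
  obtain ⟨Q, hQ⟩ := hC n a a ha le_rfl R.X (R.ι ∘ₗ R.proj (Set.Ico a b) ∘ₗ G)
    (fun i => R.ι (R.proj (Set.Ico a b) (G (R.e i)))) (fun y => by
      have h1 := hG (y - R.proj (Set.Iio a) y) fun i hi => by
        rw [map_sub, Pi.sub_apply, ι_proj_mem (S := Set.Iio a) hi, sub_self]
      rw [map_sub, map_sub, sub_eq_zero] at h1
      simp only [LinearMap.comp_apply]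
      rw [h1, proj_Iio_eq_sum, map_sum, map_sum, map_sum]
      refine Submodule.sum_mem _ fun i hi => ?_
      rw [map_smul, map_smul, map_smul]
      exact Submodule.smul_mem _ _ (Submodule.subset_span ⟨⟨i, mem_range.1 hi⟩, rfl⟩))
    fun y i _ hi => ι_proj_not (by simp; omega) _
  refine ⟨Q, fun z => ?_⟩
  rw [R.norm_proj_Ico ha hb, ← ι_proj]
  exact hQ z

theorem off_diag (K M : ℝ) (hK : 0 ≤ K) (hM : 0 ≤ M) : ∃ C : ℝ, 0 ≤ C ∧
    ∀ (N : ℕ) (c : R.Cut N M) (A : R.X →ₗ[ℝ] R.X), R.Bd A K →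
    (∀ z i, i ∉ Set.Iio (R.P N) → R.ι (A z) i = 0) →
    (∀ z, A (R.proj (Set.Iio (R.P N)) z) = A z) → R.HG (A - c.diag A) C := by
  obtain ⟨CB, hCB, hB⟩ := R.exists_Pi
  obtain ⟨CA, hCA, hA⟩ := R.exists_QA
  refine ⟨2 * (M * (CA * (4 * ((2 * K + 2 * (M * (K * 4))) *
    (2 * 1 + 2 * (M * (CB * (4 * 1)))))))) +
    2 * ((2 * K + 2 * (M * (K * 4))) * (M * (CB * (4 * 1)))), by positivity,
    fun N c A hAK hAs hAp => ?_⟩
  have hex := fun j (hj : j ∈ c.F) => hB j.1 _ _ (c.lo_ge j hj) (c.hi_le j hj) A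
  choose! Pk Q h1 h2 h3 h4 using hex
  set PP : R.X →ₗ[ℝ] R.X := ∑ j ∈ c.F, Pk j with hPP
  have ePP : ∀ z, PP z = ∑ j ∈ c.F, Pk j z := fun z => by simp [hPP, LinearMap.sum_apply]
  have pPP : ∀ j ∈ c.F, ∀ z, R.proj (c.I j) (PP z) = Pk j z := fun j hj z => by
    rw [ePP, c.proj_sum _ (fun k hk => h1 k hk z) hj]
  have gPP : R.HG PP (M * (CB * (4 * 1))) :=
    c.hg hM hCB bd_id (fun z => by rw [ePP]; exact c.sum_supp _ fun k hk => h1 k hk z)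
      fun j hj => ⟨Q j, fun z => by rw [pPP j hj]; exact h4 j hj z⟩
  have bN := hAK.sub (c.bd_diag hM hK hAK)
  have bG := bN.comp (bd_id.sub gPP.bd) (by positivity)
  have gG := c.hg hM hCA bG (U := (A - c.diag A) ∘ₗ (LinearMap.id - PP))
    (fun z i hi => by
      simp only [LinearMap.comp_apply, LinearMap.sub_apply (f := A), map_sub, Pi.sub_apply,
        hAs _ i hi, c.diag_supp _ _ i hi, sub_self])
    fun j hj => hA j.1 _ _ (c.lo_ge j hj) (c.hi_le j hj) _ fun z hz => by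
      rw [LinearMap.comp_apply, LinearMap.sub_apply, map_sub, c.proj_diag A _ hj, sub_eq_zero,
        ← hAp, ← c.sum_proj, map_sum, map_sum]
      refine sum_eq_single_of_mem j hj fun k hk hne => ?_
      rw [LinearMap.sub_apply, LinearMap.id_apply, map_sub, pPP k hk]
      rcases c.ord k hk j hj hne with h | h
      · have h0 : R.proj (c.I k) z = 0 := proj_eq_zero fun i hi => hz i (hi.2.trans_le h)
        rw [← h2 k hk z, h0]
        simp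
      · exact proj_eq_zero fun i hi => h3 k hk z i (hi.2.trans_le h)
  have := gG.add (gPP.comp_left bN (by positivity))
  rwa [← LinearMap.comp_add, sub_add_cancel, LinearMap.comp_id] at this

end Rigid

end Pool.Agent.JLS
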