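import Pool.Agent.Lib.MP_2f16e6_an.OpB

/-!
Block O: an isomorphic embedding of an initial part of `X` into `X` is onto that part, up to an
operator that factors through a Hilbert space.
-/

set_option autoImplicit false

namespace Pool.Agent.JLS

open Finset Filter Topology

namespace Rigid

variable (R : Rigid)

theorem exists_sign {U : R.X →ₗ[ℝ] R.X} {M : ℝ} (hM : 0 ≤ M) (hU : R.HG U M) (I : Finset ℕ)
    (x : R.X) (hx : ∀ i, i ∉ I → R.ι x i = 0) :
    ∃ y : R.X, (∀ i, |R.ι y i| = |R.ι x i|) ∧ ‖U y‖ ^ 2 ≤ M * ∑ i ∈ I, R.ι x i ^ 2 := by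
  obtain ⟨Q, hQ⟩ := hU
  obtain ⟨ε, hε, hs⟩ := sign_lemma Q I fun i => R.ι x i • R.e i
  have e : ∑ i ∈ I, ε i • R.ι x i • R.e i = R.vec I fun i => ε i * R.ι x i := by
    simp [vec, smul_smul]
  rw [e] at hs
  refine ⟨R.vec I fun i => ε i * R.ι x i, fun i => ?_, (hQ _).1.trans (hs.trans ?_)⟩
  · rw [ι_vec]
    by_cases hi : i ∈ I
    · rw [if_pos hi, abs_mul]
      rcases hε i with h | h <;> simp [h]
    · rw [if_neg hi, hx i hi]
  · rw [mul_sum]
    refine sum_le_sum fun i _ => (hQ _).2.trans (mul_le_mul_of_nonneg_left ?_ hM)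
    rw [norm_smul, mul_pow, Real.norm_eq_abs, sq_abs]
    have := pow_le_pow_left₀ (norm_nonneg _) (R.norm_e_le i) 2
    nlinarith [sq_nonneg (R.ι x i)]

theorem exists_right_inv (W : ℕ) (B : R.X →ₗ[ℝ] R.X)
    (hB : ∀ z i, i ∉ Set.Iio W → R.ι (B z) i = 0)
    (hi : ∀ z, (∀ i, i ∉ Set.Iio W → R.ι z i = 0) → B z = 0 → z = 0) :
    ∃ S : R.X →ₗ[ℝ] R.X, (∀ z i, i ∉ Set.Iio W → R.ι (S z) i = 0) ∧
      ∀ z, B (S z) = R.proj (Set.Iio W) z := by
  set V : Submodule ℝ R.X := LinearMap.range (R.proj (Set.Iio W)) with hV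
  have hm : ∀ z, z ∈ V ↔ ∀ i, i ∉ Set.Iio W → R.ι z i = 0 := fun z =>
    ⟨by rintro ⟨w, rfl⟩ i hi; exact ι_proj_not hi w, fun h => ⟨z, proj_of_supp h⟩⟩
  have : FiniteDimensional ℝ V := by
    have := FiniteDimensional.span_of_finite ℝ (Set.finite_range fun i : Fin W => R.e i)
    refine Submodule.finiteDimensional_of_le
      (S₂ := Submodule.span ℝ (Set.range fun i : Fin W => R.e i)) ?_
    rintro _ ⟨w, rfl⟩
    rw [proj_Iio_eq_sum]
    exact Submodule.sum_mem _ fun i hi =>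
      Submodule.smul_mem _ _ (Submodule.subset_span ⟨⟨i, mem_range.1 hi⟩, rfl⟩)
  set B' : V →ₗ[ℝ] V := B.restrict fun z _ => (hm _).2 (hB z) with hB'
  have inj : Function.Injective B' := by
    rw [injective_iff_map_eq_zero]
    intro z hz
    exact Subtype.ext (hi z ((hm _).1 z.2) (congrArg Subtype.val hz))
  set E := LinearEquiv.ofInjectiveEndo B' inj with hE
  refine ⟨V.subtype ∘ₗ E.symm.toLinearMap ∘ₗ (R.proj (Set.Iio W)).rangeRestrict,
    fun z => (hm _).1 (Subtype.property _), fun z => ?_⟩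
  have h := congrArg Subtype.val (E.apply_symm_apply ((R.proj (Set.Iio W)).rangeRestrict z))
  exact h

theorem operator_aux (K : ℝ) (hK : 0 < K) : ∃ C : ℝ, 0 ≤ C ∧ ∀ (N : ℕ) (T : R.X →ₗ[ℝ] R.X),
    (∀ z, ‖R.proj (Set.Iio (R.P N)) z‖ ≤ ‖T z‖ ∧ ‖T z‖ ≤ K * ‖R.proj (Set.Iio (R.P N)) z‖) →
    ∃ S : R.X →ₗ[ℝ] R.X, R.HG (R.proj (Set.Iio (R.P N)) - T ∘ₗ S) C := by
  classical
  obtain ⟨M, hM, hcut⟩ := R.exists_cut (2 * K) (1 / 8) (by positivity) (by norm_num)
  obtain ⟨C1, hC1, hoff⟩ := R.off_diag (K ^ 2) M (sq_nonneg K) hM.le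
  obtain ⟨C2, htail⟩ := R.tail_quad
  set M1 : ℝ := 2 * (C2 ^ 2 * K ^ 2) + 2 * C1 with hM1
  have hM1' : 0 ≤ M1 := by positivity
  refine ⟨(2 * (M * (16 * M1 * (4 * 1))) + 2 * M1) * (M * (16 * 4)), by positivity,
    fun N T hT => ?_⟩
  have hTK : ∀ z, ‖T z‖ ≤ K * ‖z‖ := fun z =>
    (hT z).2.trans (mul_le_mul_of_nonneg_left (R.norm_proj_le _ z) hK.le)
  have hTp : ∀ z, T (R.proj (Set.Iio (R.P N)) z) = T z := fun z => by
    have h := (hT (z - R.proj (Set.Iio (R.P N)) z)).2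
    rw [proj_eq_zero (z := z - _) (S := Set.Iio (R.P N)) fun i hi => by
      rw [map_sub, Pi.sub_apply, ι_proj_mem hi, sub_self], norm_zero, mul_zero, norm_le_zero_iff,
      map_sub, sub_eq_zero] at h
    exact h.symm
  set A : R.X →ₗ[ℝ] R.X := R.proj (Set.Iio (R.P N)) ∘ₗ T with hA
  have hAK : ∀ z, ‖A z‖ ≤ K * ‖z‖ := fun z => (R.norm_proj_le _ _).trans (hTK z)
  have bA : R.Bd A (K ^ 2) := fun z => by
    rw [← mul_pow]; exact pow_le_pow_left₀ (norm_nonneg _) (hAK z) 2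
  have sA : ∀ z i, i ∉ Set.Iio (R.P N) → R.ι (A z) i = 0 := fun z i hi => ι_proj_not hi _
  have gT : R.HG (T - A) (C2 ^ 2 * K ^ 2) := by
    obtain ⟨Q, hQ⟩ := htail N (R.P N) le_rfl R.X T (fun i => T (R.e i)) fun y => by
      rw [← hTp, proj_Iio_eq_sum, map_sum]
      refine Submodule.sum_mem _ fun i hi => ?_
      rw [map_smul]
      exact Submodule.smul_mem _ _ (Submodule.subset_span ⟨⟨i, mem_range.1 hi⟩, rfl⟩)
    refine ⟨Q, fun z => ⟨?_, (hQ z).2.trans ?_⟩⟩
    · rw [LinearMap.sub_apply, hA, LinearMap.comp_apply, sub_proj]; exact (hQ z).1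
    · rw [mul_assoc, ← mul_pow K]
      exact mul_le_mul_of_nonneg_left (pow_le_pow_left₀ (norm_nonneg _)
        ((R.norm_proj_le _ _).trans (hTK z)) 2) (sq_nonneg _)
  set d : ℕ → ℝ := fun i => R.ι (A (R.e i)) i with hd
  have hdK : ∀ i, |d i| ≤ K := fun i =>
    (R.abs_le_norm _ i).trans ((hAK _).trans (mul_le_of_le_one_right hK.le (R.norm_e_le i)))
  set D := R.mul d K hdK with hD
  obtain ⟨c, hc⟩ := hcut (A - D) (fun z => by
      rw [LinearMap.sub_apply]
      linarith [norm_sub_le (A z) (D z), hAK z, R.norm_mul_le d K hdK z])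
    (fun i => by simp [hD, hd]) N
  have hsm : ∀ j ∈ c.F, ∀ z, ‖R.proj (c.I j) (A (R.proj (c.I j) z)) - D (R.proj (c.I j) z)‖ ≤
      1 / 8 * ‖R.proj (c.I j) z‖ := fun j hj z => by
    have h := not_lt.1 (not_exists.1 (hc j hj) z)
    rwa [LinearMap.sub_apply, map_sub, proj_of_supp (z := D _) fun i hi => by
      rw [hD, ι_mul, ι_proj_not hi, mul_zero]] at h
  have gU : R.HG (T - c.diag A) M1 := by
    have := gT.add (hoff N c A bA sA fun z => by rw [hA, LinearMap.comp_apply, hTp]; rfl)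
    rwa [sub_add_sub_cancel] at this
  have small : ∀ j ∈ c.F, ∀ x : R.X, (∀ i, i ∉ c.I j → R.ι x i = 0) →
      (∀ i, 3 / 8 ≤ |d i| → R.ι x i = 0) →
      ‖x‖ ^ 2 ≤ 4 * M1 * ∑ i ∈ Ico (c.lo j) (c.hi j), R.ι x i ^ 2 := fun j hj x h1 h2 => by
    obtain ⟨y, hy, hU⟩ := R.exists_sign hM1' gU (Ico (c.lo j) (c.hi j)) x
      fun i hi => h1 i (by simpa using hi)
    have y0 : ∀ i, R.ι x i = 0 → R.ι y i = 0 := fun i h => by
      have := hy i
      rwa [h, abs_zero, abs_eq_zero] at this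
    have py : R.proj (c.I j) y = y := proj_of_supp fun i hi => y0 i (h1 i hi)
    have e1 : c.diag A y = R.proj (c.I j) (A y) := by
      rw [c.diag_apply, sum_eq_single_of_mem j hj fun k hk hne => by
        rw [proj_eq_zero (z := y) fun i hi => y0 i (h1 i fun h => hne (c.uniq hk hj hi h))]
        simp, py]
    have e2 := hsm j hj y
    rw [py, ← e1] at e2
    have e3 : ‖D y‖ ≤ 3 / 8 * ‖y‖ := R.norm_le_mul (by norm_num) fun i => by
      rw [hD, ι_mul, abs_mul]
      rcases le_total (3 / 8) |d i| with h | h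
      · simp [y0 i (h2 i h)]
      · exact mul_le_mul_of_nonneg_right h (abs_nonneg _)
    have e4 := (hT y).1
    rw [proj_of_supp (S := Set.Iio (R.P N)) fun i hi =>
      y0 i (h1 i fun h => hi (c.lt_P hj h))] at e4
    have e5 : ‖T y‖ ≤ ‖(T - c.diag A) y‖ + ‖c.diag A y - D y‖ + ‖D y‖ := by
      have : T y = (T - c.diag A) y + (c.diag A y - D y) + D y := by simp
      conv_lhs => rw [this]
      exact norm_add₃_le
    have e6 : ‖y‖ ≤ 2 * ‖(T - c.diag A) y‖ := by linarith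
    have e7 := pow_le_pow_left₀ (norm_nonneg _) e6 2
    rw [← R.norm_eq_of_abs hy]
    nlinarith
  set a : ℕ → ℝ := fun i => if i < R.P N ∧ |d i| < 3 / 8 then 1 - d i else 0 with ha
  have ha2 : ∀ i, |a i| ≤ 2 := fun i => by
    simp only [ha]
    split_ifs with h
    · have := abs_lt.1 h.2
      rw [abs_le]; constructor <;> linarith
    · simp
  set E := R.mul a 2 ha2 with hE
  have sE : ∀ z i, i ∉ Set.Iio (R.P N) → R.ι (E z) i = 0 := fun z i hi => by
    rw [hE, ι_mul, ha]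
    simp only [Set.mem_Iio] at hi
    simp [hi]
  have gE : R.HG E (M * (16 * M1 * (4 * 1))) :=
    c.hg hM.le (by positivity) bd_id sE fun j hj => by
      obtain ⟨Q, hQ⟩ := exists_quad (Ico (c.lo j) (c.hi j)) (fun _ => 16 * M1)
        fun i => LinearMap.proj i ∘ₗ R.ι
      simp only [LinearMap.comp_apply, LinearMap.proj_apply, ← mul_sum] at hQ
      refine ⟨Q, fun z => ⟨?_, ?_⟩⟩
      · refine (small j hj _ (fun i hi => ι_proj_not hi _) fun i hi => ?_).trans ?_
        · rw [ι_proj_apply, hE, ι_mul, ha]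
          simp [not_lt.2 hi]
        · rw [hQ, show 16 * M1 = 4 * M1 * 4 by ring, mul_assoc (4 * M1), mul_sum (a := 4)]
          refine mul_le_mul_of_nonneg_left (sum_le_sum fun i hi => ?_) (by positivity)
          rw [ι_proj_mem (by simpa using hi), hE, ι_mul, mul_pow]
          refine mul_le_mul_of_nonneg_right ?_ (sq_nonneg _)
          have := pow_le_pow_left₀ (abs_nonneg _) (ha2 i) 2
          rw [sq_abs] at this
          linarith
      · rw [hQ]
        refine mul_le_mul_of_nonneg_left (le_trans ?_ (R.sum_sq_le_norm _ (c.hi j)))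
          (by positivity)
        refine le_trans (le_of_eq (sum_congr rfl fun i hi => ?_))
          (sum_le_sum_of_subset_of_nonneg (s := Ico (c.lo j) (c.hi j))
            (fun i hi => mem_range.2 (mem_Ico.1 hi).2) fun _ _ _ => sq_nonneg _)
        rw [ι_proj_mem (by simpa using hi)]; rfl
  have low : ∀ z, (∀ i, i ∉ Set.Iio (R.P N) → R.ι z i = 0) →
      ‖z‖ ^ 2 ≤ M * (16 * 4) * ‖(E + c.diag A) z‖ ^ 2 := fun z hz => by
    have h := c.ue z
    rw [proj_of_supp hz] at h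
    rw [mul_assoc, mul_assoc]
    refine h.trans (mul_le_mul_of_nonneg_left (le_trans ?_
      (mul_le_mul_of_nonneg_left (c.le _) (by norm_num))) hM.le)
    rw [mul_sum]
    refine sum_le_sum fun j hj => ?_
    have e1 : 3 / 8 * ‖R.proj (c.I j) z‖ ≤ ‖R.proj (c.I j) (E z) + D (R.proj (c.I j) z)‖ := by
      have : ‖R.proj (c.I j) z‖ ≤ 8 / 3 * ‖R.proj (c.I j) (E z) + D (R.proj (c.I j) z)‖ :=
        R.norm_le_mul (by norm_num) fun i => by
          by_cases hi : i ∈ c.I j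
          · rw [map_add, Pi.add_apply, hD, ι_mul, ι_proj_mem hi, ι_proj_mem hi, hE, ι_mul,
              ← add_mul, abs_mul, ← mul_assoc]
            refine le_mul_of_one_le_left (abs_nonneg _) ?_
            simp only [ha, c.lt_P hj hi, true_and]
            split_ifs with h
            · norm_num
            · rw [zero_add]; linarith [not_lt.1 h]
          · rw [ι_proj_not hi, abs_zero]; positivity
      linarith
    have e2 := hsm j hj z
    have e3 : ‖R.proj (c.I j) (E z) + D (R.proj (c.I j) z)‖ ≤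
        ‖R.proj (c.I j) ((E + c.diag A) z)‖ +
        ‖R.proj (c.I j) (A (R.proj (c.I j) z)) - D (R.proj (c.I j) z)‖ := by
      refine le_trans (le_of_eq ?_) (norm_sub_le _ _)
      rw [LinearMap.add_apply, map_add, c.proj_diag A z hj]
      congr 1
      abel
    have e4 : ‖R.proj (c.I j) z‖ ≤ 4 * ‖R.proj (c.I j) ((E + c.diag A) z)‖ := by linarith
    have e5 := pow_le_pow_left₀ (norm_nonneg _) e4 2
    linarith
  obtain ⟨S, s1, s2⟩ := R.exists_right_inv (R.P N) (E + c.diag A)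
    (fun z i hi => by
      rw [LinearMap.add_apply, map_add, Pi.add_apply, sE z i hi, c.diag_supp A z i hi, add_zero])
    fun z hz h0 => by
      have := low z hz
      rw [h0, norm_zero] at this
      exact norm_eq_zero.1 (pow_eq_zero_iff two_ne_zero |>.1
        (le_antisymm (by simpa using this) (sq_nonneg _)))
  have bS : R.Bd S (M * (16 * 4)) := fun z => by
    refine (low _ (s1 z)).trans (mul_le_mul_of_nonneg_left ?_ (by positivity))
    rw [s2]
    exact pow_le_pow_left₀ (norm_nonneg _) (R.norm_proj_le _ _) 2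
  refine ⟨S, ?_⟩
  have := (gE.sub gU).comp_right bS (by positivity)
  convert this using 1
  ext z
  simp only [LinearMap.sub_apply, LinearMap.comp_apply, ← s2 z, LinearMap.add_apply]
  abel

theorem operator_thm (K : ℝ) : ∃ C : ℝ, ∀ (N : ℕ) (T : R.X →ₗ[ℝ] R.X),
    (∀ z, ‖R.proj (Set.Iio (R.P N)) z‖ ≤ ‖T z‖ ∧ ‖T z‖ ≤ K * ‖R.proj (Set.Iio (R.P N)) z‖) →
    ∃ S : R.X →ₗ[ℝ] R.X, R.HF (R.proj (Set.Iio (R.P N)) - T ∘ₗ S) C := by
  obtain ⟨C, hC, h⟩ := R.operator_aux (|K| + 1) (by positivity)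
  refine ⟨√C, fun N T hT => ?_⟩
  obtain ⟨S, Q, hQ⟩ := h N T fun z => ⟨(hT z).1, (hT z).2.trans
    (mul_le_mul_of_nonneg_right (by linarith [le_abs_self K]) (norm_nonneg _))⟩
  exact ⟨S, Q, fun z => by rw [Real.sq_sqrt hC]; exact hQ z⟩

end Rigid

end Pool.Agent.JLS
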