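import Pool.Agent.Lib.MP_2f16e6_an.SSpace

/-!
The position-dependent parameters of the construction and the coding of histories by types.
-/

set_option autoImplicit false

namespace Pool.Agent.JLS

open Finset

def hh' (p G : ℕ) : ℕ := 8 * G * dd p ^ 2
def MM' (p G : ℕ) : ℕ := 2 ^ (15 * dd p ^ 2) * G ^ 2
def ZZ' (p G : ℕ) : ℕ := 100 * dd p * MM' p G
def DM' (p G : ℕ) : ℕ := (ZZ' p G ^ 3) ^ hh' p G
def tmin' (p G t : ℕ) : ℕ := t + p + 1 + atoms p + 2 * (DM' p G * ZZ' p G ^ 4 * dd p ^ 2) ^ 2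
noncomputable def nH (p : ℕ) : ℕ := Fintype.card (Fin p → Prop)

noncomputable def stt : ℕ → ℕ × ℕ
  | 0 => (1, 0)
  | p + 1 => (2 * nP (tmin' p (stt p).1 (stt p).2 + nH p + 2), tmin' p (stt p).1 (stt p).2 + nH p + 1)

/-- bound for the number of pieces allowed strictly before `p` -/
noncomputable def GG (p : ℕ) : ℕ := (stt p).1
/-- least type used at position `p` -/
noncomputable def tmin (p : ℕ) : ℕ := tmin' p (stt p).1 (stt p).2
/-- bound for the types used at position `p` -/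
noncomputable def tm (p : ℕ) : ℕ := tmin p + nH p
/-- number of pieces allowed at position `p` -/
noncomputable def gam (p : ℕ) : ℕ := 2 * nP (tm p + 2)
noncomputable def hh (p : ℕ) : ℕ := hh' p (GG p)
noncomputable def MM (p : ℕ) : ℕ := MM' p (GG p)
noncomputable def ZZ (p : ℕ) : ℕ := ZZ' p (GG p)
noncomputable def DM (p : ℕ) : ℕ := DM' p (GG p)
/-- the interpolation exponent -/
noncomputable def eta (p : ℕ) : ℝ := (hh p : ℝ)⁻¹

/-- the type coding the history `H ∩ [0, c)` at position `c` -/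
noncomputable def ty (c : ℕ) (H : Set ℕ) : ℕ :=
  tmin c + (Fintype.equivFin (Fin c → Prop) fun i => i.1 ∈ H).1

theorem GG_zero : GG 0 = 1 := rfl
theorem GG_succ (p : ℕ) : GG (p + 1) = gam p := rfl
theorem hh_eq (p : ℕ) : hh p = 8 * GG p * dd p ^ 2 := rfl
theorem MM_eq (p : ℕ) : MM p = 2 ^ (15 * dd p ^ 2) * GG p ^ 2 := rfl
theorem ZZ_eq (p : ℕ) : ZZ p = 100 * dd p * MM p := rfl
theorem DM_eq (p : ℕ) : DM p = (ZZ p ^ 3) ^ hh p := rfl

theorem tmin_ge (p : ℕ) : p + 1 + atoms p + 2 * (DM p * ZZ p ^ 4 * dd p ^ 2) ^ 2 ≤ tmin p := by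
  change _ ≤ (stt p).2 + p + 1 + atoms p + 2 * (DM p * ZZ p ^ 4 * dd p ^ 2) ^ 2
  omega

theorem tm_lt_tmin_succ (p : ℕ) : tm p < tmin (p + 1) := by
  change _ < tm p + 1 + (p + 1) + 1 + atoms (p + 1) + _
  omega

theorem tmin_le_tm (p : ℕ) : tmin p ≤ tm p := Nat.le_add_right _ _

theorem tmin_le_ty (c : ℕ) (H : Set ℕ) : tmin c ≤ ty c H := Nat.le_add_right _ _

theorem ty_le_tm (c : ℕ) (H : Set ℕ) : ty c H ≤ tm c :=
  Nat.add_le_add_left (Fin.is_lt _).le _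

theorem ty_inj {c : ℕ} {H H' : Set ℕ} (h : ty c H = ty c H') : ∀ i < c, i ∈ H ↔ i ∈ H' := by
  intro i hi
  have h1 := (Fintype.equivFin (Fin c → Prop)).injective (Fin.ext (Nat.add_left_cancel h))
  exact iff_of_eq (congrFun h1 ⟨i, hi⟩)

attribute [irreducible] stt GG tmin tm hh MM ZZ DM ty nH

theorem tm_strictMono : StrictMono tm :=
  strictMono_nat_of_lt_succ fun p => (tm_lt_tmin_succ p).trans_le (tmin_le_tm _)

theorem tmin_mono : Monotone tmin :=
  monotone_nat_of_le_succ fun p => (tmin_le_tm p).trans (tm_lt_tmin_succ p).le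

theorem tm_lt_tmin {c a : ℕ} (h : c < a) : tm c < tmin a :=
  (tm_lt_tmin_succ c).trans_le (tmin_mono h)

theorem gam_mono : Monotone gam := fun p q h =>
  Nat.mul_le_mul_left _ (nP_mono (by have := tm_strictMono.monotone h; omega))

theorem nP_le_gam {p τ : ℕ} (h : τ ≤ tm p + 1) : nP (τ + 1) ≤ gam p := by
  have := nP_mono (show τ + 1 ≤ tm p + 2 by omega)
  unfold gam; omega

theorem tmin_le_nP {p τ : ℕ} (h : tmin p ≤ τ) : tmin p ≤ nP (τ + 1) := h.trans (lt_nP τ).le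

theorem tmin_le_gam (p : ℕ) : tmin p ≤ gam p :=
  (tmin_le_nP le_rfl).trans (nP_le_gam ((tmin_le_tm p).trans (Nat.le_succ _)))

theorem gam_pos (p : ℕ) : 0 < gam p := by
  have := tmin_le_gam p; have := tmin_ge p; omega

theorem gam_le_GG {q c : ℕ} (h : q < c) : gam q ≤ GG c := by
  obtain ⟨c, rfl⟩ : ∃ c', c = c' + 1 := ⟨c - 1, by omega⟩
  rw [GG_succ]; exact gam_mono (by omega)

theorem GG_pos (p : ℕ) : 0 < GG p := by
  rcases p with _ | p
  · rw [GG_zero]; norm_num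
  · rw [GG_succ]; exact gam_pos p

theorem GG_mono : Monotone GG := monotone_nat_of_le_succ fun p => by
  rcases p with _ | p
  · rw [GG_zero]; exact GG_pos _
  · rw [GG_succ]; exact gam_le_GG (by omega)

theorem dd_pos (p : ℕ) : 0 < dd p := by unfold dd; positivity

theorem dd_mono : Monotone dd := fun p q h => Nat.pow_le_pow_right (by norm_num) (by omega)

theorem le_dd (p : ℕ) : 100 ≤ dd p := by
  unfold dd; exact Nat.le_self_pow (by omega) _

theorem MM_pos (p : ℕ) : 0 < MM p := by rw [MM_eq]; have := GG_pos p; positivity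

theorem sq_GG_le_MM (p : ℕ) : GG p ^ 2 ≤ MM p := by
  rw [MM_eq]; exact Nat.le_mul_of_pos_left _ (by positivity)

theorem MM_mono : Monotone MM := fun p q h => by
  rw [MM_eq, MM_eq]
  exact Nat.mul_le_mul (Nat.pow_le_pow_right (by norm_num)
    (Nat.mul_le_mul_left _ (Nat.pow_le_pow_left (dd_mono h) _))) (Nat.pow_le_pow_left (GG_mono h) _)

theorem ZZ_mono : Monotone ZZ := fun p q h => by
  rw [ZZ_eq, ZZ_eq]; exact Nat.mul_le_mul (Nat.mul_le_mul_left _ (dd_mono h)) (MM_mono h)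

theorem ZZ_pos (p : ℕ) : 0 < ZZ p := by
  rw [ZZ_eq]; have := dd_pos p; have := MM_pos p; positivity

theorem MM_le_ZZ (p : ℕ) : MM p ≤ ZZ p := by
  rw [ZZ_eq]; exact Nat.le_mul_of_pos_left _ (by have := dd_pos p; positivity)

theorem GG_le_ZZ (p : ℕ) : GG p ≤ ZZ p :=
  (Nat.le_self_pow (by norm_num) _).trans ((sq_GG_le_MM p).trans (MM_le_ZZ p))

theorem dd_le_ZZ (p : ℕ) : 100 * dd p ≤ ZZ p := by
  rw [ZZ_eq]; exact Nat.le_mul_of_pos_right _ (MM_pos p)

theorem hh_pos (p : ℕ) : 0 < hh p := by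
  rw [hh_eq]; have := dd_pos p; have := GG_pos p; positivity

theorem ZZ_le_DM (p : ℕ) : ZZ p ^ 3 ≤ DM p := by
  rw [DM_eq]; exact Nat.le_self_pow (hh_pos p).ne' _

theorem DM_pos (p : ℕ) : 0 < DM p := (pow_pos (ZZ_pos p) 3).trans_le (ZZ_le_DM p)

theorem big_le_tmin (p : ℕ) : 2 * (DM p * ZZ p ^ 4 * dd p ^ 2) ^ 2 ≤ tmin p := by
  have := tmin_ge p; omega

theorem big_le_tmin' (p : ℕ) : 2 * (ZZ p ^ 4 * dd p ^ 2) ^ 2 ≤ tmin p := by
  refine le_trans (Nat.mul_le_mul_left _ (Nat.pow_le_pow_left ?_ _)) (big_le_tmin p)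
  rw [mul_assoc]; exact Nat.le_mul_of_pos_left _ (DM_pos p)

theorem ZZ_le_tmin (p : ℕ) : ZZ p ≤ tmin p := by
  have h1 : ZZ p ≤ ZZ p ^ 4 * dd p ^ 2 :=
    (Nat.le_self_pow (by norm_num) _).trans (Nat.le_mul_of_pos_right _ (pow_pos (dd_pos p) 2))
  have h2 := Nat.le_self_pow (show 2 ≠ 0 by norm_num) (ZZ p ^ 4 * dd p ^ 2)
  have := big_le_tmin' p
  omega

theorem atoms_le_gam (p : ℕ) : atoms p ≤ gam p := by
  have := tmin_le_gam p; have := tmin_ge p; omega

theorem lt_tmin (p : ℕ) : p < tmin p := by have := tmin_ge p; omega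

theorem MM_le_gam (p : ℕ) : MM p ≤ gam p := (MM_le_ZZ p).trans ((ZZ_le_tmin p).trans (tmin_le_gam p))

theorem eta_pos (p : ℕ) : 0 < eta p := inv_pos.2 (by exact_mod_cast hh_pos p)

theorem eta_mul (p : ℕ) : eta p * GG p * (dd p : ℝ) ^ 2 = 1 / 8 := by
  have h1 : (0 : ℝ) < GG p := by exact_mod_cast GG_pos p
  have h2 : (0 : ℝ) < dd p := by exact_mod_cast dd_pos p
  unfold eta; rw [hh_eq]; push_cast; field_simp

theorem eta_le (p : ℕ) : eta p ≤ 1 / 8 := by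
  have h1 : (1 : ℝ) ≤ GG p := by exact_mod_cast GG_pos p
  have h2 : (1 : ℝ) ≤ dd p := by exact_mod_cast dd_pos p
  rw [← eta_mul p, mul_assoc]
  exact le_mul_of_one_le_right (eta_pos p).le (one_le_mul_of_one_le_of_one_le h1 (one_le_pow₀ h2))

theorem DM_rpow (p : ℕ) : (DM p : ℝ) ^ eta p = (ZZ p : ℝ) ^ 3 := by
  rw [DM_eq]; push_cast
  exact Real.pow_rpow_inv_natCast (by positivity) (hh_pos p).ne'

/-- splitting into at most `GG c` parts costs almost nothing at the exponent `eta c` -/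
theorem rpow_eta_le {c m : ℕ} (hm : m ≤ GG c) {d : ℝ} (hd0 : 0 ≤ d) (hd : d ≤ dd c) :
    ((m : ℝ) ^ eta c - 1) * (1 + d ^ 2) ≤ 1 / 2 := by
  have h1 : (1 : ℝ) ≤ GG c := by exact_mod_cast GG_pos c
  have h2 : (1 : ℝ) ≤ dd c := by exact_mod_cast dd_pos c
  have h3 := eta_pos c
  have h4 := eta_mul c
  have h5 : (1 : ℝ) ≤ (dd c : ℝ) ^ 2 := one_le_pow₀ h2
  have h6 : eta c * GG c ≤ 1 / 8 := by nlinarith [mul_pos h3 (lt_of_lt_of_le one_pos h1)]
  have e1 : (m : ℝ) ^ eta c ≤ Real.exp (eta c * GG c) := by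
    refine (Real.rpow_le_rpow (Nat.cast_nonneg m) (Nat.cast_le.2 hm) h3.le).trans ?_
    rw [Real.rpow_def_of_pos (by linarith), mul_comm]
    exact Real.exp_le_exp.2 (mul_le_mul_of_nonneg_left
      ((Real.log_le_sub_one_of_pos (by linarith)).trans (by linarith)) h3.le)
  have h7 : 0 ≤ eta c * GG c := by positivity
  have e2 := Real.abs_exp_sub_one_le (x := eta c * GG c) (by rw [abs_of_nonneg h7]; linarith)
  rw [abs_of_nonneg h7] at e2
  have e3 : (m : ℝ) ^ eta c - 1 ≤ 2 * (eta c * GG c) := by linarith [le_abs_self (Real.exp (eta c * GG c) - 1)]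
  have e4 : d ^ 2 ≤ (dd c : ℝ) ^ 2 := pow_le_pow_left₀ hd0 hd 2
  calc _ ≤ 2 * (eta c * GG c) * (1 + d ^ 2) := mul_le_mul_of_nonneg_right e3 (by positivity)
    _ ≤ 2 * (eta c * GG c) * (2 * (dd c : ℝ) ^ 2) :=
        mul_le_mul_of_nonneg_left (by linarith) (by positivity)
    _ = 1 / 2 := by linarith

end Pool.Agent.JLS
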