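import Pool.Agent.Lib.MP_2f16e6_an.SSpace

/-!
Averages of rapidly increasing sequences are flat.
-/

set_option autoImplicit false

namespace Pool.Agent.JLS

open Finset

/-- action of an operation of large type on a rapidly increasing sequence -/
theorem ris_large {J : Finset ℕ} {a : ℕ → ℕ} (ha : StrictMono a) {n : ℕ} {y : ℕ → ℕ → ℝ}
    (h : Succ a n y) {C : ℝ} (hC : 0 ≤ C) (hy : ∀ s < n, ss J (y s) ≤ C) (σ : ℕ)
    (hf : ∀ s < n, Flat J (y s) (nP (σ + 1)) C ∨ a s ≤ mm σ)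
    {A : Finset ℕ} (hA : A ⊆ range n) {lam : ℕ → ℕ}
    (h1 : Monotone lam) (h2 : ∀ i, lam i < nP (σ + 1)) :
    ∑ r ∈ range (nP (σ + 1)), ss J (res (fib lam r) (∑ s ∈ A, y s)) ≤
      2 * mm σ * C + A.card * C := by
  classical
  set m := mm σ with hm
  have hz : ∀ i ∈ J, |(∑ s ∈ A, y s) i| ≤ C := fun i hi =>
    h.abs_sum_le ha.monotone hA hC fun s hs => ((ss_ln J).abs_le _ i hi).trans (hy s hs)
  have step : ∀ r, ss J (res (fib lam r) (∑ s ∈ A, y s)) ≤
      ∑ i ∈ J, res (fib lam r) (fun i => |res (Set.Iio m) (∑ s ∈ A, y s) i|) i +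
        ∑ s ∈ A, ss J (res (fib lam r) (res (Set.Ici m) (y s))) := by
    intro r
    refine ((ss_ln J).le_add (g1 := res (fib lam r) (res (Set.Iio m) (∑ s ∈ A, y s)))
      (g2 := ∑ s ∈ A, res (fib lam r) (res (Set.Ici m) (y s))) fun i _ => ?_).trans
      (add_le_add (((ss_ln J).le_l1 _).trans (le_of_eq (sum_congr rfl fun i _ => abs_res _ _ _)))
        ((ss_ln J).sum_le _ _))
    rw [← res_sum, ← res_sum]
    by_cases hr : i ∈ fib lam r
    · by_cases hi : i < m
      · simp [res, hr, hi]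
      · simp [res, hr, hi, not_lt.1 hi]
    · simp [res, hr]
  have e1 : ∑ i ∈ J, |res (Set.Iio m) (∑ s ∈ A, y s) i| ≤ m * C := by
    calc _ ≤ ∑ i ∈ J, if i < m then C else 0 := sum_le_sum fun i hi => by
          by_cases hi' : i < m
          · simpa [res, hi'] using hz i hi
          · simp [res, hi']
      _ = ((J.filter fun i => i < m).card : ℝ) * C := by
          rw [← sum_filter, sum_const, nsmul_eq_mul]
      _ ≤ m * C := by
          refine mul_le_mul_of_nonneg_right ?_ hC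
          have : (J.filter fun i => i < m).card ≤ (range m).card :=
            card_le_card fun i hi => mem_range.2 (mem_filter.1 hi).2
          rw [card_range] at this
          exact_mod_cast this
  have e2 : ∀ s ∈ A, ∑ r ∈ range (nP (σ + 1)), ss J (res (fib lam r) (res (Set.Ici m) (y s))) ≤
      (if m ∈ itv a s then m * C else 0) + C := by
    intro s hs
    have hs' := mem_range.1 (hA hs)
    by_cases hms : m ∈ itv a s
    · rw [if_pos hms]
      refine (ss_lower J σ h1 h2 _).trans (le_trans ?_ (le_add_of_nonneg_right hC))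
      exact mul_le_mul_of_nonneg_left (((ss_ln J).res_le _ _).trans (hy s hs')) (mm_pos σ).le
    · rw [if_neg hms, zero_add]
      rcases hf s hs' with hfl | hle
      · exact (hfl.solid fun i _ => abs_res_le _ _ i) lam h1 h2
      · refine le_trans (le_of_eq (sum_eq_zero fun r _ => (ss_ln J).eq_zero fun i _ => ?_)) hC
        by_cases hi : m ≤ i
        · have : y s i = 0 := h s hs' i fun hi' => hms ⟨hle, lt_of_le_of_lt hi hi'.2⟩
          simp [res, Set.indicator, this]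
        · simp [res, Set.indicator, hi]
  have e3 : ∑ s ∈ A, (if m ∈ itv a s then m * C else 0) ≤ m * C := by
    rw [← sum_filter, sum_const, nsmul_eq_mul]
    refine mul_le_of_le_one_left (mul_nonneg (mm_pos σ).le hC) ?_
    have : (A.filter fun s => m ∈ itv a s).card ≤ 1 := card_le_one.2 fun s hs s' hs' =>
      itv_unique ha.monotone (mem_filter.1 hs).2 (mem_filter.1 hs').2
    exact_mod_cast this
  refine (sum_le_sum fun r _ => step r).trans ?_
  rw [sum_add_distrib, sum_comm (s := range _) (t := A)]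
  have e4 := (sum_sq_res_le J (range (nP (σ + 1))) _ (fib_disj lam _)
    (fun i => |res (Set.Iio m) (∑ s ∈ A, y s) i|) fun i _ => abs_nonneg _).trans e1
  have e5 := sum_le_sum e2
  rw [sum_add_distrib, sum_const, nsmul_eq_mul] at e5
  linarith

theorem ris_claim {J : Finset ℕ} {a : ℕ → ℕ} (ha : StrictMono a) {n : ℕ} {y : ℕ → ℕ → ℝ}
    (h : Succ a n y) {C : ℝ} (hC : 0 < C) (hy : ∀ s < n, ss J (y s) ≤ C) (τ : ℕ)
    (hf : ∀ s < n, ∀ σ, Flat J (y s) (nP (σ + 1)) C ∨ a s ≤ mm σ) (j : ℕ) :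
    ∀ A ⊆ range n, ss J (∑ s ∈ A, y s) ≤
      (C / mm τ + 3 * C / 2 ^ j) * A.card + 3 * C * (nP τ : ℝ) ^ (j + 1) := by
  have hR : (1 : ℝ) ≤ nP τ := by exact_mod_cast nP_pos τ
  have hm := mm_pos τ
  induction j with
  | zero =>
    intro A hA
    have e1 : ss J (∑ s ∈ A, y s) ≤ A.card * C := ((ss_ln J).sum_le _ _).trans
      ((sum_le_card_nsmul _ _ C fun s hs => hy s (mem_range.1 (hA hs))).trans_eq
        (nsmul_eq_mul _ _))
    have : 0 ≤ C / mm τ * A.card := by positivity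
    have : 0 ≤ C * A.card := by positivity
    have : 0 ≤ 3 * C * (nP τ : ℝ) ^ (0 + 1) := by positivity
    simp only [pow_zero, div_one]
    nlinarith
  | succ j ih =>
    intro A hA
    have hRj : (1 : ℝ) ≤ (nP τ : ℝ) ^ (j + 1 + 1) := one_le_pow₀ hR
    have hα : 0 ≤ (C / mm τ + 3 * C / 2 ^ (j + 1)) * A.card := by positivity
    refine ss_le_of J (by positivity) (fun i hi => ?_) fun σ lam h1 h2 => ?_
    · have := h.abs_sum_le ha.monotone hA hC.le (i := i) fun s hs =>
        ((ss_ln J).abs_le _ i hi).trans (hy s hs)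
      nlinarith
    have hm4 := four_le_mm σ
    rcases lt_or_ge σ τ with hσ | hσ
    · have hM : (nP (σ + 1) : ℝ) ≤ nP τ := by exact_mod_cast nP_mono hσ
      have e1 := split_le ha h (by positivity) hC.le hy hA
        (fun A' hA' => ih A' (hA'.trans hA)) h1 h2
      have e2 : (nP (σ + 1) : ℝ) * (3 * C * (nP τ : ℝ) ^ (j + 1)) ≤
          3 * C * (nP τ : ℝ) ^ (j + 1 + 1) := by
        rw [pow_succ _ (j + 1)]
        have := mul_le_mul_of_nonneg_right hM
          (show 0 ≤ 3 * C * (nP τ : ℝ) ^ (j + 1) by positivity)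
        linarith
      have e3 : (nP (σ + 1) : ℝ) * (nP (σ + 1) * C) ≤ C * (nP τ : ℝ) ^ (j + 1 + 1) := by
        have e4 : (nP (σ + 1) : ℝ) * nP (σ + 1) ≤ (nP τ : ℝ) ^ 2 := by
          rw [sq]; exact mul_le_mul hM hM (by positivity) (by positivity)
        have e5 : (nP τ : ℝ) ^ 2 ≤ (nP τ : ℝ) ^ (j + 1 + 1) := pow_le_pow_right₀ hR (by omega)
        nlinarith
      have e6 : (C / mm τ + 3 * C / 2 ^ j) * A.card ≤
          2 * ((C / mm τ + 3 * C / 2 ^ (j + 1)) * A.card) := by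
        rw [← mul_assoc]
        refine mul_le_mul_of_nonneg_right ?_ (by positivity)
        have : 3 * C / 2 ^ j = 2 * (3 * C / 2 ^ (j + 1)) := by rw [pow_succ]; field_simp
        have : 0 ≤ C / mm τ := by positivity
        linarith
      have e7 : 0 ≤ C * (nP τ : ℝ) ^ (j + 1 + 1) := by positivity
      nlinarith
    · have e1 := ris_large ha h hC.le hy σ (fun s hs => hf s hs σ) hA h1 h2
      have e2 : (mm τ : ℝ) ≤ mm σ := by exact_mod_cast mm_mono hσ
      have e3 : (A.card : ℝ) * C ≤ mm σ * (C / mm τ * A.card) := by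
        have : (A.card : ℝ) * C = mm τ * (C / mm τ * A.card) := by field_simp
        rw [this]
        exact mul_le_mul_of_nonneg_right e2 (by positivity)
      have e4 : 0 ≤ (mm σ : ℝ) * (3 * C / 2 ^ (j + 1) * A.card) := by positivity
      have e5 : (mm σ : ℝ) * C ≤ mm σ * C * (nP τ : ℝ) ^ (j + 1 + 1) :=
        le_mul_of_one_le_right (by positivity) hRj
      have e6 : 0 ≤ (mm σ : ℝ) * C := by positivity
      nlinarith

theorem ris_num (τ : ℕ) : 4 * mm τ * nP τ ^ (mm τ + 2) ≤ nP (τ + 1) := by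
  have h1 := add_four_le_mm τ
  have h2 := nP_le_mm τ
  rw [nP_succ]
  calc 4 * mm τ * nP τ ^ (mm τ + 2) ≤ mm τ * mm τ * mm τ ^ (mm τ + 2) :=
        Nat.mul_le_mul (Nat.mul_le_mul_right _ (by omega)) (Nat.pow_le_pow_left h2 _)
    _ = mm τ ^ (mm τ + 4) := by ring
    _ ≤ _ := Nat.pow_le_pow_right (by omega) (by nlinarith)

/-- the average of type `τ` of a rapidly increasing sequence is flat -/
theorem ris_flat {J : Finset ℕ} {a : ℕ → ℕ} (ha : StrictMono a) (τ : ℕ) {y : ℕ → ℕ → ℝ}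
    (h : Succ a (nP (τ + 1)) y) {C : ℝ} (hC : 0 < C) (hy : ∀ s < nP (τ + 1), ss J (y s) ≤ C)
    (hf : ∀ s < nP (τ + 1), ∀ σ, Flat J (y s) (nP (σ + 1)) C ∨ a s ≤ mm σ) :
    Flat J (((mm τ : ℝ) / nP (τ + 1)) • ∑ s ∈ range (nP (τ + 1)), y s) (nP τ) (5 * C) := by
  intro lam h1 h2
  have hR : (1 : ℝ) ≤ nP τ := by exact_mod_cast nP_pos τ
  have hm := mm_pos τ
  have hn : (0 : ℝ) < nP (τ + 1) := by exact_mod_cast nP_pos _
  have e1 := split_le ha h (by positivity) hC.le hy subset_rfl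
    (ris_claim ha h hC hy τ hf (mm τ)) h1 h2
  simp_rw [res_smul, (ss_ln J).smul_eq]
  rw [← mul_sum, abs_of_pos (by positivity), div_mul_eq_mul_div, div_le_iff₀ hn]
  rw [card_range] at e1
  have e2 : (4 : ℝ) * mm τ * (nP τ : ℝ) ^ (mm τ + 2) ≤ nP (τ + 1) := by exact_mod_cast ris_num τ
  have e3 : (mm τ : ℝ) ≤ 2 ^ mm τ := by exact_mod_cast (Nat.lt_two_pow_self).le
  have e4 : (mm τ : ℝ) * (C / mm τ + 3 * C / 2 ^ mm τ) ≤ 4 * C := by
    have : (mm τ : ℝ) * (3 * C / 2 ^ mm τ) ≤ 3 * C := by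
      rw [mul_div_assoc', div_le_iff₀ (by positivity)]; nlinarith
    have : (mm τ : ℝ) * (C / mm τ) = C := by field_simp
    linarith [mul_add (mm τ : ℝ) (C / mm τ) (3 * C / 2 ^ mm τ)]
  have e5 : (nP τ : ℝ) ^ 2 ≤ (nP τ : ℝ) ^ (mm τ + 2) := pow_le_pow_right₀ hR (by omega)
  have e6 : (nP τ : ℝ) * (3 * C * (nP τ : ℝ) ^ (mm τ + 1)) + nP τ * (nP τ * C) ≤
      4 * C * (nP τ : ℝ) ^ (mm τ + 2) := by
    rw [pow_succ _ (mm τ + 1)] at e5 ⊢
    nlinarith
  have e7 := mul_le_mul_of_nonneg_left e1 hm.le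
  have e8 := mul_le_mul_of_nonneg_right e4 hn.le
  have e9 := mul_le_mul_of_nonneg_left e6 hm.le
  have e10 := mul_le_mul_of_nonneg_left e2 hC.le
  nlinarith

end Pool.Agent.JLS
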