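import Pool.Agent.Lib.MP_2f16e6_an.Gen

/-!
A mixed Tsirelson norm `ss` with dual `sst`; flat vectors, loose classes and their near
orthogonality; averages of rapidly increasing sequences.
-/

set_option autoImplicit false

namespace Pool.Agent.JLS

open Finset

/-- gluing functions along disjoint sets -/
theorem res_glue {κ : Type*} (F : Finset κ) (S : κ → Set ℕ)
    (hd : ∀ l ∈ F, ∀ l' ∈ F, l ≠ l' → Disjoint (S l) (S l')) (k : κ → ℕ → ℝ) {l : κ} (hl : l ∈ F) :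
    res (S l) (∑ l' ∈ F, res (S l') (k l')) = res (S l) (k l) := by
  funext i
  by_cases hi : i ∈ S l
  · simp only [res, Set.indicator_of_mem hi, Finset.sum_apply]
    rw [sum_eq_single_of_mem l hl fun l' hl' hne => ?_, Set.indicator_of_mem hi]
    exact Set.indicator_of_notMem (Set.disjoint_left.1 (hd l hl l' hl' hne.symm) hi) _
  · simp [res, hi]

theorem sum_pr_res_le {κ : Type*} (J : Finset ℕ) (F : Finset κ) (S : κ → Set ℕ)
    (hd : ∀ l ∈ F, ∀ l' ∈ F, l ≠ l' → Disjoint (S l) (S l')) (z g : ℕ → ℝ) :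
    ∑ l ∈ F, pr J z (res (S l) g) ≤ pr J z g := by
  have := sum_sq_res_le J F S hd (fun i => |z i| * |g i|)
    fun i _ => mul_nonneg (abs_nonneg _) (abs_nonneg _)
  refine le_trans (le_of_eq (sum_congr rfl fun l _ => sum_congr rfl fun i _ => ?_)) this
  by_cases h : i ∈ S l <;> simp [res, h]

theorem pr_glue {κ : Type*} (J : Finset ℕ) (F : Finset κ) (S : κ → Set ℕ)
    (hd : ∀ l ∈ F, ∀ l' ∈ F, l ≠ l' → Disjoint (S l) (S l')) (k : κ → ℕ → ℝ) (z : ℕ → ℝ) :
    ∑ l ∈ F, pr J (res (S l) z) (k l) ≤ pr J z (∑ l' ∈ F, res (S l') (k l')) := by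
  refine le_trans (le_of_eq (sum_congr rfl fun l hl => ?_)) (sum_pr_res_le J F S hd z _)
  rw [res_glue F S hd k hl, pr_res_swap]

/-- `nP σ` is the length of the operation of type `σ - 1` -/
def nP : ℕ → ℕ
  | 0 => 1
  | σ + 1 => ((σ + 4) * nP σ ^ 2) ^ (((σ + 4) * nP σ ^ 2) ^ 2 + 4)

/-- the weight of the operation of type `σ` -/
def mm (σ : ℕ) : ℕ := (σ + 4) * nP σ ^ 2

theorem nP_succ (σ : ℕ) : nP (σ + 1) = mm σ ^ (mm σ ^ 2 + 4) := rfl

theorem nP_pos (σ : ℕ) : 0 < nP σ := by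
  induction σ with
  | zero => simp [nP]
  | succ σ ih => rw [nP]; positivity

theorem add_four_le_mm (σ : ℕ) : σ + 4 ≤ mm σ :=
  Nat.le_mul_of_pos_right _ (pow_pos (nP_pos σ) 2)

theorem sq_nP_le_mm (σ : ℕ) : nP σ ^ 2 ≤ mm σ := Nat.le_mul_of_pos_left _ (by omega)

theorem nP_le_mm (σ : ℕ) : nP σ ≤ mm σ :=
  (Nat.le_self_pow (by norm_num) _).trans (sq_nP_le_mm σ)

theorem mm_le_nP (σ : ℕ) : mm σ ≤ nP (σ + 1) := by
  rw [nP_succ]; exact Nat.le_self_pow (by omega) _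

theorem nP_mono : Monotone nP := monotone_nat_of_le_succ fun σ => (nP_le_mm σ).trans (mm_le_nP σ)

theorem mm_mono : Monotone mm :=
  monotone_nat_of_le_succ fun σ => (mm_le_nP σ).trans (nP_le_mm _)

theorem lt_nP (σ : ℕ) : σ < nP (σ + 1) := by
  have := add_four_le_mm σ; have := mm_le_nP σ; omega

theorem mm_pos (σ : ℕ) : (0 : ℝ) < mm σ := by
  have := add_four_le_mm σ; exact_mod_cast (by omega : 0 < mm σ)

theorem four_le_mm (σ : ℕ) : (4 : ℝ) ≤ mm σ := by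
  have := add_four_le_mm σ; exact_mod_cast (by omega : 4 ≤ mm σ)

/-- fibres of a labelling -/
abbrev fib (lam : ℕ → ℕ) (r : ℕ) : Set ℕ := {i | lam i = r}

theorem fib_disj (lam : ℕ → ℕ) (F : Finset ℕ) :
    ∀ l ∈ F, ∀ l' ∈ F, l ≠ l' → Disjoint (fib lam l) (fib lam l') := fun l _ l' _ h =>
  Set.disjoint_left.2 fun i h1 h2 => h ((h1 : lam i = l).symm.trans h2)

/-- the operations of the mixed Tsirelson norming set -/
def OpS : Rel → Rel := fun R k t => ∃ (σ : ℕ) (lam : ℕ → ℕ) (u : ℝ), Monotone lam ∧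
  (∀ i, lam i < nP (σ + 1)) ∧ (∀ r < nP (σ + 1), R (res (fib lam r) k) u) ∧ mm σ * u ≤ t

theorem opS_ok (J : Finset ℕ) : OpOK J OpS where
  scale R R' c c' hc hcc h := by
    rintro k t ⟨σ, lam, u, h1, h2, h3, h4⟩
    refine ⟨σ, lam, c' * u, h1, h2, fun r hr => ?_, ?_⟩
    · rw [res_smul]; exact h _ _ (h3 r hr)
    · have := mul_le_mul_of_nonneg_left h4 (hc.le.trans hcc)
      linarith
  sup := by
    rintro k t ⟨σ, lam, u, h1, h2, h3, h4⟩
    have hu : 0 ≤ u := (h3 0 (nP_pos _)).1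
    have hut : u ≤ t := by nlinarith [four_le_mm σ]
    refine ⟨hu.trans hut, fun i hi => ?_⟩
    have := (h3 (lam i) (h2 i)).2 i hi
    simp only [res, Set.indicator_of_mem (show i ∈ fib lam (lam i) from rfl)] at this
    exact this.trans hut

/-- the dual mixed Tsirelson norm -/
noncomputable def sst (J : Finset ℕ) : (ℕ → ℝ) → ℝ := gn J OpS

/-- the mixed Tsirelson norm -/
noncomputable def ss (J : Finset ℕ) : (ℕ → ℝ) → ℝ := dual J (sst J)

theorem sst_ln (J : Finset ℕ) : IsLN J (sst J) := (opS_ok J).isLN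

theorem ss_ln (J : Finset ℕ) : IsLN J (ss J) := (sst_ln J).dual_isLN

theorem pr_le_ss (J : Finset ℕ) (x : ℕ → ℝ) {g : ℕ → ℝ} {t : ℝ} (h : sst J g ≤ t) :
    pr J x g ≤ ss J x * t := (sst_ln J).pr_le' x h

theorem sst_op (J : Finset ℕ) (σ : ℕ) {lam : ℕ → ℕ} (h1 : Monotone lam)
    (h2 : ∀ i, lam i < nP (σ + 1)) {k : ℕ → ℝ} {u : ℝ}
    (h3 : ∀ r < nP (σ + 1), sst J (res (fib lam r) k) ≤ u) : sst J k ≤ mm σ * u :=
  (opS_ok J).gn_op (mul_nonneg (mm_pos σ).le (((sst_ln J).nonneg _).trans (h3 0 (nP_pos _))))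
    ⟨σ, lam, u, h1, h2, h3, le_rfl⟩

theorem ss_lower (J : Finset ℕ) (σ : ℕ) {lam : ℕ → ℕ} (h1 : Monotone lam)
    (h2 : ∀ i, lam i < nP (σ + 1)) (z : ℕ → ℝ) :
    ∑ r ∈ range (nP (σ + 1)), ss J (res (fib lam r) z) ≤ mm σ * ss J z := by
  refine le_of_forall_pos_le_add fun ε hε => ?_
  have hn : (0 : ℝ) < nP (σ + 1) := by exact_mod_cast nP_pos _
  choose k hk1 hk2 using fun r => (sst_ln J).exists_near (res (fib lam r) z) (div_pos hε hn)
  have h3 : sst J (∑ r ∈ range (nP (σ + 1)), res (fib lam r) (k r)) ≤ mm σ * 1 :=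
    sst_op J σ h1 h2 fun r hr => by
      rw [res_glue _ _ (fib_disj lam _) k (mem_range.2 hr)]
      exact ((sst_ln J).res_le _ _).trans (hk1 r)
  have h4 := (pr_glue J _ _ (fib_disj lam (range (nP (σ + 1)))) k z).trans (pr_le_ss J z h3)
  have h5 : ∑ r ∈ range (nP (σ + 1)), (ss J (res (fib lam r) z) - ε / nP (σ + 1)) ≤ _ :=
    (sum_le_sum fun r _ => (hk2 r).le).trans h4
  rw [sum_sub_distrib, sum_const, card_range, nsmul_eq_mul, mul_div_cancel₀ _ hn.ne'] at h5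
  linarith

theorem ss_le_of (J : Finset ℕ) {z : ℕ → ℝ} {B : ℝ} (hB : 0 < B) (h1 : ∀ i ∈ J, |z i| ≤ B)
    (h2 : ∀ (σ : ℕ) (lam : ℕ → ℕ), Monotone lam → (∀ i, lam i < nP (σ + 1)) →
      ∑ r ∈ range (nP (σ + 1)), ss J (res (fib lam r) z) ≤ mm σ * B) : ss J z ≤ B := by
  refine (opS_ok J).dual_le_of hB h1 ?_
  rintro k t ⟨σ, lam, u, h3, h4, h5, h6⟩
  have hu : 0 ≤ u := ((sst_ln J).nonneg _).trans (h5 0 (nP_pos _))
  calc pr J z k ≤ ∑ r ∈ range (nP (σ + 1)), pr J (res (fib lam r) z) (res (fib lam r) k) :=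
        pr_le_sum_res J _ _ z k fun i _ _ _ => ⟨lam i, mem_range.2 (h4 i), rfl⟩
    _ ≤ ∑ r ∈ range (nP (σ + 1)), ss J (res (fib lam r) z) * u :=
        sum_le_sum fun r hr => pr_le_ss J _ (h5 r (mem_range.1 hr))
    _ ≤ mm σ * B * u := by
        rw [← sum_mul]; exact mul_le_mul_of_nonneg_right (h2 σ lam h3 h4) hu
    _ ≤ B * t := by nlinarith

/-- `y` is flat of order `M` with constant `C` -/
def Flat (J : Finset ℕ) (y : ℕ → ℝ) (M : ℕ) (C : ℝ) : Prop :=
  ∀ lam : ℕ → ℕ, Monotone lam → (∀ i, lam i < M) →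
    ∑ r ∈ range M, ss J (res (fib lam r) y) ≤ C

theorem Flat.mono {J : Finset ℕ} {y : ℕ → ℝ} {M M' : ℕ} {C C' : ℝ} (h : Flat J y M C)
    (hM : M' ≤ M) (hC : C ≤ C') : Flat J y M' C' := fun lam h1 h2 =>
  (sum_le_sum_of_subset_of_nonneg (range_mono hM) fun _ _ _ => (ss_ln J).nonneg _).trans
    ((h lam h1 fun i => (h2 i).trans_le hM).trans hC)

theorem Flat.solid {J : Finset ℕ} {y y' : ℕ → ℝ} {M : ℕ} {C : ℝ} (h : Flat J y M C)
    (e : ∀ i ∈ J, |y' i| ≤ |y i|) : Flat J y' M C := fun lam h1 h2 =>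
  (sum_le_sum fun r _ => (ss_ln J).solid _ _ fun i hi => by
    by_cases hr : i ∈ fib lam r <;> simp [res, hr, e i hi]).trans (h lam h1 h2)

theorem Flat.ss_le {J : Finset ℕ} {y : ℕ → ℝ} {M : ℕ} {C : ℝ} (h : Flat J y M C) (hM : 0 < M) :
    ss J y ≤ C := by
  have := h.mono (M' := 1) hM le_rfl (fun _ => 0) monotone_const (by simp)
  simpa [res, fib] using this

/-- the class of shapes of type `σ` -/
def Loose (J : Finset ℕ) (σ : ℕ) (b : ℕ → ℝ) : Prop :=
  ∃ (u k : ℕ → ℝ) (lam : ℕ → ℕ), Monotone lam ∧ (∀ i, lam i < nP (σ + 1)) ∧ ss J u ≤ 1 ∧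
    (∀ r < nP (σ + 1), sst J (res (fib lam r) k) ≤ 1) ∧ ∀ i ∈ J, b i ^ 2 ≤ |u i| * |k i| / mm σ

/-- near orthogonality of shapes of type `σ` to vectors factoring through a flat vector -/
theorem orth_sq {J : Finset ℕ} {σ : ℕ} {b v y ys : ℕ → ℝ} {c C : ℝ} (hb : Loose J σ b)
    (hc : 0 ≤ c) (hv : ∀ i ∈ J, v i ^ 2 ≤ c * (|y i| * |ys i|)) (hys : sst J ys ≤ 1)
    (hy : Flat J y (nP (σ + 1)) C) : pr J v b ^ 2 ≤ c * C / mm σ := by
  obtain ⟨u, k, lam, h1, h2, h3, h4, h5⟩ := hb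
  have hm := mm_pos σ
  have e1 : pr J u ys ≤ 1 := (pr_le_ss J u hys).trans (by simpa using h3)
  have e2 : pr J y k ≤ C :=
    (pr_le_sum_res J _ _ y k fun i _ _ _ => ⟨lam i, mem_range.2 (h2 i), rfl⟩).trans
      ((sum_le_sum fun r hr => (pr_le_ss J _ (h4 r (mem_range.1 hr))).trans_eq (mul_one _)).trans
        (hy lam h1 h2))
  have e3 := sum_sq_le_sum_mul_sum_of_sq_le_mul J (r := fun i => |v i| * |b i|)
    (f := fun i => |u i| * |ys i|) (g := fun i => c / mm σ * (|y i| * |k i|))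
    (fun i _ => by positivity) (fun i _ => by positivity) (fun i hi => by
      rw [mul_pow, sq_abs, sq_abs]
      refine (mul_le_mul (hv i hi) (h5 i hi) (sq_nonneg _) (by positivity)).trans_eq ?_
      field_simp)
  rw [← mul_sum] at e3
  change pr J v b ^ 2 ≤ pr J u ys * (c / mm σ * pr J y k) at e3
  have e4 : c / mm σ * pr J y k ≤ c / mm σ * C := mul_le_mul_of_nonneg_left e2 (by positivity)
  have e5 : 0 ≤ c / mm σ * pr J y k := mul_nonneg (by positivity) (pr_nonneg _ _ _)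
  calc _ ≤ _ := e3
    _ ≤ 1 * (c / mm σ * pr J y k) := mul_le_mul_of_nonneg_right e1 e5
    _ ≤ c * C / mm σ := by rw [one_mul, mul_div_right_comm]; exact e4

/-- functions supported in successive intervals -/
def Succ (a : ℕ → ℕ) (n : ℕ) (y : ℕ → ℕ → ℝ) : Prop :=
  ∀ s < n, ∀ i, i ∉ itv a s → y s i = 0

theorem itv_unique {a : ℕ → ℕ} (ha : Monotone a) {s s' i : ℕ} (h : i ∈ itv a s)
    (h' : i ∈ itv a s') : s = s' := by
  by_contra hne
  rcases lt_or_gt_of_ne hne with hl | hl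
  · have := ha (show s + 1 ≤ s' from hl); have := h.2; have := h'.1; omega
  · have := ha (show s' + 1 ≤ s from hl); have := h.1; have := h'.2; omega

theorem itv_disj {a : ℕ → ℕ} (ha : Monotone a) (F : Finset ℕ) :
    ∀ l ∈ F, ∀ l' ∈ F, l ≠ l' → Disjoint (itv a l) (itv a l') := fun _ _ _ _ h =>
  Set.disjoint_left.2 fun _ h1 h2 => h (itv_unique ha h1 h2)

theorem Succ.sum_apply {a : ℕ → ℕ} (ha : Monotone a) {n : ℕ} {y : ℕ → ℕ → ℝ} (h : Succ a n y)
    {A : Finset ℕ} (hA : A ⊆ range n) {s i : ℕ} (hs : s ∈ A) (hi : i ∈ itv a s) :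
    (∑ s ∈ A, y s) i = y s i := by
  rw [Finset.sum_apply, sum_eq_single_of_mem s hs fun s' hs' hne => ?_]
  exact h s' (mem_range.1 (hA hs')) i fun h' => hne (itv_unique ha h' hi)

theorem Succ.sum_eq_zero {a : ℕ → ℕ} {n : ℕ} {y : ℕ → ℕ → ℝ} (h : Succ a n y)
    {A : Finset ℕ} (hA : A ⊆ range n) {i : ℕ} (hi : ∀ s ∈ A, i ∉ itv a s) :
    (∑ s ∈ A, y s) i = 0 := by
  rw [Finset.sum_apply]
  exact Finset.sum_eq_zero fun s hs => h s (mem_range.1 (hA hs)) i (hi s hs)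

theorem Succ.abs_sum_le {a : ℕ → ℕ} (ha : Monotone a) {n : ℕ} {y : ℕ → ℕ → ℝ} (h : Succ a n y)
    {A : Finset ℕ} (hA : A ⊆ range n) {C : ℝ} (hC : 0 ≤ C) {i : ℕ}
    (e : ∀ s < n, |y s i| ≤ C) : |(∑ s ∈ A, y s) i| ≤ C := by
  by_cases hi : ∃ s ∈ A, i ∈ itv a s
  · obtain ⟨s, hs, hi⟩ := hi
    rw [h.sum_apply ha hA hs hi]; exact e s (mem_range.1 (hA hs))
  · rw [h.sum_eq_zero hA fun s hs hi' => hi ⟨s, hs, hi'⟩]; simpa using hC

/-- splitting a sum of successive vectors into at most `M` intervals -/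
theorem split_le {J : Finset ℕ} {a : ℕ → ℕ} (ha : StrictMono a) {n : ℕ} {y : ℕ → ℕ → ℝ}
    (h : Succ a n y) {C α β : ℝ} (hα : 0 ≤ α) (hC : 0 ≤ C) (hy : ∀ s < n, ss J (y s) ≤ C)
    {A : Finset ℕ} (hA : A ⊆ range n)
    (hΦ : ∀ A' ⊆ A, ss J (∑ s ∈ A', y s) ≤ α * A'.card + β) {M : ℕ} {lam : ℕ → ℕ}
    (h1 : Monotone lam) (h2 : ∀ i, lam i < M) :
    ∑ r ∈ range M, ss J (res (fib lam r) (∑ s ∈ A, y s)) ≤ α * A.card + M * β + M * (M * C) := by
  classical
  set St := A.filter fun s => lam (a s) ≠ lam (a (s + 1) - 1) with hSt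
  have hcard : St.card ≤ M := by
    rw [← card_range M]
    refine card_le_card_of_injOn (fun s => lam (a s)) (fun s _ => by simpa using h2 _) ?_
    have key : ∀ s ∈ St, ∀ s', s < s' → lam (a s) < lam (a s') := by
      intro s hs s' hl
      have e1 := ha (Nat.lt_succ_self s)
      have e2 := ha.monotone (Nat.succ_le_of_lt hl)
      have e3 : lam (a s) ≤ lam (a (s + 1) - 1) := h1 (by simp only [Nat.succ_eq_add_one] at e1; omega)
      have e4 : lam (a (s + 1) - 1) ≤ lam (a s') := h1 (by simp only [Nat.succ_eq_add_one] at e2; omega)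
      have e5 := (mem_filter.1 hs).2
      omega
    intro s hs s' hs' e
    by_contra hne
    rcases lt_or_gt_of_ne hne with hl | hl
    · exact (key s hs s' hl).ne e
    · exact (key s' hs' s hl).ne' e
  have step : ∀ r, ss J (res (fib lam r) (∑ s ∈ A, y s)) ≤
      α * (A.filter fun s => lam (a s) = r).card + β + M * C := by
    intro r
    have e1 : ss J (∑ s ∈ St, y s) ≤ M * C := by
      refine ((ss_ln J).sum_le _ _).trans ((sum_le_card_nsmul _ _ C fun s hs =>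
        hy s (mem_range.1 (hA (mem_filter.1 hs).1))).trans ?_)
      rw [nsmul_eq_mul]
      exact mul_le_mul_of_nonneg_right (by exact_mod_cast hcard) hC
    refine ((ss_ln J).le_add (g1 := ∑ s ∈ A.filter fun s => lam (a s) = r, y s)
      (g2 := ∑ s ∈ St, y s) fun i _ => ?_).trans (add_le_add (hΦ _ (filter_subset _ _)) e1)
    by_cases hr : lam i = r
    swap
    · simp only [res, Set.indicator_of_notMem (show i ∉ fib lam r from hr), abs_zero]; positivity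
    simp only [res, Set.indicator_of_mem (show i ∈ fib lam r from hr)]
    by_cases hi : ∃ s ∈ A, i ∈ itv a s
    · obtain ⟨s, hs, hi⟩ := hi
      rw [h.sum_apply ha.monotone hA hs hi]
      by_cases hs' : s ∈ St
      · rw [h.sum_apply ha.monotone ((filter_subset _ _).trans hA) hs' hi]
        exact le_add_of_nonneg_left (abs_nonneg _)
      · have e2 : lam (a s) = lam (a (s + 1) - 1) := by
          by_contra hne; exact hs' (mem_filter.2 ⟨hs, hne⟩)
        have e3 : lam (a s) ≤ lam i := h1 hi.1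
        have e4 : lam i ≤ lam (a (s + 1) - 1) := h1 (by have := hi.2; omega)
        rw [h.sum_apply ha.monotone ((filter_subset _ _).trans hA)
          (mem_filter.2 ⟨hs, by omega⟩) hi]
        exact le_add_of_nonneg_right (abs_nonneg _)
    · rw [h.sum_eq_zero hA fun s hs hi' => hi ⟨s, hs, hi'⟩, abs_zero]; positivity
  refine (sum_le_sum fun r _ => step r).trans (le_of_eq ?_)
  rw [sum_add_distrib, sum_add_distrib, ← mul_sum, sum_const, sum_const, card_range, nsmul_eq_mul,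
    nsmul_eq_mul, ← Nat.cast_sum,
    ← card_eq_sum_card_fiberwise (f := fun s => lam (a s)) fun s _ => by simpa using h2 _]

end Pool.Agent.JLS
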