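import Pool.Agent.Lib.MP_2f16e6_an.Iface

/-!
The space `X = (∑ F_n)_{ℓ₂}` attached to a rigid system, realised as a space of functions `ℕ → ℝ`.
-/

set_option autoImplicit false

namespace Pool.Agent.JLS

open Finset Filter Topology

/-- Minkowski's inequality for square roots of finite sums of squares -/
theorem sqrt_sum_add_le {ι : Type*} (F : Finset ι) (a b c : ι → ℝ) (ha : ∀ i ∈ F, 0 ≤ a i)
    (h : ∀ i ∈ F, a i ≤ b i + c i) :
    √(∑ i ∈ F, a i ^ 2) ≤ √(∑ i ∈ F, b i ^ 2) + √(∑ i ∈ F, c i ^ 2) := by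
  have hB : 0 ≤ ∑ i ∈ F, b i ^ 2 := sum_nonneg fun i _ => sq_nonneg _
  have hC : 0 ≤ ∑ i ∈ F, c i ^ 2 := sum_nonneg fun i _ => sq_nonneg _
  have hcs : ∑ i ∈ F, b i * c i ≤ √(∑ i ∈ F, b i ^ 2) * √(∑ i ∈ F, c i ^ 2) :=
    Real.sum_mul_le_sqrt_mul_sqrt F b c
  apply Real.sqrt_le_iff.2
  refine ⟨by positivity, ?_⟩
  have h1 : ∑ i ∈ F, a i ^ 2 ≤ ∑ i ∈ F, (b i ^ 2 + 2 * (b i * c i) + c i ^ 2) := by
    refine sum_le_sum fun i hi => ?_
    have := pow_le_pow_left₀ (ha i hi) (h i hi) 2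
    nlinarith
  rw [sum_add_distrib, sum_add_distrib, ← mul_sum] at h1
  nlinarith [Real.sq_sqrt hB, Real.sq_sqrt hC]

namespace Rigid

variable (R : Rigid)

/-- the `n`-th block of coordinates -/
abbrev J (n : ℕ) : Finset ℕ := Ico (R.P n) (R.P (n + 1))

theorem p_zero (n : ℕ) : R.p n 0 = 0 := by
  have := R.smul_eq n 0 0
  simpa using this

theorem p_nonneg (n : ℕ) (g : ℕ → ℝ) : 0 ≤ R.p n g := by
  rw [← R.p_zero n]; exact R.solid n 0 g fun i _ => by simp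

theorem p_congr (n : ℕ) {g h : ℕ → ℝ} (e : ∀ i ∈ R.J n, |g i| = |h i|) : R.p n g = R.p n h :=
  le_antisymm (R.solid n g h fun i hi => (e i hi).le) (R.solid n h g fun i hi => (e i hi).ge)

theorem p_eq_zero (n : ℕ) {g : ℕ → ℝ} (e : ∀ i ∈ R.J n, g i = 0) : R.p n g = 0 := by
  rw [← R.p_zero n]; exact R.p_congr n fun i hi => by simp [e i hi]

theorem p_le_mul (n : ℕ) {g h : ℕ → ℝ} {c : ℝ} (hc : 0 ≤ c)
    (e : ∀ i ∈ R.J n, |g i| ≤ c * |h i|) : R.p n g ≤ c * R.p n h := by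
  have h1 := R.smul_eq n c h
  rw [abs_of_nonneg hc] at h1
  rw [← h1]
  exact R.solid n _ _ fun i hi => by simpa [abs_mul, abs_of_nonneg hc] using e i hi

theorem abs_le_p (n : ℕ) (g : ℕ → ℝ) {i : ℕ} (hi : i ∈ R.J n) : |g i| ≤ R.p n g := by
  have h1 := R.l2_le n g
  have h2 : g i ^ 2 ≤ ∑ i ∈ R.J n, g i ^ 2 :=
    single_le_sum (f := fun i => g i ^ 2) (fun i _ => sq_nonneg _) hi
  exact abs_le_of_sq_le_sq' (h2.trans h1) (R.p_nonneg n g) |> abs_le.2

theorem le_P (n : ℕ) : n ≤ R.P n := R.P_mono.le_apply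

theorem exists_block (i : ℕ) : ∃ n, i ∈ R.J n := by
  classical
  have h : ∃ n, i < R.P (n + 1) := ⟨i, lt_of_lt_of_le (Nat.lt_succ_self i) (R.le_P _)⟩
  refine ⟨Nat.find h, mem_Ico.2 ⟨?_, Nat.find_spec h⟩⟩
  rcases hn : Nat.find h with _ | m
  · simp [R.P_zero]
  · have := Nat.find_min h (m := m) (by omega)
    omega

theorem block_lt {i n N : ℕ} (hi : i ∈ R.J n) : i < R.P N ↔ n < N := by
  rw [mem_Ico] at hi
  constructor
  · intro h; exact R.P_mono.lt_iff_lt.1 (lt_of_le_of_lt hi.1 h)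
  · intro h; exact lt_of_lt_of_le hi.2 (R.P_mono.monotone h)

theorem block_unique {i n m : ℕ} (hn : i ∈ R.J n) (hm : i ∈ R.J m) : n = m := by
  have h1 := (R.block_lt (N := m + 1) hn).1 (mem_Ico.1 hm).2
  have h2 := (R.block_lt (N := n + 1) hm).1 (mem_Ico.1 hn).2
  omega

/-- the norm of the first `N` blocks -/
noncomputable def vn (N : ℕ) (g : ℕ → ℝ) : ℝ := √(∑ n ∈ range N, R.p n g ^ 2)

theorem vn_nonneg (N : ℕ) (g : ℕ → ℝ) : 0 ≤ R.vn N g := Real.sqrt_nonneg _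

theorem vn_sq (N : ℕ) (g : ℕ → ℝ) : R.vn N g ^ 2 = ∑ n ∈ range N, R.p n g ^ 2 :=
  Real.sq_sqrt (sum_nonneg fun _ _ => sq_nonneg _)

theorem vn_add_le (N : ℕ) (g h : ℕ → ℝ) : R.vn N (g + h) ≤ R.vn N g + R.vn N h :=
  sqrt_sum_add_le _ _ _ _ (fun n _ => R.p_nonneg n _) fun n _ => R.add_le n g h

theorem vn_le_mul (N : ℕ) {g h : ℕ → ℝ} {c : ℝ} (hc : 0 ≤ c)
    (e : ∀ i < R.P N, |g i| ≤ c * |h i|) : R.vn N g ≤ c * R.vn N h := by
  apply abs_le_of_sq_le_sq' _ (mul_nonneg hc (R.vn_nonneg N h)) |>.2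
  rw [mul_pow, vn_sq, vn_sq, mul_sum]
  refine sum_le_sum fun n hn => ?_
  rw [← mul_pow]
  exact pow_le_pow_left₀ (R.p_nonneg n g)
    (R.p_le_mul n hc fun i hi => e i ((R.block_lt hi).2 (mem_range.1 hn))) 2

theorem vn_smul (N : ℕ) (c : ℝ) (g : ℕ → ℝ) : R.vn N (c • g) = |c| * R.vn N g := by
  unfold vn
  simp_rw [R.smul_eq, mul_pow, ← mul_sum]
  rw [Real.sqrt_mul (sq_nonneg _), Real.sqrt_sq (abs_nonneg c)]

theorem vn_mono {N M : ℕ} (h : N ≤ M) (g : ℕ → ℝ) : R.vn N g ≤ R.vn M g :=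
  Real.sqrt_le_sqrt (sum_le_sum_of_subset_of_nonneg (range_mono h) fun _ _ _ => sq_nonneg _)

theorem p_le_vn {n N : ℕ} (h : n < N) (g : ℕ → ℝ) : R.p n g ≤ R.vn N g := by
  apply Real.le_sqrt_of_sq_le
  exact single_le_sum (f := fun n => R.p n g ^ 2) (fun i _ => sq_nonneg _) (mem_range.2 h)

theorem vn_zero (N : ℕ) : R.vn N 0 = 0 := by simp [vn, R.p_zero]

/-- if `g` vanishes from `P N` on, the partial norms are constant from `N` on -/
theorem vn_le_of_supp {N : ℕ} {g : ℕ → ℝ} (h : ∀ i, R.P N ≤ i → g i = 0) (M : ℕ) :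
    R.vn M g ≤ R.vn N g := by
  rcases le_total M N with hM | hM
  · exact R.vn_mono hM g
  · apply le_of_eq
    unfold vn
    congr 1
    symm
    refine sum_subset (range_mono hM) fun n _ hn => ?_
    rw [R.p_eq_zero n fun i hi => h i ?_]
    · simp
    · by_contra hlt
      exact hn (mem_range.2 ((R.block_lt hi).1 (by omega)))

/-- functions with bounded partial norms -/
def sub : Submodule ℝ (ℕ → ℝ) where
  carrier := {g | ∃ B, ∀ N, R.vn N g ≤ B}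
  add_mem' := by
    rintro g h ⟨B, hB⟩ ⟨C, hC⟩
    exact ⟨B + C, fun N => (R.vn_add_le N g h).trans (add_le_add (hB N) (hC N))⟩
  zero_mem' := ⟨0, fun N => (R.vn_zero N).le⟩
  smul_mem' := by
    rintro c g ⟨B, hB⟩
    exact ⟨|c| * B, fun N => by
      rw [vn_smul]; exact mul_le_mul_of_nonneg_left (hB N) (abs_nonneg c)⟩

/-- the space `X` -/
def X : Type := ↥R.sub

instance : AddCommGroup R.X := inferInstanceAs (AddCommGroup ↥R.sub)
instance : Module ℝ R.X := inferInstanceAs (Module ℝ ↥R.sub)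

/-- coordinates -/
def ι : R.X →ₗ[ℝ] (ℕ → ℝ) := R.sub.subtype

theorem ι_inj : Function.Injective R.ι := Subtype.val_injective

/-- an element of `X` from a function with bounded partial norms -/
def mkX (g : ℕ → ℝ) (B : ℝ) (h : ∀ N, R.vn N g ≤ B) : R.X := (⟨g, B, h⟩ : ↥R.sub)

@[simp] theorem ι_mkX (g : ℕ → ℝ) (B : ℝ) (h : ∀ N, R.vn N g ≤ B) : R.ι (R.mkX g B h) = g := rfl

noncomputable instance : Norm R.X := ⟨fun z => ⨆ N, R.vn N (R.ι z)⟩

theorem vn_le_norm (N : ℕ) (z : R.X) : R.vn N (R.ι z) ≤ ‖z‖ := by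
  obtain ⟨B, hB⟩ := z.2
  exact le_ciSup (f := fun N => R.vn N (R.ι z)) ⟨B, by rintro _ ⟨N, rfl⟩; exact hB N⟩ N

theorem norm_le_of_vn {z : R.X} {B : ℝ} (h : ∀ N, R.vn N (R.ι z) ≤ B) : ‖z‖ ≤ B := ciSup_le h

theorem p_le_norm (n : ℕ) (z : R.X) : R.p n (R.ι z) ≤ ‖z‖ :=
  (R.p_le_vn (Nat.lt_succ_self n) _).trans (R.vn_le_norm _ z)

theorem abs_le_norm (z : R.X) (i : ℕ) : |R.ι z i| ≤ ‖z‖ := by
  obtain ⟨n, hn⟩ := R.exists_block i
  exact (R.abs_le_p n _ hn).trans (R.p_le_norm n z)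

theorem core : NormedSpace.Core ℝ R.X where
  norm_nonneg z := (R.vn_nonneg 0 _).trans (R.vn_le_norm 0 z)
  norm_smul c z := by
    change (⨆ N, R.vn N (R.ι (c • z))) = ‖c‖ * ⨆ N, R.vn N (R.ι z)
    simp_rw [map_smul, vn_smul]
    rw [Real.norm_eq_abs, Real.mul_iSup_of_nonneg (abs_nonneg c)]
  norm_triangle z w := R.norm_le_of_vn fun N => by
    rw [map_add]
    exact (R.vn_add_le N _ _).trans (add_le_add (R.vn_le_norm N z) (R.vn_le_norm N w))
  norm_eq_zero_iff z := by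
    constructor
    · intro h
      apply R.ι_inj
      funext i
      have := R.abs_le_norm z i
      rw [h] at this
      simpa using this
    · rintro rfl
      change (⨆ N, R.vn N (R.ι 0)) = 0
      simp [vn_zero]

noncomputable instance : NormedAddCommGroup R.X := NormedAddCommGroup.ofCore R.core
noncomputable instance : NormedSpace ℝ R.X := NormedSpace.ofCore R.core

/-- solidity of the norm of `X` -/
theorem norm_le_mul {z w : R.X} {c : ℝ} (hc : 0 ≤ c) (h : ∀ i, |R.ι z i| ≤ c * |R.ι w i|) :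
    ‖z‖ ≤ c * ‖w‖ :=
  R.norm_le_of_vn fun N => (R.vn_le_mul N hc fun i _ => h i).trans
    (mul_le_mul_of_nonneg_left (R.vn_le_norm N w) hc)

theorem norm_eq_vn {z : R.X} {N : ℕ} (h : ∀ i, R.P N ≤ i → R.ι z i = 0) :
    ‖z‖ = R.vn N (R.ι z) :=
  le_antisymm (R.norm_le_of_vn (R.vn_le_of_supp h)) (R.vn_le_norm N z)

theorem norm_eq_p {z : R.X} {n : ℕ} (h : ∀ i, i ∉ R.J n → R.ι z i = 0) :
    ‖z‖ = R.p n (R.ι z) := by
  rw [R.norm_eq_vn (N := n + 1) fun i hi => h i (by simp; omega)]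
  unfold vn
  rw [sum_eq_single_of_mem n (by simp), Real.sqrt_sq (R.p_nonneg n _)]
  intro m _ hm
  rw [R.p_eq_zero m fun i hi => h i fun hi' => hm (R.block_unique hi hi')]
  simp

/-- the first `W` coordinates are dominated in `ℓ₂` by the norm -/
theorem sum_sq_le_norm (z : R.X) (W : ℕ) : ∑ i ∈ range W, R.ι z i ^ 2 ≤ ‖z‖ ^ 2 := by
  have key : ∀ N, ∑ i ∈ range (R.P N), R.ι z i ^ 2 ≤ ∑ n ∈ range N, R.p n (R.ι z) ^ 2 := by
    intro N
    induction N with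
    | zero => simp [R.P_zero]
    | succ N ih =>
      rw [sum_range_succ, ← sum_range_add_sum_Ico _ (R.P_mono.monotone (Nat.le_succ N))]
      exact add_le_add ih (R.l2_le N _)
  calc ∑ i ∈ range W, R.ι z i ^ 2 ≤ ∑ i ∈ range (R.P W), R.ι z i ^ 2 :=
        sum_le_sum_of_subset_of_nonneg (range_mono (R.le_P W)) fun _ _ _ => sq_nonneg _
    _ ≤ R.vn W (R.ι z) ^ 2 := by rw [vn_sq]; exact key W
    _ ≤ ‖z‖ ^ 2 := pow_le_pow_left₀ (R.vn_nonneg _ _) (R.vn_le_norm W z) 2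

/-- multiplication by a function bounded by `c` -/
noncomputable def mul (a : ℕ → ℝ) (c : ℝ) (ha : ∀ i, |a i| ≤ c) : R.X →ₗ[ℝ] R.X where
  toFun z := R.mkX (a * R.ι z) (c * ‖z‖) fun N =>
    (R.vn_le_mul N ((abs_nonneg _).trans (ha 0)) fun i _ => by
      rw [Pi.mul_apply, abs_mul]; exact mul_le_mul_of_nonneg_right (ha i) (abs_nonneg _)).trans
      (mul_le_mul_of_nonneg_left (R.vn_le_norm N z) ((abs_nonneg _).trans (ha 0)))
  map_add' z w := R.ι_inj (by simp [mul_add])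
  map_smul' c z := R.ι_inj (by simp)

@[simp] theorem ι_mul (a : ℕ → ℝ) (c : ℝ) (ha : ∀ i, |a i| ≤ c) (z : R.X) (i : ℕ) :
    R.ι (R.mul a c ha z) i = a i * R.ι z i := rfl

theorem norm_mul_le (a : ℕ → ℝ) (c : ℝ) (ha : ∀ i, |a i| ≤ c) (z : R.X) :
    ‖R.mul a c ha z‖ ≤ c * ‖z‖ :=
  R.norm_le_mul ((abs_nonneg _).trans (ha 0)) fun i => by
    rw [ι_mul, abs_mul]; exact mul_le_mul_of_nonneg_right (ha i) (abs_nonneg _)

/-- coordinate projection -/
noncomputable def proj (S : Set ℕ) : R.X →ₗ[ℝ] R.X :=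
  R.mul (S.indicator 1) 1 fun i => by by_cases h : i ∈ S <;> simp [h]

@[simp] theorem ι_proj (S : Set ℕ) (z : R.X) : R.ι (R.proj S z) = res S (R.ι z) := by
  funext i
  by_cases h : i ∈ S <;> simp [proj, h]

theorem norm_proj_le (S : Set ℕ) (z : R.X) : ‖R.proj S z‖ ≤ ‖z‖ := by
  simpa [proj] using R.norm_mul_le (S.indicator 1) 1 _ z

/-- the finitely supported element with the first `W` values of `g` -/
noncomputable def trunc (W : ℕ) : (ℕ → ℝ) →ₗ[ℝ] R.X where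
  toFun g := R.mkX (res (Set.Iio W) g) (R.vn W (res (Set.Iio W) g))
    (R.vn_le_of_supp fun i hi => by
      have := R.le_P W
      simp [res, Set.indicator]; omega)
  map_add' g h := R.ι_inj (by funext i; by_cases hi : i < W <;> simp [res, Set.indicator, hi])
  map_smul' c g := R.ι_inj (by funext i; by_cases hi : i < W <;> simp [res, Set.indicator, hi])

@[simp] theorem ι_trunc (W : ℕ) (g : ℕ → ℝ) : R.ι (R.trunc W g) = res (Set.Iio W) g := rfl

/-- unit vectors -/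
noncomputable def e (i : ℕ) : R.X := R.trunc (i + 1) (Pi.single i 1)

@[simp] theorem ι_e (i : ℕ) : R.ι (R.e i) = Pi.single i 1 := by
  funext j
  by_cases h : j = i
  · subst h; simp [e, res]
  · simp [e, res, Set.indicator, h]

theorem norm_e_le (i : ℕ) : ‖R.e i‖ ≤ 1 := by
  obtain ⟨n, hn⟩ := R.exists_block i
  rw [R.norm_eq_p (n := n) fun j hj => by
    rw [ι_e, Pi.single_eq_of_ne]; rintro rfl; exact hj hn]
  refine (R.le_l1 n _).trans ?_
  rw [ι_e, sum_eq_single_of_mem i hn fun j _ hj => by simp [Pi.single_eq_of_ne hj]]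
  simp

theorem proj_Iio_eq_sum (W : ℕ) (z : R.X) :
    R.proj (Set.Iio W) z = ∑ i ∈ range W, R.ι z i • R.e i := by
  apply R.ι_inj
  funext j
  rw [map_sum, Finset.sum_apply]
  simp only [map_smul, ι_e, Pi.smul_apply, smul_eq_mul, ι_proj, Pi.single_apply, mul_ite, mul_one,
    mul_zero]
  rw [sum_ite_eq]
  by_cases h : j < W <;> simp [res, Set.indicator, h]

/-- operators that factor through a Hilbert space, with constant `C` -/
def HF (U : R.X →ₗ[ℝ] R.X) (C : ℝ) : Prop :=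
  ∃ Q : QuadraticForm ℝ R.X, ∀ z, ‖U z‖ ^ 2 ≤ Q z ∧ Q z ≤ C ^ 2 * ‖z‖ ^ 2

end Rigid

end Pool.Agent.JLS
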